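import Mathlib
import Pool.Agent.H21.FM.Defs
import Pool.Agent.Q1.M4.Walk

set_option autoImplicit false
open Finset

/-! # The rectangle of `a × b` cells as a shape with four marks at its corners -/

namespace Pool.Agent.H57.FM

open Pool.Agent.H75.Perc (dir dir_cases)
open Pool.Agent.Q1.M4 (Cell Good IsSide nextSide tail head PType Adj4 Conn4 dir_congr)
open Pool.Agent.H21.FM (Shape)

/-- cells of the rectangle -/
noncomputable def RQ (a b : ℕ) : Finset Cell := (Ico (0:ℤ) a) ×ˢ (Ico (0:ℤ) b)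

lemma mem_RQ {a b : ℕ} {c : Cell} :
    c ∈ RQ a b ↔ (0 ≤ c.1 ∧ c.1 < a) ∧ (0 ≤ c.2 ∧ c.2 < b) := by
  unfold RQ
  simp only [mem_product, mem_Ico]

/-- steps inside a set of cells -/
abbrev St (S : Set Cell) (c d : Cell) : Prop := Relation.ReflTransGen (fun a b => Adj4 a b ∧ b ∈ S) c d

lemma dir0 : dir 0 = (1, 0) := by decide
lemma dir1 : dir 1 = (0, 1) := by decide
lemma dir2 : dir 2 = (-1, 0) := by decide
lemma dir3 : dir 3 = (0, -1) := by decide
lemma dirm1 : dir (-1) = (0, -1) := by decide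
lemma dir4 : dir 4 = (1, 0) := by decide

/-- horizontal move to the right -/
lemma st_right {S : Set Cell} {x y : ℤ} (n : ℕ) (h : ∀ i : ℤ, 0 ≤ i → i ≤ n → (x + i, y) ∈ S) :
    St S (x, y) (x + n, y) := by
  induction n with
  | zero => simpa using Relation.ReflTransGen.refl
  | succ n ih =>
    refine (ih fun i h1 h2 => h i h1 (by push_cast; omega)).tail ⟨⟨0, ?_⟩, h _ (by positivity) le_rfl⟩
    rw [dir0]
    refine Prod.ext ?_ ?_ <;> simp; ring

lemma st_left {S : Set Cell} {x y : ℤ} (n : ℕ) (h : ∀ i : ℤ, 0 ≤ i → i ≤ n → (x - i, y) ∈ S) :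
    St S (x, y) (x - n, y) := by
  induction n with
  | zero => simpa using Relation.ReflTransGen.refl
  | succ n ih =>
    refine (ih fun i h1 h2 => h i h1 (by push_cast; omega)).tail ⟨⟨2, ?_⟩, h _ (by positivity) le_rfl⟩
    rw [dir2]
    refine Prod.ext ?_ ?_ <;> simp; ring

lemma st_up {S : Set Cell} {x y : ℤ} (n : ℕ) (h : ∀ i : ℤ, 0 ≤ i → i ≤ n → (x, y + i) ∈ S) :
    St S (x, y) (x, y + n) := by
  induction n with
  | zero => simpa using Relation.ReflTransGen.refl
  | succ n ih =>
    refine (ih fun i h1 h2 => h i h1 (by push_cast; omega)).tail ⟨⟨1, ?_⟩, h _ (by positivity) le_rfl⟩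
    rw [dir1]
    refine Prod.ext ?_ ?_ <;> simp; ring

lemma st_down {S : Set Cell} {x y : ℤ} (n : ℕ) (h : ∀ i : ℤ, 0 ≤ i → i ≤ n → (x, y - i) ∈ S) :
    St S (x, y) (x, y - n) := by
  induction n with
  | zero => simpa using Relation.ReflTransGen.refl
  | succ n ih =>
    refine (ih fun i h1 h2 => h i h1 (by push_cast; omega)).tail ⟨⟨3, ?_⟩, h _ (by positivity) le_rfl⟩
    rw [dir3]
    refine Prod.ext ?_ ?_ <;> simp; ring

lemma st_hor {S : Set Cell} {x x' y : ℤ} (h : ∀ t, min x x' ≤ t → t ≤ max x x' → (t, y) ∈ S) :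
    St S (x, y) (x', y) := by
  rcases le_total x x' with hx | hx
  · have := st_right (S := S) (x := x) (y := y) (x' - x).toNat fun i h1 h2 => h _ (by
      rw [min_eq_left hx]; omega) (by rw [max_eq_right hx]; omega)
    rwa [Int.toNat_of_nonneg (by omega), add_sub_cancel] at this
  · have := st_left (S := S) (x := x) (y := y) (x - x').toNat fun i h1 h2 => h _ (by
      rw [min_eq_right hx]; omega) (by rw [max_eq_left hx]; omega)
    rwa [Int.toNat_of_nonneg (by omega), sub_sub_cancel] at this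

lemma st_ver {S : Set Cell} {x y y' : ℤ} (h : ∀ t, min y y' ≤ t → t ≤ max y y' → (x, t) ∈ S) :
    St S (x, y) (x, y') := by
  rcases le_total y y' with hx | hx
  · have := st_up (S := S) (x := x) (y := y) (y' - y).toNat fun i h1 h2 => h _ (by
      rw [min_eq_left hx]; omega) (by rw [max_eq_right hx]; omega)
    rwa [Int.toNat_of_nonneg (by omega), add_sub_cancel] at this
  · have := st_down (S := S) (x := x) (y := y) (y - y').toNat fun i h1 h2 => h _ (by
      rw [min_eq_right hx]; omega) (by rw [max_eq_left hx]; omega)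
    rwa [Int.toNat_of_nonneg (by omega), sub_sub_cancel] at this

lemma conn_RQ (a b : ℕ) : Conn4 (RQ a b : Set Cell) := by
  rintro ⟨x, y⟩ hc ⟨x', y'⟩ hd
  rw [mem_coe, mem_RQ] at hc hd
  simp only at hc hd
  refine (st_hor (x' := x') fun t h1 h2 => ?_).trans (st_ver fun t h1 h2 => ?_)
  · rw [mem_coe, mem_RQ]; simp only; omega
  · rw [mem_coe, mem_RQ]; simp only; omega

lemma conn_compl_RQ (a b : ℕ) : Conn4 ((RQ a b : Set Cell)ᶜ) := by
  have mem : ∀ x y : ℤ, (x, y) ∈ ((RQ a b : Set Cell)ᶜ) ↔ ¬ ((0 ≤ x ∧ x < a) ∧ (0 ≤ y ∧ y < b)) := by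
    intro x y
    rw [Set.mem_compl_iff, mem_coe, mem_RQ]
  have main : ∀ x y x' y' : ℤ, (x, y) ∈ ((RQ a b : Set Cell)ᶜ) → (x', y') ∈ ((RQ a b : Set Cell)ᶜ) →
      St ((RQ a b : Set Cell)ᶜ) (x, y) (x', y') := by
    -- to and from the column `-1`, resp. the row `-1`
    have hin : ∀ x y : ℤ, (x, y) ∈ ((RQ a b : Set Cell)ᶜ) →
        St ((RQ a b : Set Cell)ᶜ) (x, y) (-1, -1) ∧ St ((RQ a b : Set Cell)ᶜ) (-1, -1) (x, y) := by
      intro x y h
      rw [mem] at h
      by_cases hy : y < 0 ∨ (b : ℤ) ≤ y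
      · constructor
        · refine (st_hor (x' := -1) fun t h1 h2 => ?_).trans (st_ver fun t h1 h2 => ?_) <;>
            rw [mem] <;> omega
        · refine (st_ver (y' := y) fun t h1 h2 => ?_).trans (st_hor fun t h1 h2 => ?_) <;>
            rw [mem] <;> omega
      · constructor
        · refine (st_ver (y' := -1) fun t h1 h2 => ?_).trans (st_hor fun t h1 h2 => ?_) <;>
            rw [mem] <;> omega
        · refine (st_hor (x' := x) fun t h1 h2 => ?_).trans (st_ver fun t h1 h2 => ?_) <;>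
            rw [mem] <;> omega
    intro x y x' y' h h'
    exact (hin x y h).1.trans (hin x' y' h').2
  rintro ⟨x, y⟩ hc ⟨x', y'⟩ hd
  exact main x y x' y' hc hd

lemma good_RQ {a b : ℕ} (ha : 0 < a) (hb : 0 < b) : Good (RQ a b) where
  ne := ⟨(0, 0), by rw [mem_RQ]; simp only; omega⟩
  conn := conn_RQ a b
  conn_compl := conn_compl_RQ a b
  diag1 := by
    rintro ⟨x, y⟩ h1 h2
    rw [mem_RQ] at h1 h2
    simp only [Prod.mk_add_mk] at h1 h2
    left
    rw [mem_RQ]
    simp only [Prod.mk_add_mk]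
    omega
  diag2 := by
    rintro ⟨x, y⟩ h1 h2
    rw [mem_RQ] at h1 h2
    simp only [Prod.mk_add_mk] at h1 h2
    left
    rw [mem_RQ]
    simp only
    omega

/-- the `n`-th side of the rectangle -/
def sd (a b : ℕ) (n : ℕ) : Cell × ℤ :=
  if n < a then (((n : ℤ), 0), 0)
  else if n < a + b then (((a : ℤ) - 1, (n : ℤ) - a), 1)
  else if n < 2 * a + b then ((2 * (a : ℤ) + b - 1 - n, (b : ℤ) - 1), 2)
  else if n < 2 * a + 2 * b then ((0, 2 * (a : ℤ) + 2 * b - 1 - n), 3)
  else ((0, 0), 4)

lemma next_sd {a b : ℕ} (ha : 0 < a) (hb : 0 < b) {n : ℕ} (hn : n < 2 * a + 2 * b) :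
    nextSide (RQ a b) (sd a b n) = sd a b (n + 1) := by
  simp only [nextSide, mem_RQ]
  unfold sd
  by_cases h1 : n < a
  · simp only [if_pos h1]
    norm_num [dir0, dirm1]
    split_ifs <;> simp [Prod.ext_iff] <;> omega
  · by_cases h2 : n < a + b
    · simp only [if_neg h1, if_pos h2]
      norm_num [dir0, dir1]
      split_ifs <;> simp [Prod.ext_iff] <;> omega
    · by_cases h3 : n < 2 * a + b
      · simp only [if_neg h1, if_neg h2, if_pos h3]
        norm_num [dir1, dir2]
        split_ifs <;> simp [Prod.ext_iff] <;> omega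
      · simp only [if_neg h1, if_neg h2, if_neg h3, if_pos hn]
        norm_num [dir2, dir3]
        split_ifs <;> simp [Prod.ext_iff] <;> omega

lemma iter_sd {a b : ℕ} (ha : 0 < a) (hb : 0 < b) {n : ℕ} (hn : n ≤ 2 * a + 2 * b) :
    (nextSide (RQ a b))^[n] ((0, 0), 0) = sd a b n := by
  induction n with
  | zero => simp [sd, ha]
  | succ n ih =>
    rw [Function.iterate_succ_apply', ih (by omega), next_sd ha hb (by omega)]

/-- the domain type of the rectangle -/
noncomputable def RP (a b : ℕ) (ha : 0 < a) (hb : 0 < b) : PType where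
  Q := RQ a b
  good := good_RQ ha hb
  s0 := ((0, 0), 0)
  N := 2 * a + 2 * b
  m := 2 * a + b
  hm0 := by omega
  hmN := by omega
  side0 := by
    unfold IsSide
    rw [mem_RQ, mem_RQ]
    norm_num [dirm1]
    omega
  period := by
    rw [iter_sd ha hb le_rfl]
    simp only [sd]
    rw [if_neg (by omega), if_neg (by omega), if_neg (by omega), if_neg (by omega)]
    simp
  all := by
    rintro ⟨⟨x, y⟩, k⟩ hs
    unfold IsSide at hs
    rw [mem_RQ, mem_RQ] at hs
    simp only at hs
    obtain ⟨⟨h1, h2⟩, h3⟩ := hs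
    have key : ∀ n : ℕ, n < 2 * a + 2 * b → (sd a b n).1 = (x, y) → ((sd a b n).2 - k) % 4 = 0 →
        ∃ n < 2 * a + 2 * b, ((nextSide (RQ a b))^[n] ((0, 0), 0)).1 = (x, y) ∧
          (((nextSide (RQ a b))^[n] ((0, 0), 0)).2 - k) % 4 = 0 := by
      intro n hn e1 e2
      exact ⟨n, hn, by rw [iter_sd ha hb hn.le]; exact e1, by rw [iter_sd ha hb hn.le]; exact e2⟩
    rcases dir_cases (k - 1) with ⟨c, e⟩ | ⟨c, e⟩ | ⟨c, e⟩ | ⟨c, e⟩ <;> rw [e] at h3 <;>
      simp only [Prod.mk_add_mk] at h3
    · -- right side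
      refine key ((a : ℤ) + y).toNat (by omega) ?_ ?_ <;> unfold sd <;>
        rw [if_neg (by omega), if_pos (by omega)] <;> simp only [Prod.ext_iff] <;> omega
    · refine key (2 * (a : ℤ) + b - 1 - x).toNat (by omega) ?_ ?_ <;> unfold sd <;>
        rw [if_neg (by omega), if_neg (by omega), if_pos (by omega)] <;>
        simp only [Prod.ext_iff] <;> omega
    · refine key (2 * (a : ℤ) + 2 * b - 1 - y).toNat (by omega) ?_ ?_ <;> unfold sd <;>
        rw [if_neg (by omega), if_neg (by omega), if_neg (by omega), if_pos (by omega)] <;>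
        simp only [Prod.ext_iff] <;> omega
    · refine key x.toNat (by omega) ?_ ?_ <;> unfold sd <;>
        rw [if_pos (by omega)] <;> simp only [Prod.ext_iff] <;> omega
  inj := by
    intro n hn n' hn' h1 h2
    rw [iter_sd ha hb hn.le, iter_sd ha hb hn'.le] at h1 h2
    unfold sd at h1 h2
    by_cases p1 : n < a
    all_goals by_cases p2 : n < a + b
    all_goals by_cases p3 : n < 2 * a + b
    all_goals by_cases q1 : n' < a
    all_goals by_cases q2 : n' < a + b
    all_goals by_cases q3 : n' < 2 * a + b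
    all_goals simp only [p1, p2, p3, q1, q2, q3, hn, hn', if_true, if_false, Prod.ext_iff] at h1 h2
    all_goals omega

lemma RP_side {a b : ℕ} (ha : 0 < a) (hb : 0 < b) {n : ℕ} (hn : n ≤ 2 * a + 2 * b) :
    (RP a b ha hb).side n = sd a b n := iter_sd ha hb hn

/-- **The rectangle of `a × b` cells with its four corners as marks.** The arcs I (bottom), III (top) are
free, the arcs II (right), IV (left) are wired. -/
noncomputable def RS (a b : ℕ) (ha : 0 < a) (hb : 0 < b) : Shape where
  P := RP a b ha hb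
  m2 := a
  m3 := a + b
  h02 := ha
  h23 := by omega
  h34 := by change a + b < 2 * a + b; omega
  cvx := by
    intro i hi
    change i + 1 = a ∨ i + 1 = a + b ∨ i + 1 = 2 * a + b ∨ i + 1 = 2 * a + 2 * b at hi
    rw [RP_side ha hb (by omega), RP_side ha hb (by omega)]
    unfold sd
    rcases hi with hi | hi | hi | hi
    · rw [if_pos (show i < a by omega), if_neg (show ¬ i + 1 < a by omega),
        if_pos (show i + 1 < a + b by omega)]
      refine Prod.ext (Prod.ext ?_ ?_) ?_ <;> simp only <;> push_cast <;> omega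
    · rw [if_neg (show ¬ i < a by omega), if_pos (show i < a + b by omega),
        if_neg (show ¬ i + 1 < a by omega), if_neg (show ¬ i + 1 < a + b by omega),
        if_pos (show i + 1 < 2 * a + b by omega)]
      refine Prod.ext (Prod.ext ?_ ?_) ?_ <;> simp only <;> push_cast <;> omega
    · rw [if_neg (show ¬ i < a by omega), if_neg (show ¬ i < a + b by omega),
        if_pos (show i < 2 * a + b by omega),
        if_neg (show ¬ i + 1 < a by omega), if_neg (show ¬ i + 1 < a + b by omega),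
        if_neg (show ¬ i + 1 < 2 * a + b by omega), if_pos (show i + 1 < 2 * a + 2 * b by omega)]
      refine Prod.ext (Prod.ext ?_ ?_) ?_ <;> simp only <;> push_cast <;> omega
    · rw [if_neg (show ¬ i < a by omega), if_neg (show ¬ i < a + b by omega),
        if_neg (show ¬ i < 2 * a + b by omega), if_pos (show i < 2 * a + 2 * b by omega),
        if_neg (show ¬ i + 1 < a by omega), if_neg (show ¬ i + 1 < a + b by omega),
        if_neg (show ¬ i + 1 < 2 * a + b by omega), if_neg (show ¬ i + 1 < 2 * a + 2 * b by omega)]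
      refine Prod.ext (Prod.ext ?_ ?_) ?_ <;> simp only <;> push_cast <;> omega

end Pool.Agent.H57.FM
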