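import Mathlib
import Pool.Agent.H33.Q1.Tile

set_option autoImplicit false
open Finset

/-! # Crossings of rectangles of the tile grid

`TR x0 x1 y0 y1` = labels of the tiles of `[x0, x1) × [y0, y1)`, i.e. of the edges of `ℤ²` contained in
the closed rectangle `[x0, x1] × [y0, y1]` of the tile frame. `CR ω x0 x1 y0 y1` = there is an open path
in this rectangle from the side `X = x0` to the side `X = x1`. -/

namespace Pool.Agent.H57.FM

open Pool.Agent.H75.Perc hiding WL CT hh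
open Pool.Agent.H33.Q1 (lt tt lt_odd tt_lt lt_tt tv)

/-- labels of the tiles of a rectangle -/
noncomputable def TR (x0 x1 y0 y1 : ℤ) : Finset (ℤ × ℤ) := ((Ico x0 x1) ×ˢ (Ico y0 y1)).image lt

lemma mem_TR {x0 x1 y0 y1 : ℤ} {e : ℤ × ℤ} : e ∈ TR x0 x1 y0 y1 ↔ (e.1 + e.2) % 2 = 1 ∧
    (x0 ≤ (tt e).1 ∧ (tt e).1 < x1) ∧ (y0 ≤ (tt e).2 ∧ (tt e).2 < y1) := by
  unfold TR
  simp only [mem_image, mem_product, mem_Ico]
  constructor
  · rintro ⟨p, hp, rfl⟩
    rw [tt_lt]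
    exact ⟨lt_odd p, hp⟩
  · rintro ⟨h1, h2⟩
    exact ⟨tt e, h2, lt_tt h1⟩

lemma TR_mono {x0 x1 y0 y1 x0' x1' y0' y1' : ℤ} (h1 : x0' ≤ x0) (h2 : x1 ≤ x1') (h3 : y0' ≤ y0)
    (h4 : y1 ≤ y1') : TR x0 x1 y0 y1 ⊆ TR x0' x1' y0' y1' := by
  intro e he
  rw [mem_TR] at he ⊢
  omega

/-- the first tile coordinate changes by one along an edge; the tile of the edge -/
lemma ad_tile {u v : ℤ × ℤ} (h : IsUnit4 (v - u)) :
    ((tv v).1 = (tv u).1 + 1 ∨ (tv v).1 = (tv u).1 - 1) ∧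
    ((tv v).2 = (tv u).2 + 1 ∨ (tv v).2 = (tv u).2 - 1) ∧
    (tt (u + v)).1 = min (tv u).1 (tv v).1 ∧ (tt (u + v)).2 = min (tv u).2 (tv v).2 ∧
    ((u + v).1 + (u + v).2) % 2 = 1 := by
  have := unit_cases h
  unfold tv tt
  simp only [Prod.fst_add, Prod.snd_add]
  rw [min_def, min_def]
  split_ifs <;> omega

/-- closed rectangle of the tile frame -/
def inT (x0 x1 y0 y1 : ℤ) (v : ℤ × ℤ) : Prop :=
  (x0 ≤ (tv v).1 ∧ (tv v).1 ≤ x1) ∧ (y0 ≤ (tv v).2 ∧ (tv v).2 ≤ y1)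

lemma add_mem_TR {x0 x1 y0 y1 : ℤ} {u v : ℤ × ℤ} (h : IsUnit4 (v - u)) :
    u + v ∈ TR x0 x1 y0 y1 ↔ inT x0 x1 y0 y1 u ∧ inT x0 x1 y0 y1 v := by
  obtain ⟨h1, h2, h3, h4, h5⟩ := ad_tile h
  rw [mem_TR]
  unfold inT
  rw [h3, h4]
  rw [min_def, min_def]
  split_ifs <;> omega

/-- **Crossing of a rectangle of the tile grid.** -/
def CR (ω : Finset (ℤ × ℤ)) (x0 x1 y0 y1 : ℤ) : Prop :=
  ∃ u v : ℤ × ℤ, (tv u).1 = x0 ∧ (tv v).1 = x1 ∧ Co (ω ∩ TR x0 x1 y0 y1) u v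

lemma CR.mono_set {ω ω' : Finset (ℤ × ℤ)} {x0 x1 y0 y1 : ℤ} (h : CR ω x0 x1 y0 y1)
    (hω : ω ⊆ ω') : CR ω' x0 x1 y0 y1 := by
  obtain ⟨u, v, h1, h2, h3⟩ := h
  exact ⟨u, v, h1, h2, h3.mono (inter_subset_inter_right hω)⟩

lemma CR_inter {ω F : Finset (ℤ × ℤ)} {x0 x1 y0 y1 : ℤ} (hF : TR x0 x1 y0 y1 ⊆ F) :
    CR (ω ∩ F) x0 x1 y0 y1 ↔ CR ω x0 x1 y0 y1 := by
  unfold CR
  have : ω ∩ F ∩ TR x0 x1 y0 y1 = ω ∩ TR x0 x1 y0 y1 := by
    rw [inter_assoc, inter_eq_right.2 hF]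
  rw [this]

/-- **Extraction of a crossing.** -/
theorem extract {ω : Finset (ℤ × ℤ)} {α β y0 y1 : ℤ} (hαβ : α < β) {u v : ℤ × ℤ}
    (hω : ∀ a b, Ad ω a b → y0 ≤ (tv a).2 ∧ (tv a).2 ≤ y1) (h : Co ω u v)
    (hu : (tv u).1 ≤ α) (hv : β ≤ (tv v).1) : CR ω α β y0 y1 := by
  have key : ∀ w, Co ω u w → (tv w).1 ≤ α ∨
      (∃ u', (tv u').1 = α ∧ (α ≤ (tv w).1 ∧ (tv w).1 ≤ β) ∧ Co (ω ∩ TR α β y0 y1) u' w) ∨
      CR ω α β y0 y1 := by
    intro w hw
    induction hw with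
    | refl => exact Or.inl hu
    | @tail a b hab hbc ih =>
      obtain ⟨t1, t2, -, -, -⟩ := ad_tile hbc.1
      have ya := hω a b hbc
      have yb := hω b a hbc.symm
      rcases ih with ih | ⟨u', e1, e2, e3⟩ | ih
      · by_cases hb : (tv b).1 ≤ α
        · exact Or.inl hb
        · right; left
          have ha : (tv a).1 = α := by omega
          refine ⟨a, ha, by omega, Relation.ReflTransGen.single ⟨hbc.1, ?_⟩⟩
          rw [mem_inter]
          refine ⟨hbc.2, (add_mem_TR hbc.1).2 ?_⟩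
          unfold inT
          omega
      · by_cases hb : (tv b).1 ≤ α
        · exact Or.inl hb
        · by_cases hb2 : β < (tv b).1
          · right; right
            have ha : (tv a).1 = β := by omega
            exact ⟨u', a, e1, ha, e3⟩
          · right; left
            refine ⟨u', e1, by omega, Relation.ReflTransGen.tail e3 ⟨hbc.1, ?_⟩⟩
            rw [mem_inter]
            refine ⟨hbc.2, (add_mem_TR hbc.1).2 ?_⟩
            unfold inT
            omega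
      · exact Or.inr (Or.inr ih)
  rcases key v h with h1 | ⟨u', e1, e2, e3⟩ | h1
  · omega
  · exact ⟨u', v, e1, by omega, e3⟩
  · exact h1

lemma ad_inT {ω : Finset (ℤ × ℤ)} {x0 x1 y0 y1 : ℤ} {a b : ℤ × ℤ}
    (h : Ad (ω ∩ TR x0 x1 y0 y1) a b) : inT x0 x1 y0 y1 a :=
  ((add_mem_TR h.1).1 (mem_inter.1 h.2).2).1

/-- **Monotonicity** -/
theorem CR.mono {ω : Finset (ℤ × ℤ)} {x0 x1 y0 y1 x0' x1' y0' y1' : ℤ}
    (h : CR ω x0 x1 y0 y1) (h1 : x0 ≤ x0') (h2 : x0' < x1') (h3 : x1' ≤ x1) (h4 : y0' ≤ y0)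
    (h5 : y1 ≤ y1') : CR ω x0' x1' y0' y1' := by
  obtain ⟨u, v, e1, e2, e3⟩ := h
  have := extract (y0 := y0') (y1 := y1') h2 (fun a b hab => by
    have := (ad_inT hab).2
    omega) e3 (by omega) (by omega)
  exact this.mono_set inter_subset_left

/-- probability of a crossing of the `w × h` rectangle -/
noncomputable def AR (w h : ℕ) : ℝ := Pr (TR 0 w 0 h) fun ω => CR ω 0 w 0 h

lemma AR_nonneg (w h : ℕ) : 0 ≤ AR w h := Pr_nonneg _ _

/-- a crossing only depends on the labels of the rectangle -/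
lemma Pr_CR {E : Finset (ℤ × ℤ)} {x0 x1 y0 y1 : ℤ} (hE : TR x0 x1 y0 y1 ⊆ E) :
    Pr E (fun ω => CR ω x0 x1 y0 y1) = Pr (TR x0 x1 y0 y1) fun ω => CR ω x0 x1 y0 y1 := by
  rw [← Pr_restrict hE]
  exact Pr_congr fun ω _ => (CR_inter (subset_refl _)).symm

/-- translation -/
lemma Pr_CR_shift (x0 y0 : ℤ) (hxy : (x0 + y0) % 2 = 0) (w h : ℕ) :
    Pr (TR x0 (x0 + w) y0 (y0 + h)) (fun ω => CR ω x0 (x0 + w) y0 (y0 + h)) = AR w h := by
  set t : ℤ × ℤ := ((x0 - y0) / 2, (x0 + y0) / 2) with ht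
  have ht1 : t.1 + t.2 = x0 := by simp only [ht]; omega
  have ht2 : t.2 - t.1 = y0 := by simp only [ht]; omega
  have htv : ∀ u, tv (u + t) = ((tv u).1 + x0, (tv u).2 + y0) := by
    intro u
    unfold tv
    simp only [Prod.fst_add, Prod.snd_add]
    refine Prod.ext ?_ ?_ <;> simp only <;> omega
  have hmap : TR x0 (x0 + w) y0 (y0 + h) = (TR 0 w 0 h).map (addRightEmbedding (t + t)) := by
    ext e
    rw [mem_map]
    simp only [addRightEmbedding_apply]
    constructor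
    · intro he
      refine ⟨e - (t + t), ?_, by simp⟩
      rw [mem_TR] at he ⊢
      unfold tt at he ⊢
      simp only [Prod.fst_sub, Prod.snd_sub, Prod.fst_add, Prod.snd_add] at he ⊢
      omega
    · rintro ⟨e', he, rfl⟩
      rw [mem_TR] at he ⊢
      unfold tt at he ⊢
      simp only [Prod.fst_add, Prod.snd_add] at he ⊢
      omega
  have hAd : ∀ (ω : Finset (ℤ × ℤ)) (u v : ℤ × ℤ), Ad ω u v →
      Ad (ω.map (addRightEmbedding (t + t))) (u + t) (v + t) := by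
    intro ω u v h
    refine ⟨by rw [add_sub_add_right_eq_sub]; exact h.1, ?_⟩
    rw [mem_map]
    exact ⟨u + v, h.2, by simp only [addRightEmbedding_apply]; abel⟩
  have hCo : ∀ (ω : Finset (ℤ × ℤ)) (u v : ℤ × ℤ), Co ω u v →
      Co (ω.map (addRightEmbedding (t + t))) (u + t) (v + t) := by
    intro ω u v h
    induction h with
    | refl => exact Co.refl _ _
    | tail _ hbc ih => exact Relation.ReflTransGen.tail ih (hAd _ _ _ hbc)
  have hCo' : ∀ (ω : Finset (ℤ × ℤ)) (u v : ℤ × ℤ), Co (ω.map (addRightEmbedding (t + t))) u v →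
      Co ω (u - t) (v - t) := by
    intro ω u v h
    induction h with
    | refl => exact Co.refl _ _
    | @tail a b _ hbc ih =>
      refine Relation.ReflTransGen.tail ih ⟨by rw [sub_sub_sub_cancel_right]; exact hbc.1, ?_⟩
      obtain ⟨e, he, he'⟩ := mem_map.1 hbc.2
      simp only [addRightEmbedding_apply] at he'
      have : a - t + (b - t) = e := by
        have : a + b - (t + t) = e := by rw [← he']; simp
        rw [← this]; abel
      rw [this]; exact he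
  have hi : ∀ ω : Finset (ℤ × ℤ), ω.map (addRightEmbedding (t + t)) ∩
      (TR 0 w 0 h).map (addRightEmbedding (t + t)) =
      (ω ∩ TR 0 w 0 h).map (addRightEmbedding (t + t)) := fun ω => (map_inter _ _).symm
  rw [hmap, Pr_map]
  unfold AR
  refine Pr_congr fun ω _ => ?_
  unfold CR
  rw [hmap, hi]
  constructor
  · rintro ⟨u, v, e1, e2, e3⟩
    refine ⟨u - t, v - t, ?_, ?_, hCo' _ _ _ e3⟩
    · have := htv (u - t)
      rw [sub_add_cancel] at this
      rw [this] at e1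
      simp only at e1
      omega
    · have := htv (v - t)
      rw [sub_add_cancel] at this
      rw [this] at e2
      simp only at e2
      omega
  · rintro ⟨u, v, e1, e2, e3⟩
    refine ⟨u + t, v + t, ?_, ?_, hCo _ _ _ e3⟩
    · rw [htv]; simp only; omega
    · rw [htv]; simp only; omega

/-- monotonicity of the crossing probability in the width -/
lemma AR_anti {w w' h : ℕ} (hw : 0 < w) (hww : w ≤ w') : AR w' h ≤ AR w h := by
  have h1 : TR 0 w 0 h ⊆ TR 0 (w' : ℤ) 0 h := TR_mono le_rfl (by exact_mod_cast hww) le_rfl le_rfl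
  unfold AR
  rw [← Pr_CR h1]
  exact Pr_mono fun ω _ hc => hc.mono le_rfl (by exact_mod_cast hw) (by exact_mod_cast hww) le_rfl
    le_rfl

/-- monotonicity of the crossing probability in the height -/
lemma AR_mono {w h h' : ℕ} (hw : 0 < w) (hh : h ≤ h') : AR w h ≤ AR w h' := by
  have h1 : TR 0 w 0 h ⊆ TR 0 (w : ℤ) 0 h' := TR_mono le_rfl le_rfl le_rfl (by exact_mod_cast hh)
  unfold AR
  rw [← Pr_CR h1]
  exact Pr_mono fun ω _ hc => hc.mono le_rfl (by exact_mod_cast hw) le_rfl le_rfl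
    (by exact_mod_cast hh)

end Pool.Agent.H57.FM
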