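import Mathlib
import Pool.Agent.H57.FM.TileCross
import Pool.Agent.H57.FM.RectShape
import Pool.Agent.H75.TwoArm.Decay

set_option autoImplicit false
open Finset

/-! # The crossing event of the rectangle shape -/

namespace Pool.Agent.H57.FM

open Pool.Agent.H75.Perc hiding WL CT hh
open Pool.Agent.H33.Q1 (lt tt ct lt_odd tt_lt lt_tt tv TL mem_TL LY mem_LY ct_eq)
open Pool.Agent.Q1.M4 (Cell tail)
open Pool.Agent.H21.FM (Shape EE TT W0 v1 v3 wv qn)

variable {a b : ℕ} (ha : 0 < a) (hb : 0 < b)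

/-- random labels of the rectangle -/
lemma EE_rect {h : ℕ} (hh : 0 < h) : EE (RS a b ha hb) h = TR 0 ((2 * h * a : ℕ)) 0 ((2 * h * b : ℕ)) := by
  ext e
  change e ∈ TL (RQ a b) (2 * h) ↔ _
  have hn : (0:ℤ) < 2 * h := by positivity
  have hz : (0:ℤ) < h := by exact_mod_cast hh
  rw [mem_TL hn, mem_TR, mem_RQ]
  unfold ct
  simp only
  push_cast
  refine and_congr Iff.rfl ?_
  have key : ∀ x c : ℤ, (0 ≤ x / (2 * h) ∧ x / (2 * h) < c) ↔ (0 ≤ x ∧ x < 2 * h * c) := by
    intro x c
    rw [Int.ediv_lt_iff_lt_mul hn, mul_comm c]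
    refine and_congr ?_ Iff.rfl
    constructor
    · intro h1
      by_contra h2
      have := Int.ediv_neg_of_neg_of_pos (not_le.1 h2) hn
      omega
    · exact fun h1 => Int.ediv_nonneg h1 hn.le
  rw [key, key]

/-- the vertex at the first mark is the origin -/
lemma v1_rect (h : ℕ) : v1 (RS a b ha hb) h = (0, 0) := by
  unfold v1
  have : (RS a b ha hb).P.side 0 = ((0, 0), 0) := rfl
  rw [this]
  unfold wv tail
  simp

lemma side_m3 : (RS a b ha hb).P.side (RS a b ha hb).m3 = (((a : ℤ) - 1, (b : ℤ) - 1), 2) := by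
  change (RP a b ha hb).side (a + b) = _
  rw [RP_side ha hb (by omega)]
  unfold sd
  rw [if_neg (by omega), if_neg (by omega), if_pos (by omega)]
  refine Prod.ext (Prod.ext ?_ ?_) ?_ <;> simp only <;> push_cast <;> omega

/-- the vertex at the third mark -/
lemma tv_v3_rect (h : ℕ) : tv (v3 (RS a b ha hb) h) = ((2 * h * a : ℤ), (2 * h * b : ℤ)) := by
  unfold v3
  rw [side_m3]
  unfold wv tail tv
  simp
  constructor <;> ring

/-- labels of the wired layers -/
lemma mem_W0_rect {h : ℕ} (hh : 0 < h) {e : ℤ × ℤ} (he : e ∈ W0 (RS a b ha hb) h) :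
    (e.1 + e.2) % 2 = 1 ∧ ((tt e).1 = -1 ∨ (tt e).1 = 2 * h * a) := by
  have hn : (0:ℤ) < 2 * h := by positivity
  have hz : (0:ℤ) < h := by exact_mod_cast hh
  unfold W0 at he
  rw [mem_biUnion] at he
  obtain ⟨i, hi, he⟩ := he
  rw [mem_union, mem_Ico, mem_Ico] at hi
  change ((a ≤ i ∧ i < a + b) ∨ (2 * a + b ≤ i ∧ i < 2 * a + 2 * b)) at hi
  rw [mem_LY hn] at he
  obtain ⟨h1, h2, h3⟩ := he
  refine ⟨h1, ?_⟩
  have hs : (RS a b ha hb).P.side i = sd a b i := RP_side ha hb (by omega)
  rw [hs] at h2 h3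
  rcases hi with hi | hi
  · right
    have hsd : sd a b i = (((a : ℤ) - 1, (i : ℤ) - a), 1) := by
      unfold sd
      rw [if_neg (by omega), if_pos (by omega)]
    rw [hsd] at h2 h3
    simp only [sub_self, dir0] at h2 h3
    rw [ct_eq hn] at h2 h3
    simp only [Prod.fst_add, Prod.fst_sub, Prod.snd_add, Prod.snd_sub] at h2 h3
    have e1 : ((a : ℤ) - 1) * (2 * h) + 2 * h = 2 * h * a := by ring
    have e2 : ((a : ℤ) - 1 + 1) * (2 * h) = 2 * h * a := by ring
    rw [e1] at h3
    rw [e2] at h2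
    omega
  · left
    have hsd : sd a b i = ((0, 2 * (a : ℤ) + 2 * b - 1 - i), 3) := by
      unfold sd
      rw [if_neg (by omega), if_neg (by omega), if_neg (by omega), if_pos (by omega)]
    rw [hsd] at h2 h3
    have : dir ((3:ℤ) - 1) = (-1, 0) := by decide
    simp only [this] at h2 h3
    rw [ct_eq hn] at h2 h3
    simp only [Prod.fst_add, Prod.fst_sub, Prod.snd_add, Prod.snd_sub] at h2 h3
    have e1 : ((0:ℤ) + -1) * (2 * h) + 2 * h = 0 := by ring
    rw [e1] at h2
    omega

lemma left_mem {h : ℕ} (hh : 0 < h) {y : ℤ} (hy : 0 ≤ y) (hy' : y < 2 * h * b) :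
    lt (-1, y) ∈ W0 (RS a b ha hb) h := by
  have hn : (0:ℤ) < 2 * h := by positivity
  unfold W0
  rw [mem_biUnion]
  have hq0 : 0 ≤ y / (2 * h) := Int.ediv_nonneg hy hn.le
  have hq1 : y / (2 * h) < b := by
    rw [Int.ediv_lt_iff_lt_mul hn]
    linarith
  refine ⟨(2 * (a : ℤ) + 2 * b - 1 - y / (2 * h)).toNat, ?_, ?_⟩
  · rw [mem_union, mem_Ico, mem_Ico]
    right
    change 2 * a + b ≤ _ ∧ _ < 2 * a + 2 * b
    omega
  · rw [mem_LY hn, tt_lt]
    have hs : (RS a b ha hb).P.side (2 * (a : ℤ) + 2 * b - 1 - y / (2 * h)).toNat =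
        ((0, y / (2 * h)), 3) := by
      change (RP a b ha hb).side _ = _
      rw [RP_side ha hb (by omega)]
      unfold sd
      rw [if_neg (by omega), if_neg (by omega), if_neg (by omega), if_pos (by omega)]
      refine Prod.ext (Prod.ext ?_ ?_) ?_ <;> simp only; omega
    rw [hs]
    have : dir ((3:ℤ) - 1) = (-1, 0) := by decide
    simp only [this]
    have d1 := Int.ediv_mul_le y hn.ne'
    have d2 := Int.lt_ediv_add_one_mul_self y hn
    refine ⟨lt_odd _, ?_, ?_⟩
    · rw [ct_eq hn]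
      simp only [Prod.fst_add, Prod.snd_add]
      refine ⟨⟨by nlinarith, by nlinarith⟩, by nlinarith, by nlinarith⟩
    · rw [ct_eq hn]
      simp only [Prod.fst_sub, Prod.snd_sub]
      refine ⟨⟨by nlinarith, by nlinarith⟩, by nlinarith, by nlinarith⟩

lemma right_mem {h : ℕ} (hh : 0 < h) {y : ℤ} (hy : 0 ≤ y) (hy' : y < 2 * h * b) :
    lt (2 * h * a, y) ∈ W0 (RS a b ha hb) h := by
  have hn : (0:ℤ) < 2 * h := by positivity
  unfold W0
  rw [mem_biUnion]
  have hq0 : 0 ≤ y / (2 * h) := Int.ediv_nonneg hy hn.le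
  have hq1 : y / (2 * h) < b := by
    rw [Int.ediv_lt_iff_lt_mul hn]
    linarith
  refine ⟨((a : ℤ) + y / (2 * h)).toNat, ?_, ?_⟩
  · rw [mem_union, mem_Ico, mem_Ico]
    left
    change a ≤ _ ∧ _ < a + b
    omega
  · rw [mem_LY hn, tt_lt]
    have hs : (RS a b ha hb).P.side ((a : ℤ) + y / (2 * h)).toNat =
        (((a : ℤ) - 1, y / (2 * h)), 1) := by
      change (RP a b ha hb).side _ = _
      rw [RP_side ha hb (by omega)]
      unfold sd
      rw [if_neg (by omega), if_pos (by omega)]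
      refine Prod.ext (Prod.ext ?_ ?_) ?_ <;> simp only; omega
    rw [hs]
    simp only [sub_self, dir0]
    have d1 := Int.ediv_mul_le y hn.ne'
    have d2 := Int.lt_ediv_add_one_mul_self y hn
    refine ⟨lt_odd _, ?_, ?_⟩
    · rw [ct_eq hn]
      simp only [Prod.fst_add, Prod.snd_add]
      refine ⟨⟨by nlinarith, by nlinarith⟩, by nlinarith, by nlinarith⟩
    · rw [ct_eq hn]
      simp only [Prod.fst_sub, Prod.snd_sub]
      refine ⟨⟨by nlinarith, by nlinarith⟩, by nlinarith, by nlinarith⟩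

/-- vertex with given tile coordinates -/
def vt (X Y : ℤ) : ℤ × ℤ := ((X - Y) / 2, (X + Y) / 2)

lemma tv_vt {X Y : ℤ} (h : (X + Y) % 2 = 0) : tv (vt X Y) = (X, Y) := by
  unfold tv vt
  refine Prod.ext ?_ ?_ <;> simp only <;> omega

lemma vt_tv (v : ℤ × ℤ) : vt (tv v).1 (tv v).2 = v := by
  unfold tv vt
  refine Prod.ext ?_ ?_ <;> simp only <;> omega

lemma tv_par (v : ℤ × ℤ) : ((tv v).1 + (tv v).2) % 2 = 0 := by
  unfold tv
  simp only
  omega

/-- an edge in a tile -/
lemma ad_vt {W : Finset (ℤ × ℤ)} {X Y : ℤ} (h : lt (X, Y) ∈ W) :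
    ((X + Y) % 2 = 0 → Ad W (vt X Y) (vt (X + 1) (Y + 1))) ∧
    ((X + Y) % 2 = 1 → Ad W (vt (X + 1) Y) (vt X (Y + 1))) := by
  constructor
  · intro hp
    refine ⟨?_, ?_⟩
    · unfold IsUnit4 vt
      right; left
      refine Prod.ext ?_ ?_ <;> simp only [Prod.fst_sub, Prod.snd_sub] <;> omega
    · convert h using 1
      unfold vt lt
      refine Prod.ext ?_ ?_ <;> simp only [Prod.fst_add, Prod.snd_add] <;> omega
  · intro hp
    refine ⟨?_, ?_⟩
    · unfold IsUnit4 vt
      right; right; left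
      refine Prod.ext ?_ ?_ <;> simp only [Prod.fst_sub, Prod.snd_sub] <;> omega
    · convert h using 1
      unfold vt lt
      refine Prod.ext ?_ ?_ <;> simp only [Prod.fst_add, Prod.snd_add] <;> omega

/-- a zigzag in two columns of vertices, tiles in the column `X0` -/
lemma zigzag {W : Finset (ℤ × ℤ)} {X0 : ℤ} {T : ℕ} (hW : ∀ y : ℤ, 0 ≤ y → y < T → lt (X0, y) ∈ W)
    (s : ℤ) (hs : s = 0 ∨ s = 1) (h0 : (X0 + s) % 2 = 0) : ∀ n : ℕ, 2 * n ≤ T →
    Co W (vt (X0 + s) 0) (vt (X0 + s) (2 * n)) := by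
  intro n
  induction n with
  | zero => intro _; simpa using Co.refl _ _
  | succ n ih =>
    intro hn
    refine (ih (by omega)).trans ?_
    obtain ⟨a1, a2⟩ := ad_vt (hW (2 * n) (by positivity) (by omega))
    obtain ⟨b1, b2⟩ := ad_vt (hW (2 * n + 1) (by positivity) (by omega))
    have e : ((2 * ((n + 1 : ℕ) : ℤ)) : ℤ) = 2 * n + 1 + 1 := by push_cast; ring
    rw [e]
    rcases hs with rfl | rfl
    · rw [add_zero] at h0 ⊢
      exact (Relation.ReflTransGen.single (a1 (by omega))).trans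
        (Relation.ReflTransGen.single (b2 (by omega)))
    · exact (Relation.ReflTransGen.single (a2 (by omega))).trans
        (Relation.ReflTransGen.single (b1 (by omega)))

/-- **The event `TT` of the rectangle.** -/
theorem TT_rect {h : ℕ} (hh : 0 < h) {ω : Finset (ℤ × ℤ)} (hω : ω ⊆ EE (RS a b ha hb) h) :
    TT (RS a b ha hb) h ω ↔ CR ω 0 ((2 * h * a : ℕ)) 0 ((2 * h * b : ℕ)) := by
  have hz : (0:ℤ) < h := by exact_mod_cast hh
  have haz : (0:ℤ) < a := by exact_mod_cast ha
  have hbz : (0:ℤ) < b := by exact_mod_cast hb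
  have hwpos : (0:ℤ) < 2 * h * a := by positivity
  have hω' : ω ⊆ TR 0 ((2 * h * a : ℕ)) 0 ((2 * h * b : ℕ)) := by rw [← EE_rect ha hb hh]; exact hω
  push_cast at hω' ⊢
  set A : ℤ := 2 * h * a with hA
  set B : ℤ := 2 * h * b with hB
  constructor
  · intro hT
    have hT' : Co (ω ∪ W0 (RS a b ha hb) h) (v1 (RS a b ha hb) h) (v3 (RS a b ha hb) h) :=
      Co.symm hT
    have key : ∀ w, Co (ω ∪ W0 (RS a b ha hb) h) (v1 (RS a b ha hb) h) w → (tv w).1 ≤ 0 ∨
        (∃ u', (tv u').1 = 0 ∧ (0 ≤ (tv w).1 ∧ (tv w).1 ≤ A) ∧ Co (ω ∩ TR 0 A 0 B) u' w) ∨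
        CR ω 0 A 0 B := by
      intro w hw
      induction hw with
      | refl => left; rw [v1_rect]; unfold tv; simp
      | @tail c d _ hcd ih =>
        obtain ⟨t1, t2, t3, t4, t5⟩ := ad_tile hcd.1
        rcases ih with ih | ⟨u', e1, e2, e3⟩ | ih
        · by_cases hd : (tv d).1 ≤ 0
          · exact Or.inl hd
          · right; left
            have hc : (tv c).1 = 0 := by omega
            refine ⟨c, hc, by omega, Relation.ReflTransGen.single ⟨hcd.1, ?_⟩⟩
            rw [mem_inter]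
            rcases mem_union.1 hcd.2 with h1 | h1
            · exact ⟨h1, hω' h1⟩
            · exfalso
              have := (mem_W0_rect ha hb hh h1).2
              rw [t3, min_def] at this
              split_ifs at this <;> omega
        · by_cases hd : (tv d).1 ≤ 0
          · exact Or.inl hd
          · by_cases hd2 : A < (tv d).1
            · right; right
              exact ⟨u', c, e1, by omega, e3⟩
            · rcases mem_union.1 hcd.2 with h1 | h1
              · right; left
                refine ⟨u', e1, by omega, Relation.ReflTransGen.tail e3 ⟨hcd.1, ?_⟩⟩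
                exact mem_inter.2 ⟨h1, hω' h1⟩
              · exfalso
                have := (mem_W0_rect ha hb hh h1).2
                rw [t3, min_def] at this
                split_ifs at this <;> omega
        · exact Or.inr (Or.inr ih)
    have h3 := tv_v3_rect ha hb h
    rcases key _ hT' with h1 | ⟨u', e1, e2, e3⟩ | h1
    · rw [h3] at h1; simp only at h1; omega
    · exact ⟨u', _, e1, by rw [h3], e3⟩
    · exact h1
  · rintro ⟨u, v, e1, e2, e3⟩
    have hne : u ≠ v := by rintro rfl; omega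
    -- positions
    have hu : inT 0 A 0 B u := by
      rcases Relation.ReflTransGen.cases_head e3 with h1 | ⟨c, h1, -⟩
      · exact absurd h1 hne
      · exact ad_inT h1
    have hv : inT 0 A 0 B v := by
      rcases Relation.ReflTransGen.cases_tail e3 with h1 | ⟨c, -, h1⟩
      · exact absurd h1.symm hne
      · exact ad_inT h1.symm
    unfold inT at hu hv
    have pu := tv_par u
    have pv := tv_par v
    have hc : Co (ω ∪ W0 (RS a b ha hb) h) u v := e3.mono (inter_subset_left.trans subset_union_left)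
    have hA2 : A % 2 = 0 := by rw [hA, mul_assoc]; omega
    have hB2 : B % 2 = 0 := by rw [hB, mul_assoc]; omega
    -- left wall
    have hl : Co (W0 (RS a b ha hb) h) (v1 (RS a b ha hb) h) u := by
      have := zigzag (W := W0 (RS a b ha hb) h) (X0 := -1) (T := B.toNat)
        (fun y h1 h2 => left_mem ha hb hh h1 (by omega)) 1 (Or.inr rfl) (by norm_num)
        ((tv u).2 / 2).toNat (by omega)
      have ev : vt (-1 + 1) (2 * (((tv u).2 / 2).toNat : ℤ)) = u := by
        conv_rhs => rw [← vt_tv u]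
        congr 1 <;> omega
      rw [ev] at this
      rw [v1_rect]
      simpa [vt] using this
    have hr : Co (W0 (RS a b ha hb) h) (vt A 0) v := by
      have := zigzag (W := W0 (RS a b ha hb) h) (X0 := A) (T := B.toNat)
        (fun y h1 h2 => right_mem ha hb hh h1 (by omega)) 0 (Or.inl rfl) (by omega)
        ((tv v).2 / 2).toNat (by omega)
      have ev : vt (A + 0) (2 * (((tv v).2 / 2).toNat : ℤ)) = v := by
        conv_rhs => rw [← vt_tv v]
        congr 1 <;> omega
      rw [ev, add_zero] at this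
      exact this
    have hr' : Co (W0 (RS a b ha hb) h) (vt A 0) (v3 (RS a b ha hb) h) := by
      have := zigzag (W := W0 (RS a b ha hb) h) (X0 := A) (T := B.toNat)
        (fun y h1 h2 => right_mem ha hb hh h1 (by omega)) 0 (Or.inl rfl) (by omega)
        (B / 2).toNat (by omega)
      have ev : vt (A + 0) (2 * ((B / 2).toNat : ℤ)) = v3 (RS a b ha hb) h := by
        rw [← vt_tv (v3 (RS a b ha hb) h), tv_v3_rect]
        congr 1 <;> omega
      rw [ev, add_zero] at this
      exact this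
    have hsub : W0 (RS a b ha hb) h ⊆ ω ∪ W0 (RS a b ha hb) h := subset_union_right
    exact ((hr'.symm.trans hr).mono hsub).trans (hc.symm.trans (hl.mono hsub).symm)

/-- **The crossing probability of the rectangle shape.** -/
theorem qn_rect {h : ℕ} (hh : 0 < h) : qn (RS a b ha hb) h = 1 - AR (2 * h * a) (2 * h * b) := by
  unfold qn AR
  rw [← EE_rect ha hb hh, ← Pr_congr fun ω hω => TT_rect ha hb hh hω]
  exact Pool.Agent.H75.TwoArm.DecayAux.Pr_not _ _

end Pool.Agent.H57.FM
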