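import Pool.Agent.H57.FM.RectC
import Pool.Agent.H57.FM.RectEvent
import Pool.Agent.H13.Q1.FourH

set_option autoImplicit false
open Filter Topology Set

/-! # Sandwich for rectangles of the tile grid -/

namespace Pool.Agent.H57.FM

open Pool.Agent.H69.Car (IsHalf)
open Pool.Agent.H21.FM (qn)
open Pool.Agent.H13.Q1.Four (cardy cardy_strictMono cardy_cont cardy_symm)

/-- **Abstract sandwich.** -/
theorem sandwich {A : ℕ → ℕ → ℝ} (hA1 : ∀ w w' h, 0 < w → w ≤ w' → A w' h ≤ A w h)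
    (hA2 : ∀ w h h', 0 < w → h ≤ h' → A w h ≤ A w h') {lam L : ℝ} (hlam : 0 < lam)
    (lo : ∀ ε > 0, ∃ a b : ℕ, 0 < a ∧ 0 < b ∧ lam < (a : ℝ) / b ∧
      ∀ᶠ n : ℕ in atTop, L - ε < A (2 * n * a) (2 * n * b))
    (up : ∀ ε > 0, ∃ a b : ℕ, 0 < a ∧ 0 < b ∧ (a : ℝ) / b < lam ∧
      ∀ᶠ n : ℕ in atTop, A (2 * n * a) (2 * n * b) < L + ε)
    {ι : Type*} {l : Filter ι} {w h : ι → ℕ} (hh : Tendsto h l atTop)
    (hr : Tendsto (fun i => (w i : ℝ) / h i) l (𝓝 lam)) :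
    Tendsto (fun i => A (w i) (h i)) l (𝓝 L) := by
  have hhR : Tendsto (fun i => (h i : ℝ)) l atTop := tendsto_natCast_atTop_atTop.comp hh
  have hwR : Tendsto (fun i => (w i : ℝ)) l atTop := by
    have h1 : Tendsto (fun i => ((w i : ℝ) / h i) * h i) l atTop := hr.pos_mul_atTop hlam hhR
    refine h1.congr' ?_
    filter_upwards [hhR.eventually_gt_atTop 0] with i hi
    field_simp
  rw [tendsto_order]
  constructor
  · intro L' hL'
    obtain ⟨a, b, ha, hb, hab, hev⟩ := lo (L - L') (by linarith)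
    have haR : (0:ℝ) < a := by exact_mod_cast ha
    have hbR : (0:ℝ) < b := by exact_mod_cast hb
    set n : ι → ℕ := fun i => h i / (2 * b) with hn
    have hntop : Tendsto n l atTop := (Nat.tendsto_div_const_atTop (by omega)).comp hh
    have hev' := hntop.eventually hev
    -- the width
    obtain ⟨μ, hμ1, hμ2⟩ := exists_between hab
    have e1 : ∀ᶠ i in l, (w i : ℝ) / h i < μ := hr.eventually (gt_mem_nhds hμ1)
    have hgap : 0 < 2 * (a : ℝ) - 2 * b * μ := by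
      rw [lt_div_iff₀ hbR] at hμ2
      nlinarith
    have hnR : Tendsto (fun i => (n i : ℝ)) l atTop := tendsto_natCast_atTop_atTop.comp hntop
    have e2 : ∀ᶠ i in l, 2 * b * μ / (2 * (a : ℝ) - 2 * b * μ) < n i := hnR.eventually_gt_atTop _
    have hμ0 : 0 < μ := hlam.trans hμ1
    filter_upwards [hev', e1, e2, hhR.eventually_gt_atTop 0, hwR.eventually_gt_atTop 0]
      with i i1 i2 i3 i4 i5
    have hwi : 0 < w i := by exact_mod_cast i5
    have k1 : 2 * n i * b ≤ h i := by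
      have := Nat.div_mul_le_self (h i) (2 * b)
      simp only [hn]
      calc 2 * (h i / (2 * b)) * b = h i / (2 * b) * (2 * b) := by ring
        _ ≤ h i := this
    have k2 : (h i : ℝ) < 2 * b * (n i + 1) := by
      have := Nat.lt_div_mul_add (a := h i) (b := 2 * b) (by omega)
      have h2 : h i < 2 * b * (n i + 1) := by
        simp only [hn]
        calc h i < h i / (2 * b) * (2 * b) + 2 * b := this
          _ = _ := by ring
      exact_mod_cast h2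
    have k3 : w i ≤ 2 * n i * a := by
      rw [div_lt_iff₀ i4] at i2
      rw [div_lt_iff₀ hgap] at i3
      have : (w i : ℝ) ≤ 2 * n i * a := by nlinarith
      exact_mod_cast this
    have := (hA1 (w i) (2 * n i * a) (2 * n i * b) hwi k3).trans (hA2 (w i) _ _ hwi k1)
    linarith
  · intro L' hL'
    obtain ⟨a, b, ha, hb, hab, hev⟩ := up (L' - L) (by linarith)
    have haR : (0:ℝ) < a := by exact_mod_cast ha
    have hbR : (0:ℝ) < b := by exact_mod_cast hb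
    set n : ι → ℕ := fun i => h i / (2 * b) + 1 with hn
    have hn0 : Tendsto (fun i => h i / (2 * b)) l atTop :=
      (Nat.tendsto_div_const_atTop (by omega)).comp hh
    have hntop : Tendsto n l atTop := tendsto_atTop_mono (fun i => Nat.le_succ _) hn0
    have hev' := hntop.eventually hev
    obtain ⟨μ, hμ1, hμ2⟩ := exists_between hab
    have e1 : ∀ᶠ i in l, μ < (w i : ℝ) / h i := hr.eventually (lt_mem_nhds hμ2)
    have hμ0 : 0 < μ := (div_pos haR hbR).trans hμ1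
    have hgap : 0 < 2 * b * μ - 2 * (a : ℝ) := by
      rw [div_lt_iff₀ hbR] at hμ1
      nlinarith
    have hnR : Tendsto (fun i => (n i : ℝ)) l atTop := tendsto_natCast_atTop_atTop.comp hntop
    have e2 : ∀ᶠ i in l, 2 * b * μ / (2 * b * μ - 2 * (a : ℝ)) < n i := hnR.eventually_gt_atTop _
    filter_upwards [hev', e1, e2, hhR.eventually_gt_atTop 0, hwR.eventually_gt_atTop 0]
      with i i1 i2 i3 i4 i5
    have hwi : 0 < w i := by exact_mod_cast i5
    have k1 : h i ≤ 2 * n i * b := by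
      have := Nat.lt_div_mul_add (a := h i) (b := 2 * b) (by omega)
      simp only [hn]
      calc h i ≤ h i / (2 * b) * (2 * b) + 2 * b := this.le
        _ = 2 * (h i / (2 * b) + 1) * b := by ring
    have k2 : 2 * b * ((n i : ℝ) - 1) ≤ h i := by
      have := Nat.div_mul_le_self (h i) (2 * b)
      have h2 : ((h i / (2 * b) : ℕ) : ℝ) * (2 * b) ≤ h i := by exact_mod_cast this
      simp only [hn]
      push_cast
      linarith
    have k3 : 2 * n i * a ≤ w i := by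
      rw [lt_div_iff₀ i4] at i2
      rw [div_lt_iff₀ hgap] at i3
      have : (2 * n i * a : ℝ) ≤ w i := by nlinarith
      exact_mod_cast this
    have hpos : 0 < 2 * n i * a := by simp only [hn]; positivity
    have := (hA2 (w i) _ _ hwi k1).trans (hA1 (2 * n i * a) (w i) (2 * n i * b) hpos k3)
    linarith

/-- The input: Cardy's formula for the rectangle shapes. -/
def CardyRects : Prop := ∀ (a b : ℕ) (ha : 0 < a) (hb : 0 < b),
  ∃ (φ : ℂ → ℂ) (a0 b0 : ℂ) (x : Fin 4 → ℝ), IsHalf (Rc a b) a0 b0 φ ∧ Cn a b φ x ∧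
    Tendsto (fun h => qn (RS a b ha hb) h) atTop (𝓝 (cardy (cr x)))

/-- limits along the shapes -/
lemma lim_shape (hC : CardyRects) {a b : ℕ} (ha : 0 < a) (hb : 0 < b) :
    ∃ m' ∈ Ioo (0:ℝ) 1, (a : ℝ) / b = KE m' / KE (1 - m') ∧
      Tendsto (fun n : ℕ => AR (2 * n * a) (2 * n * b)) atTop (𝓝 (cardy (1 - m'))) := by
  obtain ⟨φ, a0, b0, x, h1, h2, h3⟩ := hC a b ha hb
  have hcr := cr_mem h2.mono
  have haR : (0:ℝ) < a := Nat.cast_pos.2 ha
  have hbR : (0:ℝ) < b := Nat.cast_pos.2 hb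
  refine ⟨cr x, hcr, rect_modulus haR hbR h1 h2, ?_⟩
  have h4 : Tendsto (fun h => 1 - qn (RS a b ha hb) h) atTop (𝓝 (1 - cardy (cr x))) :=
    h3.const_sub 1
  rw [← cardy_symm ⟨hcr.1.le, hcr.2.le⟩] at h4
  refine h4.congr' ?_
  filter_upwards [eventually_gt_atTop 0] with n hn
  have h5 := qn_rect ha hb hn
  linarith

/-- a rational number between two reals as a quotient of positive integers -/
lemma exists_frac {u v : ℝ} (hu : 0 < u) (huv : u < v) : ∃ a b : ℕ, 0 < a ∧ 0 < b ∧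
    u < (a : ℝ) / b ∧ (a : ℝ) / b < v := by
  obtain ⟨q, q1, q2⟩ := exists_rat_btwn huv
  have hq0 : (0:ℝ) < q := hu.trans q1
  have hq0' : 0 < q := Rat.cast_pos.1 hq0
  have hnum : (0:ℤ) < q.num := Rat.num_pos.2 hq0'
  have hq : (q : ℝ) = ((q.num.toNat : ℕ) : ℝ) / (q.den : ℝ) := by
    have e1 : ((q.num.toNat : ℕ) : ℝ) = ((q.num : ℤ) : ℝ) := by
      have : ((q.num.toNat : ℕ) : ℤ) = q.num := Int.toNat_of_nonneg hnum.le
      rw [← Int.cast_natCast, this]
    rw [e1, Rat.cast_def]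
  refine ⟨q.num.toNat, q.den, by omega, q.den_pos, ?_, ?_⟩
  · rw [← hq]; exact q1
  · rw [← hq]; exact q2

lemma cardy_anti {m1 m2 : ℝ} (h1 : m1 ∈ Ioo (0:ℝ) 1) (h2 : m2 ∈ Ioo (0:ℝ) 1) (h : m1 < m2) :
    cardy (1 - m2) < cardy (1 - m1) :=
  cardy_strictMono ⟨by linarith [h2.2], by linarith [h2.1]⟩
    ⟨by linarith [h1.2], by linarith [h1.1]⟩ (by linarith)

lemma cardy_cont_one_sub {m : ℝ} (hm : m ∈ Ioo (0:ℝ) 1) :
    ContinuousAt (fun m => cardy (1 - m)) m := by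
  have h1 : ContinuousAt cardy (1 - m) :=
    (cardy_cont.continuousAt (Icc_mem_nhds (by linarith [hm.2]) (by linarith [hm.1])))
  exact ContinuousAt.comp (f := fun m : ℝ => 1 - m) (g := cardy) h1
    (continuousAt_const.sub continuousAt_id)

lemma lt_of_ratio {m1 m2 : ℝ} (h1 : m1 ∈ Ioo (0:ℝ) 1) (h2 : m2 ∈ Ioo (0:ℝ) 1)
    (h : KE m1 / KE (1 - m1) < KE m2 / KE (1 - m2)) : m1 < m2 :=
  (ratio_strictMono.lt_iff_lt h1 h2).1 h

lemma lower_shape (hC : CardyRects) {m : ℝ} (hm : m ∈ Ioo (0:ℝ) 1) {ε : ℝ} (hε : 0 < ε) :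
    ∃ a b : ℕ, 0 < a ∧ 0 < b ∧ KE m / KE (1 - m) < (a : ℝ) / b ∧
      ∀ᶠ n : ℕ in atTop, cardy (1 - m) - ε < AR (2 * n * a) (2 * n * b) := by
  have hlam : 0 < KE m / KE (1 - m) := div_pos (KE_pos hm.2) (KE_pos (by linarith [hm.1]))
  have h1 : ∀ᶠ m' in 𝓝 m, cardy (1 - m) - ε < cardy (1 - m') :=
    (cardy_cont_one_sub hm).eventually (lt_mem_nhds (by linarith))
  have h2 : ∀ᶠ m' in 𝓝[>] m, cardy (1 - m) - ε < cardy (1 - m') ∧ m' ∈ Ioo m 1 := by
    filter_upwards [h1.filter_mono nhdsWithin_le_nhds, Ioo_mem_nhdsGT hm.2] with m' a1 a2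
    exact ⟨a1, a2⟩
  obtain ⟨m', k1, k2⟩ := h2.exists
  have hm' : m' ∈ Ioo (0:ℝ) 1 := ⟨hm.1.trans k2.1, k2.2⟩
  have h3 : KE m / KE (1 - m) < KE m' / KE (1 - m') := ratio_strictMono hm hm' k2.1
  obtain ⟨a, b, ha, hb, q1, q2⟩ := exists_frac hlam h3
  obtain ⟨m1, hm1, e1, e2⟩ := lim_shape hC ha hb
  refine ⟨a, b, ha, hb, q1, ?_⟩
  rw [e1] at q2
  exact e2.eventually (lt_mem_nhds (k1.trans (cardy_anti hm1 hm' (lt_of_ratio hm1 hm' q2))))

lemma upper_shape (hC : CardyRects) {m : ℝ} (hm : m ∈ Ioo (0:ℝ) 1) {ε : ℝ} (hε : 0 < ε) :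
    ∃ a b : ℕ, 0 < a ∧ 0 < b ∧ (a : ℝ) / b < KE m / KE (1 - m) ∧
      ∀ᶠ n : ℕ in atTop, AR (2 * n * a) (2 * n * b) < cardy (1 - m) + ε := by
  have h1 : ∀ᶠ m' in 𝓝 m, cardy (1 - m') < cardy (1 - m) + ε :=
    (cardy_cont_one_sub hm).eventually (gt_mem_nhds (by linarith))
  have h2 : ∀ᶠ m' in 𝓝[<] m, cardy (1 - m') < cardy (1 - m) + ε ∧ m' ∈ Ioo 0 m := by
    filter_upwards [h1.filter_mono nhdsWithin_le_nhds, Ioo_mem_nhdsLT hm.1] with m' a1 a2
    exact ⟨a1, a2⟩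
  obtain ⟨m', k1, k2⟩ := h2.exists
  have hm' : m' ∈ Ioo (0:ℝ) 1 := ⟨k2.1, k2.2.trans hm.2⟩
  have hlam' : 0 < KE m' / KE (1 - m') := div_pos (KE_pos hm'.2) (KE_pos (by linarith [hm'.1]))
  have h3 : KE m' / KE (1 - m') < KE m / KE (1 - m) := ratio_strictMono hm' hm k2.2
  obtain ⟨a, b, ha, hb, q1, q2⟩ := exists_frac hlam' h3
  obtain ⟨m1, hm1, e1, e2⟩ := lim_shape hC ha hb
  refine ⟨a, b, ha, hb, q2, ?_⟩
  rw [e1] at q1
  exact e2.eventually (gt_mem_nhds ((cardy_anti hm' hm1 (lt_of_ratio hm' hm1 q1)).trans k1))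

/-- **Cardy's formula for rectangles of the tile grid**, all integer sequences of side lengths. -/
theorem AR_tendsto (hC : CardyRects) {m : ℝ} (hm : m ∈ Ioo (0:ℝ) 1) {ι : Type*} {l : Filter ι}
    {w h : ι → ℕ} (hh : Tendsto h l atTop)
    (hr : Tendsto (fun i => (w i : ℝ) / h i) l (𝓝 (KE m / KE (1 - m)))) :
    Tendsto (fun i => AR (w i) (h i)) l (𝓝 (cardy (1 - m))) :=
  sandwich (A := AR) (fun w w' h hw hww => AR_anti hw hww) (fun w h h' hw hh => AR_mono hw hh)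
    (div_pos (KE_pos hm.2) (KE_pos (by linarith [hm.1])))
    (fun ε hε => lower_shape hC hm hε) (fun ε hε => upper_shape hC hm hε) hh hr

end Pool.Agent.H57.FM
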