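import Pool.Agent.H57.FM.RectPC
import Pool.Agent.H57.FM.Sandwich
import Pool.Agent.H19.Rado.Shape
import Pool.Agent.H21.FM.Final2

set_option autoImplicit false
open Filter Topology Set

/-! # Cardy's formula for rectangles whose sides are diagonal for `ℤ²` (R45)

`CardyRects` from the holomorphy of the limits (`Hol3`) for the rectangle shapes, and the limit of the
crossing probability of `{0 < x + y < a, 0 < y - x < b}` as the mesh `δ → 0`, all real `δ`. -/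

namespace Pool.Agent.H57.FM

open Pool.Agent.Q1.M4 (Cell Reg Om rect pt mem_rect tail)
open Pool.Agent.H69.Car (IsHalf)
open Pool.Agent.H21.FM (qn Hol3 cardyShape)
open Pool.Agent.H19.RH (Cht cc lam exists_cht SS)
open Pool.Agent.H14.FM (ic ic_mono)
open Pool.Agent.H13.Q1.Four (cardy)

lemma Reg_rect {a b : ℕ} (ha : 0 < a) (hb : 0 < b) :
    Reg (RQ a b) ic ic = Icc (0:ℝ) a ×ℂ Icc (0:ℝ) b := by
  have key : ∀ (n : ℕ) (t : ℝ), 0 < n → 0 ≤ t → t ≤ n →
      ∃ i : ℤ, 0 ≤ i ∧ i < n ∧ (i : ℝ) ≤ t ∧ t ≤ ((i + 1 : ℤ) : ℝ) := by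
    intro n t hn h0 h1
    by_cases h2 : t < n
    · refine ⟨⌊t⌋, Int.floor_nonneg.2 h0, ?_, Int.floor_le t, ?_⟩
      · rw [Int.floor_lt]
        exact_mod_cast h2
      · push_cast
        exact (Int.lt_floor_add_one t).le
    · have h3 : t = n := le_antisymm h1 (not_lt.1 h2)
      refine ⟨(n : ℤ) - 1, by omega, by omega, ?_, ?_⟩
      · rw [h3]; push_cast; linarith
      · rw [h3]; push_cast; linarith
  ext z
  rw [Complex.mem_reProdIm]
  constructor
  · rintro ⟨c, hc, hz⟩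
    rw [mem_RQ] at hc
    rw [mem_rect] at hz
    obtain ⟨⟨h1, h2⟩, h3, h4⟩ := hz
    have g1 : (0:ℝ) ≤ (c.1 : ℝ) := by exact_mod_cast hc.1.1
    have g2 : (((c.1 + 1 : ℤ)) : ℝ) ≤ a := by
      have : c.1 + 1 ≤ (a : ℤ) := by omega
      exact_mod_cast this
    have g3 : (0:ℝ) ≤ (c.2 : ℝ) := by exact_mod_cast hc.2.1
    have g4 : (((c.2 + 1 : ℤ)) : ℝ) ≤ b := by
      have : c.2 + 1 ≤ (b : ℤ) := by omega
      exact_mod_cast this
    simp only [ic] at h1 h2 h3 h4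
    exact ⟨⟨g1.trans h1, h2.trans g2⟩, g3.trans h3, h4.trans g4⟩
  · rintro ⟨⟨h1, h2⟩, h3, h4⟩
    obtain ⟨i, i1, i2, i3, i4⟩ := key a z.re ha h1 h2
    obtain ⟨j, j1, j2, j3, j4⟩ := key b z.im hb h3 h4
    exact ⟨(i, j), mem_RQ.2 ⟨⟨i1, i2⟩, j1, j2⟩, mem_rect.2 ⟨⟨i3, i4⟩, j3, j4⟩⟩

lemma Om_rect {a b : ℕ} (ha : 0 < a) (hb : 0 < b) : Om (RQ a b) ic ic = Rc a b := by
  unfold Om
  rw [Reg_rect ha hb, Complex.interior_reProdIm, interior_Icc, interior_Icc]
  rfl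

/-- **Cardy's formula for the rectangle shapes from `Hol3`.** -/
theorem cardyRects_of_hol3 (hol : ∀ (a b : ℕ) (ha : 0 < a) (hb : 0 < b), Hol3 (RS a b ha hb)) :
    CardyRects := by
  intro a b ha hb
  obtain ⟨φ, C⟩ := exists_cht (RP a b ha hb) ic_mono ic_mono
  have hH := C.half
  change IsHalf (Om (RQ a b) ic ic) _ _ φ at hH
  rw [Om_rect ha hb] at hH
  have hN : (RP a b ha hb).N = 2 * a + 2 * b := rfl
  set P := RP a b ha hb with hP
  set x : Fin 4 → ℝ := ![cc P ic ic φ P.N, cc P ic ic φ (P.N + a), cc P ic ic φ (P.N + (a + b)),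
    cc P ic ic φ (P.N + (2 * a + b))] with hx
  have s0 : P.N ∈ SS P := Finset.mem_Ico.2 ⟨le_rfl, by omega⟩
  have s1 : P.N + a ∈ SS P := Finset.mem_Ico.2 ⟨by omega, by omega⟩
  have s2 : P.N + (a + b) ∈ SS P := Finset.mem_Ico.2 ⟨by omega, by omega⟩
  have s3 : P.N + (2 * a + b) ∈ SS P := Finset.mem_Ico.2 ⟨by omega, by omega⟩
  have l01 : x 0 < x 1 := (C.cc_lt s0 s1).2 (by omega)
  have l12 : x 1 < x 2 := (C.cc_lt s1 s2).2 (by omega)
  have l23 : x 2 < x 3 := (C.cc_lt s2 s3).2 (by omega)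
  have hmono : StrictMono x := by
    rw [Fin.strictMono_iff_lt_succ]
    intro i
    fin_cases i
    · exact l01
    · exact l12
    · exact l23
  have v : ∀ m : ℕ, m < P.N → φ (cc P ic ic φ (P.N + m)) = pt ic ic (P.vert m) := fun m hm =>
    Pool.Agent.H19.Rado.phi_cc C hm
  have hv : ∀ m : ℕ, m ≤ 2 * a + 2 * b → P.vert m = tail (sd a b m) := fun m hm => by
    unfold Q1.M4.PType.vert
    rw [hP, RP_side ha hb hm]
  refine ⟨φ, _, _, x, hH, ⟨hmono, ?_, ?_, ?_, ?_⟩, ?_⟩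
  · have := v 0 (by omega)
    rw [add_zero, hv 0 (by omega)] at this
    change φ (cc P ic ic φ P.N) = 0
    rw [this]
    unfold sd
    rw [if_pos ha]
    apply Complex.ext <;> simp [pt, tail, ic]
  · have := v a (by omega)
    rw [hv a (by omega)] at this
    change φ (cc P ic ic φ (P.N + a)) = _
    rw [this]
    unfold sd
    rw [if_neg (by omega), if_pos (by omega)]
    apply Complex.ext <;> simp [pt, tail, ic]
  · have := v (a + b) (by omega)
    rw [hv (a + b) (by omega)] at this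
    change φ (cc P ic ic φ (P.N + (a + b))) = _
    rw [this]
    unfold sd
    rw [if_neg (by omega), if_neg (by omega), if_pos (by omega)]
    apply Complex.ext <;> simp [pt, tail, ic]
    ring
  · have := v (2 * a + b) (by omega)
    rw [hv (2 * a + b) (by omega)] at this
    change φ (cc P ic ic φ (P.N + (2 * a + b))) = _
    rw [this]
    unfold sd
    rw [if_neg (by omega), if_neg (by omega), if_neg (by omega), if_pos (by omega)]
    apply Complex.ext <;> simp [pt, tail, ic]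
    ring
  · have h5 := cardyShape (RS a b ha hb) (φ := φ) C (hol a b ha hb)
    exact h5

/-- **Cardy's formula for the rectangle `{0 < x + y < a, 0 < y - x < b}`**: the probability that critical
bond percolation on `δ ℤ²` contains an open crossing between the sides `x + y = 0` and `x + y = a`
converges, as `δ → 0`, to Cardy's value. -/
theorem R45_of_cardyRects (hC : CardyRects) {m : ℝ} (hm : m ∈ Ioo (0:ℝ) 1) {a b : ℝ}
    (ha : 0 < a) (hb : 0 < b) (hab : a / b = KE m / KE (1 - m)) :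
    Tendsto (fun δ => PC (D45 a b) (S45 b 0) (S45 b a) δ) (𝓝[>] 0) (𝓝 (cardy (1 - m))) := by
  have hinv : Tendsto (fun δ : ℝ => δ⁻¹) (𝓝[>] 0) atTop := tendsto_inv_nhdsGT_zero
  have hdiv : ∀ c : ℝ, 0 < c → Tendsto (fun δ : ℝ => c / δ) (𝓝[>] 0) atTop := by
    intro c hc
    simp only [div_eq_mul_inv]
    exact hinv.const_mul_atTop hc
  set M : ℝ → ℕ := fun δ => ⌈a / δ⌉₊ with hM
  set K : ℝ → ℕ := fun δ => ⌈b / δ⌉₊ with hK
  have hMt : Tendsto M (𝓝[>] 0) atTop := tendsto_nat_ceil_atTop.comp (hdiv a ha)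
  have hKt : Tendsto K (𝓝[>] 0) atTop := tendsto_nat_ceil_atTop.comp (hdiv b hb)
  have hδ0 : ∀ᶠ δ : ℝ in 𝓝[>] 0, 0 < δ := self_mem_nhdsWithin
  have hδt : Tendsto (fun δ : ℝ => δ) (𝓝[>] 0) (𝓝 0) := tendsto_id.mono_left nhdsWithin_le_nhds
  -- `δ M → a`, `δ K → b`
  have hscale : ∀ (c : ℝ), 0 < c → ∀ k : ℕ, Tendsto (fun δ : ℝ => δ * ((⌈c / δ⌉₊ - k : ℕ) : ℝ)) (𝓝[>] 0)
      (𝓝 c) := by
    intro c hc k
    have h1 : Tendsto (fun δ : ℝ => c - k * δ) (𝓝[>] 0) (𝓝 c) := by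
      have := (hδt.const_mul (k : ℝ)).const_sub c
      rwa [mul_zero, sub_zero] at this
    have h2 : Tendsto (fun δ : ℝ => c + δ) (𝓝[>] 0) (𝓝 c) := by
      have := hδt.const_add c
      rwa [add_zero] at this
    refine tendsto_of_tendsto_of_tendsto_of_le_of_le' h1 h2 ?_ ?_
    · filter_upwards [hδ0] with δ hδ
      have h3 : c / δ ≤ ⌈c / δ⌉₊ := Nat.le_ceil _
      have h4 : (⌈c / δ⌉₊ : ℝ) - k ≤ ((⌈c / δ⌉₊ - k : ℕ) : ℝ) := by
        rw [sub_le_iff_le_add]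
        have h5 : ⌈c / δ⌉₊ ≤ ⌈c / δ⌉₊ - k + k := by omega
        exact_mod_cast h5
      rw [div_le_iff₀ hδ] at h3
      nlinarith
    · filter_upwards [hδ0] with δ hδ
      have h3 : (⌈c / δ⌉₊ : ℝ) < c / δ + 1 := Nat.ceil_lt_add_one (by positivity)
      have h4 : ((⌈c / δ⌉₊ - k : ℕ) : ℝ) ≤ ⌈c / δ⌉₊ := by exact_mod_cast Nat.sub_le _ _
      have h5 : δ * ((⌈c / δ⌉₊ - k : ℕ) : ℝ) ≤ δ * (c / δ + 1) :=
        mul_le_mul_of_nonneg_left (h4.trans h3.le) hδ.le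
      have h6 : δ * (c / δ + 1) = c + δ := by field_simp
      linarith
  have hratio : ∀ k k' : ℕ, Tendsto (fun δ => ((M δ - k : ℕ) : ℝ) / ((K δ - k' : ℕ) : ℝ)) (𝓝[>] 0)
      (𝓝 (KE m / KE (1 - m))) := by
    intro k k'
    rw [← hab]
    refine ((hscale a ha k).div (hscale b hb k') hb.ne').congr' ?_
    filter_upwards [hδ0] with δ hδ
    rw [Pi.div_apply, mul_div_mul_left _ _ hδ.ne']
  have hlow : Tendsto (fun δ => AR (M δ - 2) (K δ - 2)) (𝓝[>] 0) (𝓝 (cardy (1 - m))) :=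
    AR_tendsto hC hm (tendsto_sub_atTop_nat 2 |>.comp hKt) (hratio 2 2)
  have hup : Tendsto (fun δ => AR (M δ - 4) (K δ)) (𝓝[>] 0) (𝓝 (cardy (1 - m))) :=
    AR_tendsto hC hm hKt (by simpa using hratio 4 0)
  refine tendsto_of_tendsto_of_tendsto_of_le_of_le' hlow hup ?_ ?_
  · filter_upwards [hδ0, hMt.eventually_ge_atTop 6, hKt.eventually_ge_atTop 6] with δ h1 h2 h3
    exact PC_lower h1 (Nat.le_ceil _) (Nat.ceil_lt_add_one (by positivity))
      (Nat.ceil_lt_add_one (by positivity)) h2 h3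
  · filter_upwards [hδ0, hMt.eventually_ge_atTop 6] with δ h1 h2
    exact PC_upper h1 (Nat.ceil_lt_add_one (by positivity)) (Nat.le_ceil _) h2

/-- R45 from the holomorphy of the limits for the rectangle shapes. -/
theorem R45_of_hol3 (hol : ∀ (a b : ℕ) (ha : 0 < a) (hb : 0 < b), Hol3 (RS a b ha hb))
    {m : ℝ} (hm : m ∈ Ioo (0:ℝ) 1) {a b : ℝ} (ha : 0 < a) (hb : 0 < b)
    (hab : a / b = KE m / KE (1 - m)) :
    Tendsto (fun δ => PC (D45 a b) (S45 b 0) (S45 b a) δ) (𝓝[>] 0) (𝓝 (cardy (1 - m))) :=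
  R45_of_cardyRects (cardyRects_of_hol3 hol) hm ha hb hab

end Pool.Agent.H57.FM
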