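import Mathlib
import Pool.Agent.H75.Perc.Rect
import Pool.Agent.H75.Perc.Prob

set_option autoImplicit false
open Finset

/-! # Crossing probabilities of a domain: definitions

The vertex `v` of `ℤ²` has the position `ps δ v = δ (v.1 + v.2 i)` in `δ ℤ²`. The edge `{u, v}` is
identified with `u + v` (twice its midpoint). `EL D δ` = the edges with both end points in `D`. The open
edges are a uniformly random subset of `EL D δ`. `Cross D A B δ ω` = there is a path of open edges whose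
vertices are all in `D`, from a vertex at distance at most `δ` from `A` to a vertex at distance at most
`δ` from `B`. -/

namespace Pool.Agent.H57.FM

open Pool.Agent.H75.Perc (Ad Co IsUnit4 Pr Pr_congr Pr_restrict)

lemma rtg_mono {α : Type*} {r p : α → α → Prop} (h : ∀ a b, r a b → p a b) {a b : α}
    (hab : Relation.ReflTransGen r a b) : Relation.ReflTransGen p a b := by
  induction hab with
  | refl => exact Relation.ReflTransGen.refl
  | tail _ hbc ih => exact ih.tail (h _ _ hbc)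

/-- position of a vertex -/
noncomputable def ps (δ : ℝ) (v : ℤ × ℤ) : ℂ := (δ : ℂ) * ((v.1 : ℂ) + (v.2 : ℂ) * Complex.I)

/-- edges of `δ ℤ²` with both end points in `D` -/
def ELs (D : Set ℂ) (δ : ℝ) : Set (ℤ × ℤ) :=
  {e | ∃ u v : ℤ × ℤ, IsUnit4 (v - u) ∧ ps δ u ∈ D ∧ ps δ v ∈ D ∧ e = u + v}

open Classical in
/-- the same as a finite set (`D` bounded, `0 < δ`) -/
noncomputable def EL (D : Set ℂ) (δ : ℝ) : Finset (ℤ × ℤ) :=
  if h : (ELs D δ).Finite then h.toFinset else ∅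

/-- **Crossing event** -/
def Cross (D A B : Set ℂ) (δ : ℝ) (ω : Finset (ℤ × ℤ)) : Prop :=
  ∃ u v : ℤ × ℤ, ps δ u ∈ D ∧ (∃ a ∈ A, dist (ps δ u) a ≤ δ) ∧ (∃ b ∈ B, dist (ps δ v) b ≤ δ) ∧
    Relation.ReflTransGen (fun x y => Ad ω x y ∧ ps δ y ∈ D) u v

/-- **Crossing probability** -/
noncomputable def PC (D A B : Set ℂ) (δ : ℝ) : ℝ := Pr (EL D δ) (Cross D A B δ)

lemma ps_re (δ : ℝ) (v : ℤ × ℤ) : (ps δ v).re = δ * v.1 := by
  unfold ps
  simp

lemma ps_im (δ : ℝ) (v : ℤ × ℤ) : (ps δ v).im = δ * v.2 := by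
  unfold ps
  simp

lemma finite_ps {D : Set ℂ} (hD : Bornology.IsBounded D) {δ : ℝ} (hδ : 0 < δ) :
    {v : ℤ × ℤ | ps δ v ∈ D}.Finite := by
  obtain ⟨R, hR⟩ := hD.exists_norm_le
  set K : ℤ := ⌈R / δ⌉ with hK
  refine ((Set.finite_Icc (-K) K).prod (Set.finite_Icc (-K) K)).subset ?_
  intro v hv
  have h1 := hR _ hv
  have key : ∀ n : ℤ, |δ * (n : ℝ)| ≤ R → n ∈ Set.Icc (-K) K := by
    intro n hn
    rw [abs_mul, abs_of_pos hδ] at hn
    have h2 : |(n : ℝ)| ≤ K := by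
      refine le_trans ?_ (Int.le_ceil (R / δ))
      rw [le_div_iff₀ hδ]
      linarith
    rw [abs_le] at h2
    constructor
    · have := h2.1
      exact_mod_cast this
    · exact_mod_cast h2.2
  refine ⟨key v.1 ?_, key v.2 ?_⟩
  · rw [← ps_re]
    exact (Complex.abs_re_le_norm _).trans h1
  · rw [← ps_im]
    exact (Complex.abs_im_le_norm _).trans h1

lemma finite_ELs {D : Set ℂ} (hD : Bornology.IsBounded D) {δ : ℝ} (hδ : 0 < δ) :
    (ELs D δ).Finite := by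
  refine (((finite_ps hD hδ).prod (finite_ps hD hδ)).image fun p => p.1 + p.2).subset ?_
  rintro e ⟨u, v, -, h1, h2, rfl⟩
  exact ⟨(u, v), ⟨h1, h2⟩, rfl⟩

lemma mem_EL {D : Set ℂ} (hD : Bornology.IsBounded D) {δ : ℝ} (hδ : 0 < δ) {e : ℤ × ℤ} :
    e ∈ EL D δ ↔ ∃ u v : ℤ × ℤ, IsUnit4 (v - u) ∧ ps δ u ∈ D ∧ ps δ v ∈ D ∧ e = u + v := by
  unfold EL
  rw [dif_pos (finite_ELs hD hδ), Set.Finite.mem_toFinset]
  rfl

/-- the crossing event only depends on the edges inside `D` -/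
lemma cross_inter {D A B : Set ℂ} (hD : Bornology.IsBounded D) {δ : ℝ} (hδ : 0 < δ)
    (ω : Finset (ℤ × ℤ)) : Cross D A B δ (ω ∩ EL D δ) ↔ Cross D A B δ ω := by
  constructor
  · rintro ⟨u, v, h1, h2, h3, h4⟩
    exact ⟨u, v, h1, h2, h3, 
      rtg_mono (fun x y h => ⟨⟨h.1.1, (mem_inter.1 h.1.2).1⟩, h.2⟩) h4⟩
  · rintro ⟨u, v, h1, h2, h3, h4⟩
    refine ⟨u, v, h1, h2, h3, ?_⟩
    have key : ∀ w, Relation.ReflTransGen (fun x y => Ad ω x y ∧ ps δ y ∈ D) u w → ps δ w ∈ D ∧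
        Relation.ReflTransGen (fun x y => Ad (ω ∩ EL D δ) x y ∧ ps δ y ∈ D) u w := by
      intro w hw
      induction hw with
      | refl => exact ⟨h1, Relation.ReflTransGen.refl⟩
      | @tail x y _ hxy ih =>
        refine ⟨hxy.2, ih.2.tail ⟨⟨hxy.1.1, mem_inter.2 ⟨hxy.1.2, ?_⟩⟩, hxy.2⟩⟩
        exact (mem_EL hD hδ).2 ⟨x, y, hxy.1.1, ih.1, hxy.2, rfl⟩
    exact (key v h4).2

/-- the probability may be computed in any larger set of edges -/
lemma PC_eq {D A B : Set ℂ} (hD : Bornology.IsBounded D) {δ : ℝ} (hδ : 0 < δ)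
    {E : Finset (ℤ × ℤ)} (hE : EL D δ ⊆ E) : PC D A B δ = Pr E (Cross D A B δ) := by
  unfold PC
  rw [← Pr_restrict hE]
  exact Pr_congr fun ω _ => cross_inter hD hδ ω

lemma Cross.mono_set {D A B : Set ℂ} {δ : ℝ} {ω ω' : Finset (ℤ × ℤ)} (h : Cross D A B δ ω)
    (hω : ω ⊆ ω') : Cross D A B δ ω' := by
  obtain ⟨u, v, h1, h2, h3, h4⟩ := h
  exact ⟨u, v, h1, h2, h3,
    rtg_mono (fun x y h => ⟨⟨h.1.1, hω h.1.2⟩, h.2⟩) h4⟩

end Pool.Agent.H57.FM
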