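import Mathlib
import Pool.Agent.H44.FM.Wi6

set_option autoImplicit false
open Finset Filter

/-! # Neighbours: `NbW` for every outside

The potential difference of two neighbouring vertices is bounded in every configuration of the layer and of
the ties: the path has at most two corners, the coefficients and the increments have norm at most one. -/

namespace Pool.Agent.H57.FM

open Pool.Agent.Q1 Pool.Agent.H39.Q1
open Pool.Agent.Q1.M6e (LC La mem_LC norm_La)
open Pool.Agent.Q1.M6e.Wn (DatW)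
open Pool.Agent.H46.Sp (Win)
open Pool.Agent.H74.Win (OutB EN)
open Pool.Agent.H31.Sp (Kp)
open Pool.Agent.H13.Sp (TA FR LBA)
open Pool.Agent.H44.FM.Wi (NbW caseD)
open Pool.Agent.H33.Q1 (lt)

/-- few corners -/
lemma HV_card {ι κ : Type} [DecidableEq ι] [DecidableEq κ] {d : DatW ι κ} {Cs : Finset (ℤ × ℤ)}
    {a : ℤ × ℤ → ℂ} (h1 : d.B ⊆ d.X.E) (h2 : d.Bb ⊆ d.X.E) (h3 : d.TT ⊆ d.X.E)
    (ha : ∀ c ∈ Cs, ‖a c‖ ≤ 1) : d.HV Cs a Cs.card := by
  intro ω hω P _
  unfold VM
  refine (Ec_half_norm (g := fun _ => (Cs.card : ℝ)) fun ω' hω' => ?_).trans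
    (le_of_eq (Pool.Agent.H99.NC.Ex_const _ _ _))
  have h4 : ω ∪ ω' ∪ opn d.TT d.fm d.co P ⊆ d.X.E := by
    refine union_subset (union_subset (hω.trans h1) (hω'.trans (sdiff_subset.trans h2))) ?_
    unfold opn
    exact (filter_subset _ _).trans h3
  unfold Pool.Agent.H39.Q1.U
  refine (norm_sum_le _ _).trans ?_
  refine (sum_le_sum (g := fun _ => (1 : ℝ)) fun c hc => ?_).trans (by simp)
  rw [norm_mul]
  calc ‖a c‖ * ‖d.X.incO (ω ∪ ω' ∪ opn d.TT d.fm d.co P) c‖ ≤ 1 * 1 :=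
        mul_le_mul (ha c hc) (Pool.Agent.Q1.Env.incO_norm h4 c) (norm_nonneg _) (by norm_num)
    _ = 1 := one_mul 1

/-- the path between neighbours has at most two corners -/
lemma card_LC {a b : ℤ × ℤ} (h1 : |a.1 - b.1| ≤ 1) (h2 : |a.2 - b.2| ≤ 1) :
    (LC a.1 a.2 b.1 b.2).card ≤ 2 := by
  unfold LC
  refine (card_union_le _ _).trans ?_
  have e1 := card_image_le (s := Ico (min a.1 b.1) (max a.1 b.1))
    (f := fun i => Pool.Agent.H74.R45.he (i, a.2))
  have e2 := card_image_le (s := Ico (min a.2 b.2) (max a.2 b.2))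
    (f := fun l => Pool.Agent.H74.R45.ve (b.1, l))
  rw [Int.card_Ico] at e1 e2
  rw [abs_le] at h1 h2
  have e3 : (max a.1 b.1 - min a.1 b.1).toNat ≤ 1 := by omega
  have e4 : (max a.2 b.2 - min a.2 b.2).toNat ≤ 1 := by omega
  omega

/-- **`NbW` for every outside.** -/
theorem nbW (R : ℕ → ℕ) (F : Filter ℕ) {D : ℕ → Win} (O : ∀ j, OutB (D j)) (s0 : ℕ → ℤ) {H : ℤ}
    {A B : ℤ → ℤ} (w0 : Kp H A B) : NbW R F O s0 w0 := by
  refine ⟨2, Eventually.of_forall fun j p L m a b h1 h2 S hS => ?_⟩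
  have hE : (caseD (O j) (R j) H A B p (s0 j) L m S hS w0 a b).d.X.E = EN (D j) p ∪ TA (D j) p := rfl
  have key := HV_card (d := (caseD (O j) (R j) H A B p (s0 j) L m S hS w0 a b).d)
    (Cs := (caseD (O j) (R j) H A B p (s0 j) L m S hS w0 a b).Cs)
    (a := (caseD (O j) (R j) H A B p (s0 j) L m S hS w0 a b).a) ?_ ?_ ?_ ?_
  · intro ω hω P hP
    refine (key ω hω P hP).trans ?_
    have := card_LC h1 h2
    exact_mod_cast this
  · rw [hE]
    refine subset_trans ?_ subset_union_left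
    show LBA (D j) p (m + 1) ⊆ EN (D j) p
    intro e he
    obtain ⟨x, y, rfl⟩ : ∃ x y, e = lt (x, y) := by
      unfold LBA Pool.Agent.H74.Win.TB at he
      obtain ⟨t, -, rfl⟩ := mem_image.1 he
      exact ⟨t.1, t.2, rfl⟩
    rw [Pool.Agent.H13.Sp.mem_LBA] at he
    exact Pool.Agent.H74.Win.mem_EN.2 he.1
  · rw [hE]; exact subset_union_left
  · rw [hE]; exact subset_union_right
  · intro c _
    exact le_of_eq (norm_La _ _ _ _ _)

end Pool.Agent.H57.FM
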