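import Pool.Agent.H57.FM.Chart

set_option autoImplicit false
open Set Metric Filter Topology Complex
open scoped Real ComplexConjugate

/-! # Convergence of convex domains and of their half plane charts -/

namespace Pool.Agent.H57.FM

open Pool.Agent.H69.Car Pool.Agent.H19.Rado
open Pool.Agent.H81.Q1 (IsJordanDomain)

/-- a segment which leaves `D` meets its boundary -/
lemma seg_frontier {D : Set ℂ} {x y : ℂ} (h1 : x ∈ D) (h2 : y ∉ D) :
    ∃ f ∈ segment ℝ x y, f ∈ frontier D := by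
  by_contra hcon
  push Not at hcon
  have hp : IsPreconnected (segment ℝ x y) := (convex_segment _ _).isPreconnected
  have hcov : segment ℝ x y ⊆ interior D ∪ (closure D)ᶜ := by
    intro z hz
    by_cases hzD : z ∈ closure D
    · left
      by_contra hzi
      exact hcon z hz ⟨hzD, hzi⟩
    · exact Or.inr hzD
  have n1 : (segment ℝ x y ∩ interior D).Nonempty := by
    refine ⟨_, left_mem_segment ℝ _ _, ?_⟩
    by_contra hzi
    exact hcon _ (left_mem_segment ℝ _ _) ⟨subset_closure h1, hzi⟩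
  have n2 : (segment ℝ x y ∩ (closure D)ᶜ).Nonempty := by
    refine ⟨_, right_mem_segment ℝ _ _, fun hzc => ?_⟩
    exact hcon _ (right_mem_segment ℝ _ _) ⟨hzc, fun hzi => h2 (interior_subset hzi)⟩
  obtain ⟨z, -, hz1, hz2⟩ := hp _ _ isOpen_interior isClosed_closure.isOpen_compl hcov n1 n2
  exact hz2 (subset_closure (interior_subset hz1))

/-- convergence of bounded open convex sets -/
structure CConv (D : ℕ → Set ℂ) (D0 : Set ℂ) (z0 : ℂ) : Prop where
  cv0 : Convex ℝ D0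
  op0 : IsOpen D0
  bd0 : Bornology.IsBounded D0
  mem : z0 ∈ D0
  cv : ∀ n, Convex ℝ (D n)
  op : ∀ n, IsOpen (D n)
  bd : ∀ n, Bornology.IsBounded (D n)
  inn : ∀ η ∈ Ioo (0:ℝ) 1, ∀ᶠ n in atTop, ∀ z ∈ D0, z0 + ((1 - η : ℝ) : ℂ) * (z - z0) ∈ D n
  out : ∀ η > 0, ∀ᶠ n in atTop, ∀ z ∈ D n, ∃ w ∈ D0, z = z0 + ((1 + η : ℝ) : ℂ) * (w - z0)

/-- the point `z0 + t (z - z0)`, `t < 1`, is in the open convex set if `z` is in the closure -/
lemma star_mem {D0 : Set ℂ} (hc : Convex ℝ D0) (ho : IsOpen D0) {z0 z : ℂ} (h0 : z0 ∈ D0)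
    (hz : z ∈ closure D0) {t : ℝ} (ht0 : 0 ≤ t) (ht1 : t < 1) :
    z0 + (t : ℂ) * (z - z0) ∈ D0 := by
  have hi : z0 ∈ interior D0 := by rwa [ho.interior_eq]
  have h1 := hc.combo_interior_closure_mem_interior hi hz (a := 1 - t) (b := t) (by linarith) ht0
    (by ring)
  rw [ho.interior_eq] at h1
  have e : (1 - t) • z0 + t • z = z0 + (t : ℂ) * (z - z0) := by
    rw [real_smul, real_smul]
    push_cast
    ring
  rwa [e] at h1

namespace CConv

variable {D : ℕ → Set ℂ} {D0 : Set ℂ} {z0 : ℂ} (h : CConv D D0 z0)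
include h

lemma nonempty : ∀ᶠ n in atTop, (D n).Nonempty := by
  filter_upwards [h.inn (1/2) ⟨by norm_num, by norm_num⟩] with n hn
  exact ⟨_, hn z0 h.mem⟩

lemma radius : ∃ R > 0, ∀ z ∈ closure D0, dist z z0 ≤ R := by
  obtain ⟨B, hB⟩ := h.bd0.closure.exists_norm_le
  refine ⟨|B| + ‖z0‖ + 1, by positivity, fun z hz => ?_⟩
  rw [dist_eq_norm]
  have h1 := norm_sub_le z z0
  have h2 := hB z hz
  have h3 := le_abs_self B
  linarith

theorem kconv : KConv atTop D D0 := by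
  obtain ⟨R, hR, hRD⟩ := h.radius
  refine KConv.of_convex h.cv0 h.op0 h.bd0 h.mem ?_ h.inn h.out ?_
  · filter_upwards [h.nonempty] with n hn
    exact isJordan_of_convex (h.cv n) (h.op n) (h.bd n) hn
  · intro τ hτ
    set η := min (1 / 4) (τ / (4 * R)) with hη
    have hη0 : 0 < η := by positivity
    have e1 : η ≤ 1 / 4 := min_le_left _ _
    have e2 : η ≤ τ / (4 * R) := min_le_right _ _
    refine ⟨η, ⟨hη0, by linarith⟩, ?_⟩
    filter_upwards [h.inn η ⟨hη0, by linarith⟩, h.out η hη0] with n h1 h2 z hz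
    obtain ⟨w, hw, e⟩ := h2 z hz
    refine ⟨w, hw, ?_⟩
    have h3 := h1 w hw
    have h4 : dist (z0 + ((1 - η : ℝ) : ℂ) * (w - z0)) z < τ := by
      have e3 : z0 + ((1 - η : ℝ) : ℂ) * (w - z0) - z = ((-(2 * η) : ℝ) : ℂ) * (w - z0) := by
        rw [e]; push_cast; ring
      rw [dist_eq_norm, e3, norm_mul, norm_real, norm_neg, Real.norm_of_nonneg (by positivity),
        ← dist_eq_norm]
      have h5 := hRD w (subset_closure hw)
      rw [le_div_iff₀ (by positivity)] at e2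
      have h6 : 2 * η * dist w z0 ≤ 2 * η * R := mul_le_mul_of_nonneg_left h5 (by positivity)
      linarith
    have hcv : Convex ℝ (D n ∩ ball z τ) := (h.cv n).inter (convex_ball _ _)
    exact JoinedIn.of_segment_subset (hcv.segment_subset ⟨hz, mem_ball_self hτ⟩ ⟨h3, h4⟩)

/-- boundary points converge -/
lemma bdry {p0 : ℂ} (hp0 : p0 ∈ frontier D0) : ∃ p : ℕ → ℂ,
    (∀ᶠ n in atTop, p n ∈ frontier (D n)) ∧ Tendsto p atTop (𝓝 p0) := by
  obtain ⟨R, hR, hRD⟩ := h.radius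
  have hp0c : p0 ∈ closure D0 := frontier_subset_closure hp0
  have hp0n : p0 ∉ D0 := by
    rw [h.op0.frontier_eq] at hp0
    exact hp0.2
  have hd : dist p0 z0 ≤ R := hRD p0 hp0c
  have key : ∀ η : ℝ, 0 < η → η < 1 / 4 → ∀ᶠ n in atTop, ∃ f ∈ frontier (D n),
      dist f p0 ≤ 2 * η * R := by
    intro η h0 h1
    filter_upwards [h.inn η ⟨h0, by linarith⟩, h.out η h0] with n g1 g2
    have hu : z0 + ((1 - 2 * η : ℝ) : ℂ) * (p0 - z0) ∈ D n := by
      have h2 := star_mem h.cv0 h.op0 h.mem hp0c (t := (1 - 2 * η) / (1 - η))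
        (div_nonneg (by linarith) (by linarith)) (by rw [div_lt_one (by linarith)]; linarith)
      have h3 := g1 _ h2
      have e : z0 + ((1 - η : ℝ) : ℂ) * (z0 + (((1 - 2 * η) / (1 - η) : ℝ) : ℂ) * (p0 - z0) - z0) =
          z0 + ((1 - 2 * η : ℝ) : ℂ) * (p0 - z0) := by
        rw [add_sub_cancel_left, ← mul_assoc, ← ofReal_mul, mul_div_cancel₀]
        intro hh; linarith
      rwa [e] at h3
    have hv : z0 + ((1 + 2 * η : ℝ) : ℂ) * (p0 - z0) ∉ D n := by
      intro hv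
      obtain ⟨w, hw, e⟩ := g2 _ hv
      apply hp0n
      have h2 := star_mem h.cv0 h.op0 h.mem (subset_closure hw) (t := (1 + η) / (1 + 2 * η))
        (by positivity) (by rw [div_lt_one (by positivity)]; linarith)
      have e' : z0 + (((1 + η) / (1 + 2 * η) : ℝ) : ℂ) * (w - z0) = p0 := by
        have hne : ((1 + 2 * η : ℝ) : ℂ) ≠ 0 := ofReal_ne_zero.2 (by positivity)
        have e3 : ((1 + η : ℝ) : ℂ) * (w - z0) = ((1 + 2 * η : ℝ) : ℂ) * (p0 - z0) := by
          linear_combination -e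
        rw [ofReal_div, div_mul_eq_mul_div, e3, mul_div_cancel_left₀ _ hne]
        ring
      rwa [e'] at h2
    obtain ⟨f, hf1, hf2⟩ := seg_frontier hu hv
    refine ⟨f, hf2, ?_⟩
    have hball : segment ℝ (z0 + ((1 - 2 * η : ℝ) : ℂ) * (p0 - z0))
        (z0 + ((1 + 2 * η : ℝ) : ℂ) * (p0 - z0)) ⊆ closedBall p0 (2 * η * R) := by
      refine (convex_closedBall _ _).segment_subset ?_ ?_
      · rw [mem_closedBall, dist_eq_norm]
        have e3 : z0 + ((1 - 2 * η : ℝ) : ℂ) * (p0 - z0) - p0 = ((-(2 * η) : ℝ) : ℂ) * (p0 - z0) := by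
          push_cast; ring
        rw [e3, norm_mul, norm_real, norm_neg, Real.norm_of_nonneg (by positivity), ← dist_eq_norm]
        exact mul_le_mul_of_nonneg_left hd (by positivity)
      · rw [mem_closedBall, dist_eq_norm]
        have e3 : z0 + ((1 + 2 * η : ℝ) : ℂ) * (p0 - z0) - p0 = ((2 * η : ℝ) : ℂ) * (p0 - z0) := by
          push_cast; ring
        rw [e3, norm_mul, norm_real, Real.norm_of_nonneg (by positivity), ← dist_eq_norm]
        exact mul_le_mul_of_nonneg_left hd (by positivity)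
    exact mem_closedBall.1 (hball hf1)
  have hex : ∀ n, (frontier (D n)).Nonempty → ∃ p ∈ frontier (D n),
      infDist p0 (frontier (D n)) = dist p0 p := by
    intro n hn
    have hcomp : IsCompact (frontier (D n)) :=
      Metric.isCompact_of_isClosed_isBounded isClosed_frontier
        ((h.bd n).closure.subset frontier_subset_closure)
    exact hcomp.exists_infDist_eq_dist hn p0
  choose! p hp1 hp2 using hex
  refine ⟨p, ?_, ?_⟩
  · filter_upwards [key (1/8) (by norm_num) (by norm_num)] with n hn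
    obtain ⟨f, hf, -⟩ := hn
    exact hp1 n ⟨f, hf⟩
  · rw [Metric.tendsto_nhds]
    intro ε hε
    set η := min (1 / 8) (ε / (4 * R)) with hη
    have hη0 : 0 < η := by positivity
    have e1 : η ≤ 1 / 8 := min_le_left _ _
    have e2 : η ≤ ε / (4 * R) := min_le_right _ _
    filter_upwards [key η hη0 (by linarith)] with n hn
    obtain ⟨f, hf, hd⟩ := hn
    have h1 := hp2 n ⟨f, hf⟩
    have h2 := infDist_le_dist_of_mem (x := p0) hf
    rw [h1, dist_comm p0 f] at h2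
    rw [dist_comm]
    rw [le_div_iff₀ (by positivity)] at e2
    have h3 : 2 * η * R = η * (4 * R) / 2 := by ring
    linarith

/-- reflection -/
theorem mirror : CConv (fun n => (starRingEnd ℂ) '' D n) ((starRingEnd ℂ) '' D0)
    ((starRingEnd ℂ) z0) := by
  have himg : ∀ S : Set ℂ, (starRingEnd ℂ) '' S = Complex.conjCLE.toHomeomorph '' S := fun S => rfl
  have hcv : ∀ S : Set ℂ, Convex ℝ S → Convex ℝ ((starRingEnd ℂ) '' S) := fun S hS =>
    hS.linear_image (Complex.conjCLE.toLinearEquiv : ℂ →ₗ[ℝ] ℂ)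
  have hop : ∀ S : Set ℂ, IsOpen S → IsOpen ((starRingEnd ℂ) '' S) := fun S hS =>
    Complex.conjCLE.toHomeomorph.isOpenMap S hS
  have hbd : ∀ S : Set ℂ, Bornology.IsBounded S → Bornology.IsBounded ((starRingEnd ℂ) '' S) := by
    intro S hS
    obtain ⟨B, hB⟩ := hS.exists_norm_le
    rw [isBounded_iff_forall_norm_le]
    refine ⟨B, ?_⟩
    rintro _ ⟨z, hz, rfl⟩
    rw [norm_conj]
    exact hB z hz
  refine ⟨hcv _ h.cv0, hop _ h.op0, hbd _ h.bd0, mem_image_of_mem _ h.mem, fun n => hcv _ (h.cv n),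
    fun n => hop _ (h.op n), fun n => hbd _ (h.bd n), ?_, ?_⟩
  · intro η hη
    filter_upwards [h.inn η hη] with n hn
    rintro _ ⟨z, hz, rfl⟩
    refine ⟨_, hn z hz, ?_⟩
    simp
  · intro η hη
    filter_upwards [h.out η hη] with n hn
    rintro _ ⟨z, hz, rfl⟩
    obtain ⟨w, hw, e⟩ := hn z hz
    refine ⟨_, mem_image_of_mem _ hw, ?_⟩
    rw [e]
    simp

/-- **Uniformly convergent charts.** -/
theorem charts {a0 b0 : ℂ} {φ0 : ℂ → ℂ} (h0 : IsHalf D0 a0 b0 φ0) :
    ∃ (a b : ℕ → ℂ) (φ : ℕ → ℂ → ℂ), (∀ᶠ n in atTop, IsHalf (D n) (a n) (b n) (φ n)) ∧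
      ∀ η > 0, ∀ᶠ n in atTop, ∀ w ∈ closedBall (0:ℂ) 1,
        dist (toDisc (φ n) (b n) w) (toDisc φ0 b0 w) ≤ η := by
  have h1C : (1:ℂ) ∈ HC := by have := re_HC 1; rwa [ofReal_one] at this
  have h0C : (0:ℂ) ∈ HC := by have := re_HC 0; rwa [ofReal_zero] at this
  have hfa : a0 ∈ frontier D0 := by
    have := (h0.mapsTo_real h.op0 (x := 0)).1
    rwa [ofReal_zero, h0.zero] at this
  have hfb : b0 ∈ frontier D0 := b_mem h0 h.op0
  have hfc : φ0 1 ∈ frontier D0 := by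
    have := (h0.mapsTo_real h.op0 (x := 1)).1
    rwa [ofReal_one] at this
  have nab : a0 ≠ b0 := fun e => h0.notMem ⟨0, h0C, by rw [h0.zero, e]⟩
  have nca : φ0 1 ≠ a0 := by
    intro e
    rw [← h0.zero] at e
    exact one_ne_zero (h0.inj h1C h0C e)
  have ncb : φ0 1 ≠ b0 := fun e => h0.notMem ⟨1, h1C, e⟩
  obtain ⟨a, ha1, ha2⟩ := h.bdry hfa
  obtain ⟨b, hb1, hb2⟩ := h.bdry hfb
  obtain ⟨c, hc1, hc2⟩ := h.bdry hfc
  have eab : ∀ᶠ n in atTop, a n ≠ b n := (((ha2.sub hb2).eventually_ne (sub_ne_zero.2 nab)).mono fun n hn => sub_ne_zero.1 hn)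
  have eca : ∀ᶠ n in atTop, c n ≠ a n := (((hc2.sub ha2).eventually_ne (sub_ne_zero.2 nca)).mono fun n hn => sub_ne_zero.1 hn)
  have ecb : ∀ᶠ n in atTop, c n ≠ b n := (((hc2.sub hb2).eventually_ne (sub_ne_zero.2 ncb)).mono fun n hn => sub_ne_zero.1 hn)
  have hex : ∀ n, (a n ∈ frontier (D n) ∧ b n ∈ frontier (D n) ∧ c n ∈ frontier (D n) ∧
      (D n).Nonempty ∧ a n ≠ b n ∧ c n ≠ a n ∧ c n ≠ b n) → ∃ (ψ : ℂ → ℂ) (y : ℝ),
        IsHalf (D n) (a n) (b n) ψ ∧ ψ y = c n ∧ y ≠ 0 := by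
    rintro n ⟨g1, g2, g3, g4, g5, g6, g7⟩
    have hJ := isJordan_of_convex (h.cv n) (h.op n) (h.bd n) g4
    obtain ⟨ψ, hψ⟩ := exists_half hJ g1 g2 g5
    have h2 : c n ∈ ψ '' {z | z.im = 0} := by
      rw [hψ.image_real (h.op n)]
      exact ⟨g3, g7⟩
    obtain ⟨y, hy, hyc⟩ := h2
    have ey : ((y.re : ℝ) : ℂ) = y := Complex.ext (by simp) (by simpa using (show y.im = 0 from hy).symm)
    refine ⟨ψ, y.re, hψ, by rw [ey]; exact hyc, fun h3 => g6 ?_⟩
    rw [← hyc, ← ey, h3, ofReal_zero, hψ.zero]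
  choose! ψ y hy1 hy2 hy3 using hex
  have hgood : ∀ᶠ n in atTop, IsHalf (D n) (a n) (b n) (ψ n) ∧ ψ n (y n) = c n ∧ y n ≠ 0 := by
    filter_upwards [ha1, hb1, hc1, h.nonempty, eab, eca, ecb] with n g1 g2 g3 g4 g5 g6 g7
    exact ⟨hy1 n ⟨g1, g2, g3, g4, g5, g6, g7⟩, hy2 n ⟨g1, g2, g3, g4, g5, g6, g7⟩,
      hy3 n ⟨g1, g2, g3, g4, g5, g6, g7⟩⟩
  -- the sign
  have hsign : ∀ᶠ n in atTop, 0 < y n := by
    by_contra hcon
    rw [not_eventually] at hcon
    set S : Set ℕ := {n | ¬ 0 < y n} with hS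
    have hne : ((atTop : Filter ℕ) ⊓ 𝓟 S).NeBot := frequently_mem_iff_neBot.1 hcon
    set U := Ultrafilter.of ((atTop : Filter ℕ) ⊓ 𝓟 S) with hUdef
    have hU : (U : Filter ℕ) ≤ atTop ⊓ 𝓟 S := Ultrafilter.of_le _
    have hUl : (U : Filter ℕ) ≤ atTop := hU.trans inf_le_left
    have hUS : ∀ᶠ n in (U : Filter ℕ), n ∈ S := hU (mem_inf_of_right (mem_principal_self S))
    have hneg : ∀ᶠ n in (U : Filter ℕ), y n < 0 := by
      filter_upwards [hUS, hUl hgood] with n g1 g2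
      exact lt_of_le_of_ne (not_lt.1 g1) g2.2.2
    have ccont : Continuous (starRingEnd ℂ : ℂ → ℂ) := Complex.continuous_conj
    have cinj : Function.Injective (starRingEnd ℂ : ℂ → ℂ) := (starRingEnd ℂ).injective
    obtain ⟨k, hk, hkc, -⟩ := lim_chart (U := U) (h.mirror.kconv.mono hUl)
      (φ := fun n z => (starRingEnd ℂ) (ψ n (((-(y n) : ℝ) : ℂ) * (-(starRingEnd ℂ) z))))
      (a := fun n => (starRingEnd ℂ) (a n)) (b := fun n => (starRingEnd ℂ) (b n))
      (c0 := (starRingEnd ℂ) (φ0 1)) (by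
        filter_upwards [hneg, hUl hgood] with n g1 g2
        exact half_conj (half_scale g2.1 (neg_pos.2 g1))) (half_conj h0)
      ((ccont.tendsto _).comp (ha2.mono_left hUl)) ((ccont.tendsto _).comp (hb2.mono_left hUl))
      (fun e => nca (cinj e)) (fun e => ncb (cinj e)) (by
        refine ((ccont.tendsto _).comp (hc2.mono_left hUl)).congr' ?_
        filter_upwards [hUl hgood] with n g2
        rw [Function.comp_apply, ← g2.2.1]
        congr 2
        simp)
    have e1 := cinj hkc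
    have e2 : -(starRingEnd ℂ) (k : ℂ) = ((-k : ℝ) : ℂ) := by simp
    rw [e2] at e1
    have e3 := h0.inj (re_HC (-k)) h1C e1
    have e4 : (-k : ℝ) = 1 := by exact_mod_cast e3
    linarith
  refine ⟨a, b, fun n z => ψ n ((y n : ℂ) * z), ?_, ?_⟩
  · filter_upwards [hgood, hsign] with n g1 g2
    exact half_scale g1.1 g2
  · intro η hη
    refine unif_chart h.kconv h.op0 (a := a) (b := b) (φ := fun n z => ψ n ((y n : ℂ) * z)) ?_ h0 ha2
      hb2 ?_ hη
    · filter_upwards [hgood, hsign] with n g1 g2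
      exact half_scale g1.1 g2
    · refine hc2.congr' ?_
      filter_upwards [hgood] with n g1
      rw [mul_one, g1.2.1]

end CConv

end Pool.Agent.H57.FM
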