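import Mathlib
import Pool.Agent.H60.Q1.Count
import Pool.Agent.H60.Q1.Half

set_option autoImplicit false
open Finset

/-!
# Highest vertices of large clusters

`TopE s x n`: `x` is the highest vertex (in the direction `s`, ties broken by the first coordinate) of its
cluster in the box of radius `n` about `x`, and this cluster reaches the boundary of the box. Then
`P(TopE s x n) ≤ C / n ^ 2`, because different highest vertices lie in different clusters.
-/

namespace Pool.Agent.H57.FM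

open Pool.Agent.H75.Perc Pool.Agent.H60.Q1

/-- box of radius `n` about `x` -/
noncomputable def Bn (x : ℤ × ℤ) (n : ℤ) : Finset (ℤ × ℤ) := Bx (x.1 - n) (x.1 + n) (x.2 - n) (x.2 + n)

/-- `w` is below `x` in the direction `s` -/
def Low (s w x : ℤ × ℤ) : Prop :=
  s.1 * w.1 + s.2 * w.2 < s.1 * x.1 + s.2 * x.2 ∨
    (s.1 * w.1 + s.2 * w.2 = s.1 * x.1 + s.2 * x.2 ∧ w.1 < x.1)

/-- `x` is the highest vertex of its cluster in the box, and the cluster reaches the boundary of the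
box -/
def TopE (s x : ℤ × ℤ) (n : ℤ) (ω : Finset (ℤ × ℤ)) : Prop :=
  (∃ v : ℤ × ℤ, (n ≤ |v.1 - x.1| ∨ n ≤ |v.2 - x.2|) ∧ Co (ω ∩ Bn x n) x v) ∧
    ∀ w, Co (ω ∩ Bn x n) x w → w ≠ x → Low s w x

lemma Low.asymm {s w x : ℤ × ℤ} (h : Low s w x) (h' : Low s x w) : False := by
  unfold Low at h h'
  omega

lemma mem_Bn {x : ℤ × ℤ} {n : ℤ} {l : ℤ × ℤ} : l ∈ Bn x n ↔
    (2 * (x.1 - n) ≤ l.1 ∧ l.1 ≤ 2 * (x.1 + n)) ∧ (2 * (x.2 - n) ≤ l.2 ∧ l.2 ≤ 2 * (x.2 + n)) ∧
      (l.1 + l.2) % 2 = 1 := by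
  unfold Bn; rw [mem_Bx]

lemma TopE_inter {s x : ℤ × ℤ} {n : ℤ} {ω : Finset (ℤ × ℤ)} :
    TopE s x n (ω ∩ Bn x n) ↔ TopE s x n ω := by
  unfold TopE
  rw [inter_assoc, inter_self]

lemma mem_Bn_tr {x t : ℤ × ℤ} {n : ℤ} (e : ℤ × ℤ) :
    e ∈ Bn (x + t) n ↔ (syT t).G' e ∈ Bn x n := by
  rw [mem_Bn, mem_Bn]
  unfold syT
  simp only [Prod.fst_add, Prod.snd_add]
  omega

lemma TopE_tr {s x t : ℤ × ℤ} {n : ℤ} {ω : Finset (ℤ × ℤ)} :
    TopE s (x + t) n (ω.map (syT t).G) ↔ TopE s x n ω := by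
  have hco : ∀ w, Co (ω.map (syT t).G ∩ Bn (x + t) n) (x + t) (w + t) ↔ Co (ω ∩ Bn x n) x w := by
    intro w
    rw [(syT t).map_inter ω (E1 := Bn x n) (E2 := Bn (x + t) n) mem_Bn_tr]
    exact (syT t).co_iff _ x w
  have hco' : ∀ w, Co (ω.map (syT t).G ∩ Bn (x + t) n) (x + t) w ↔ Co (ω ∩ Bn x n) x (w - t) := by
    intro w
    rw [← hco, sub_add_cancel]
  unfold TopE
  constructor
  · rintro ⟨⟨v, hv, hc⟩, h⟩
    refine ⟨⟨v - t, ?_, (hco' v).1 hc⟩, fun w hw hne => ?_⟩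
    · simp only [Prod.fst_add, Prod.snd_add, Prod.fst_sub, Prod.snd_sub] at hv ⊢
      rwa [show v.1 - t.1 - x.1 = v.1 - (x.1 + t.1) by ring,
        show v.2 - t.2 - x.2 = v.2 - (x.2 + t.2) by ring]
    · have h1 := h (w + t) ((hco w).2 hw) (fun h2 => hne (add_right_cancel h2))
      unfold Low at h1 ⊢
      simp only [Prod.fst_add, Prod.snd_add, mul_add] at h1
      omega
  · rintro ⟨⟨v, hv, hc⟩, h⟩
    refine ⟨⟨v + t, ?_, (hco v).2 hc⟩, fun w hw hne => ?_⟩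
    · simp only [Prod.fst_add, Prod.snd_add] at hv ⊢
      rwa [show v.1 + t.1 - (x.1 + t.1) = v.1 - x.1 by ring,
        show v.2 + t.2 - (x.2 + t.2) = v.2 - x.2 by ring]
    · have h1 := h (w - t) ((hco' w).1 hw) (fun h2 => hne (by rw [← h2, sub_add_cancel]))
      unfold Low at h1 ⊢
      simp only [Prod.fst_add, Prod.snd_add, Prod.fst_sub, Prod.snd_sub, mul_add, mul_sub] at h1 ⊢
      omega

/-- the probability does not depend on the point and on the domain -/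
lemma Pr_TopE {s x : ℤ × ℤ} {n : ℤ} {E : Finset (ℤ × ℤ)}
    (h : Bn x n ⊆ E) : Pr E (TopE s x n) = Pr (Bn 0 n) (TopE s 0 n) := by
  rw [Pr_congr (B := fun ω => TopE s x n (ω ∩ Bn x n)) fun ω _ => TopE_inter.symm,
    Pr_restrict h]
  have h1 := (syT x).Pr (E1 := Bn 0 n) (E2 := Bn x n) (fun e => by
    have := mem_Bn_tr (x := 0) (t := x) (n := n) e
    rwa [zero_add] at this) (TopE s x n)
  rw [h1]
  refine Pr_congr fun ω _ => ?_
  have h2 := TopE_tr (s := s) (x := 0) (t := x) (n := n) (ω := ω)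
  rw [zero_add] at h2
  exact h2

/-- **Highest vertices**: `P ≤ C / n ^ 2`. -/
theorem top_le : ∃ C : ℝ, 0 < C ∧ ∀ (s x : ℤ × ℤ) (n : ℤ), 1 ≤ n → ∀ E : Finset (ℤ × ℤ),
    Bn x n ⊆ E → Pr E (TopE s x n) ≤ C / n ^ 2 := by
  obtain ⟨C, hC, hcount⟩ := count_le
  refine ⟨25 * C + 25, by positivity, fun s x n hn E hE => ?_⟩
  rw [Pr_TopE hE]
  set p := Pr (Bn 0 n) (TopE s 0 n) with hp
  have hp0 : 0 ≤ p := Pr_nonneg _ _
  have hp1 : p ≤ 1 := Pr_le_one _ _
  have hnR : (1 : ℝ) ≤ n := by exact_mod_cast hn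
  rw [le_div_iff₀ (by positivity)]
  by_cases hn5 : n < 5
  · have h5 : (n : ℝ) ≤ 5 := by exact_mod_cast hn5.le
    have h25 : (n : ℝ) ^ 2 ≤ 25 := by nlinarith
    have : p * (n : ℝ) ^ 2 ≤ 1 * 25 := mul_le_mul hp1 h25 (by positivity) (by norm_num)
    linarith
  set m := n / 5 with hm
  have hm1 : 1 ≤ m := by omega
  have h5m : 5 * m ≤ n := by omega
  set G := Bx (-(n + m)) (n + m) (-(n + m)) (n + m) with hG
  have hbox : ∀ z : ℤ × ℤ, |z.1| ≤ m ∧ |z.2| ≤ m →
      Bx (-(4 * m)) (4 * m) (-(4 * m)) (4 * m) ⊆ Bn z n := by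
    intro z hz
    rw [abs_le, abs_le] at hz
    unfold Bn
    exact Bx_sub (by omega) (by omega) (by omega) (by omega)
  have h := hcount (ℤ × ℤ) G (Bx (-(4 * m)) (4 * m) (-(4 * m)) (4 * m))
    (fun e he => (mem_Bx.1 he).2.2) (0, 0) m hm1 (Icc (-m) m ×ˢ Icc (-m) m) (fun z => z)
    (fun z ω => TopE s z n ω)
    (by
      intro z hz
      rw [mem_product, mem_Icc, mem_Icc] at hz
      simp only [sub_zero]
      rw [abs_le, abs_le]
      exact hz)
    (by
      intro ω _ z hz h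
      rw [mem_product, mem_Icc, mem_Icc] at hz
      obtain ⟨⟨v, hv, hco⟩, -⟩ := h
      have h1 := open_exit (o := (0, 0)) (M := 4 * m) hco
        (by simp only [sub_zero]; rw [abs_lt, abs_lt]; omega)
        (by
          simp only [sub_zero]
          rcases hv with hv | hv
          · left
            have := abs_sub v.1 z.1
            have h2 : |z.1| ≤ m := abs_le.2 hz.1
            omega
          · right
            have := abs_sub v.2 z.2
            have h2 : |z.2| ≤ m := abs_le.2 hz.2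
            omega)
      obtain ⟨v', hv', hco'⟩ := h1
      refine ⟨v', hv', hco'.mono ?_⟩
      simp only [zero_sub, zero_add]
      intro l hl
      rw [mem_inter, mem_inter] at hl
      exact mem_inter.2 ⟨hl.1.1, hl.2⟩)
    (by
      intro ω _ z hz u hu hne h h' hco
      rw [mem_product, mem_Icc, mem_Icc] at hz hu
      have h1 := h.2 u (hco.mono (inter_subset_inter_left (hbox z ⟨abs_le.2 hz.1, abs_le.2 hz.2⟩)))
        hne.symm
      have h2 := h'.2 z (hco.symm.mono (inter_subset_inter_left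
        (hbox u ⟨abs_le.2 hu.1, abs_le.2 hu.2⟩))) hne
      exact h1.asymm h2)
  have h2 : ∀ z ∈ Icc (-m) m ×ˢ Icc (-m) m, Pr G (fun ω => TopE s z n ω) = p := by
    intro z hz
    rw [mem_product, mem_Icc, mem_Icc] at hz
    refine Pr_TopE ?_
    unfold Bn
    exact Bx_sub (by omega) (by omega) (by omega) (by omega)
  rw [sum_congr rfl h2, sum_const, card_product, Int.card_Icc, nsmul_eq_mul] at h
  have h3 : ((((m + 1 - -m).toNat * (m + 1 - -m).toNat : ℕ)) : ℝ) = (2 * m + 1) ^ 2 := by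
    have : (((m + 1 - -m).toNat : ℕ) : ℤ) = 2 * m + 1 := by omega
    have h4 : (((m + 1 - -m).toNat : ℕ) : ℝ) = 2 * m + 1 := by exact_mod_cast this
    rw [Nat.cast_mul, h4]
    ring
  rw [h3] at h
  have hmR : (1 : ℝ) ≤ m := by exact_mod_cast hm1
  have h4 : (n : ℝ) ≤ 5 * (2 * m + 1) := by
    have : n ≤ 5 * (2 * m + 1) := by omega
    exact_mod_cast this
  have h5 : (n : ℝ) ^ 2 ≤ 25 * (2 * m + 1) ^ 2 := by nlinarith
  have h6 : p * (n : ℝ) ^ 2 ≤ p * (25 * (2 * m + 1) ^ 2) := mul_le_mul_of_nonneg_left h5 hp0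
  nlinarith

end Pool.Agent.H57.FM
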