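import Mathlib
import Pool.Agent.H57.FM.Cross
import Pool.Agent.H57.FM.TopCount

set_option autoImplicit false
open Finset

/-!
# Comparison of the crossing events of two domains, deterministic part
-/

namespace Pool.Agent.H57.FM

open Pool.Agent.H75.Perc Pool.Agent.H60.Q1

/-- connection inside `D` -/
def CD (D : Set ℂ) (δ : ℝ) (ω : Finset (ℤ × ℤ)) (u v : ℤ × ℤ) : Prop :=
  Relation.ReflTransGen (fun x y => Ad ω x y ∧ ps δ y ∈ D) u v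

section basic

variable {D D' : Set ℂ} {δ : ℝ} {ω : Finset (ℤ × ℤ)} {u v w : ℤ × ℤ}

lemma CD.mem (h : CD D δ ω u v) (hu : ps δ u ∈ D) : ps δ v ∈ D := by
  induction h with
  | refl => exact hu
  | tail _ hbc _ => exact hbc.2

lemma CD.trans (h : CD D δ ω u v) (h' : CD D δ ω v w) : CD D δ ω u w :=
  Relation.ReflTransGen.trans h h'

lemma CD.symm (h : CD D δ ω u v) (hu : ps δ u ∈ D) : CD D δ ω v u := by
  induction h with
  | refl => exact Relation.ReflTransGen.refl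
  | @tail y z hab hbc ih =>
    have hy : ps δ y ∈ D := CD.mem hab hu
    exact Relation.ReflTransGen.head ⟨hbc.1.symm, hy⟩ ih

lemma CD.mono (h : CD D δ ω u v) (hD : D ⊆ D') : CD D' δ ω u v :=
  rtg_mono (fun _ _ h => ⟨h.1, hD h.2⟩) h

lemma CD.co (h : CD D δ ω u v) : Co ω u v := rtg_mono (fun _ _ h => h.1) h

end basic

/-- **Highest vertex of a cluster which does not reach the arc `A'`.** -/
lemma det_top {D' A' : Set ℂ} {δ : ℝ} {ω : Finset (ℤ × ℤ)} {ι : Type*} {s : ι → ℤ × ℤ}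
    (hs : ∀ j, (s j).2 ≠ 0) {X : ι → Finset (ℤ × ℤ)} {N : ℤ × ℤ → Prop} {n : ℤ} (hn : 1 ≤ n)
    {u0 v0 : ℤ × ℤ} (hu0 : ps δ u0 ∈ D') (hC : CD D' δ ω u0 v0)
    (hfar : 2 * n ≤ |u0.1 - v0.1| ∨ 2 * n ≤ |u0.2 - v0.2|)
    (hUA : ∀ w, CD D' δ ω u0 w → ¬ ∃ a ∈ A', dist (ps δ w) a ≤ δ)
    (hN : ∀ w, CD D' δ ω u0 w → ¬ N w) (hst : ∃ j, u0 ∈ X j)
    (g1 : ∀ j, ∀ x ∈ X j, ¬ N x → ∀ w, ps δ w ∈ D' → |w.1 - x.1| ≤ n → |w.2 - x.2| ≤ n →
      ∀ w', IsUnit4 (w' - w) → ps δ w' ∉ D' → ∃ a ∈ A', dist (ps δ w) a ≤ δ)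
    (g2 : ∀ j, ∀ x ∈ X j, ¬ N x → ∀ w, ps δ w ∈ D' → |w.1 - x.1| ≤ n → |w.2 - x.2| ≤ n →
      w ∈ X j ∨ N w ∨ Low (s j) w x) :
    ∃ j, ∃ x ∈ X j, TopE (s j) x n ω := by
  classical
  obtain ⟨j, hj⟩ := hst
  set S := (X j).filter (fun w => CD D' δ ω u0 w) with hS
  have hS0 : S.Nonempty := ⟨u0, by rw [hS, mem_filter]; exact ⟨hj, Relation.ReflTransGen.refl⟩⟩
  obtain ⟨x, hx, hmax⟩ := S.exists_max_image
    (fun w : ℤ × ℤ => toLex ((s j).1 * w.1 + (s j).2 * w.2, w.1)) hS0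
  rw [hS, mem_filter] at hx
  obtain ⟨hxX, hxC⟩ := hx
  have hlow : ∀ w ∈ X j, CD D' δ ω u0 w → w ≠ x → Low (s j) w x := by
    intro w hw hwC hne
    have h1 := hmax w (by rw [hS, mem_filter]; exact ⟨hw, hwC⟩)
    rw [Prod.Lex.toLex_le_toLex] at h1
    simp only at h1
    unfold Low
    rcases h1 with h1 | ⟨h1, h2⟩
    · exact Or.inl h1
    · right
      refine ⟨h1, lt_of_le_of_ne h2 fun h3 => hne ?_⟩
      rw [h3] at h1
      have h4 : (s j).2 * w.2 = (s j).2 * x.2 := by linarith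
      exact Prod.ext h3 (mul_left_cancel₀ (hs j) h4)
  have hK : ∀ w, Co (ω ∩ Bn x n) x w →
      CD D' δ ω u0 w ∧ |w.1 - x.1| ≤ n ∧ |w.2 - x.2| ≤ n := by
    intro w hw
    induction hw with
    | refl => exact ⟨hxC, by simp; omega, by simp; omega⟩
    | @tail y z hxy hyz ih =>
      obtain ⟨i1, i2, i3⟩ := ih
      have h1 := mem_inter.1 hyz.2
      have h2 := unit_cases hyz.1
      have h3 := mem_Bn.1 h1.2
      simp only [Prod.fst_add, Prod.snd_add] at h3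
      rw [abs_le] at i2 i3
      have hz1 : |z.1 - x.1| ≤ n := by rw [abs_le]; omega
      have hz2 : |z.2 - x.2| ≤ n := by rw [abs_le]; omega
      have hzD : ps δ z ∈ D' := by
        by_contra hcon
        exact hUA y i1 (g1 j x hxX (hN x hxC) y (i1.mem hu0) (abs_le.2 i2) (abs_le.2 i3) z hyz.1 hcon)
      exact ⟨i1.tail ⟨⟨hyz.1, h1.1⟩, hzD⟩, hz1, hz2⟩
  refine ⟨j, x, hxX, ?_, ?_⟩
  · have h1 : CD D' δ ω x u0 := hxC.symm hu0
    have hxD : ps δ x ∈ D' := hxC.mem hu0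
    have h2 : CD D' δ ω x v0 := h1.trans hC
    have key : ∃ v, (n ≤ |v.1 - x.1| ∨ n ≤ |v.2 - x.2|) ∧ Co ω x v := by
      by_cases h3 : n ≤ |u0.1 - x.1| ∨ n ≤ |u0.2 - x.2|
      · exact ⟨u0, h3, h1.co⟩
      · refine ⟨v0, ?_, h2.co⟩
        push Not at h3
        rcases hfar with h4 | h4
        · left
          have := abs_sub_le u0.1 x.1 v0.1
          rw [abs_sub_comm v0.1 x.1]
          omega
        · right
          have := abs_sub_le u0.2 x.2 v0.2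
          rw [abs_sub_comm v0.2 x.2]
          omega
    obtain ⟨v, hv, hco⟩ := key
    exact open_exit (o := x) (M := n) hco (by simp; omega) hv
  · intro w hw hne
    obtain ⟨k1, k2, k3⟩ := hK w hw
    rcases g2 j x hxX (hN x hxC) w (k1.mem hu0) k2 k3 with h1 | h1 | h1
    · exact hlow w h1 k1 hne
    · exact absurd h1 (hN w k1)
    · exact h1

/-- **Comparison of two crossing events.** `A`, `B` are arcs of `D`, `A'`, `B'` arcs of `D' ⊇ D`. -/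
lemma det_cross {D D' A B A' B' : Set ℂ} (hsub : D ⊆ D') {δ : ℝ} {ω : Finset (ℤ × ℤ)} {ι : Type*}
    {s : ι → ℤ × ℤ} (hs : ∀ j, (s j).2 ≠ 0) {X Y : ι → Finset (ℤ × ℤ)} {N : ℤ × ℤ → Prop} {n m : ℤ}
    (hn : 1 ≤ n) (hnm : n ≤ m)
    (hfar : ∀ u v, (∃ a ∈ A, dist (ps δ u) a ≤ δ) → (∃ b ∈ B, dist (ps δ v) b ≤ δ) →
      2 * m ≤ |u.1 - v.1| ∨ 2 * m ≤ |u.2 - v.2|)
    (hX0 : ∀ u, ps δ u ∈ D → (∃ a ∈ A, dist (ps δ u) a ≤ δ) →
      (∃ a ∈ A', dist (ps δ u) a ≤ δ) ∨ N u ∨ ∃ j, u ∈ X j)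
    (hY0 : ∀ u, ps δ u ∈ D → (∃ a ∈ B, dist (ps δ u) a ≤ δ) →
      (∃ a ∈ B', dist (ps δ u) a ≤ δ) ∨ N u ∨ ∃ j, u ∈ Y j)
    (hX1 : ∀ j, ∀ x ∈ X j, ¬ N x → ∀ w, ps δ w ∈ D' → |w.1 - x.1| ≤ n → |w.2 - x.2| ≤ n →
      ∀ w', IsUnit4 (w' - w) → ps δ w' ∉ D' → ∃ a ∈ A', dist (ps δ w) a ≤ δ)
    (hX2 : ∀ j, ∀ x ∈ X j, ¬ N x → ∀ w, ps δ w ∈ D' → |w.1 - x.1| ≤ n → |w.2 - x.2| ≤ n →
      w ∈ X j ∨ N w ∨ Low (s j) w x)
    (hY1 : ∀ j, ∀ x ∈ Y j, ¬ N x → ∀ w, ps δ w ∈ D' → |w.1 - x.1| ≤ n → |w.2 - x.2| ≤ n →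
      ∀ w', IsUnit4 (w' - w) → ps δ w' ∉ D' → ∃ a ∈ B', dist (ps δ w) a ≤ δ)
    (hY2 : ∀ j, ∀ x ∈ Y j, ¬ N x → ∀ w, ps δ w ∈ D' → |w.1 - x.1| ≤ n → |w.2 - x.2| ≤ n →
      w ∈ Y j ∨ N w ∨ Low (s j) w x)
    (hcr : Cross D A B δ ω) (hno : ¬ Cross D' A' B' δ ω) :
    (∃ w w', N w ∧ (m ≤ |w'.1 - w.1| ∨ m ≤ |w'.2 - w.2|) ∧ Co ω w w') ∨
      (∃ j, ∃ x ∈ X j, TopE (s j) x n ω) ∨ ∃ j, ∃ x ∈ Y j, TopE (s j) x n ω := by
  obtain ⟨u0, v0, hu0, hA, hB, hco⟩ := hcr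
  have hC : CD D' δ ω u0 v0 := CD.mono (D := D) hco hsub
  have hu0' := hsub hu0
  have hv0 : ps δ v0 ∈ D := CD.mem (D := D) hco hu0
  have hv0' := hsub hv0
  have hC' : CD D' δ ω v0 u0 := hC.symm hu0'
  have hf := hfar u0 v0 hA hB
  by_cases hN : ∃ w, CD D' δ ω u0 w ∧ N w
  · obtain ⟨w, h1, h2⟩ := hN
    left
    have hwD : ps δ w ∈ D' := h1.mem hu0'
    have h3 := h1.symm hu0'
    have h4 := h3.trans hC
    by_cases h5 : m ≤ |u0.1 - w.1| ∨ m ≤ |u0.2 - w.2|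
    · exact ⟨w, u0, h2, h5, h3.co⟩
    · refine ⟨w, v0, h2, ?_, h4.co⟩
      push Not at h5
      rcases hf with h6 | h6
      · left
        have := abs_sub_le u0.1 w.1 v0.1
        rw [abs_sub_comm v0.1 w.1]
        omega
      · right
        have := abs_sub_le u0.2 w.2 v0.2
        rw [abs_sub_comm v0.2 w.2]
        omega
  · push Not at hN
    right
    by_cases hA' : ∃ w, CD D' δ ω u0 w ∧ ∃ a ∈ A', dist (ps δ w) a ≤ δ
    · right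
      have hB' : ∀ w, CD D' δ ω v0 w → ¬ ∃ b ∈ B', dist (ps δ w) b ≤ δ := by
        intro w hw hb
        obtain ⟨w1, h1, h2⟩ := hA'
        have h3 : CD D' δ ω w1 w := ((h1.symm hu0').trans hC).trans hw
        exact hno ⟨w1, w, h1.mem hu0', h2, hb, h3⟩
      have hN' : ∀ w, CD D' δ ω v0 w → ¬ N w := fun w hw => hN w (hC.trans hw)
      have hst : ∃ j, v0 ∈ Y j := by
        rcases hY0 v0 hv0 hB with h1 | h1 | h1
        · exact absurd h1 (hB' v0 Relation.ReflTransGen.refl)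
        · exact absurd h1 (hN' v0 Relation.ReflTransGen.refl)
        · exact h1
      refine det_top hs hn hv0' hC' ?_ hB' hN' hst hY1 hY2
      rw [abs_sub_comm v0.1 u0.1, abs_sub_comm v0.2 u0.2]
      omega
    · left
      push Not at hA'
      have hA'' : ∀ w, CD D' δ ω u0 w → ¬ ∃ a ∈ A', dist (ps δ w) a ≤ δ := by
        rintro w hw ⟨a, ha, hd⟩
        exact absurd hd (not_le.2 (hA' w hw a ha))
      have hst : ∃ j, u0 ∈ X j := by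
        rcases hX0 u0 hu0 hA with h1 | h1 | h1
        · exact absurd h1 (hA'' u0 Relation.ReflTransGen.refl)
        · exact absurd h1 (hN u0 Relation.ReflTransGen.refl)
        · exact h1
      exact det_top hs hn hu0' hC (by omega) hA'' hN hst hX1 hX2

end Pool.Agent.H57.FM
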