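import Mathlib
import Pool.Agent.H57.FM.CompDet
import Pool.Agent.H75.TwoArm.Decay

set_option autoImplicit false
open Finset

/-!
# Comparison of the crossing probabilities of two domains at fixed mesh
-/

namespace Pool.Agent.H57.FM

open Pool.Agent.H75.Perc Pool.Agent.H60.Q1

lemma Pr_ex {ι α : Type*} [DecidableEq α] (E : Finset α) (Y : Finset ι)
    (P : ι → Finset α → Prop) : Pr E (fun ω => ∃ y ∈ Y, P y ω) ≤ ∑ y ∈ Y, Pr E (P y) := by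
  classical
  induction Y using Finset.induction_on with
  | empty =>
    rw [Finset.sum_empty]
    have : Pr E (fun ω => ∃ y ∈ (∅ : Finset ι), P y ω) = Pr E (fun _ => False) :=
      Pr_congr fun ω _ => by simp
    rw [this, Pr_eq]
    simp
  | insert y Y hy ih =>
    rw [Finset.sum_insert hy]
    refine le_trans (Pr_mono fun ω _ h => ?_)
      ((Pr_or_le E (P y) (fun ω => ∃ y ∈ Y, P y ω)).trans (add_le_add_right ih _))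
    obtain ⟨z, hz, hz'⟩ := h
    rcases Finset.mem_insert.1 hz with rfl | hz
    · exact Or.inl hz'
    · exact Or.inr ⟨z, hz, hz'⟩

/-- near one of the points of `Q` -/
def Nr (Q : Finset (ℤ × ℤ)) (ρ : ℤ) (w : ℤ × ℤ) : Prop := ∃ q ∈ Q, |w.1 - q.1| ≤ ρ ∧ |w.2 - q.2| ≤ ρ

/-- **Comparison at fixed mesh.** -/
theorem prob_cross : ∃ C d : ℝ, 0 < C ∧ 0 < d ∧ d < 1 ∧
    ∀ {D D' A B A' B' : Set ℂ}, Bornology.IsBounded D' → D ⊆ D' → ∀ {δ : ℝ}, 0 < δ →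
    ∀ {J : ℕ} {s : Fin J → ℤ × ℤ}, (∀ j, (s j).2 ≠ 0) → ∀ (X Y : Fin J → Finset (ℤ × ℤ))
    (Q : Finset (ℤ × ℤ)) (ρ n m : ℤ) (k : ℕ), 1 ≤ ρ → 1 ≤ n → n ≤ m → (4 ^ k + 1) * ρ ≤ m →
    (∀ u v, (∃ a ∈ A, dist (ps δ u) a ≤ δ) → (∃ b ∈ B, dist (ps δ v) b ≤ δ) →
      2 * m ≤ |u.1 - v.1| ∨ 2 * m ≤ |u.2 - v.2|) →
    (∀ u, ps δ u ∈ D → (∃ a ∈ A, dist (ps δ u) a ≤ δ) →
      (∃ a ∈ A', dist (ps δ u) a ≤ δ) ∨ Nr Q ρ u ∨ ∃ j, u ∈ X j) →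
    (∀ u, ps δ u ∈ D → (∃ a ∈ B, dist (ps δ u) a ≤ δ) →
      (∃ a ∈ B', dist (ps δ u) a ≤ δ) ∨ Nr Q ρ u ∨ ∃ j, u ∈ Y j) →
    (∀ j, ∀ x ∈ X j, ¬ Nr Q ρ x → ∀ w, ps δ w ∈ D' → |w.1 - x.1| ≤ n → |w.2 - x.2| ≤ n →
      ∀ w', IsUnit4 (w' - w) → ps δ w' ∉ D' → ∃ a ∈ A', dist (ps δ w) a ≤ δ) →
    (∀ j, ∀ x ∈ X j, ¬ Nr Q ρ x → ∀ w, ps δ w ∈ D' → |w.1 - x.1| ≤ n → |w.2 - x.2| ≤ n →
      w ∈ X j ∨ Nr Q ρ w ∨ Low (s j) w x) →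
    (∀ j, ∀ x ∈ Y j, ¬ Nr Q ρ x → ∀ w, ps δ w ∈ D' → |w.1 - x.1| ≤ n → |w.2 - x.2| ≤ n →
      ∀ w', IsUnit4 (w' - w) → ps δ w' ∉ D' → ∃ a ∈ B', dist (ps δ w) a ≤ δ) →
    (∀ j, ∀ x ∈ Y j, ¬ Nr Q ρ x → ∀ w, ps δ w ∈ D' → |w.1 - x.1| ≤ n → |w.2 - x.2| ≤ n →
      w ∈ Y j ∨ Nr Q ρ w ∨ Low (s j) w x) →
    PC D A B δ ≤ PC D' A' B' δ + Q.card * (1 - d) ^ k +
      (∑ j, ((X j).card : ℝ) + ∑ j, ((Y j).card : ℝ)) * (C / n ^ 2) := by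
  classical
  obtain ⟨C, hC, htop⟩ := top_le
  obtain ⟨d, hd0, hd1, harm⟩ := Pool.Agent.H75.TwoArm.open_arm_decay
  refine ⟨C, d, hC, hd0, hd1, ?_⟩
  intro D D' A B A' B' hb hsub δ hδ J s hs X Y Q ρ n m k hρ hn hnm hm hfar hX0 hY0 hX1 hX2 hY1 hY2
  set E : Finset (ℤ × ℤ) := EL D' δ ∪ (univ.biUnion fun j => (X j ∪ Y j).biUnion fun x => Bn x n)
    with hE
  have hodd : ∀ e ∈ E, (e.1 + e.2) % 2 = 1 := by
    intro e he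
    rw [hE, mem_union] at he
    rcases he with he | he
    · obtain ⟨u, v, h1, -, -, rfl⟩ := (mem_EL hb hδ).1 he
      have := unit_cases h1
      simp only [Prod.fst_add, Prod.snd_add]
      omega
    · rw [mem_biUnion] at he
      obtain ⟨j, -, he⟩ := he
      rw [mem_biUnion] at he
      obtain ⟨x, -, he⟩ := he
      exact (mem_Bn.1 he).2.2
  have hE1 : EL D' δ ⊆ E := subset_union_left
  have hE0 : EL D δ ⊆ E := by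
    intro e he
    obtain ⟨u, v, h1, h2, h3, h4⟩ := (mem_EL (hb.subset hsub) hδ).1 he
    exact hE1 ((mem_EL hb hδ).2 ⟨u, v, h1, hsub h2, hsub h3, h4⟩)
  have hEX : ∀ j, ∀ x ∈ X j, Bn x n ⊆ E := by
    intro j x hx e he
    rw [hE, mem_union, mem_biUnion]
    right
    exact ⟨j, mem_univ _, mem_biUnion.2 ⟨x, mem_union_left _ hx, he⟩⟩
  have hEY : ∀ j, ∀ x ∈ Y j, Bn x n ⊆ E := by
    intro j x hx e he
    rw [hE, mem_union, mem_biUnion]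
    right
    exact ⟨j, mem_univ _, mem_biUnion.2 ⟨x, mem_union_right _ hx, he⟩⟩
  rw [PC_eq (hb.subset hsub) hδ hE0, PC_eq hb hδ hE1]
  have hinc : Pr E (Cross D A B δ) ≤ Pr E (fun ω => Cross D' A' B' δ ω ∨
      ((∃ q ∈ Q, ∃ u v : ℤ × ℤ, |u.1 - q.1| ≤ ρ ∧ |u.2 - q.2| ≤ ρ ∧
        (4 ^ k * ρ ≤ |v.1 - q.1| ∨ 4 ^ k * ρ ≤ |v.2 - q.2|) ∧ Co ω u v) ∨
      ((∃ j ∈ (univ : Finset (Fin J)), ∃ x ∈ X j, TopE (s j) x n ω) ∨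
        ∃ j ∈ (univ : Finset (Fin J)), ∃ x ∈ Y j, TopE (s j) x n ω))) := by
    refine Pr_mono fun ω _ hcr => ?_
    by_cases hno : Cross D' A' B' δ ω
    · exact Or.inl hno
    right
    rcases det_cross hsub hs hn hnm hfar hX0 hY0 hX1 hX2 hY1 hY2 hcr hno with h | h | h
    · left
      obtain ⟨w, w', ⟨q, hq, h1, h2⟩, h3, h4⟩ := h
      refine ⟨q, hq, w, w', h1, h2, ?_, h4⟩
      have e1 : (4:ℤ) ^ k * ρ + ρ ≤ m := by linarith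
      rcases h3 with h3 | h3
      · left
        have := abs_sub_le w'.1 q.1 w.1
        rw [abs_sub_comm q.1 w.1] at this
        linarith
      · right
        have := abs_sub_le w'.2 q.2 w.2
        rw [abs_sub_comm q.2 w.2] at this
        linarith
    · right; left
      obtain ⟨j, hj⟩ := h
      exact ⟨j, mem_univ _, hj⟩
    · right; right
      obtain ⟨j, hj⟩ := h
      exact ⟨j, mem_univ _, hj⟩
  have h1 : Pr E (fun ω => ∃ q ∈ Q, ∃ u v : ℤ × ℤ, |u.1 - q.1| ≤ ρ ∧ |u.2 - q.2| ≤ ρ ∧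
        (4 ^ k * ρ ≤ |v.1 - q.1| ∨ 4 ^ k * ρ ≤ |v.2 - q.2|) ∧ Co ω u v) ≤ Q.card * (1 - d) ^ k := by
    refine (Pr_ex E Q _).trans ((sum_le_sum fun q _ => harm E hodd q ρ hρ k).trans ?_)
    rw [sum_const, nsmul_eq_mul]
  have h2 : ∀ Z : Fin J → Finset (ℤ × ℤ), (∀ j, ∀ x ∈ Z j, Bn x n ⊆ E) →
      Pr E (fun ω => ∃ j ∈ (univ : Finset (Fin J)), ∃ x ∈ Z j, TopE (s j) x n ω) ≤
        (∑ j, ((Z j).card : ℝ)) * (C / n ^ 2) := by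
    intro Z hZ
    refine (Pr_ex E univ _).trans ?_
    rw [sum_mul]
    refine sum_le_sum fun j _ => (Pr_ex E (Z j) _).trans
      ((sum_le_sum fun x hx => htop (s j) x n hn E (hZ j x hx)).trans ?_)
    rw [sum_const, nsmul_eq_mul]
  have h3 := h2 X hEX
  have h4 := h2 Y hEY
  refine hinc.trans ((Pr_or_le _ _ _).trans ?_)
  have h5 := Pr_or_le E (fun ω => ∃ q ∈ Q, ∃ u v : ℤ × ℤ, |u.1 - q.1| ≤ ρ ∧ |u.2 - q.2| ≤ ρ ∧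
        (4 ^ k * ρ ≤ |v.1 - q.1| ∨ 4 ^ k * ρ ≤ |v.2 - q.2|) ∧ Co ω u v)
    (fun ω => (∃ j ∈ (univ : Finset (Fin J)), ∃ x ∈ X j, TopE (s j) x n ω) ∨
        ∃ j ∈ (univ : Finset (Fin J)), ∃ x ∈ Y j, TopE (s j) x n ω)
  have h6 := Pr_or_le E (fun ω => ∃ j ∈ (univ : Finset (Fin J)), ∃ x ∈ X j, TopE (s j) x n ω)
    (fun ω => ∃ j ∈ (univ : Finset (Fin J)), ∃ x ∈ Y j, TopE (s j) x n ω)
  rw [add_mul]
  linarith

end Pool.Agent.H57.FM
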