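import Mathlib
import Pool.Agent.H57.FM.CompProb

set_option autoImplicit false
open Finset Filter Topology

/-!
# Comparison of the crossing probabilities of two domains as the mesh tends to `0`
-/

namespace Pool.Agent.H57.FM

open Pool.Agent.H75.Perc Pool.Agent.H60.Q1

/-- level of `z` in the direction `s` -/
def lvl (s : ℤ × ℤ) (z : ℂ) : ℝ := s.1 * z.re + s.2 * z.im

lemma lvl_ps (s : ℤ × ℤ) (δ : ℝ) (v : ℤ × ℤ) :
    lvl s (ps δ v) = δ * ((s.1 * v.1 + s.2 * v.2 : ℤ) : ℝ) := by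
  unfold lvl
  rw [ps_re, ps_im]
  push_cast
  ring

/-- the four diagonal directions -/
def Dg (s : ℤ × ℤ) : Prop := (s.1 = 1 ∨ s.1 = -1) ∧ (s.2 = 1 ∨ s.2 = -1)

lemma Dg.ne {s : ℤ × ℤ} (h : Dg s) : s.2 ≠ 0 := by
  rcases h.2 with h | h <;> rw [h] <;> norm_num

lemma abs_lvl_le {s : ℤ × ℤ} (h : Dg s) (z : ℂ) : |lvl s z| ≤ 2 * ‖z‖ := by
  have h1 := Complex.abs_re_le_norm z
  have h2 := Complex.abs_im_le_norm z
  unfold lvl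
  have h3 : |(s.1 : ℝ)| = 1 := by rcases h.1 with h | h <;> rw [h] <;> simp
  have h4 : |(s.2 : ℝ)| = 1 := by rcases h.2 with h | h <;> rw [h] <;> simp
  refine (abs_add_le _ _).trans ?_
  rw [abs_mul, abs_mul, h3, h4]
  linarith

lemma lvl_sub (s : ℤ × ℤ) (z w : ℂ) : lvl s (z - w) = lvl s z - lvl s w := by
  unfold lvl
  rw [Complex.sub_re, Complex.sub_im]
  ring

lemma norm_le_sup {z : ℂ} {c : ℝ} (h1 : |z.re| ≤ c) (h2 : |z.im| ≤ c) : ‖z‖ ≤ 2 * c :=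
  (Complex.norm_le_abs_re_add_abs_im z).trans (by linarith)

lemma dist_ps_le {δ : ℝ} (hδ : 0 < δ) {u v : ℤ × ℤ} {n : ℤ} (h1 : |u.1 - v.1| ≤ n)
    (h2 : |u.2 - v.2| ≤ n) : dist (ps δ u) (ps δ v) ≤ 2 * (n * δ) := by
  have key : ∀ a b : ℤ, |a - b| ≤ n → |δ * (a : ℝ) - δ * b| ≤ n * δ := by
    intro a b h
    rw [← mul_sub, abs_mul, abs_of_pos hδ, mul_comm]
    have : |(a : ℝ) - b| ≤ n := by
      have : ((|a - b| : ℤ) : ℝ) ≤ n := by exact_mod_cast h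
      rwa [Int.cast_abs, Int.cast_sub] at this
    exact mul_le_mul_of_nonneg_right this hδ.le
  rw [dist_eq_norm]
  refine norm_le_sup ?_ ?_
  · rw [Complex.sub_re, ps_re, ps_re]
    exact key _ _ h1
  · rw [Complex.sub_im, ps_im, ps_im]
    exact key _ _ h2

/-- a boundary point between two neighbours -/
lemma frontier_between {D : Set ℂ} {δ : ℝ} (hδ : 0 < δ) {w w' : ℤ × ℤ} (h : IsUnit4 (w' - w))
    (h1 : ps δ w ∈ D) (h2 : ps δ w' ∉ D) : ∃ f ∈ frontier D, dist (ps δ w) f ≤ δ := by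
  have hd : dist (ps δ w') (ps δ w) ≤ δ := by
    rw [dist_eq_norm]
    have h3 := unit_cases h
    have e : ps δ w' - ps δ w = (δ : ℂ) * (((w'.1 - w.1 : ℤ) : ℂ) + ((w'.2 - w.2 : ℤ) : ℂ) * Complex.I) := by
      unfold ps
      push_cast
      ring
    rw [e, norm_mul, Complex.norm_real, Real.norm_of_nonneg hδ.le]
    have : ‖((w'.1 - w.1 : ℤ) : ℂ) + ((w'.2 - w.2 : ℤ) : ℂ) * Complex.I‖ = 1 := by
      rcases h3 with ⟨h3, h4⟩ | ⟨h3, h4⟩ | ⟨h3, h4⟩ | ⟨h3, h4⟩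
      · rw [show w'.1 - w.1 = 1 by omega, show w'.2 - w.2 = 0 by omega]; simp
      · rw [show w'.1 - w.1 = 0 by omega, show w'.2 - w.2 = 1 by omega]; simp
      · rw [show w'.1 - w.1 = -1 by omega, show w'.2 - w.2 = 0 by omega]; simp
      · rw [show w'.1 - w.1 = 0 by omega, show w'.2 - w.2 = -1 by omega]; simp
    rw [this, mul_one]
  have h3 : (segment ℝ (ps δ w) (ps δ w') ∩ frontier D).Nonempty := by
    by_contra hcon
    rw [Set.not_nonempty_iff_eq_empty] at hcon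
    have hf : ∀ z ∈ segment ℝ (ps δ w) (ps δ w'), z ∉ frontier D := fun z hz hz' =>
      Set.notMem_empty z (hcon ▸ ⟨hz, hz'⟩)
    have hp : IsPreconnected (segment ℝ (ps δ w) (ps δ w')) := (convex_segment _ _).isPreconnected
    have hcov : segment ℝ (ps δ w) (ps δ w') ⊆ interior D ∪ (closure D)ᶜ := by
      intro z hz
      by_cases hzD : z ∈ closure D
      · left
        by_contra hzi
        exact hf z hz ⟨hzD, hzi⟩
      · exact Or.inr hzD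
    have n1 : (segment ℝ (ps δ w) (ps δ w') ∩ interior D).Nonempty := by
      refine ⟨_, left_mem_segment ℝ _ _, ?_⟩
      by_contra hzi
      exact hf _ (left_mem_segment ℝ _ _) ⟨subset_closure h1, hzi⟩
    have n2 : (segment ℝ (ps δ w) (ps δ w') ∩ (closure D)ᶜ).Nonempty := by
      refine ⟨_, right_mem_segment ℝ _ _, fun hzc => ?_⟩
      exact hf _ (right_mem_segment ℝ _ _) ⟨hzc, fun hzi => h2 (interior_subset hzi)⟩
    obtain ⟨z, -, hz1, hz2⟩ := hp _ _ isOpen_interior isClosed_closure.isOpen_compl hcov n1 n2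
    exact hz2 (subset_closure (interior_subset hz1))
  obtain ⟨f, hf1, hf2⟩ := h3
  refine ⟨f, hf2, ?_⟩
  have h4 : segment ℝ (ps δ w) (ps δ w') ⊆ Metric.closedBall (ps δ w) δ :=
    (convex_closedBall _ _).segment_subset (Metric.mem_closedBall_self hδ.le)
      (Metric.mem_closedBall.2 hd)
  have := Metric.mem_closedBall.1 (h4 hf1)
  rwa [dist_comm] at this

open Classical in
/-- the lattice points of a zone -/
noncomputable def Zn (D : Set ℂ) (s : ℤ × ℤ) (c κ : ℝ) (T : Set ℂ) (δ : ℝ) : Finset (ℤ × ℤ) :=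
  if h : {v : ℤ × ℤ | ps δ v ∈ D ∧ c ≤ lvl s (ps δ v) ∧ ∃ τ ∈ T, dist (ps δ v) τ ≤ κ}.Finite then
    h.toFinset else ∅

lemma mem_Zn {D : Set ℂ} (hD : Bornology.IsBounded D) {s : ℤ × ℤ} {c κ : ℝ} {T : Set ℂ} {δ : ℝ}
    (hδ : 0 < δ) {v : ℤ × ℤ} : v ∈ Zn D s c κ T δ ↔
      ps δ v ∈ D ∧ c ≤ lvl s (ps δ v) ∧ ∃ τ ∈ T, dist (ps δ v) τ ≤ κ := by
  have h : {v : ℤ × ℤ | ps δ v ∈ D ∧ c ≤ lvl s (ps δ v) ∧ ∃ τ ∈ T, dist (ps δ v) τ ≤ κ}.Finite :=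
    (finite_ps hD hδ).subset fun v hv => hv.1
  unfold Zn
  rw [dif_pos h, Set.Finite.mem_toFinset]
  rfl

lemma card_Icc_le {a b : ℝ} (hab : a ≤ b) : ((Finset.Icc ⌈a⌉ ⌊b⌋).card : ℝ) ≤ b - a + 1 := by
  rw [Int.card_Icc]
  have h1 := Int.floor_le b
  have h2 := Int.le_ceil a
  have h3 : (((⌊b⌋ + 1 - ⌈a⌉).toNat : ℤ) : ℝ) ≤ b - a + 1 := by
    rcases le_total 0 (⌊b⌋ + 1 - ⌈a⌉) with h | h
    · rw [Int.toNat_of_nonneg h]
      push_cast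
      linarith
    · rw [Int.toNat_of_nonpos h]
      push_cast
      linarith
  exact_mod_cast h3

lemma card_Zn {D : Set ℂ} (hD : Bornology.IsBounded D) {s : ℤ × ℤ} (hs : Dg s) {h0 ε κ R : ℝ}
    {T : Set ℂ} {δ : ℝ} (hδ : 0 < δ) (hδε : δ ≤ ε) (hδR : δ ≤ R) (hR : ∀ z ∈ D, ‖z‖ ≤ R)
    (hh : ∀ z ∈ D, lvl s z < h0 + ε) :
    ((Zn D s (h0 - 2 * ε) κ T δ).card : ℝ) ≤ 12 * R * ε / δ ^ 2 := by
  classical
  have hε : 0 < ε := hδ.trans_le hδε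
  have hR0 : 0 < R := hδ.trans_le hδR
  have h1 : (Zn D s (h0 - 2 * ε) κ T δ).card ≤
      ((Finset.Icc ⌈-R / δ⌉ ⌊R / δ⌋) ×ˢ (Finset.Icc ⌈(h0 - 2 * ε) / δ⌉ ⌊(h0 + ε) / δ⌋)).card := by
    refine card_le_card_of_injOn (fun v : ℤ × ℤ => (v.1, s.1 * v.1 + s.2 * v.2)) ?_ ?_
    · intro v hv
      rw [mem_coe, mem_Zn hD hδ] at hv
      obtain ⟨g1, g2, -⟩ := hv
      have g3 := hh _ g1
      have g4 := (Complex.abs_re_le_norm _).trans (hR _ g1)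
      rw [lvl_ps] at g2 g3
      rw [ps_re, abs_le] at g4
      rw [mem_coe, mem_product, mem_Icc, mem_Icc, Int.ceil_le, Int.le_floor, Int.ceil_le,
        Int.le_floor, div_le_iff₀ hδ, le_div_iff₀ hδ, div_le_iff₀ hδ, le_div_iff₀ hδ]
      refine ⟨⟨?_, ?_⟩, ?_, ?_⟩ <;> simp only <;> linarith
    · intro v _ w _ h
      simp only [Prod.mk.injEq] at h
      obtain ⟨g1, g2⟩ := h
      rw [g1] at g2
      exact Prod.ext g1 (mul_left_cancel₀ hs.ne (by linarith))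
  have h2 : ((Zn D s (h0 - 2 * ε) κ T δ).card : ℝ) ≤ (R / δ - -R / δ + 1) *
      ((h0 + ε) / δ - (h0 - 2 * ε) / δ + 1) := by
    have h3 : ((Zn D s (h0 - 2 * ε) κ T δ).card : ℝ) ≤ (((Finset.Icc ⌈-R / δ⌉ ⌊R / δ⌋) ×ˢ
      (Finset.Icc ⌈(h0 - 2 * ε) / δ⌉ ⌊(h0 + ε) / δ⌋)).card : ℝ) := by exact_mod_cast h1
    rw [card_product, Nat.cast_mul] at h3
    have a1 : -R / δ ≤ R / δ := by gcongr; linarith
    have a2 : (h0 - 2 * ε) / δ ≤ (h0 + ε) / δ := by gcongr; linarith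
    refine h3.trans (mul_le_mul (card_Icc_le a1) (card_Icc_le a2) (by positivity) ?_)
    linarith
  refine h2.trans ?_
  have e1 : R / δ - -R / δ + 1 ≤ 3 * R / δ := by
    rw [le_div_iff₀ hδ, add_mul, sub_mul, div_mul_cancel₀ _ hδ.ne', div_mul_cancel₀ _ hδ.ne']
    linarith
  have e2 : (h0 + ε) / δ - (h0 - 2 * ε) / δ + 1 ≤ 4 * ε / δ := by
    rw [le_div_iff₀ hδ, add_mul, sub_mul, div_mul_cancel₀ _ hδ.ne', div_mul_cancel₀ _ hδ.ne']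
    linarith
  have e3 : 0 ≤ (h0 + ε) / δ - (h0 - 2 * ε) / δ + 1 := by
    have a2 : (h0 - 2 * ε) / δ ≤ (h0 + ε) / δ := by gcongr; linarith
    linarith
  calc _ ≤ (3 * R / δ) * (4 * ε / δ) := mul_le_mul e1 e2 e3 (by positivity)
    _ = 12 * R * ε / δ ^ 2 := by field_simp; ring

/-- the geometric data of one arc `A` of `D`, `A'` of `D' ⊇ D` -/
structure Side (D D' A A' : Set ℂ) {J : ℕ} (s : Fin J → ℤ × ℤ) (h0 : Fin J → ℝ)
    (T : Fin J → Set ℂ) (Q : Finset ℂ) (ε κ r1 r2 : ℝ) : Prop where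
  start : ∀ a ∈ A, a ∈ A' ∨ (∃ q ∈ Q, dist a q < r2 / 2) ∨
    ∃ j, h0 j - ε ≤ lvl (s j) a ∧ ∃ τ ∈ T j, dist a τ ≤ κ
  exit : ∀ j, ∀ x ∈ D', h0 j - 2 * ε ≤ lvl (s j) x → (∃ τ ∈ T j, dist x τ ≤ 2 * κ) →
    (∀ q ∈ Q, r2 ≤ dist x q) → ∀ w ∈ frontier D', dist w x ≤ 2 * r1 → w ∈ A'
  stay : ∀ j, ∀ x ∈ D', h0 j - 2 * ε ≤ lvl (s j) x → (∃ τ ∈ T j, dist x τ ≤ 2 * κ) →
    (∀ q ∈ Q, r2 ≤ dist x q) → ∀ w ∈ D', dist w x ≤ 2 * r1 → h0 j - 2 * ε ≤ lvl (s j) w →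
      (∃ q ∈ Q, dist w q < r2) ∨ ∃ τ ∈ T j, dist w τ ≤ 2 * κ

/-- lattice point next to `q` -/
noncomputable def lp (δ : ℝ) (q : ℂ) : ℤ × ℤ := (⌊q.re / δ⌋, ⌊q.im / δ⌋)

lemma near_lp {δ : ℝ} (hδ : 0 < δ) {q : ℂ} {r : ℝ} {w : ℤ × ℤ} (h : dist (ps δ w) q < r) {ρ : ℤ}
    (hρ : r / δ + 1 ≤ ρ) : |w.1 - (lp δ q).1| ≤ ρ ∧ |w.2 - (lp δ q).2| ≤ ρ := by
  have key : ∀ (a : ℤ) (x : ℝ), |δ * (a : ℝ) - x| < r → |a - ⌊x / δ⌋| ≤ ρ := by
    intro a x hx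
    have h1 : |(a : ℝ) - x / δ| < r / δ := by
      have e : (a : ℝ) - x / δ = (δ * a - x) / δ := by field_simp
      rw [e, abs_div, abs_of_pos hδ]
      exact div_lt_div_of_pos_right hx hδ
    have h2 := Int.floor_le (x / δ)
    have h3 := Int.lt_floor_add_one (x / δ)
    rw [abs_lt] at h1
    have h4 : (((|a - ⌊x / δ⌋| : ℤ)) : ℝ) ≤ ρ := by
      push_cast
      rw [abs_le]
      constructor <;> linarith
    exact_mod_cast h4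
  rw [dist_eq_norm] at h
  refine ⟨key w.1 q.re ?_, key w.2 q.im ?_⟩
  · rw [← ps_re, ← Complex.sub_re]
    exact (Complex.abs_re_le_norm _).trans_lt h
  · rw [← ps_im, ← Complex.sub_im]
    exact (Complex.abs_im_le_norm _).trans_lt h

/-- the three local conditions at fixed mesh -/
lemma Side.mesh {D D' A A' : Set ℂ} {J : ℕ} {s : Fin J → ℤ × ℤ} {h0 : Fin J → ℝ}
    {T : Fin J → Set ℂ} {Q : Finset ℂ} {ε κ r1 r2 : ℝ} (S : Side D D' A A' s h0 T Q ε κ r1 r2)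
    (hs : ∀ j, Dg (s j)) (hb : Bornology.IsBounded D') (hsub : D ⊆ D') {δ : ℝ} (hδ : 0 < δ)
    (hδ1 : 2 * δ ≤ ε) (hδ2 : δ ≤ κ) (hδ3 : 2 * δ ≤ r2) (hδ4 : δ ≤ r1) {ρ n : ℤ}
    (hρ : r2 / δ + 1 ≤ ρ) (hn : 2 * (n * δ) ≤ r1) :
    (∀ u, ps δ u ∈ D → (∃ a ∈ A, dist (ps δ u) a ≤ δ) → (∃ a ∈ A', dist (ps δ u) a ≤ δ) ∨
      Nr (Q.image (lp δ)) ρ u ∨ ∃ j, u ∈ Zn D' (s j) (h0 j - 2 * ε) (2 * κ) (T j) δ) ∧
    (∀ j, ∀ x ∈ Zn D' (s j) (h0 j - 2 * ε) (2 * κ) (T j) δ, ¬ Nr (Q.image (lp δ)) ρ x → ∀ w,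
      ps δ w ∈ D' → |w.1 - x.1| ≤ n → |w.2 - x.2| ≤ n →
      ∀ w', IsUnit4 (w' - w) → ps δ w' ∉ D' → ∃ a ∈ A', dist (ps δ w) a ≤ δ) ∧
    (∀ j, ∀ x ∈ Zn D' (s j) (h0 j - 2 * ε) (2 * κ) (T j) δ, ¬ Nr (Q.image (lp δ)) ρ x → ∀ w,
      ps δ w ∈ D' → |w.1 - x.1| ≤ n → |w.2 - x.2| ≤ n →
      w ∈ Zn D' (s j) (h0 j - 2 * ε) (2 * κ) (T j) δ ∨ Nr (Q.image (lp δ)) ρ w ∨ Low (s j) w x) := by
  classical
  have hN : ∀ w : ℤ × ℤ, (∃ q ∈ Q, dist (ps δ w) q < r2) → Nr (Q.image (lp δ)) ρ w := by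
    rintro w ⟨q, hq, hd⟩
    exact ⟨lp δ q, mem_image_of_mem _ hq, near_lp hδ hd hρ⟩
  have hN' : ∀ w : ℤ × ℤ, ¬ Nr (Q.image (lp δ)) ρ w → ∀ q ∈ Q, r2 ≤ dist (ps δ w) q := by
    intro w hw q hq
    by_contra hcon
    exact hw (hN w ⟨q, hq, not_le.1 hcon⟩)
  have hdist : ∀ w x : ℤ × ℤ, |w.1 - x.1| ≤ n → |w.2 - x.2| ≤ n → dist (ps δ w) (ps δ x) ≤ r1 :=
    fun w x h1 h2 => (dist_ps_le hδ h1 h2).trans hn
  refine ⟨?_, ?_, ?_⟩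
  · rintro u hu ⟨a, ha, hd⟩
    rcases S.start a ha with h | ⟨q, hq, h⟩ | ⟨j, h1, τ, hτ, h2⟩
    · exact Or.inl ⟨a, h, hd⟩
    · right; left
      refine hN u ⟨q, hq, ?_⟩
      have := dist_triangle (ps δ u) a q
      linarith
    · right; right
      refine ⟨j, (mem_Zn hb hδ).2 ⟨hsub hu, ?_, τ, hτ, ?_⟩⟩
      · have h3 := abs_lvl_le (hs j) (ps δ u - a)
        rw [lvl_sub, ← dist_eq_norm, abs_le] at h3
        linarith [h3.1]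
      · have := dist_triangle (ps δ u) a τ
        linarith
  · intro j x hx hNx w hw h1 h2 w' hww hw'
    obtain ⟨g1, g2, g3⟩ := (mem_Zn hb hδ).1 hx
    obtain ⟨f, hf, hd⟩ := frontier_between hδ hww hw hw'
    refine ⟨f, S.exit j _ g1 g2 g3 (hN' x hNx) f hf ?_, hd⟩
    have h3 := hdist w x h1 h2
    have h4 := dist_triangle f (ps δ w) (ps δ x)
    have h5 : dist f (ps δ w) = dist (ps δ w) f := dist_comm _ _
    linarith
  · intro j x hx hNx w hw h1 h2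
    obtain ⟨g1, g2, g3⟩ := (mem_Zn hb hδ).1 hx
    by_cases h3 : h0 j - 2 * ε ≤ lvl (s j) (ps δ w)
    · have hr1 : 0 ≤ r1 := hδ.le.trans hδ4
      rcases S.stay j _ g1 g2 g3 (hN' x hNx) _ hw ((hdist w x h1 h2).trans (by linarith)) h3 with h4 | h4
      · exact Or.inr (Or.inl (hN w h4))
      · exact Or.inl ((mem_Zn hb hδ).2 ⟨hw, h3, h4⟩)
    · right; right; left
      push Not at h3
      have h4 := h3.trans_le g2
      rw [lvl_ps, lvl_ps] at h4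
      have h5 := lt_of_mul_lt_mul_left h4 hδ.le
      exact_mod_cast h5

end Pool.Agent.H57.FM
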