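import Mathlib
import Pool.Agent.H57.FM.Compare

set_option autoImplicit false
open Finset Filter Topology

/-!
# Comparison of the crossing probabilities of two domains as the mesh tends to `0`
-/

namespace Pool.Agent.H57.FM

open Pool.Agent.H75.Perc Pool.Agent.H60.Q1

/-- **Comparison lemma.** -/
theorem compare : ∃ C d : ℝ, 0 < C ∧ 0 < d ∧ d < 1 ∧
    ∀ {D D' A B A' B' : Set ℂ}, Bornology.IsBounded D' → D ⊆ D' →
    ∀ {J : ℕ} {s : Fin J → ℤ × ℤ}, (∀ j, Dg (s j)) → ∀ {h0 : Fin J → ℝ} {T U : Fin J → Set ℂ}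
    {Q : Finset ℂ} {ε κ r0 r1 r2 R : ℝ} (k : ℕ), 0 < ε → 0 < κ → 0 < r1 → 0 < r2 → 0 < R →
    8 * r1 ≤ r0 → 64 * (4 ^ k + 1) * r2 ≤ r0 →
    (∀ z ∈ D', ‖z‖ ≤ R) → (∀ a ∈ A, ∀ b ∈ B, r0 ≤ dist a b) →
    (∀ j, ∀ z ∈ D', lvl (s j) z < h0 j + ε) →
    Side D D' A A' s h0 T Q ε κ r1 r2 → Side D D' B B' s h0 U Q ε κ r1 r2 →
    ∀ᶠ δ in 𝓝[>] (0:ℝ), PC D A B δ ≤ PC D' A' B' δ + Q.card * (1 - d) ^ k +
      C * (J * R * ε / r1 ^ 2) := by
  classical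
  obtain ⟨C, d, hC, hd0, hd1, hmain⟩ := prob_cross
  refine ⟨384 * C, d, by positivity, hd0, hd1, ?_⟩
  intro D D' A B A' B' hb hsub J s hs h0 T U Q ε κ r0 r1 r2 R k hε hκ hr1 hr2 hR h8 h64 hRD hAB hh SA SB
  have hr0 : 0 < r0 := by linarith
  have hpos : ∀ᶠ δ : ℝ in 𝓝[>] 0, 0 < δ := self_mem_nhdsWithin
  have hsm : ∀ c : ℝ, 0 < c → ∀ᶠ δ : ℝ in 𝓝[>] 0, δ < c := fun c hc =>
    nhdsWithin_le_nhds (Iio_mem_nhds hc)
  filter_upwards [hpos, hsm (ε / 2) (by positivity), hsm κ hκ, hsm (r2 / 2) (by positivity),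
    hsm (r1 / 4) (by positivity), hsm R hR, hsm (r0 / 16) (by positivity)]
    with δ hδ e1 e2 e3 e4 e5 e6
  -- the integers
  set n : ℤ := ⌊r1 / (2 * δ)⌋ with hn
  set m : ℤ := ⌊r0 / (8 * δ)⌋ with hm
  set ρ : ℤ := ⌈r2 / δ⌉ + 1 with hρ
  have hn_le : (n : ℝ) ≤ r1 / (2 * δ) := Int.floor_le _
  have hn_lt : r1 / (2 * δ) < n + 1 := Int.lt_floor_add_one _
  have hx : 2 < r1 / (2 * δ) := by
    rw [lt_div_iff₀ (by positivity)]
    linarith
  have hnR : r1 / (4 * δ) ≤ n := by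
    have : r1 / (4 * δ) = r1 / (2 * δ) / 2 := by field_simp; ring
    linarith
  have hn1 : 1 ≤ n := by
    have : (1:ℝ) < n := by linarith
    have : (1:ℤ) < n := by exact_mod_cast this
    omega
  have h2nδ : 2 * ((n : ℝ) * δ) ≤ r1 := by
    rw [le_div_iff₀ (by positivity)] at hn_le
    linarith
  have hnm : n ≤ m := by
    refine Int.floor_le_floor ?_
    rw [div_le_div_iff₀ (by positivity) (by positivity)]
    nlinarith
  have hm_le : (m : ℝ) ≤ r0 / (8 * δ) := Int.floor_le _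
  have h4mδ : 2 * (((2 * m : ℤ) : ℝ) * δ) ≤ r0 / 2 := by
    rw [le_div_iff₀ (by positivity)] at hm_le
    push_cast
    linarith
  have hρ1 : r2 / δ + 1 ≤ ρ := by
    rw [hρ]
    push_cast
    have := Int.le_ceil (r2 / δ)
    linarith
  have hρ2 : (ρ : ℝ) ≤ 2 * r2 / δ := by
    have h1 := Int.ceil_lt_add_one (r2 / δ)
    have h2 : 2 < r2 / δ := by rw [lt_div_iff₀ hδ]; linarith
    have h3 : 2 * r2 / δ = r2 / δ + r2 / δ := by ring
    rw [hρ, h3]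
    push_cast
    linarith
  have hρ0 : 1 ≤ ρ := by
    have h2 : 0 < r2 / δ := by positivity
    have : (1:ℝ) < ρ := by linarith
    have : (1:ℤ) < ρ := by exact_mod_cast this
    omega
  have hkρ : (4 ^ k + 1) * ρ ≤ m := by
    rw [hm, Int.le_floor]
    push_cast
    have h1 : ((4:ℝ) ^ k + 1) * ρ ≤ (4 ^ k + 1) * (2 * r2 / δ) :=
      mul_le_mul_of_nonneg_left hρ2 (by positivity)
    refine h1.trans ?_
    rw [mul_div_assoc', div_le_div_iff₀ hδ (by positivity)]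
    have h2 : (4 ^ k + 1) * (2 * r2) * (8 * δ) = 64 * (4 ^ k + 1) * r2 * (δ / 4) := by ring
    rw [h2]
    have h3 : 64 * (4 ^ k + 1) * r2 * (δ / 4) ≤ r0 * (δ / 4) :=
      mul_le_mul_of_nonneg_right h64 (by positivity)
    nlinarith
  have hfar : ∀ u v : ℤ × ℤ, (∃ a ∈ A, dist (ps δ u) a ≤ δ) → (∃ b ∈ B, dist (ps δ v) b ≤ δ) →
      2 * m ≤ |u.1 - v.1| ∨ 2 * m ≤ |u.2 - v.2| := by
    rintro u v ⟨a, ha, hda⟩ ⟨b, hb', hdb⟩
    by_contra hcon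
    push Not at hcon
    have h1 := dist_ps_le hδ hcon.1.le hcon.2.le
    have h2 := hAB a ha b hb'
    have h3 := dist_triangle4 a (ps δ u) (ps δ v) b
    have h4 : dist a (ps δ u) = dist (ps δ u) a := dist_comm _ _
    linarith
  obtain ⟨a1, a2, a3⟩ := SA.mesh hs hb hsub hδ (by linarith) e2.le (by linarith) (by linarith) hρ1 h2nδ
  obtain ⟨b1, b2, b3⟩ := SB.mesh hs hb hsub hδ (by linarith) e2.le (by linarith) (by linarith) hρ1 h2nδ
  have h := hmain hb hsub hδ (fun j => (hs j).ne)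
    (fun j => Zn D' (s j) (h0 j - 2 * ε) (2 * κ) (T j) δ)
    (fun j => Zn D' (s j) (h0 j - 2 * ε) (2 * κ) (U j) δ) (Q.image (lp δ)) ρ n m k hρ0 hn1 hnm hkρ
    hfar a1 b1 a2 a3 b2 b3
  refine h.trans ?_
  have hd' : 0 ≤ (1 - d) ^ k := pow_nonneg (by linarith) k
  have hQ : ((Q.image (lp δ)).card : ℝ) * (1 - d) ^ k ≤ Q.card * (1 - d) ^ k := by
    refine mul_le_mul_of_nonneg_right ?_ hd'
    exact_mod_cast card_image_le
  have hcard : ∀ T : Fin J → Set ℂ, ∑ j, ((Zn D' (s j) (h0 j - 2 * ε) (2 * κ) (T j) δ).card : ℝ) ≤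
      J * (12 * R * ε / δ ^ 2) := by
    intro T
    refine (sum_le_sum fun j _ => card_Zn hb (hs j) hδ (by linarith) e5.le hRD (hh j)).trans ?_
    rw [sum_const, card_univ, Fintype.card_fin, nsmul_eq_mul]
  have hnpos : (0:ℝ) < n := by exact_mod_cast (by omega : 0 < n)
  have hCn : C / (n : ℝ) ^ 2 ≤ 16 * C * δ ^ 2 / r1 ^ 2 := by
    have h1 : (r1 / (4 * δ)) ^ 2 ≤ (n : ℝ) ^ 2 := by gcongr
    have h2 : C / (n : ℝ) ^ 2 ≤ C / (r1 / (4 * δ)) ^ 2 := by gcongr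
    refine h2.trans (le_of_eq ?_)
    field_simp
    ring
  have hfin : (∑ j, ((Zn D' (s j) (h0 j - 2 * ε) (2 * κ) (T j) δ).card : ℝ) +
      ∑ j, ((Zn D' (s j) (h0 j - 2 * ε) (2 * κ) (U j) δ).card : ℝ)) * (C / (n : ℝ) ^ 2) ≤
      384 * C * (J * R * ε / r1 ^ 2) := by
    have h1 : (∑ j, ((Zn D' (s j) (h0 j - 2 * ε) (2 * κ) (T j) δ).card : ℝ) +
        ∑ j, ((Zn D' (s j) (h0 j - 2 * ε) (2 * κ) (U j) δ).card : ℝ)) ≤
        2 * (J * (12 * R * ε / δ ^ 2)) := by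
      linarith [hcard T, hcard U]
    refine (mul_le_mul h1 hCn (by positivity) (by positivity)).trans (le_of_eq ?_)
    field_simp
    ring
  linarith

end Pool.Agent.H57.FM
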