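import Mathlib
import Pool.Agent.H57.FM.Compare2
import Pool.Agent.H57.FM.CConv

set_option autoImplicit false
open Set Metric Filter Topology Complex

/-! # Comparison of the crossing probabilities of two close domains -/

namespace Pool.Agent.H57.FM

open Pool.Agent.H69.Car Pool.Agent.H19.Rado

/-- the boundary without the open arc between the parameters `u`, `v` -/
def Rest (φ : ℂ → ℂ) (b : ℂ) (u v : ℝ) : Set ℂ :=
  {z | z = b ∨ ∃ t : ℝ, (t ≤ u ∨ v ≤ t) ∧ z = φ t}

/-- the arc between the parameters `u`, `v` -/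
def Arc (φ : ℂ → ℂ) (u v : ℝ) : Set ℂ := (fun x : ℝ => φ x) '' Icc u v

section one

variable {D : Set ℂ} {a b : ℂ} {φ : ℂ → ℂ}

lemma compact_rest (h : IsHalf D a b φ) (u v : ℝ) : IsCompact (Rest φ b u v) := by
  have h1 : IsCompact (insert b (Set.range fun x : ℝ => φ ((v + |x| : ℝ) : ℂ))) := by
    refine Tendsto.isCompact_insert_range_of_cocompact (f := fun x : ℝ => φ ((v + |x| : ℝ) : ℂ)) ?_ ?_
    · refine h.tendsto_atTop.comp (tendsto_atTop_add_const_left _ v ?_)
      exact tendsto_norm_cocompact_atTop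
    · exact h.cont_real.comp (by fun_prop)
  have h2 : IsCompact (insert b (Set.range fun x : ℝ => φ ((u - |x| : ℝ) : ℂ))) := by
    refine Tendsto.isCompact_insert_range_of_cocompact (f := fun x : ℝ => φ ((u - |x| : ℝ) : ℂ)) ?_ ?_
    · refine h.tendsto_atBot.comp ?_
      simp only [sub_eq_add_neg]
      refine tendsto_atBot_add_const_left _ u ?_
      exact tendsto_neg_atTop_atBot.comp tendsto_norm_cocompact_atTop
    · exact h.cont_real.comp (by fun_prop)
  have e : Rest φ b u v = insert b (Set.range fun x : ℝ => φ ((v + |x| : ℝ) : ℂ)) ∪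
      insert b (Set.range fun x : ℝ => φ ((u - |x| : ℝ) : ℂ)) := by
    ext z
    constructor
    · rintro (hz | ⟨t, ht | ht, hz⟩)
      · exact Or.inl (Or.inl hz)
      · right; right
        refine ⟨u - t, ?_⟩
        simp only
        rw [abs_of_nonneg (by linarith), sub_sub_cancel, hz]
      · left; right
        refine ⟨t - v, ?_⟩
        simp only
        rw [abs_of_nonneg (by linarith), add_sub_cancel, hz]
    · rintro ((hz | ⟨x, hz⟩) | (hz | ⟨x, hz⟩))
      · exact Or.inl hz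
      · right
        exact ⟨v + |x|, Or.inr (by linarith [abs_nonneg x]), hz.symm⟩
      · exact Or.inl hz
      · right
        exact ⟨u - |x|, Or.inl (by linarith [abs_nonneg x]), hz.symm⟩
  rw [e]
  exact h1.union h2

/-- points of an arc which are close to the rest of the boundary are close to its end points -/
lemma arc_sep (h : IsHalf D a b φ) {u v : ℝ} {ρ : ℝ} (hρ : 0 < ρ) :
    ∃ r > 0, ∀ x ∈ Icc u v, ∀ y ∈ Rest φ b u v, dist (φ x) y < r →
      dist (φ x) (φ u) < ρ ∨ dist (φ x) (φ v) < ρ := by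
  have hc := h.cont_real
  have hA : IsCompact ((fun x : ℝ => φ x) ''
      (Icc u v ∩ {x : ℝ | ρ ≤ dist (φ x) (φ u) ∧ ρ ≤ dist (φ x) (φ v)})) := by
    refine (isCompact_Icc.inter_right ?_).image hc
    exact (isClosed_le continuous_const (hc.dist continuous_const)).inter
      (isClosed_le continuous_const (hc.dist continuous_const))
  have hd : Disjoint ((fun x : ℝ => φ x) ''
      (Icc u v ∩ {x : ℝ | ρ ≤ dist (φ x) (φ u) ∧ ρ ≤ dist (φ x) (φ v)})) (Rest φ b u v) := by
    rw [Set.disjoint_left]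
    rintro _ ⟨x, ⟨hx, h1, h2⟩, rfl⟩ hr
    have hxu : x ≠ u := by
      rintro rfl
      rw [dist_self] at h1
      linarith
    have hxv : x ≠ v := by
      rintro rfl
      rw [dist_self] at h2
      linarith
    rcases hr with hr | ⟨t, ht, hr⟩
    · exact h.notMem ⟨x, re_HC x, hr⟩
    · have := h.inj_real hr
      subst this
      rcases ht with ht | ht
      · exact hxu (le_antisymm ht hx.1)
      · exact hxv (le_antisymm hx.2 ht)
  obtain ⟨r, hr, hr'⟩ := exists_pos_forall_lt_edist hA (compact_rest h u v).isClosed hd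
  refine ⟨r, by exact_mod_cast hr, fun x hx y hy hxy => ?_⟩
  by_contra hcon
  push Not at hcon
  have h1 := hr' _ ⟨x, ⟨hx, hcon.1, hcon.2⟩, rfl⟩ y hy
  rw [edist_dist] at h1
  have h2 : ENNReal.ofReal (dist (φ x) y) < (r : ENNReal) := by
    rw [ENNReal.ofReal_lt_coe_iff dist_nonneg]
    exact hxy
  exact absurd h1 (not_lt.2 h2.le)

/-- the frontier is the image of the real line and of infinity -/
lemma frontier_cases (h : IsHalf D a b φ) (hD : IsOpen D) {w : ℂ} (hw : w ∈ frontier D) (u v : ℝ) :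
    w ∈ Arc φ u v ∨ w ∈ Rest φ b u v := by
  by_cases hb : w = b
  · exact Or.inr (Or.inl hb)
  · have h1 : w ∈ φ '' {z | z.im = 0} := by
      rw [h.image_real hD]
      exact ⟨hw, hb⟩
    obtain ⟨z, hz, rfl⟩ := h1
    have e : ((z.re : ℝ) : ℂ) = z :=
      Complex.ext (by simp) (by simpa using (show z.im = 0 from hz).symm)
    rw [← e]
    by_cases h2 : z.re ∈ Icc u v
    · exact Or.inl ⟨z.re, h2, rfl⟩
    · right; right
      refine ⟨z.re, ?_, rfl⟩
      by_contra hcon
      push Not at hcon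
      exact h2 ⟨hcon.1.le, hcon.2.le⟩

end one

/-- **The side conditions** for two domains whose charts are close to a given chart. -/
lemma side_of_close {D Di Do : Set ℂ} {a b ai bi ao bo : ℂ} {φ φi φo : ℂ → ℂ}
    (h : IsHalf D a b φ) (hi : IsHalf Di ai bi φi) (hD : IsOpen D) (hDo : IsOpen Do) (hDi : IsOpen Di)
    (ho : IsHalf Do ao bo φo) (hsub : Di ⊆ Do) {u v : ℝ} {J : ℕ} {s : Fin J → ℤ × ℤ}
    {h0 : Fin J → ℝ} {T : Fin J → Set ℂ} (hT : ∀ j, T j ⊆ frontier D) {ε κ κ0 θ r r1 r2 : ℝ}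
    (hκ : 0 < κ) (hκ0 : 0 < κ0) (hr1 : 0 < r1) (hr2 : 0 < r2)
    (ci : ∀ t : ℝ, dist (φi t) (φ t) ≤ κ0) (co : ∀ t : ℝ, dist (φo t) (φ t) ≤ κ0)
    (cb : dist bo b ≤ κ0) (k1 : ∀ z ∈ frontier Di, z ∈ frontier Do ∨ ∃ j, h0 j - ε ≤ lvl (s j) z)
    (k3 : ∀ z ∈ closure Do, ∀ j, h0 j - θ ≤ lvl (s j) z → ∃ τ ∈ T j, dist z τ ≤ κ / 2)
    (hεθ : 2 * ε ≤ θ) (hε : 0 < ε)
    (hsep : ∀ x ∈ Icc u v, ∀ y ∈ Rest φ b u v, dist (φ x) y < r →
      dist (φ x) (φ u) < r2 / 8 ∨ dist (φ x) (φ v) < r2 / 8)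
    (e1 : 3 * κ + 2 * r1 + 2 * κ0 < r) (e2 : 3 * κ + 2 * r1 + 2 * κ0 < r2 / 8) {Q : Finset ℂ}
    (hu : φ u ∈ Q) (hv : φ v ∈ Q) :
    Side Di Do (Arc φi u v) (Arc φo u v) s h0 (fun j => T j ∩ Arc φ u v) Q ε κ r1 r2 := by
  -- a point of the rest of the boundary of `Do` is close to the rest of the boundary of `D`
  have hrest : ∀ w ∈ Rest φo bo u v, ∃ w' ∈ Rest φ b u v, dist w w' ≤ κ0 := by
    rintro w (rfl | ⟨t, ht, rfl⟩)
    · exact ⟨b, Or.inl rfl, cb⟩
    · exact ⟨φ t, Or.inr ⟨t, ht, rfl⟩, co t⟩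
  have hmark : ∀ x ∈ Icc u v, ∀ y ∈ Rest φ b u v, dist (φ x) y < r → ∃ q ∈ Q,
      dist (φ x) q < r2 / 8 := by
    intro x hx y hy hd
    rcases hsep x hx y hy hd with h1 | h1
    · exact ⟨_, hu, h1⟩
    · exact ⟨_, hv, h1⟩
  have hTA : ∀ j, ∀ τ ∈ T j, τ ∈ Arc φ u v ∨ τ ∈ Rest φ b u v := fun j τ hτ =>
    frontier_cases h hD (hT j hτ) u v
  refine ⟨?_, ?_, ?_⟩
  · rintro _ ⟨t, ht, rfl⟩
    simp only
    have hfr : φi t ∈ frontier Di := (hi.mapsTo_real hDi).1
    have hct := ci t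
    rcases k1 _ hfr with h1 | ⟨j, h1⟩
    · rcases frontier_cases ho hDo h1 u v with h2 | h2
      · exact Or.inl h2
      · right; left
        obtain ⟨w', hw', hd⟩ := hrest _ h2
        have h3 := dist_triangle (φ t) (φi t) w'
        have h4 : dist (φ t) (φi t) = dist (φi t) (φ t) := dist_comm _ _
        obtain ⟨q, hq, hq'⟩ := hmark t ht w' hw' (by linarith)
        refine ⟨q, hq, ?_⟩
        have h5 := dist_triangle (φi t) (φ t) q
        linarith
    · have hcl : φi t ∈ closure Do := closure_mono hsub (frontier_subset_closure hfr)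
      obtain ⟨τ, hτ, hd⟩ := k3 _ hcl j (by linarith)
      rcases hTA j τ hτ with h2 | h2
      · right; right
        exact ⟨j, h1, τ, ⟨hτ, h2⟩, by linarith⟩
      · right; left
        have h3 := dist_triangle (φ t) (φi t) τ
        have h4 : dist (φ t) (φi t) = dist (φi t) (φ t) := dist_comm _ _
        obtain ⟨q, hq, hq'⟩ := hmark t ht τ h2 (by linarith)
        refine ⟨q, hq, ?_⟩
        have h5 := dist_triangle (φi t) (φ t) q
        linarith
  · rintro j x hx hl ⟨τ, ⟨hτ, hτA⟩, hd⟩ hfar w hw hwx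
    rcases frontier_cases ho hDo hw u v with h2 | h2
    · exact h2
    · exfalso
      obtain ⟨t, ht, rfl⟩ := hτA
      simp only at hd
      obtain ⟨w', hw', hd'⟩ := hrest _ h2
      have h3 := dist_triangle4 (φ t) x w w'
      have h4 : dist (φ t) x = dist x (φ t) := dist_comm _ _
      have h5 : dist x w = dist w x := dist_comm _ _
      obtain ⟨q, hq, hq'⟩ := hmark t ht w' hw' (by linarith)
      have h6 := dist_triangle x (φ t) q
      have h7 := hfar q hq
      linarith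
  · rintro j x hx hl ⟨τ, ⟨hτ, hτA⟩, hd⟩ hfar w hw hwx hlw
    obtain ⟨τ', hτ', hd'⟩ := k3 w (subset_closure hw) j (by linarith)
    rcases hTA j τ' hτ' with h2 | h2
    · right
      exact ⟨τ', ⟨hτ', h2⟩, by linarith⟩
    · left
      obtain ⟨t, ht, rfl⟩ := hτA
      simp only at hd
      have h3 := dist_triangle4 (φ t) x w τ'
      have h4 : dist (φ t) x = dist x (φ t) := dist_comm _ _
      have h5 : dist x w = dist w x := dist_comm _ _
      obtain ⟨q, hq, hq'⟩ := hmark t ht τ' h2 (by linarith)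
      refine ⟨q, hq, ?_⟩
      have h6 := dist_triangle4 w x (φ t) q
      linarith

end Pool.Agent.H57.FM
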