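import Mathlib
import Pool.Agent.H57.FM.NearComp

set_option autoImplicit false
open Set Metric Filter Topology Complex

/-! # Comparison of the crossing probabilities along two sequences of domains -/

namespace Pool.Agent.H57.FM

open Pool.Agent.H69.Car Pool.Agent.H19.Rado

/-- two sequences of domains, `Di n ⊆ Do n`, close to `D`, which differ only near the faces `T j` of
`D` in the directions `s j`, which are at the levels `h0 j` -/
structure Near (Di Do : ℕ → Set ℂ) {J : ℕ} (s : Fin J → ℤ × ℤ) (h0 : Fin J → ℝ)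
    (T : Fin J → Set ℂ) : Prop where
  sub : ∀ n, Di n ⊆ Do n
  opi : ∀ n, IsOpen (Di n)
  opo : ∀ n, IsOpen (Do n)
  bdd : ∃ R : ℝ, ∀ n, ∀ z ∈ Do n, ‖z‖ ≤ R
  k1 : ∀ ε > 0, ∀ᶠ n in atTop, ∀ z ∈ frontier (Di n),
    z ∈ frontier (Do n) ∨ ∃ j, h0 j - ε ≤ lvl (s j) z
  k2 : ∀ ε > 0, ∀ᶠ n in atTop, ∀ j, ∀ z ∈ Do n, lvl (s j) z < h0 j + ε
  k3 : ∀ κ > 0, ∃ θ > 0, ∀ᶠ n in atTop, ∀ z ∈ closure (Do n), ∀ j,
    h0 j - θ ≤ lvl (s j) z → ∃ τ ∈ T j, dist z τ ≤ κ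

lemma chart_close {a b b' : ℂ} {D : Set ℂ} {φ φ' : ℂ → ℂ} {κ : ℝ} (_h : IsHalf D a b φ)
    (hc : ∀ w ∈ closedBall (0:ℂ) 1, dist (toDisc φ' b' w) (toDisc φ b w) ≤ κ) :
    (∀ t : ℝ, dist (φ' t) (φ t) ≤ κ) ∧ dist b' b ≤ κ := by
  constructor
  · intro t
    have h1 := hc (cay 1 I t) (cay_closedBall norm_one I_im_pos (re_HC t))
    rwa [toDisc_cay _ _ (re_HC t), toDisc_cay _ _ (re_HC t)] at h1
  · have h1 := hc 1 (by simp)
    rwa [toDisc_one, toDisc_one] at h1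

/-- **Comparison along two sequences of domains.** -/
theorem near_compare {D : Set ℂ} (hD : IsOpen D) {a b : ℂ} {φ : ℂ → ℂ} (h : IsHalf D a b φ)
    {t : Fin 4 → ℝ} (ht : StrictMono t) {Di Do : ℕ → Set ℂ} {J : ℕ} {s : Fin J → ℤ × ℤ}
    (hs : ∀ j, Dg (s j)) {h0 : Fin J → ℝ} {T : Fin J → Set ℂ} (hT : ∀ j, T j ⊆ frontier D)
    (N : Near Di Do s h0 T) {ai bi ao bo : ℕ → ℂ} {φi φo : ℕ → ℂ → ℂ}
    (Hi : ∀ᶠ n in atTop, IsHalf (Di n) (ai n) (bi n) (φi n))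
    (Ho : ∀ᶠ n in atTop, IsHalf (Do n) (ao n) (bo n) (φo n))
    (Ci : ∀ η > 0, ∀ᶠ n in atTop, ∀ w ∈ closedBall (0:ℂ) 1,
      dist (toDisc (φi n) (bi n) w) (toDisc φ b w) ≤ η)
    (Co : ∀ η > 0, ∀ᶠ n in atTop, ∀ w ∈ closedBall (0:ℂ) 1,
      dist (toDisc (φo n) (bo n) w) (toDisc φ b w) ≤ η) {τ : ℝ} (hτ : 0 < τ) :
    ∀ᶠ n in atTop, ∀ᶠ δ in 𝓝[>] (0:ℝ),
      PC (Di n) (Arc (φi n) (t 0) (t 1)) (Arc (φi n) (t 2) (t 3)) δ ≤
        PC (Do n) (Arc (φo n) (t 0) (t 1)) (Arc (φo n) (t 2) (t 3)) δ + τ := by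
  classical
  obtain ⟨C, d, hC, hd0, hd1, hmain⟩ := compare
  have t01 : t 0 < t 1 := ht (by decide)
  have t12 : t 1 < t 2 := ht (by decide)
  have t23 : t 2 < t 3 := ht (by decide)
  -- the distance of the arcs
  have hcA : IsCompact (Arc φ (t 0) (t 1)) := isCompact_Icc.image h.cont_real
  have hcB : IsCompact (Arc φ (t 2) (t 3)) := isCompact_Icc.image h.cont_real
  have hdis : Disjoint (Arc φ (t 0) (t 1)) (Arc φ (t 2) (t 3)) := by
    rw [Set.disjoint_left]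
    rintro _ ⟨x, hx, rfl⟩ ⟨y, hy, hxy⟩
    have := h.inj_real hxy
    subst this
    linarith [hx.2, hy.1]
  obtain ⟨q, hq, hq'⟩ := exists_pos_forall_lt_edist hcA hcB.isClosed hdis
  set r0 : ℝ := (q : ℝ) / 2 with hr0
  have hr0p : 0 < r0 := by
    have : (0:ℝ) < q := by exact_mod_cast hq
    positivity
  have hdist : ∀ x ∈ Icc (t 0) (t 1), ∀ y ∈ Icc (t 2) (t 3), 2 * r0 ≤ dist (φ x) (φ y) := by
    intro x hx y hy
    have h1 := hq' _ ⟨x, hx, rfl⟩ _ ⟨y, hy, rfl⟩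
    by_contra hcon
    push Not at hcon
    have h2 : edist (φ x) (φ y) < q := by
      rw [edist_dist, ENNReal.ofReal_lt_coe_iff dist_nonneg]
      have : 2 * r0 = q := by rw [hr0]; ring
      linarith
    exact absurd h1 (not_lt.2 h2.le)
  -- the parameters
  obtain ⟨k, hk⟩ : ∃ k : ℕ, (1 - d) ^ k < τ / 16 :=
    exists_pow_lt_of_lt_one (by positivity) (by linarith)
  set r2 : ℝ := r0 / (64 * (4 ^ k + 1)) with hr2
  have hr2p : 0 < r2 := by positivity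
  have hr2e : 64 * (4 ^ k + 1) * r2 = r0 := by rw [hr2]; field_simp
  have hr2r0 : 128 * r2 ≤ r0 := by
    have h1 : (1:ℝ) ≤ 4 ^ k := one_le_pow₀ (by norm_num)
    nlinarith
  obtain ⟨rA, hrA, hsA⟩ := arc_sep h (u := t 0) (v := t 1) (ρ := r2 / 8) (by positivity)
  obtain ⟨rB, hrB, hsB⟩ := arc_sep h (u := t 2) (v := t 3) (ρ := r2 / 8) (by positivity)
  set m : ℝ := min (min rA rB) (r2 / 8) with hm
  have hm0 : 0 < m := by positivity
  have m1 : m ≤ rA := (min_le_left _ _).trans (min_le_left _ _)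
  have m2 : m ≤ rB := (min_le_left _ _).trans (min_le_right _ _)
  have m3 : m ≤ r2 / 8 := min_le_right _ _
  set r1 : ℝ := m / 16 with hr1
  have hr1p : 0 < r1 := by positivity
  obtain ⟨R, hR⟩ := N.bdd
  set R' : ℝ := |R| + 1 with hR'
  have hR'p : 0 < R' := by positivity
  obtain ⟨θ, hθ, k3⟩ := N.k3 (m / 16 / 2) (by positivity)
  set ε : ℝ := min (θ / 2) (τ * r1 ^ 2 / (4 * C * (J + 1) * R')) with hε
  have hεp : 0 < ε := by positivity
  have ε1 : ε ≤ θ / 2 := min_le_left _ _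
  have ε2 : ε ≤ τ * r1 ^ 2 / (4 * C * (J + 1) * R') := min_le_right _ _
  set Q : Finset ℂ := Finset.univ.image fun i : Fin 4 => φ (t i) with hQ
  have hQm : ∀ i, φ (t i) ∈ Q := fun i => Finset.mem_image_of_mem _ (Finset.mem_univ i)
  have hQc : (Q.card : ℝ) ≤ 4 := by
    have : Q.card ≤ 4 := Finset.card_image_le.trans (by simp)
    exact_mod_cast this
  filter_upwards [Hi, Ho, Ci (m / 16) (by positivity), Co (m / 16) (by positivity), N.k1 ε hεp,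
    N.k2 ε hεp, k3] with n gi go ci co g1 g2 g3
  obtain ⟨ci1, ci2⟩ := chart_close h ci
  obtain ⟨co1, co2⟩ := chart_close h co
  have hbo : Bornology.IsBounded (Do n) := by
    rw [isBounded_iff_forall_norm_le]
    exact ⟨R, hR n⟩
  have SA : Side (Di n) (Do n) (Arc (φi n) (t 0) (t 1)) (Arc (φo n) (t 0) (t 1)) s h0
      (fun j => T j ∩ Arc φ (t 0) (t 1)) Q ε (m / 16) r1 r2 :=
    side_of_close h gi hD (N.opo n) (N.opi n) go (N.sub n) hT (θ := θ) (r := rA) (κ0 := m / 16)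
      (by positivity) (by positivity) hr1p hr2p ci1 co1 co2 g1 g3 (by linarith) hεp hsA
      (by linarith) (by linarith) (hQm 0) (hQm 1)
  have SB : Side (Di n) (Do n) (Arc (φi n) (t 2) (t 3)) (Arc (φo n) (t 2) (t 3)) s h0
      (fun j => T j ∩ Arc φ (t 2) (t 3)) Q ε (m / 16) r1 r2 :=
    side_of_close h gi hD (N.opo n) (N.opi n) go (N.sub n) hT (θ := θ) (r := rB) (κ0 := m / 16)
      (by positivity) (by positivity) hr1p hr2p ci1 co1 co2 g1 g3 (by linarith) hεp hsB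
      (by linarith) (by linarith) (hQm 2) (hQm 3)
  have hAB : ∀ x ∈ Arc (φi n) (t 0) (t 1), ∀ y ∈ Arc (φi n) (t 2) (t 3), r0 ≤ dist x y := by
    rintro _ ⟨x, hx, rfl⟩ _ ⟨y, hy, rfl⟩
    simp only
    have h1 := hdist x hx y hy
    have h2 := ci1 x
    have h3 := ci1 y
    have h4 := dist_triangle4 (φ x) (φi n x) (φi n y) (φ y)
    have h5 : dist (φ x) (φi n x) = dist (φi n x) (φ x) := dist_comm _ _
    linarith
  have hfin := hmain hbo (N.sub n) hs k hεp (by positivity) hr1p hr2p hR'p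
    (by linarith) hr2e.le (fun z hz => (hR n z hz).trans (by linarith [le_abs_self R])) hAB g2 SA SB
  filter_upwards [hfin] with δ hδ
  have hd' : 0 ≤ (1 - d) ^ k := pow_nonneg (by linarith) k
  have h1 : (Q.card : ℝ) * (1 - d) ^ k ≤ 4 * (τ / 16) :=
    mul_le_mul hQc hk.le hd' (by norm_num)
  have h2 : C * (J * R' * ε / r1 ^ 2) ≤ τ / 4 := by
    have h3 : (J : ℝ) * R' * ε / r1 ^ 2 ≤ (J + 1) * R' * ε / r1 ^ 2 := by
      gcongr
      linarith
    have h4 : (J + 1) * R' * ε / r1 ^ 2 ≤ (J + 1) * R' * (τ * r1 ^ 2 / (4 * C * (J + 1) * R')) /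
        r1 ^ 2 := by gcongr
    have h5 : C * ((J + 1) * R' * (τ * r1 ^ 2 / (4 * C * (J + 1) * R')) / r1 ^ 2) = τ / 4 := by
      field_simp
    calc C * (J * R' * ε / r1 ^ 2) ≤ C * ((J + 1) * R' * (τ * r1 ^ 2 / (4 * C * (J + 1) * R')) /
        r1 ^ 2) := mul_le_mul_of_nonneg_left (h3.trans h4) hC.le
      _ = τ / 4 := h5
  linarith

end Pool.Agent.H57.FM
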