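import Mathlib
import Pool.Agent.H57.FM.NearComp2

set_option autoImplicit false
open Set Metric Filter Topology Complex

/-! # Faces of a convex set in the four diagonal directions -/

namespace Pool.Agent.H57.FM

/-- the coordinate along the sides of normal `s` -/
def tgl (s : ℤ × ℤ) (z : ℂ) : ℝ := -(s.2 : ℝ) * z.re + s.1 * z.im

/-- the four diagonal directions -/
def sdF : Fin 4 → ℤ × ℤ := ![(1, 1), (1, -1), (-1, 1), (-1, -1)]

lemma dg_sd (j : Fin 4) : Dg (sdF j) := by
  fin_cases j <;> simp [sdF, Dg]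

lemma sd_cases {s : ℤ × ℤ} (h : Dg s) : ∃ j, sdF j = s := by
  obtain ⟨s1, s2⟩ := s
  obtain ⟨h1, h2⟩ := h
  simp only at h1 h2
  rcases h1 with rfl | rfl <;> rcases h2 with rfl | rfl
  · exact ⟨0, rfl⟩
  · exact ⟨1, rfl⟩
  · exact ⟨2, rfl⟩
  · exact ⟨3, rfl⟩

lemma Dg.sq {s : ℤ × ℤ} (h : Dg s) : (s.1 : ℝ) ^ 2 = 1 ∧ (s.2 : ℝ) ^ 2 = 1 := by
  obtain ⟨h1, h2⟩ := h
  constructor
  · rcases h1 with h1 | h1 <;> rw [h1] <;> norm_num
  · rcases h2 with h2 | h2 <;> rw [h2] <;> norm_num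

lemma continuous_lvl (s : ℤ × ℤ) : Continuous (lvl s) := by
  unfold lvl
  fun_prop

lemma continuous_tgl (s : ℤ × ℤ) : Continuous (tgl s) := by
  unfold tgl
  fun_prop

lemma abs_tgl_le {s : ℤ × ℤ} (h : Dg s) (z : ℂ) : |tgl s z| ≤ 2 * ‖z‖ := by
  have h1 := Complex.abs_re_le_norm z
  have h2 := Complex.abs_im_le_norm z
  unfold tgl
  have h3 : |(s.1 : ℝ)| = 1 := by rcases h.1 with h | h <;> rw [h] <;> simp
  have h4 : |(s.2 : ℝ)| = 1 := by rcases h.2 with h | h <;> rw [h] <;> simp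
  refine (abs_add_le _ _).trans ?_
  rw [abs_mul, abs_mul, abs_neg, h3, h4]
  linarith

lemma tgl_sub (s : ℤ × ℤ) (z w : ℂ) : tgl s (z - w) = tgl s z - tgl s w := by
  unfold tgl
  rw [sub_re, sub_im]
  ring

lemma lvl_combo (s : ℤ × ℤ) (x y : ℂ) (a b : ℝ) : lvl s (a • x + b • y) = a * lvl s x + b * lvl s y := by
  unfold lvl
  simp only [real_smul, add_re, add_im, mul_re, mul_im, ofReal_re, ofReal_im]
  ring

lemma tgl_combo (s : ℤ × ℤ) (x y : ℂ) (a b : ℝ) : tgl s (a • x + b • y) = a * tgl s x + b * tgl s y := by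
  unfold tgl
  simp only [real_smul, add_re, add_im, mul_re, mul_im, ofReal_re, ofReal_im]
  ring

lemma lvl_mid (s : ℤ × ℤ) (x y : ℂ) : lvl s ((x + y) / 2) = (lvl s x + lvl s y) / 2 := by
  have e : (x + y) / 2 = (1/2 : ℝ) • x + (1/2 : ℝ) • y := by
    simp only [real_smul]; push_cast; ring
  rw [e, lvl_combo]; ring

lemma tgl_mid (s : ℤ × ℤ) (x y : ℂ) : tgl s ((x + y) / 2) = (tgl s x + tgl s y) / 2 := by
  have e : (x + y) / 2 = (1/2 : ℝ) • x + (1/2 : ℝ) • y := by
    simp only [real_smul]; push_cast; ring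
  rw [e, tgl_combo]; ring

/-- the two coordinates determine the point -/
lemma eq_of_lvl_tgl {s : ℤ × ℤ} (h : Dg s) {x y : ℂ} (h1 : lvl s x = lvl s y) (h2 : tgl s x = tgl s y) :
    x = y := by
  obtain ⟨e1, e2⟩ := h.sq
  unfold lvl at h1
  unfold tgl at h2
  apply Complex.ext
  · have : (s.1 : ℝ) ^ 2 * x.re + (s.2 : ℝ) ^ 2 * x.re = (s.1 : ℝ) ^ 2 * y.re + (s.2 : ℝ) ^ 2 * y.re := by
      linear_combination (s.1 : ℝ) * h1 - (s.2 : ℝ) * h2
    rw [e1, e2] at this
    linarith
  · have : (s.1 : ℝ) ^ 2 * x.im + (s.2 : ℝ) ^ 2 * x.im = (s.1 : ℝ) ^ 2 * y.im + (s.2 : ℝ) ^ 2 * y.im := by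
      linear_combination (s.2 : ℝ) * h1 + (s.1 : ℝ) * h2
    rw [e1, e2] at this
    linarith

/-- the highest level of `D` in the direction `s` -/
noncomputable def hgt (D : Set ℂ) (s : ℤ × ℤ) : ℝ := sSup (lvl s '' closure D)

/-- the face in the direction `s` -/
def face (D : Set ℂ) (s : ℤ × ℤ) : Set ℂ := {z | z ∈ closure D ∧ lvl s z = hgt D s}

section

variable {D : Set ℂ}

lemma compact_closure (hb : Bornology.IsBounded D) : IsCompact (closure D) :=
  Metric.isCompact_of_isClosed_isBounded isClosed_closure hb.closure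

lemma lvl_le_hgt (hb : Bornology.IsBounded D) (s : ℤ × ℤ) {z : ℂ} (hz : z ∈ closure D) :
    lvl s z ≤ hgt D s :=
  le_csSup ((compact_closure hb).image (continuous_lvl s)).bddAbove ⟨z, hz, rfl⟩

lemma exists_face (hb : Bornology.IsBounded D) (hne : D.Nonempty) (s : ℤ × ℤ) :
    ∃ z, z ∈ face D s := by
  obtain ⟨z, hz, hz'⟩ := ((compact_closure hb).image (continuous_lvl s)).sSup_mem
    (hne.closure.image _)
  exact ⟨z, hz, hz'⟩

lemma lvl_lt_hgt (ho : IsOpen D) (hb : Bornology.IsBounded D) {s : ℤ × ℤ} (hs : Dg s) {z : ℂ}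
    (hz : z ∈ D) : lvl s z < hgt D s := by
  obtain ⟨r, hr, hball⟩ := Metric.isOpen_iff.1 ho z hz
  obtain ⟨e1, e2⟩ := hs.sq
  set d : ℂ := ((r / 4 : ℝ) : ℂ) * (s.1 + s.2 * I) with hd
  have hre : d.re = r / 4 * s.1 := by rw [hd]; simp
  have him : d.im = r / 4 * s.2 := by rw [hd]; simp
  have h1 : z + d ∈ D := by
    apply hball
    rw [mem_ball, dist_eq_norm, add_sub_cancel_left]
    refine (norm_le_abs_re_add_abs_im d).trans_lt ?_
    have h3 : |(s.1 : ℝ)| = 1 := by rcases hs.1 with h | h <;> rw [h] <;> simp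
    have h4 : |(s.2 : ℝ)| = 1 := by rcases hs.2 with h | h <;> rw [h] <;> simp
    rw [hre, him, abs_mul, abs_mul, h3, h4, abs_of_pos (by positivity)]
    linarith
  have h2 := lvl_le_hgt hb s (subset_closure h1)
  have h3 : lvl s (z + d) = lvl s z + r / 2 := by
    unfold lvl
    rw [add_re, add_im, hre, him]
    linear_combination (r / 4) * e1 + (r / 4) * e2
  linarith

lemma face_frontier (ho : IsOpen D) (hb : Bornology.IsBounded D) {s : ℤ × ℤ} (hs : Dg s) :
    face D s ⊆ frontier D := by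
  rintro z ⟨h1, h2⟩
  rw [ho.frontier_eq]
  refine ⟨h1, fun h3 => ?_⟩
  have := lvl_lt_hgt ho hb hs h3
  linarith

/-- points of high level are close to the face -/
lemma near_face (hb : Bornology.IsBounded D) (s : ℤ × ℤ) {κ : ℝ} (hκ : 0 < κ) :
    ∃ θ > 0, ∀ z ∈ closure D, hgt D s - θ ≤ lvl s z → ∃ τ ∈ face D s, dist z τ ≤ κ := by
  set C : Set ℂ := closure D ∩ {z | ∀ τ ∈ face D s, κ ≤ dist z τ} with hC
  have hCc : IsCompact C := by
    refine (compact_closure hb).inter_right ?_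
    have e : {z : ℂ | ∀ τ ∈ face D s, κ ≤ dist z τ} = ⋂ τ ∈ face D s, {z | κ ≤ dist z τ} := by
      ext z; simp
    rw [e]
    exact isClosed_biInter fun τ _ => isClosed_le continuous_const (continuous_id.dist continuous_const)
  by_cases hne : C.Nonempty
  · obtain ⟨w, hw, hmax⟩ := hCc.exists_isMaxOn hne (continuous_lvl s).continuousOn
    have h1 : lvl s w < hgt D s := by
      refine lt_of_le_of_ne (lvl_le_hgt hb s hw.1) fun h => ?_
      have := hw.2 w ⟨hw.1, h⟩
      rw [dist_self] at this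
      linarith
    refine ⟨(hgt D s - lvl s w) / 2, by linarith, fun z hz hl => ?_⟩
    by_contra hcon
    push Not at hcon
    have h2 : lvl s z ≤ lvl s w := hmax ⟨hz, fun τ hτ => (hcon τ hτ).le⟩
    linarith
  · refine ⟨1, one_pos, fun z hz _ => ?_⟩
    by_contra hcon
    push Not at hcon
    exact hne ⟨z, hz, fun τ hτ => (hcon τ hτ).le⟩

/-- the same for the four directions -/
lemma near_faces (hb : Bornology.IsBounded D) {κ : ℝ} (hκ : 0 < κ) :
    ∃ θ > 0, ∀ z ∈ closure D, ∀ j, hgt D (sdF j) - θ ≤ lvl (sdF j) z →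
      ∃ τ ∈ face D (sdF j), dist z τ ≤ κ := by
  choose θ h1 h2 using fun j => near_face hb (sdF j) hκ
  have hev : ∀ᶠ x in 𝓝[>] (0:ℝ), ∀ j : Fin 4, x ≤ θ j := by
    rw [eventually_all]
    intro j
    exact mem_nhdsWithin_of_mem_nhds (Iic_mem_nhds (h1 j))
  obtain ⟨x, hx1, hx2⟩ := (hev.and self_mem_nhdsWithin).exists
  refine ⟨x, hx2, fun z hz j hl => h2 j z hz ?_⟩
  have := hx1 j
  linarith

lemma exists_bound (hb : Bornology.IsBounded D) : ∃ R > 0, ∀ z ∈ closure D, ‖z‖ ≤ R := by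
  obtain ⟨B, hB⟩ := hb.closure.exists_norm_le
  exact ⟨|B| + 1, by positivity, fun z hz => (hB z hz).trans (by linarith [le_abs_self B])⟩

/-- supporting line at a point outside -/
lemma support (hc : Convex ℝ D) (ho : IsOpen D) {m : ℂ} (hm : m ∉ D) :
    ∃ α β : ℝ, (∀ z ∈ D, α * z.re + β * z.im < α * m.re + β * m.im) := by
  obtain ⟨f, hf⟩ := geometric_hahn_banach_open_point hc ho hm
  refine ⟨f 1, f I, fun z hz => ?_⟩
  have e : ∀ w : ℂ, f w = f 1 * w.re + f I * w.im := by
    intro w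
    have h1 : w = (w.re : ℝ) • (1:ℂ) + (w.im : ℝ) • I := by
      simp only [real_smul, mul_one]
      exact (re_add_im w).symm
    conv_lhs => rw [h1]
    rw [map_add, map_smul, map_smul, smul_eq_mul, smul_eq_mul]
    ring
  have h2 := hf z hz
  rwa [e z, e m] at h2

lemma support_closure {α β : ℝ} {m : ℂ} (h : ∀ z ∈ D, α * z.re + β * z.im < α * m.re + β * m.im)
    {z : ℂ} (hz : z ∈ closure D) : α * z.re + β * z.im ≤ α * m.re + β * m.im := by
  have hcl : IsClosed {z : ℂ | α * z.re + β * z.im ≤ α * m.re + β * m.im} :=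
    isClosed_le (by fun_prop) continuous_const
  exact (closure_minimal (fun z hz => (h z hz).le) hcl) hz

/-- a diagonal chord with middle point outside an open convex set is in a supporting line with
diagonal normal -/
lemma diag_support (hc : Convex ℝ D) (ho : IsOpen D) (hne : D.Nonempty) {x y : ℂ}
    (hx : x ∈ closure D) (hy : y ∈ closure D) (hxy : x ≠ y)
    (hd : (y - x).re = (y - x).im ∨ (y - x).re = -(y - x).im) (hm : (x + y) / 2 ∉ D) :
    ∃ j : Fin 4, (∀ z ∈ closure D, lvl (sdF j) z ≤ lvl (sdF j) x) ∧ lvl (sdF j) y = lvl (sdF j) x := by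
  obtain ⟨α, β, h⟩ := support hc ho hm
  obtain ⟨z1, hz1⟩ := hne
  have h1 := support_closure h hx
  have h2 := support_closure h hy
  have er : ((x + y) / 2).re = (x.re + y.re) / 2 := by simp
  have ei : ((x + y) / 2).im = (x.im + y.im) / 2 := by simp
  rw [er, ei] at h1 h2 h
  have h3 := h z1 hz1
  have e1 : α * (y.re - x.re) + β * (y.im - x.im) = 0 := by linarith
  rw [sub_re, sub_im] at hd
  have hne' : y.im - x.im ≠ 0 := by
    intro h0
    apply hxy
    apply Complex.ext
    · rcases hd with hd | hd <;> linarith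
    · linarith
  have hcl : ∀ z ∈ closure D, α * z.re + β * z.im ≤ α * x.re + β * x.im := by
    intro z hz
    have := support_closure (m := (x + y) / 2) (by rw [er, ei]; exact h) hz
    rw [er, ei] at this
    linarith
  have h3' := hcl z1 (subset_closure hz1)
  -- the normal is diagonal
  have key : ∃ s : ℤ × ℤ, Dg s ∧ ∃ c : ℝ, 0 < c ∧ α = c * s.1 ∧ β = c * s.2 := by
    rcases hd with hd | hd
    · rw [hd] at e1
      have e2 : (α + β) * (y.im - x.im) = 0 := by linarith
      have e3 : α + β = 0 := (mul_eq_zero.1 e2).resolve_right hne'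
      rcases lt_trichotomy α 0 with ha | ha | ha
      · exact ⟨(-1, 1), ⟨Or.inr rfl, Or.inl rfl⟩, -α, by linarith, by push_cast; ring, by
          push_cast; linarith⟩
      · exfalso
        have hb0 : β = 0 := by linarith
        rw [ha, hb0] at h3
        linarith
      · exact ⟨(1, -1), ⟨Or.inl rfl, Or.inr rfl⟩, α, ha, by push_cast; ring, by
          push_cast; linarith⟩
    · rw [hd] at e1
      have e2 : (β - α) * (y.im - x.im) = 0 := by linarith
      have e3 : β - α = 0 := (mul_eq_zero.1 e2).resolve_right hne'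
      rcases lt_trichotomy α 0 with ha | ha | ha
      · exact ⟨(-1, -1), ⟨Or.inr rfl, Or.inr rfl⟩, -α, by linarith, by push_cast; ring, by
          push_cast; linarith⟩
      · exfalso
        have hb0 : β = 0 := by linarith
        rw [ha, hb0] at h3
        linarith
      · exact ⟨(1, 1), ⟨Or.inl rfl, Or.inl rfl⟩, α, ha, by push_cast; ring, by
          push_cast; linarith⟩
  obtain ⟨s, hs, c, hc0, hα, hβ⟩ := key
  obtain ⟨j, rfl⟩ := sd_cases hs
  refine ⟨j, fun z hz => ?_, ?_⟩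
  · have h4 := hcl z hz
    rw [hα, hβ] at h4
    have h5 : c * (lvl (sdF j) z) ≤ c * (lvl (sdF j) x) := by
      unfold lvl
      linarith
    exact le_of_mul_le_mul_left h5 hc0
  · rw [hα, hβ] at e1
    have h5 : c * (lvl (sdF j) y) = c * (lvl (sdF j) x) := by
      unfold lvl
      linarith
    exact mul_left_cancel₀ hc0.ne' h5

end

end Pool.Agent.H57.FM
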