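import Mathlib
import Pool.Agent.H57.FM.Faces

set_option autoImplicit false
open Set Metric Filter Topology Complex

/-! # Inner approximations without diagonal sides -/

namespace Pool.Agent.H57.FM

/-- the level plus a small parabola -/
noncomputable def gl (ε : ℝ) (j : Fin 4) (z : ℂ) : ℝ :=
  lvl (sdF j) z + ε * (1 + tgl (sdF j) z ^ 2)

/-- `D` without a neighbourhood of its faces in the four diagonal directions -/
def inD (D : Set ℂ) (ε : ℝ) : Set ℂ := {z | z ∈ D ∧ ∀ j, gl ε j z < hgt D (sdF j)}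

lemma continuous_gl (ε : ℝ) (j : Fin 4) : Continuous (gl ε j) := by
  unfold gl
  exact (continuous_lvl _).add (continuous_const.mul (continuous_const.add ((continuous_tgl _).pow 2)))

lemma gl_combo {ε : ℝ} (hε : 0 ≤ ε) (j : Fin 4) (x y : ℂ) {a b : ℝ} (ha : 0 ≤ a) (hb : 0 ≤ b)
    (hab : a + b = 1) : gl ε j (a • x + b • y) ≤ a * gl ε j x + b * gl ε j y := by
  unfold gl
  rw [lvl_combo, tgl_combo]
  have h1 : (a * tgl (sdF j) x + b * tgl (sdF j) y) ^ 2 ≤ a * tgl (sdF j) x ^ 2 + b * tgl (sdF j) y ^ 2 := by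
    have e : a * tgl (sdF j) x ^ 2 + b * tgl (sdF j) y ^ 2 - (a * tgl (sdF j) x + b * tgl (sdF j) y) ^ 2 =
        a * b * (tgl (sdF j) x - tgl (sdF j) y) ^ 2 := by
      have : b = 1 - a := by linarith
      rw [this]; ring
    have h2 : 0 ≤ a * b * (tgl (sdF j) x - tgl (sdF j) y) ^ 2 := by positivity
    linarith
  have h3 := mul_le_mul_of_nonneg_left h1 hε
  have h4 : ε * (a + b) = ε := by rw [hab, mul_one]
  nlinarith

lemma gl_mid (ε : ℝ) (j : Fin 4) (x y : ℂ) : gl ε j ((x + y) / 2) =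
    (gl ε j x + gl ε j y) / 2 - ε * (tgl (sdF j) x - tgl (sdF j) y) ^ 2 / 4 := by
  unfold gl
  rw [lvl_mid, tgl_mid]
  ring

section

variable {D : Set ℂ}

lemma inD_sub (ε : ℝ) : inD D ε ⊆ D := fun _ h => h.1

lemma convex_inD (hc : Convex ℝ D) {ε : ℝ} (hε : 0 ≤ ε) : Convex ℝ (inD D ε) := by
  rintro x ⟨hx, hx'⟩ y ⟨hy, hy'⟩ a b ha hb hab
  refine ⟨hc hx hy ha hb hab, fun j => ?_⟩
  refine (gl_combo hε j x y ha hb hab).trans_lt ?_
  have h1 := hx' j
  have h2 := hy' j
  have h3 : a * hgt D (sdF j) + b * hgt D (sdF j) = hgt D (sdF j) := by rw [← add_mul, hab, one_mul]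
  rcases eq_or_lt_of_le ha with h0 | h0
  · rw [← h0] at hab ⊢
    rw [zero_add] at hab
    rw [hab]
    linarith
  · nlinarith

lemma isOpen_inD (ho : IsOpen D) (ε : ℝ) : IsOpen (inD D ε) := by
  have e : inD D ε = D ∩ ⋂ j, {z | gl ε j z < hgt D (sdF j)} := by
    ext z; simp [inD]
  rw [e]
  exact ho.inter (isOpen_iInter_of_finite fun j => isOpen_lt (continuous_gl ε j) continuous_const)

lemma gl_le {ε R : ℝ} (hε : 0 ≤ ε) (hR : 0 ≤ R) {z : ℂ} (hz : ‖z‖ ≤ R) (j : Fin 4) :
    gl ε j z ≤ lvl (sdF j) z + ε * (1 + 4 * R ^ 2) := by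
  unfold gl
  have h1 := abs_tgl_le (dg_sd j) z
  have h2 : tgl (sdF j) z ^ 2 ≤ 4 * R ^ 2 := by
    have h3 : |tgl (sdF j) z| ≤ 2 * R := h1.trans (by linarith)
    have h4 := sq_abs (tgl (sdF j) z)
    have h5 : |tgl (sdF j) z| ^ 2 ≤ (2 * R) ^ 2 := pow_le_pow_left₀ (abs_nonneg _) h3 2
    nlinarith
  have := mul_le_mul_of_nonneg_left h2 hε
  nlinarith

/-- **The inner approximations converge.** -/
lemma cconv_inD (hc : Convex ℝ D) (ho : IsOpen D) (hb : Bornology.IsBounded D) {z0 : ℂ}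
    (hz0 : z0 ∈ D) {e : ℕ → ℝ} (he : ∀ n, 0 ≤ e n) (he' : Tendsto e atTop (𝓝 0)) :
    CConv (fun n => inD D (e n)) D z0 := by
  obtain ⟨R, hR, hRD⟩ := exists_bound hb
  refine ⟨hc, ho, hb, hz0, fun n => convex_inD hc (he n), fun n => isOpen_inD ho _,
    fun n => hb.subset (inD_sub _), ?_, ?_⟩
  · intro η hη
    have hg : ∀ j : Fin 4, 0 < hgt D (sdF j) - lvl (sdF j) z0 := fun j =>
      sub_pos.2 (lvl_lt_hgt ho hb (dg_sd j) hz0)
    have h1 : Tendsto (fun n => e n * (1 + 4 * R ^ 2)) atTop (𝓝 0) := by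
      have := he'.mul_const (1 + 4 * R ^ 2)
      rwa [zero_mul] at this
    have h2 : ∀ᶠ n in atTop, ∀ j : Fin 4, e n * (1 + 4 * R ^ 2) < η * (hgt D (sdF j) - lvl (sdF j) z0) := by
      rw [eventually_all]
      intro j
      exact h1.eventually (gt_mem_nhds (mul_pos hη.1 (hg j)))
    filter_upwards [h2] with n hn z hz
    have hzD : z0 + ((1 - η : ℝ) : ℂ) * (z - z0) ∈ D :=
      star_mem hc ho hz0 (subset_closure hz) (by linarith [hη.2]) (by linarith [hη.1])
    refine ⟨hzD, fun j => ?_⟩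
    have h3 := gl_le (he n) hR.le (hRD _ (subset_closure hzD)) j
    have h4 := hn j
    have h5 : lvl (sdF j) (z0 + ((1 - η : ℝ) : ℂ) * (z - z0)) =
        (1 - η) * lvl (sdF j) z + η * lvl (sdF j) z0 := by
      have e1 : z0 + ((1 - η : ℝ) : ℂ) * (z - z0) = (1 - η) • z + η • z0 := by
        simp only [real_smul]; push_cast; ring
      rw [e1, lvl_combo]
    have h6 := lvl_le_hgt hb (sdF j) (subset_closure hz)
    have h7 : (1 - η) * lvl (sdF j) z ≤ (1 - η) * hgt D (sdF j) :=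
      mul_le_mul_of_nonneg_left h6 (by linarith [hη.2])
    rw [h5] at h3
    nlinarith
  · intro η hη
    refine Eventually.of_forall fun n z hz => ?_
    refine ⟨z0 + ((1 / (1 + η) : ℝ) : ℂ) * (z - z0), ?_, ?_⟩
    · exact star_mem hc ho hz0 (subset_closure hz.1) (by positivity)
        (by rw [div_lt_one (by positivity)]; linarith)
    · rw [add_sub_cancel_left, ← mul_assoc, ← ofReal_mul, mul_one_div_cancel (by positivity), ofReal_one,
        one_mul]
      ring

/-- **The inner approximations differ from `D` only near the faces.** -/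
lemma near_inD (ho : IsOpen D) (hb : Bornology.IsBounded D) {e : ℕ → ℝ} (he : ∀ n, 0 ≤ e n)
    (he' : Tendsto e atTop (𝓝 0)) :
    Near (fun n => inD D (e n)) (fun _ => D) sdF (fun j => hgt D (sdF j)) (fun j => face D (sdF j)) := by
  obtain ⟨R, hR, hRD⟩ := exists_bound hb
  refine ⟨fun n => inD_sub _, fun n => isOpen_inD ho _, fun _ => ho,
    ⟨R, fun n z hz => hRD z (subset_closure hz)⟩, ?_, ?_, ?_⟩
  · intro ε hε
    have h1 : Tendsto (fun n => e n * (1 + 4 * R ^ 2)) atTop (𝓝 0) := by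
      have := he'.mul_const (1 + 4 * R ^ 2)
      rwa [zero_mul] at this
    filter_upwards [h1.eventually (gt_mem_nhds hε)] with n hn z hz
    have hzc : z ∈ closure D := closure_mono (inD_sub _) (frontier_subset_closure hz)
    by_cases hzD : z ∈ D
    · right
      rw [(isOpen_inD ho _).frontier_eq] at hz
      have h2 := hz.2
      have h3 : ∃ j, hgt D (sdF j) ≤ gl (e n) j z := by
        by_contra hcon
        push Not at hcon
        exact h2 ⟨hzD, hcon⟩
      obtain ⟨j, hj⟩ := h3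
      refine ⟨j, ?_⟩
      have h4 := gl_le (he n) hR.le (hRD _ hzc) j
      linarith
    · left
      rw [ho.frontier_eq]
      exact ⟨hzc, hzD⟩
  · intro ε hε
    refine Eventually.of_forall fun n j z hz => ?_
    have := lvl_le_hgt hb (sdF j) (subset_closure hz)
    linarith
  · intro κ hκ
    obtain ⟨θ, hθ, h⟩ := near_faces hb hκ
    exact ⟨θ, hθ, Eventually.of_forall fun n z hz j hl => h z hz j hl⟩

/-- **The inner approximations have no diagonal sides.** -/
lemma nodiag_inD (hc : Convex ℝ D) (ho : IsOpen D) (hne : D.Nonempty) {ε : ℝ} (hε : 0 < ε)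
    {x y : ℂ} (hx : x ∈ closure (inD D ε)) (hy : y ∈ closure (inD D ε)) (hxy : x ≠ y)
    (hd : (y - x).re = (y - x).im ∨ (y - x).re = -(y - x).im)
    (hm : (x + y) / 2 ∈ frontier (inD D ε)) (hb : Bornology.IsBounded D) : False := by
  have hcl : ∀ z ∈ closure (inD D ε), ∀ j, gl ε j z ≤ hgt D (sdF j) := by
    intro z hz j
    have h1 : IsClosed {z | gl ε j z ≤ hgt D (sdF j)} := isClosed_le (continuous_gl ε j) continuous_const
    exact (closure_minimal (fun z hz => (hz.2 j).le) h1) hz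
  by_cases hmD : (x + y) / 2 ∈ D
  · rw [(isOpen_inD ho _).frontier_eq] at hm
    have h3 : ∃ j, hgt D (sdF j) ≤ gl ε j ((x + y) / 2) := by
      by_contra hcon
      push Not at hcon
      exact hm.2 ⟨hmD, hcon⟩
    obtain ⟨j, hj⟩ := h3
    rw [gl_mid] at hj
    have h1 := hcl x hx j
    have h2 := hcl y hy j
    have h4 : 0 ≤ ε * (tgl (sdF j) x - tgl (sdF j) y) ^ 2 / 4 := by positivity
    have h5 : ε * (tgl (sdF j) x - tgl (sdF j) y) ^ 2 / 4 = 0 := by linarith
    have h6 : (tgl (sdF j) x - tgl (sdF j) y) ^ 2 = 0 := by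
      by_contra h7
      have h8 : 0 < (tgl (sdF j) x - tgl (sdF j) y) ^ 2 := lt_of_le_of_ne (sq_nonneg _) (Ne.symm h7)
      have : 0 < ε * (tgl (sdF j) x - tgl (sdF j) y) ^ 2 / 4 := by positivity
      linarith
    have h7 : tgl (sdF j) x = tgl (sdF j) y := sub_eq_zero.1 (pow_eq_zero_iff (two_ne_zero) |>.1 h6)
    have h8 : gl ε j x = gl ε j y := by linarith
    unfold gl at h8
    rw [h7] at h8
    exact hxy (eq_of_lvl_tgl (dg_sd j) (by linarith) h7)
  · obtain ⟨j, h1, h2⟩ := diag_support hc ho hne (closure_mono (inD_sub _) hx)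
      (closure_mono (inD_sub _) hy) hxy hd hmD
    obtain ⟨z, hz⟩ := exists_face hb hne (sdF j)
    have h3 := h1 z hz.1
    rw [hz.2] at h3
    have h4 := hcl x hx j
    unfold gl at h4
    have h5 : 0 < ε * (1 + tgl (sdF j) x ^ 2) := by positivity
    linarith

end

end Pool.Agent.H57.FM
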