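import Mathlib
import Pool.Agent.H57.FM.Faces

set_option autoImplicit false
open Set Metric Filter Topology Complex

/-! # Outer approximations without diagonal sides -/

namespace Pool.Agent.H57.FM

/-- middle points of pairs of points of the nondegenerate faces -/
structure Mid (D : Set ℂ) (N : Set (Fin 4)) (c : Fin 4 → ℂ) (L : ℝ) : Prop where
  L0 : 0 < L
  nd : ∀ j ∈ N, ∃ τ1 ∈ face D (sdF j), ∃ τ2 ∈ face D (sdF j), c j = (τ1 + τ2) / 2 ∧
    2 * L ≤ tgl (sdF j) τ1 - tgl (sdF j) τ2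
  dg : ∀ j, j ∉ N → ∀ x ∈ face D (sdF j), ∀ y ∈ face D (sdF j), x = y

lemma exists_mid (D : Set ℂ) : ∃ (N : Set (Fin 4)) (c : Fin 4 → ℂ) (L : ℝ), Mid D N c L := by
  classical
  have h1 : ∀ j : Fin 4, (∃ x ∈ face D (sdF j), ∃ y ∈ face D (sdF j), x ≠ y) →
      ∃ τ1 τ2 : ℂ, τ1 ∈ face D (sdF j) ∧ τ2 ∈ face D (sdF j) ∧
        0 < tgl (sdF j) τ1 - tgl (sdF j) τ2 := by
    rintro j ⟨x, hx, y, hy, hxy⟩
    have h2 : tgl (sdF j) x ≠ tgl (sdF j) y := fun h =>
      hxy (eq_of_lvl_tgl (dg_sd j) (hx.2.trans hy.2.symm) h)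
    rcases lt_or_gt_of_ne h2 with h3 | h3
    · exact ⟨y, x, hy, hx, by linarith⟩
    · exact ⟨x, y, hx, hy, by linarith⟩
  choose! τ1 τ2 h2 h3 h4 using h1
  set N : Set (Fin 4) := {j | ∃ x ∈ face D (sdF j), ∃ y ∈ face D (sdF j), x ≠ y} with hN
  have hev : ∀ᶠ L in 𝓝[>] (0:ℝ), ∀ j : Fin 4, j ∈ N →
      2 * L ≤ tgl (sdF j) (τ1 j) - tgl (sdF j) (τ2 j) := by
    rw [eventually_all]
    intro j
    by_cases hj : j ∈ N
    · have h5 := h4 j hj
      refine mem_nhdsWithin_of_mem_nhds ?_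
      filter_upwards [Iic_mem_nhds (show (0:ℝ) < (tgl (sdF j) (τ1 j) - tgl (sdF j) (τ2 j)) / 2 by
        linarith)] with L hL _
      have : L ≤ (tgl (sdF j) (τ1 j) - tgl (sdF j) (τ2 j)) / 2 := hL
      linarith
    · exact Eventually.of_forall fun L h => (hj h).elim
  obtain ⟨L, hL1, hL2⟩ := (hev.and self_mem_nhdsWithin).exists
  refine ⟨N, fun j => (τ1 j + τ2 j) / 2, L, hL2, fun j hj => ⟨τ1 j, h2 j hj, τ2 j, h3 j hj, rfl,
    hL1 j hj⟩, fun j hj x hx y hy => ?_⟩
  by_contra hxy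
  exact hj ⟨x, hx, y, hy, hxy⟩

/-- the added points -/
noncomputable def pp (ε : ℝ) (c : Fin 4 → ℂ) (j : Fin 4) : ℂ :=
  c j + ((ε / 2 : ℝ) : ℂ) * ((sdF j).1 + (sdF j).2 * I)

lemma pp_re (ε : ℝ) (c : Fin 4 → ℂ) (j : Fin 4) : (pp ε c j).re = (c j).re + ε / 2 * (sdF j).1 := by
  unfold pp; simp

lemma pp_im (ε : ℝ) (c : Fin 4 → ℂ) (j : Fin 4) : (pp ε c j).im = (c j).im + ε / 2 * (sdF j).2 := by
  unfold pp; simp

lemma lvl_pp (ε : ℝ) (c : Fin 4 → ℂ) (j : Fin 4) : lvl (sdF j) (pp ε c j) = lvl (sdF j) (c j) + ε := by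
  obtain ⟨e1, e2⟩ := (dg_sd j).sq
  unfold lvl
  rw [pp_re, pp_im]
  linear_combination (ε / 2) * e1 + (ε / 2) * e2

lemma tgl_pp (ε : ℝ) (c : Fin 4 → ℂ) (j : Fin 4) : tgl (sdF j) (pp ε c j) = tgl (sdF j) (c j) := by
  unfold tgl
  rw [pp_re, pp_im]
  ring

lemma dist_pp {ε : ℝ} (hε : 0 ≤ ε) (c : Fin 4 → ℂ) (j : Fin 4) : dist (pp ε c j) (c j) ≤ ε := by
  rw [dist_eq_norm]
  refine (norm_le_abs_re_add_abs_im _).trans ?_
  have h3 : |((sdF j).1 : ℝ)| = 1 := by rcases (dg_sd j).1 with h | h <;> rw [h] <;> simp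
  have h4 : |((sdF j).2 : ℝ)| = 1 := by rcases (dg_sd j).2 with h | h <;> rw [h] <;> simp
  rw [sub_re, sub_im, pp_re, pp_im, add_sub_cancel_left, add_sub_cancel_left, abs_mul, abs_mul, h3, h4,
    abs_of_nonneg (by positivity)]
  linarith

/-- the levels for two different diagonal directions -/
lemma lvl_other {j k : Fin 4} (h : j ≠ k) : (∀ z, lvl (sdF j) z = -lvl (sdF k) z) ∨
    (∀ z, lvl (sdF j) z = tgl (sdF k) z) ∨ (∀ z, lvl (sdF j) z = -tgl (sdF k) z) := by
  fin_cases j <;> fin_cases k <;>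
    first
    | exact (h rfl).elim
    | (left; intro z; simp [sdF, lvl]; done)
    | (left; intro z; simp [sdF, lvl]; ring_nf; done)
    | (right; left; intro z; simp [sdF, lvl, tgl]; done)
    | (right; left; intro z; simp [sdF, lvl, tgl]; ring_nf; done)
    | (right; right; intro z; simp [sdF, lvl, tgl]; done)
    | (right; right; intro z; simp [sdF, lvl, tgl]; ring_nf)

section

variable {D : Set ℂ} {N : Set (Fin 4)} {c : Fin 4 → ℂ} {L : ℝ}

lemma Mid.face (M : Mid D N c L) {j : Fin 4} (hj : j ∈ N) : lvl (sdF j) (c j) = hgt D (sdF j) := by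
  obtain ⟨τ1, h1, τ2, h2, h3, -⟩ := M.nd j hj
  rw [h3, lvl_mid, h1.2, h2.2]
  ring

lemma Mid.mem (M : Mid D N c L) (hc : Convex ℝ D) {j : Fin 4} (hj : j ∈ N) : c j ∈ closure D := by
  obtain ⟨τ1, h1, τ2, h2, h3, -⟩ := M.nd j hj
  rw [h3]
  have e : (τ1 + τ2) / 2 = (1/2 : ℝ) • τ1 + (1/2 : ℝ) • τ2 := by
    simp only [real_smul]; push_cast; ring
  rw [e]
  exact hc.closure h1.1 h2.1 (by norm_num) (by norm_num) (by norm_num)

/-- the added points of the other directions are lower -/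
lemma Mid.other_lt (M : Mid D N c L) (hb : Bornology.IsBounded D) (hc : Convex ℝ D) {ε : ℝ}
    (hε : 0 < ε) {j k : Fin 4} (hk : k ∈ N) (h : j ≠ k) : lvl (sdF j) (pp ε c k) < hgt D (sdF j) := by
  have h0 := lvl_le_hgt hb (sdF j) (M.mem hc hk)
  obtain ⟨τ1, h1, τ2, h2, h3, h4⟩ := M.nd k hk
  have hL := M.L0
  have h5 := lvl_le_hgt hb (sdF j) h1.1
  have h6 := lvl_le_hgt hb (sdF j) h2.1
  have h7 : tgl (sdF k) (c k) = (tgl (sdF k) τ1 + tgl (sdF k) τ2) / 2 := by rw [h3, tgl_mid]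
  rcases lvl_other h with g | g | g
  · rw [g, lvl_pp]
    rw [g] at h0
    linarith
  · rw [g, tgl_pp, h7]
    rw [g] at h5 h6
    linarith
  · rw [g, tgl_pp, h7]
    rw [g] at h5 h6
    linarith

/-- the added points -/
noncomputable def addP (N : Set (Fin 4)) (c : Fin 4 → ℂ) (ε : ℝ) (z0 : ℂ) : Set ℂ :=
  insert z0 (pp ε c '' N)

/-- the hull -/
noncomputable def outK (D : Set ℂ) (N : Set (Fin 4)) (c : Fin 4 → ℂ) (ε : ℝ) (z0 : ℂ) : Set ℂ :=
  convexHull ℝ (closure D ∪ addP N c ε z0)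

/-- the outer approximation -/
noncomputable def outD (D : Set ℂ) (N : Set (Fin 4)) (c : Fin 4 → ℂ) (ε : ℝ) (z0 : ℂ) : Set ℂ :=
  interior (outK D N c ε z0)

lemma compact_convexJoin {s t : Set ℂ} (hs : IsCompact s) (ht : IsCompact t) :
    IsCompact (convexJoin ℝ s t) := by
  have h1 : IsCompact ((Icc (0:ℝ) 1) ×ˢ (s ×ˢ t)) := isCompact_Icc.prod (hs.prod ht)
  have h2 : IsCompact ((fun p : ℝ × (ℂ × ℂ) => (1 - p.1) • p.2.1 + p.1 • p.2.2) ''
      ((Icc (0:ℝ) 1) ×ˢ (s ×ˢ t))) := h1.image (by fun_prop)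
  convert h2 using 1
  ext z
  rw [mem_convexJoin]
  constructor
  · rintro ⟨a, ha, b, hb, u, v, hu, hv, huv, rfl⟩
    refine ⟨(v, (a, b)), ⟨⟨hv, by linarith⟩, ha, hb⟩, ?_⟩
    simp only
    rw [show 1 - v = u by linarith]
  · rintro ⟨⟨v, a, b⟩, ⟨hv, ha, hb⟩, rfl⟩
    exact ⟨a, ha, b, hb, 1 - v, v, by linarith [hv.2], hv.1, by ring, rfl⟩

lemma compact_outK (hc : Convex ℝ D) (hb : Bornology.IsBounded D) (hne : D.Nonempty)
    (N : Set (Fin 4)) (c : Fin 4 → ℂ) (ε : ℝ) (z0 : ℂ) : IsCompact (outK D N c ε z0) := by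
  unfold outK
  rw [convexHull_union (t := addP N c ε z0) hne.closure ⟨z0, mem_insert _ _⟩, hc.closure.convexHull_eq]
  refine compact_convexJoin (compact_closure hb) ?_
  exact (Set.Finite.insert z0 (Set.toFinite _)).isCompact_convexHull ℝ

lemma sub_outK (N : Set (Fin 4)) (c : Fin 4 → ℂ) (ε : ℝ) (z0 : ℂ) :
    closure D ⊆ outK D N c ε z0 := subset_union_left.trans (subset_convexHull ℝ _)

lemma pp_outK {j : Fin 4} (hj : j ∈ N) (ε : ℝ) (z0 : ℂ) : pp ε c j ∈ outK D N c ε z0 :=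
  subset_convexHull ℝ _ (Or.inr (Or.inr ⟨j, hj, rfl⟩))

lemma sub_outD (ho : IsOpen D) (N : Set (Fin 4)) (c : Fin 4 → ℂ) (ε : ℝ) (z0 : ℂ) :
    D ⊆ outD D N c ε z0 :=
  ho.subset_interior_iff.2 (subset_closure.trans (sub_outK N c ε z0))

lemma convex_outD (D : Set ℂ) (N : Set (Fin 4)) (c : Fin 4 → ℂ) (ε : ℝ) (z0 : ℂ) :
    Convex ℝ (outD D N c ε z0) := (convex_convexHull ℝ _).interior

lemma isOpen_outD (D : Set ℂ) (N : Set (Fin 4)) (c : Fin 4 → ℂ) (ε : ℝ) (z0 : ℂ) :
    IsOpen (outD D N c ε z0) := isOpen_interior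

lemma closure_outD (hc : Convex ℝ D) (ho : IsOpen D) (hb : Bornology.IsBounded D) (hne : D.Nonempty)
    (N : Set (Fin 4)) (c : Fin 4 → ℂ) (ε : ℝ) (z0 : ℂ) :
    closure (outD D N c ε z0) = outK D N c ε z0 := by
  have h1 : (interior (outK D N c ε z0)).Nonempty := hne.mono (sub_outD ho N c ε z0)
  have hcv : Convex ℝ (outK D N c ε z0) := convex_convexHull ℝ _
  unfold outD
  rw [hcv.closure_interior_eq_closure_of_nonempty_interior h1]
  exact (compact_outK hc hb hne N c ε z0).isClosed.closure_eq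

/-- the hull is in every convex set which contains `D` and the added points -/
lemma outK_min {ε : ℝ} {z0 : ℂ} (hz0 : z0 ∈ D) {S : Set ℂ} (hS : Convex ℝ S)
    (h1 : closure D ⊆ S) (h2 : ∀ j ∈ N, pp ε c j ∈ S) : outK D N c ε z0 ⊆ S := by
  refine convexHull_min ?_ hS
  rintro z (hz | hz | ⟨j, hj, rfl⟩)
  · exact h1 hz
  · exact h1 (hz ▸ subset_closure hz0)
  · exact h2 j hj

/-- every point of the hull is close to the closure of `D` -/
lemma outK_close (M : Mid D N c L) (hc : Convex ℝ D) (hb : Bornology.IsBounded D) {ε : ℝ}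
    (hε : 0 ≤ ε) {z0 : ℂ} (hz0 : z0 ∈ D) {z : ℂ} (hz : z ∈ outK D N c ε z0) :
    ∃ w ∈ closure D, dist z w ≤ ε := by
  have h1 : outK D N c ε z0 ⊆ cthickening ε (closure D) := by
    refine outK_min hz0 (hc.closure.cthickening ε) (self_subset_cthickening _) ?_
    intro j hj
    exact mem_cthickening_of_dist_le _ (c j) _ _ (M.mem hc hj) (dist_pp hε c j)
  have h2 := h1 hz
  rw [(compact_closure hb).cthickening_eq_biUnion_closedBall hε] at h2
  simp only [mem_iUnion] at h2
  obtain ⟨w, hw, hzw⟩ := h2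
  exact ⟨w, hw, mem_closedBall.1 hzw⟩

lemma convex_le (s : ℤ × ℤ) (M : ℝ) : Convex ℝ {z | lvl s z ≤ M} := by
  intro x hx y hy a b ha hb hab
  have hx' : lvl s x ≤ M := hx
  have hy' : lvl s y ≤ M := hy
  show lvl s (a • x + b • y) ≤ M
  rw [lvl_combo]
  have h1 := mul_le_mul_of_nonneg_left hx' ha
  have h2 := mul_le_mul_of_nonneg_left hy' hb
  have h3 : a * M + b * M = M := by rw [← add_mul, hab, one_mul]
  linarith

lemma outK_lvl (M : Mid D N c L) (hc : Convex ℝ D) (hb : Bornology.IsBounded D) {ε : ℝ}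
    (hε : 0 < ε) {z0 : ℂ} (hz0 : z0 ∈ D) {z : ℂ} (hz : z ∈ outK D N c ε z0) (j : Fin 4) :
    lvl (sdF j) z ≤ hgt D (sdF j) + ε := by
  refine outK_min hz0 (convex_le (sdF j) (hgt D (sdF j) + ε)) ?_ ?_ hz
  · intro w hw
    have h1 := lvl_le_hgt hb (sdF j) hw
    show lvl (sdF j) w ≤ hgt D (sdF j) + ε
    linarith
  · intro k hk
    show lvl (sdF j) (pp ε c k) ≤ hgt D (sdF j) + ε
    by_cases h : j = k
    · subst h
      rw [lvl_pp, M.face hk]
    · have := M.other_lt hb hc hε hk h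
      linarith

/-- a half plane with one boundary point is convex -/
lemma convex_lt_or (s : ℤ × ℤ) (M : ℝ) {p : ℂ} (hp : lvl s p ≤ M) :
    Convex ℝ {z | lvl s z < M ∨ z = p} := by
  rintro x hx y hy a b ha hb hab
  have h3 : a * M + b * M = M := by rw [← add_mul, hab, one_mul]
  have key : ∀ u v : ℝ, 0 ≤ u → 0 ≤ v → u + v = 1 → ∀ z w : ℂ, lvl s z < M → lvl s w ≤ M → 0 < u →
      lvl s (u • z + v • w) < M := by
    intro u v hu hv huv z w hz hw hu0
    rw [lvl_combo]
    have h1 := mul_lt_mul_of_pos_left hz hu0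
    have h2 := mul_le_mul_of_nonneg_left hw hv
    have h4 : u * M + v * M = M := by rw [← add_mul, huv, one_mul]
    linarith
  rcases eq_or_lt_of_le ha with h0 | h0
  · rw [← h0, zero_add] at hab
    rw [← h0, hab, zero_smul, zero_add, one_smul]
    exact hy
  rcases eq_or_lt_of_le hb with h0' | h0'
  · rw [← h0', add_zero] at hab
    rw [← h0', hab, zero_smul, add_zero, one_smul]
    exact hx
  rcases hx with hx | hx
  · left
    rcases hy with hy | hy
    · exact key a b ha hb hab x y hx hy.le h0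
    · exact key a b ha hb hab x y hx (by rw [hy]; exact hp) h0
  · rcases hy with hy | hy
    · left
      rw [add_comm]
      exact key b a hb ha (by linarith) y x hy (by rw [hx]; exact hp) h0'
    · right
      rw [hx, hy, ← add_smul, hab, one_smul]

/-- **The outer approximations have no diagonal sides.** -/
lemma nodiag_outD (M : Mid D N c L) (hc : Convex ℝ D) (ho : IsOpen D) (hb : Bornology.IsBounded D)
    {ε : ℝ} (hε : 0 < ε) {z0 : ℂ} (hz0 : z0 ∈ D)
    {x y : ℂ} (hx : x ∈ closure (outD D N c ε z0)) (hy : y ∈ closure (outD D N c ε z0)) (hxy : x ≠ y)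
    (hd : (y - x).re = (y - x).im ∨ (y - x).re = -(y - x).im)
    (hm : (x + y) / 2 ∈ frontier (outD D N c ε z0)) : False := by
  have hne : D.Nonempty := ⟨z0, hz0⟩
  have hcl := closure_outD hc ho hb hne N c ε z0
  rw [(isOpen_outD D N c ε z0).frontier_eq] at hm
  obtain ⟨j, h1, h2⟩ := diag_support (convex_outD D N c ε z0) (isOpen_outD D N c ε z0)
    ⟨z0, sub_outD ho N c ε z0 hz0⟩ hx hy hxy hd hm.2
  rw [hcl] at hx hy h1
  by_cases hj : j ∈ N
  · have h3 := h1 _ (pp_outK hj ε z0)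
    rw [lvl_pp, M.face hj] at h3
    have h4 : outK D N c ε z0 ⊆ {z | lvl (sdF j) z < hgt D (sdF j) + ε ∨ z = pp ε c j} := by
      refine outK_min hz0 (convex_lt_or _ _ (by rw [lvl_pp, M.face hj])) ?_ ?_
      · intro w hw
        left
        have := lvl_le_hgt hb (sdF j) hw
        linarith
      · intro k hk
        by_cases h : j = k
        · right; rw [h]
        · left
          have := M.other_lt hb hc hε hk h
          linarith
    have h5 : x = pp ε c j := by
      rcases h4 hx with h | h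
      · linarith
      · exact h
    have h6 : y = pp ε c j := by
      rcases h4 hy with h | h
      · rw [h2] at h; linarith
      · exact h
    exact hxy (h5.trans h6.symm)
  · obtain ⟨τ, hτ⟩ := exists_face hb hne (sdF j)
    have h3 := h1 τ (sub_outK N c ε z0 hτ.1)
    rw [hτ.2] at h3
    have h4 : outK D N c ε z0 ⊆ {z | lvl (sdF j) z < hgt D (sdF j) ∨ z = τ} := by
      refine outK_min hz0 (convex_lt_or _ _ hτ.2.le) ?_ ?_
      · intro w hw
        rcases lt_or_eq_of_le (lvl_le_hgt hb (sdF j) hw) with h | h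
        · exact Or.inl h
        · exact Or.inr (M.dg j hj w ⟨hw, h⟩ τ hτ)
      · intro k hk
        left
        exact M.other_lt hb hc hε hk fun h => hj (h ▸ hk)
    have h5 : x = τ := by
      rcases h4 hx with h | h
      · linarith
      · exact h
    have h6 : y = τ := by
      rcases h4 hy with h | h
      · rw [h2] at h; linarith
      · exact h
    exact hxy (h5.trans h6.symm)

/-- **The boundary of `D` inside the outer approximation is near the faces.** -/
lemma high_outD (M : Mid D N c L) (ho : IsOpen D) (hc : Convex ℝ D) (hb : Bornology.IsBounded D)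
    {ε R : ℝ} (hε : 0 < ε) (hR : ∀ z ∈ closure D, ‖z‖ ≤ R) {z0 : ℂ} (hz0 : z0 ∈ D)
    {z : ℂ} (hz : z ∈ frontier D) (hzo : z ∈ outD D N c ε z0) :
    ∃ j, hgt D (sdF j) - 4 * R * ε / L ≤ lvl (sdF j) z := by
  have hL := M.L0
  rw [ho.frontier_eq] at hz
  obtain ⟨hzc, hzD⟩ := hz
  obtain ⟨α, β, hf⟩ := support hc ho hzD
  have hfc : ∀ w ∈ closure D, α * w.re + β * w.im ≤ α * z.re + β * z.im := fun w hw =>
    support_closure hf hw
  have hαβ : 0 < α ^ 2 + β ^ 2 := by
    by_contra hcon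
    push Not at hcon
    have h1 : α = 0 := by nlinarith [sq_nonneg α, sq_nonneg β]
    have h2 : β = 0 := by nlinarith [sq_nonneg α, sq_nonneg β]
    have h3 := hf z0 hz0
    rw [h1, h2] at h3
    linarith
  -- an added point is beyond the supporting line
  have h1 : ∃ j ∈ N, α * z.re + β * z.im < α * (pp ε c j).re + β * (pp ε c j).im := by
    by_contra hcon
    push Not at hcon
    have hS : Convex ℝ {w : ℂ | α * w.re + β * w.im ≤ α * z.re + β * z.im} := by
      intro u hu v hv a b ha hb hab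
      have hu' : α * u.re + β * u.im ≤ α * z.re + β * z.im := hu
      have hv' : α * v.re + β * v.im ≤ α * z.re + β * z.im := hv
      show α * (a • u + b • v).re + β * (a • u + b • v).im ≤ α * z.re + β * z.im
      have e : α * (a • u + b • v).re + β * (a • u + b • v).im =
          a * (α * u.re + β * u.im) + b * (α * v.re + β * v.im) := by
        simp only [real_smul, add_re, add_im, mul_re, mul_im, ofReal_re, ofReal_im]
        ring
      rw [e]
      have h2 := mul_le_mul_of_nonneg_left hu' ha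
      have h3 := mul_le_mul_of_nonneg_left hv' hb
      have h4 : a * (α * z.re + β * z.im) + b * (α * z.re + β * z.im) = α * z.re + β * z.im := by
        rw [← add_mul, hab, one_mul]
      linarith
    have h2 : outK D N c ε z0 ⊆ {w : ℂ | α * w.re + β * w.im ≤ α * z.re + β * z.im} :=
      outK_min hz0 hS hfc hcon
    obtain ⟨r, hr, hball⟩ := Metric.isOpen_iff.1 (isOpen_outD D N c ε z0) z hzo
    set t : ℝ := r / (2 * (|α| + |β| + 1)) with ht
    have ht0 : 0 < t := by positivity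
    set d : ℂ := ((t : ℝ) : ℂ) * (α + β * I) with hd
    have hre : d.re = t * α := by rw [hd]; simp
    have him : d.im = t * β := by rw [hd]; simp
    have h3 : z + d ∈ ball z r := by
      rw [mem_ball, dist_eq_norm, add_sub_cancel_left]
      refine (norm_le_abs_re_add_abs_im d).trans_lt ?_
      rw [hre, him, abs_mul, abs_mul, abs_of_pos ht0]
      have h4 : t * (2 * (|α| + |β| + 1)) = r := by rw [ht]; field_simp
      nlinarith [abs_nonneg α, abs_nonneg β]
    have h4 : α * (z + d).re + β * (z + d).im ≤ α * z.re + β * z.im :=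
      h2 (interior_subset (hball h3))
    rw [add_re, add_im, hre, him] at h4
    nlinarith
  obtain ⟨j, hj, hlt⟩ := h1
  refine ⟨j, ?_⟩
  obtain ⟨τ1, g1, τ2, g2, g3, g4⟩ := M.nd j hj
  obtain ⟨e1, e2⟩ := (dg_sd j).sq
  set A : ℝ := (α * (sdF j).1 + β * (sdF j).2) / 2 with hA
  set B : ℝ := (-α * (sdF j).2 + β * (sdF j).1) / 2 with hB
  have hrep : ∀ w : ℂ, α * w.re + β * w.im = A * lvl (sdF j) w + B * tgl (sdF j) w := by
    intro w
    rw [hA, hB]
    unfold lvl tgl
    linear_combination (-(α * w.re + β * w.im) / 2) * e1 + (-(α * w.re + β * w.im) / 2) * e2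
  have h2 := hfc τ1 g1.1
  have h3 := hfc τ2 g2.1
  rw [hrep, hrep z] at h2 h3
  rw [hrep, hrep (pp ε c j)] at hlt
  rw [lvl_pp, tgl_pp, M.face hj] at hlt
  rw [g1.2] at h2
  rw [g2.2] at h3
  have h4 : tgl (sdF j) (c j) = (tgl (sdF j) τ1 + tgl (sdF j) τ2) / 2 := by rw [g3, tgl_mid]
  rw [h4] at hlt
  set ℓ : ℝ := (tgl (sdF j) τ1 - tgl (sdF j) τ2) / 2 with hℓ
  have hℓL : L ≤ ℓ := by rw [hℓ]; linarith
  have h5 : B * ℓ < A * ε := by rw [hℓ]; linarith
  have h6 : -B * ℓ < A * ε := by rw [hℓ]; linarith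
  have hBl : |B| * ℓ < A * ε := by
    rcases abs_cases B with ⟨h, -⟩ | ⟨h, -⟩ <;> rw [h] <;> assumption
  have hA0 : 0 < A := by
    have h0 : 0 ≤ |B| * ℓ := mul_nonneg (abs_nonneg B) (hL.le.trans hℓL)
    have : 0 < A * ε := lt_of_le_of_lt h0 hBl
    exact (mul_pos_iff_of_pos_right hε).1 this
  have hBL : |B| * L ≤ A * ε := (mul_le_mul_of_nonneg_left hℓL (abs_nonneg B)).trans hBl.le
  have h7 : A * (hgt D (sdF j) - lvl (sdF j) z) ≤
      B * (tgl (sdF j) z - (tgl (sdF j) τ1 + tgl (sdF j) τ2) / 2) := by linarith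
  have h8 : |tgl (sdF j) z - (tgl (sdF j) τ1 + tgl (sdF j) τ2) / 2| ≤ 4 * R := by
    have k1 := abs_le.1 ((abs_tgl_le (dg_sd j) z).trans (mul_le_mul_of_nonneg_left (hR z hzc) two_pos.le))
    have k2 := abs_le.1 ((abs_tgl_le (dg_sd j) τ1).trans (mul_le_mul_of_nonneg_left (hR τ1 g1.1) two_pos.le))
    have k3 := abs_le.1 ((abs_tgl_le (dg_sd j) τ2).trans (mul_le_mul_of_nonneg_left (hR τ2 g2.1) two_pos.le))
    rw [abs_le]
    constructor <;> linarith [k1.1, k1.2, k2.1, k2.2, k3.1, k3.2]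
  have h9 : A * (hgt D (sdF j) - lvl (sdF j) z) ≤ |B| * (4 * R) := by
    refine h7.trans ((le_abs_self _).trans ?_)
    rw [abs_mul]
    exact mul_le_mul_of_nonneg_left h8 (abs_nonneg B)
  have hR0 : 0 ≤ R := (norm_nonneg z).trans (hR z hzc)
  have h10 : |B| * (4 * R) ≤ A * (4 * R * ε / L) := by
    have e : A * (4 * R * ε / L) = (A * ε) * (4 * R) / L := by ring
    rw [e, le_div_iff₀ hL]
    nlinarith
  have h11 : hgt D (sdF j) - lvl (sdF j) z ≤ 4 * R * ε / L :=
    le_of_mul_le_mul_left (h9.trans h10) hA0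
  linarith

/-- **The outer approximations differ from `D` only near the faces.** -/
lemma near_outD (M : Mid D N c L) (hc : Convex ℝ D) (ho : IsOpen D) (hb : Bornology.IsBounded D)
    {z0 : ℂ} (hz0 : z0 ∈ D) {e : ℕ → ℝ} (he : ∀ n, 0 < e n) (he1 : ∀ n, e n ≤ 1)
    (he' : Tendsto e atTop (𝓝 0)) :
    Near (fun _ => D) (fun n => outD D N c (e n) z0) sdF (fun j => hgt D (sdF j))
      (fun j => face D (sdF j)) := by
  obtain ⟨R, hR, hRD⟩ := exists_bound hb
  have hne : D.Nonempty := ⟨z0, hz0⟩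
  refine ⟨fun n => sub_outD ho N c _ z0, fun _ => ho, fun n => isOpen_outD _ _ _ _ _,
    ⟨R + 1, fun n z hz => ?_⟩, ?_, ?_, ?_⟩
  · obtain ⟨w, hw, hzw⟩ := outK_close M hc hb (he n).le hz0 (interior_subset hz)
    have h1 := hRD w hw
    have h2 := he1 n
    rw [dist_eq_norm] at hzw
    have h3 : ‖z‖ ≤ ‖z - w‖ + ‖w‖ := by
      have := norm_add_le (z - w) w
      rwa [sub_add_cancel] at this
    linarith
  · intro ε hε
    have h1 : Tendsto (fun n => 4 * R * e n / L) atTop (𝓝 0) := by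
      have := (he'.const_mul (4 * R)).div_const L
      rwa [mul_zero, zero_div] at this
    filter_upwards [h1.eventually (gt_mem_nhds hε)] with n hn z hz
    by_cases hzo : z ∈ outD D N c (e n) z0
    · right
      obtain ⟨j, hj⟩ := high_outD M ho hc hb (he n) hRD hz0 hz hzo
      exact ⟨j, by linarith⟩
    · left
      rw [(isOpen_outD _ _ _ _ _).frontier_eq, closure_outD hc ho hb hne]
      exact ⟨sub_outK N c _ z0 (frontier_subset_closure hz), hzo⟩
  · intro ε hε
    filter_upwards [he'.eventually (gt_mem_nhds hε)] with n hn j z hz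
    have := outK_lvl M hc hb (he n) hz0 (interior_subset hz) j
    linarith
  · intro κ hκ
    obtain ⟨θ, hθ, h⟩ := near_faces hb (show 0 < κ / 2 by positivity)
    refine ⟨θ / 2, by positivity, ?_⟩
    filter_upwards [he'.eventually (gt_mem_nhds (show 0 < min (κ / 2) (θ / 4) by positivity))]
      with n hn z hz j hl
    rw [closure_outD hc ho hb hne] at hz
    obtain ⟨w, hw, hzw⟩ := outK_close M hc hb (he n).le hz0 hz
    have m1 := min_le_left (κ / 2) (θ / 4)
    have m2 := min_le_right (κ / 2) (θ / 4)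
    have h1 := abs_lvl_le (dg_sd j) (z - w)
    rw [lvl_sub, ← dist_eq_norm] at h1
    have h2 := (abs_le.1 h1).2
    obtain ⟨τ, hτ, hd⟩ := h w hw j (by linarith)
    refine ⟨τ, hτ, ?_⟩
    have := dist_triangle z w τ
    linarith

/-- **The outer approximations converge.** -/
lemma cconv_outD (M : Mid D N c L) (hc : Convex ℝ D) (ho : IsOpen D) (hb : Bornology.IsBounded D)
    {z0 : ℂ} (hz0 : z0 ∈ D) {e : ℕ → ℝ} (he : ∀ n, 0 < e n)
    (he' : Tendsto e atTop (𝓝 0)) : CConv (fun n => outD D N c (e n) z0) D z0 := by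
  have hne : D.Nonempty := ⟨z0, hz0⟩
  refine ⟨hc, ho, hb, hz0, fun n => convex_outD _ _ _ _ _, fun n => isOpen_outD _ _ _ _ _,
    fun n => ?_, ?_, ?_⟩
  · exact (compact_outK hc hb hne N c (e n) z0).isBounded.subset interior_subset
  · intro η hη
    exact Eventually.of_forall fun n z hz => sub_outD ho N c _ z0
      (star_mem hc ho hz0 (subset_closure hz) (by linarith [hη.2]) (by linarith [hη.1]))
  · intro η hη
    obtain ⟨r, hr, hball⟩ := Metric.isOpen_iff.1 ho z0 hz0
    filter_upwards [he'.eventually (gt_mem_nhds (show 0 < r * η by positivity))] with n hn z hz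
    obtain ⟨w, hw, hzw⟩ := outK_close M hc hb (he n).le hz0 (interior_subset hz)
    have hη1 : (0:ℝ) < 1 + η := by positivity
    refine ⟨z0 + ((1 / (1 + η) : ℝ) : ℂ) * (z - z0), ?_, ?_⟩
    · have h1 : z0 + ((1 / η : ℝ) : ℂ) * (z - w) ∈ D := by
        apply hball
        rw [mem_ball, dist_eq_norm, add_sub_cancel_left, norm_mul, norm_real,
          Real.norm_of_nonneg (by positivity), ← dist_eq_norm, one_div_mul_eq_div, div_lt_iff₀ hη]
        linarith
      have h2 := hc.combo_closure_interior_mem_interior hw (by rw [ho.interior_eq]; exact h1)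
        (a := 1 / (1 + η)) (b := η / (1 + η)) (by positivity) (by positivity) (by field_simp)
      rw [ho.interior_eq] at h2
      convert h2 using 1
      simp only [real_smul]
      push_cast
      have hη' : (η : ℂ) ≠ 0 := ofReal_ne_zero.2 hη.ne'
      have hη1' : (1 : ℂ) + η ≠ 0 := by
        have : ((1 + η : ℝ) : ℂ) ≠ 0 := ofReal_ne_zero.2 hη1.ne'
        rwa [ofReal_add, ofReal_one] at this
      field_simp
      ring
    · rw [add_sub_cancel_left, ← mul_assoc, ← ofReal_mul, mul_one_div_cancel (by positivity),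
        ofReal_one, one_mul]
      ring

end

end Pool.Agent.H57.FM
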