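import Mathlib
import Pool.Agent.H57.FM.Inner
import Pool.Agent.H57.FM.Outer

set_option autoImplicit false
open Set Metric Filter Topology Complex

/-! # Cardy's formula in all convex domains from the domains without diagonal sides -/

namespace Pool.Agent.H57.FM

open Pool.Agent.H69.Car Pool.Agent.H19.Rado

/-- no diagonal sides -/
def NoSide (D : Set ℂ) : Prop := ∀ x y : ℂ, x ≠ y →
  ((y - x).re = (y - x).im ∨ (y - x).re = -(y - x).im) → ¬ openSegment ℝ x y ⊆ frontier D

lemma noSide_of {D : Set ℂ} (h : ∀ x y : ℂ, x ∈ closure D → y ∈ closure D → x ≠ y →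
    ((y - x).re = (y - x).im ∨ (y - x).re = -(y - x).im) → (x + y) / 2 ∈ frontier D → False) :
    NoSide D := by
  intro x y hxy hd hs
  have hcl : closure (openSegment ℝ x y) ⊆ frontier D := closure_minimal hs isClosed_frontier
  have hseg : segment ℝ x y ⊆ frontier D := segment_subset_closure_openSegment.trans hcl
  refine h x y (frontier_subset_closure (hseg (left_mem_segment ℝ x y)))
    (frontier_subset_closure (hseg (right_mem_segment ℝ x y))) hxy hd ?_
  apply hs
  refine ⟨1/2, 1/2, by norm_num, by norm_num, by norm_num, ?_⟩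
  simp only [real_smul]
  push_cast
  ring

/-- **Cardy's formula in all convex domains** from the convex domains without diagonal sides. -/
theorem cardy_all {F : (Fin 4 → ℝ) → ℝ}
    (H : ∀ D : Set ℂ, Convex ℝ D → IsOpen D → Bornology.IsBounded D → D.Nonempty → NoSide D →
      ∀ (a b : ℂ) (φ : ℂ → ℂ), IsHalf D a b φ → ∀ t : Fin 4 → ℝ, StrictMono t →
        Tendsto (PC D (Arc φ (t 0) (t 1)) (Arc φ (t 2) (t 3))) (𝓝[>] 0)
          (𝓝 (F t)))
    {D : Set ℂ} (hc : Convex ℝ D) (ho : IsOpen D) (hb : Bornology.IsBounded D) (hne : D.Nonempty)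
    {a b : ℂ} {φ : ℂ → ℂ} (h : IsHalf D a b φ) {t : Fin 4 → ℝ} (ht : StrictMono t) :
    Tendsto (PC D (Arc φ (t 0) (t 1)) (Arc φ (t 2) (t 3))) (𝓝[>] 0)
      (𝓝 (F t)) := by
  obtain ⟨z0, hz0⟩ := hne
  obtain ⟨N, c, L, M⟩ := exists_mid D
  set e : ℕ → ℝ := fun n => 1 / ((n : ℝ) + 1) with he
  have e0 : ∀ n, 0 < e n := fun n => by rw [he]; positivity
  have e1 : ∀ n, e n ≤ 1 := fun n => by
    rw [he]
    simp only
    rw [div_le_one (by positivity)]
    linarith [(Nat.cast_nonneg n : (0:ℝ) ≤ n)]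
  have e2 : Tendsto e atTop (𝓝 0) := tendsto_one_div_add_atTop_nhds_zero_nat
  have hconst : ∀ᶠ n : ℕ in atTop, IsHalf D ((fun _ => a) n) ((fun _ => b) n) ((fun _ => φ) n) :=
    Eventually.of_forall fun _ => h
  have hcc : ∀ η > 0, ∀ᶠ n : ℕ in atTop, ∀ w ∈ closedBall (0:ℂ) 1,
      dist (toDisc ((fun _ => φ) n) ((fun _ => b) n) w) (toDisc φ b w) ≤ η := fun η hη =>
    Eventually.of_forall fun n w _ => by rw [dist_self]; exact hη.le
  rw [tendsto_order]
  constructor
  · intro l hl
    set τ : ℝ := (F t - l) / 2 with hτ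
    have hτ0 : 0 < τ := by rw [hτ]; linarith
    have hcv := cconv_inD hc ho hb hz0 (fun n => (e0 n).le) e2
    obtain ⟨a', b', φ', g1, g2⟩ := hcv.charts h
    have hcmp := near_compare ho h ht (s := sdF) dg_sd (T := fun j => face D (sdF j))
      (fun j => face_frontier ho hb (dg_sd j)) (near_inD ho hb (fun n => (e0 n).le) e2) g1
      hconst g2 hcc hτ0
    obtain ⟨n, ⟨h1, h2⟩, h3⟩ := ((g1.and hcmp).and hcv.nonempty).exists
    have h4 := H (inD D (e n)) (hcv.cv n) (hcv.op n) (hcv.bd n) h3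
      (noSide_of fun x y hx hy hxy hd hm => nodiag_inD hc ho ⟨z0, hz0⟩ (e0 n) hx hy hxy hd hm hb)
      _ _ _ h1 t ht
    filter_upwards [h2, h4.eventually (lt_mem_nhds (show F t - τ <
      F t by linarith))] with δ k1 k2
    linarith
  · intro l hl
    set τ : ℝ := (l - F t) / 2 with hτ
    have hτ0 : 0 < τ := by rw [hτ]; linarith
    have hcv := cconv_outD M hc ho hb hz0 e0 e2
    obtain ⟨a', b', φ', g1, g2⟩ := hcv.charts h
    have hcmp := near_compare ho h ht (s := sdF) dg_sd (T := fun j => face D (sdF j))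
      (fun j => face_frontier ho hb (dg_sd j)) (near_outD M hc ho hb hz0 e0 e1 e2) hconst g1
      hcc g2 hτ0
    obtain ⟨n, ⟨h1, h2⟩, h3⟩ := ((g1.and hcmp).and hcv.nonempty).exists
    have h4 := H (outD D N c (e n) z0) (hcv.cv n) (hcv.op n) (hcv.bd n) h3
      (noSide_of fun x y hx hy hxy hd hm => nodiag_outD M hc ho hb (e0 n) hz0 hx hy hxy hd hm)
      _ _ _ h1 t ht
    filter_upwards [h2, h4.eventually (gt_mem_nhds (show F t <
      F t + τ by linarith))] with δ k1 k2
    linarith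

end Pool.Agent.H57.FM
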