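import Mathlib
import Pool.Agent.H13.Q1.FourG

set_option autoImplicit false

/-! # Cardy's function with its Gamma factors -/

namespace Pool.Agent.H57.FM

open Pool.Agent.H13.Q1.Four (cardy bet)

/-- total mass -/
theorem integral_one : ∫ x in (0 : ℝ)..1, x ^ (-(2 / 3) : ℝ) * (1 - x) ^ (-(2 / 3) : ℝ) =
    Real.Gamma (1 / 3) ^ 2 / Real.Gamma (2 / 3) := by
  have h1 := Complex.betaIntegral_eq_Gamma_mul_div (1 / 3) (1 / 3) (by norm_num) (by norm_num)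
  have h2 : Complex.betaIntegral (1 / 3) (1 / 3) =
      ((∫ x in (0 : ℝ)..1, x ^ (-(2 / 3) : ℝ) * (1 - x) ^ (-(2 / 3) : ℝ) : ℝ) : ℂ) := by
    rw [Complex.betaIntegral, ← intervalIntegral.integral_ofReal]
    refine intervalIntegral.integral_congr fun x hx => ?_
    rw [Set.uIcc_of_le zero_le_one] at hx
    have e1 : (1 / 3 - 1 : ℂ) = ((-(2 / 3) : ℝ) : ℂ) := by push_cast; ring
    rw [e1, Complex.ofReal_mul, Complex.ofReal_cpow hx.1, Complex.ofReal_cpow (by linarith [hx.2])]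
    push_cast
    rfl
  have h3 : (1 / 3 : ℂ) = ((1 / 3 : ℝ) : ℂ) := by push_cast; ring
  have h4 : (1 / 3 + 1 / 3 : ℂ) = ((2 / 3 : ℝ) : ℂ) := by push_cast; ring
  rw [h2, h4, h3, Complex.Gamma_ofReal, Complex.Gamma_ofReal] at h1
  have h5 : ((∫ x in (0 : ℝ)..1, x ^ (-(2 / 3) : ℝ) * (1 - x) ^ (-(2 / 3) : ℝ) : ℝ) : ℂ) =
      ((Real.Gamma (1 / 3) ^ 2 / Real.Gamma (2 / 3) : ℝ) : ℂ) := by
    rw [h1]; push_cast; ring
  exact_mod_cast h5

/-- Cardy's function -/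
theorem cardy_eq_F (x : ℝ) : cardy x = Real.Gamma (2 / 3) / Real.Gamma (1 / 3) ^ 2 *
    ∫ s in (0 : ℝ)..x, s ^ (-(2 / 3) : ℝ) * (1 - s) ^ (-(2 / 3) : ℝ) := by
  have e : (-2 / 3 : ℝ) = -(2 / 3) := by norm_num
  unfold cardy bet
  rw [e, integral_one, div_div_eq_mul_div, mul_comm, mul_div_assoc, mul_comm, div_mul_eq_mul_div,
    mul_div_assoc]
  ring

end Pool.Agent.H57.FM
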