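import Pool.Agent.H57.FM.RectC

set_option autoImplicit false
open Set Filter Topology MeasureTheory
open scoped Real Interval

/-! The aspect ratio `KE m / KE (1 - m)` takes every positive value, for `m` in `(0,1)`. -/

namespace Pool.Agent.H57.FM

lemma KE_contAt {m : ℝ} (hm : m < 1) : ContinuousAt KE m := by
  obtain ⟨c, hmc, hc1⟩ := exists_between hm
  have hF : Continuous (Function.uncurry fun (x : ℝ) (θ : ℝ) =>
      1 / √(1 - (min x c) * Real.sin θ ^ 2)) := by
    refine continuous_const.div (by fun_prop) fun p => ?_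
    exact (Real.sqrt_pos.2 (den_pos (lt_of_le_of_lt (min_le_right _ _) hc1) _)).ne'
  have h1 : Continuous fun x : ℝ => ∫ θ in (0:ℝ)..(π / 2), 1 / √(1 - (min x c) * Real.sin θ ^ 2) :=
    intervalIntegral.continuous_parametric_intervalIntegral_of_continuous' hF _ _
  refine h1.continuousAt.congr ?_
  filter_upwards [Iio_mem_nhds hmc] with x hx
  rw [min_eq_left (le_of_lt hx)]
  rfl

lemma KE_lower {ε : ℝ} (h0 : 0 < ε) (h1 : ε < 1) :
    (Real.log (π / 2) - Real.log ε) / √2 ≤ KE (1 - ε ^ 2) := by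
  have hpi : (1:ℝ) < π / 2 := by have := Real.pi_gt_three; linarith
  have hm : 1 - ε ^ 2 < 1 := by have : 0 < ε ^ 2 := by positivity
                                linarith
  have hs2 : (0:ℝ) < √2 := by positivity
  have hI : ∫ θ in (0:ℝ)..(π / 2 - ε), 1 / (√2 * (π / 2 - θ)) = (Real.log (π / 2) - Real.log ε) / √2 := by
    have hder : ∀ θ ∈ uIcc 0 (π / 2 - ε), HasDerivAt (fun θ : ℝ => -(Real.log (π / 2 - θ) / √2))
        (1 / (√2 * (π / 2 - θ))) θ := by
      intro θ hθ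
      rw [uIcc_of_le (by linarith)] at hθ
      have hp : 0 < π / 2 - θ := by linarith [hθ.2]
      have h2 : HasDerivAt (fun θ : ℝ => π / 2 - θ) (-1) θ := by
        simpa using (hasDerivAt_id θ).const_sub (π / 2)
      have h3 := ((h2.log hp.ne').div_const √2).neg
      refine h3.congr_deriv ?_
      field_simp
    have hint : IntervalIntegrable (fun θ : ℝ => 1 / (√2 * (π / 2 - θ))) volume 0 (π / 2 - ε) := by
      refine ContinuousOn.intervalIntegrable ?_
      rw [uIcc_of_le (by linarith)]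
      refine continuousOn_const.div (by fun_prop) fun θ hθ => ?_
      have hp : 0 < π / 2 - θ := by linarith [hθ.2]
      positivity
    rw [intervalIntegral.integral_eq_sub_of_hasDerivAt hder hint]
    have e1 : π / 2 - (π / 2 - ε) = ε := by ring
    rw [e1, sub_zero]
    ring
  rw [← hI]
  have h2 : ∫ θ in (0:ℝ)..(π / 2 - ε), 1 / (√2 * (π / 2 - θ)) ≤
      ∫ θ in (0:ℝ)..(π / 2 - ε), 1 / √(1 - (1 - ε ^ 2) * Real.sin θ ^ 2) := by
    refine intervalIntegral.integral_mono_on (by linarith) ?_ ((int_cont hm).intervalIntegrable _ _) ?_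
    · refine ContinuousOn.intervalIntegrable ?_
      rw [uIcc_of_le (by linarith)]
      refine continuousOn_const.div (by fun_prop) fun θ hθ => ?_
      have hp : 0 < π / 2 - θ := by linarith [hθ.2]
      positivity
    · intro θ hθ
      have hp : ε ≤ π / 2 - θ := by linarith [hθ.2]
      have hp0 : 0 < π / 2 - θ := by linarith
      refine one_div_le_one_div_of_le (Real.sqrt_pos.2 (den_pos hm θ)) ?_
      rw [Real.sqrt_le_left (by positivity), mul_pow, Real.sq_sqrt (by norm_num)]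
      have hcos : Real.cos θ ≤ π / 2 - θ := by
        rw [← Real.sin_pi_div_two_sub]
        exact Real.sin_le hp0.le
      have hcos0 : 0 ≤ Real.cos θ := by
        refine Real.cos_nonneg_of_mem_Icc ⟨?_, ?_⟩
        · linarith [hθ.1]
        · linarith
      have h4 := Real.sin_sq_add_cos_sq θ
      have h5 : Real.cos θ ^ 2 ≤ (π / 2 - θ) ^ 2 := by gcongr
      have h6 : ε ^ 2 ≤ (π / 2 - θ) ^ 2 := by gcongr
      have h7 := sq_nonneg (Real.sin θ)
      have h8 := Real.sin_sq_le_one θ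
      have h9 : ε ^ 2 * Real.sin θ ^ 2 ≤ ε ^ 2 := by nlinarith [sq_nonneg ε]
      nlinarith
  refine h2.trans ?_
  unfold KE
  rw [← intervalIntegral.integral_add_adjacent_intervals (a := 0) (b := π / 2 - ε) (c := π / 2)
    ((int_cont hm).intervalIntegrable _ _) ((int_cont hm).intervalIntegrable _ _)]
  have h3 : 0 ≤ ∫ θ in (π / 2 - ε)..(π / 2), 1 / √(1 - (1 - ε ^ 2) * Real.sin θ ^ 2) := by
    refine intervalIntegral.integral_nonneg (by linarith) fun θ _ => ?_
    positivity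
  linarith

lemma KE_large (B : ℝ) : ∃ m ∈ Ioo (1/2:ℝ) 1, B ≤ KE m := by
  have h1 : Tendsto (fun ε : ℝ => (Real.log (π / 2) - Real.log ε) / √2) (𝓝[>] 0) atTop := by
    have h2 : Tendsto (fun ε : ℝ => Real.log (π / 2) - Real.log ε) (𝓝[>] 0) atTop := by
      simp only [sub_eq_add_neg]
      exact tendsto_atTop_add_const_left _ _ (tendsto_neg_atBot_atTop.comp
        (Real.tendsto_log_nhdsNE_zero.mono_left (nhdsWithin_mono _ (fun x hx => ne_of_gt hx))))
    exact h2.atTop_div_const (by positivity)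
  have h3 : ∀ᶠ ε : ℝ in 𝓝[>] 0, ε < 1 / 2 := by
    filter_upwards [nhdsWithin_le_nhds (Iio_mem_nhds (show (0:ℝ) < 1 / 2 by norm_num))] with ε hε
    exact hε
  obtain ⟨ε, ⟨h4, h5⟩, h6⟩ := ((h1.eventually_ge_atTop B).and h3 |>.and
    (self_mem_nhdsWithin : ∀ᶠ ε : ℝ in 𝓝[>] 0, ε ∈ Ioi (0:ℝ))).exists
  have h7 : 0 < ε := h6
  refine ⟨1 - ε ^ 2, ⟨by nlinarith, ?_⟩, h4.trans (KE_lower h7 (by linarith))⟩
  have : 0 < ε ^ 2 := by positivity
  linarith

lemma ratio_large (r : ℝ) : ∃ m ∈ Ioo (0:ℝ) 1, r ≤ KE m / KE (1 - m) := by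
  have h2 : 0 < KE (1 / 2) := KE_pos (by norm_num)
  obtain ⟨m, hm, h1⟩ := KE_large (|r| * KE (1 / 2))
  have h3 : KE (1 - m) ≤ KE (1 / 2) := (KE_lt (by linarith [hm.1]) (by norm_num)).le
  have h4 : 0 < KE (1 - m) := KE_pos (by linarith [hm.1])
  refine ⟨m, ⟨by linarith [hm.1], hm.2⟩, (le_abs_self r).trans ?_⟩
  rw [le_div_iff₀ h4]
  exact (mul_le_mul_of_nonneg_left h3 (abs_nonneg r)).trans h1

/-- every aspect ratio occurs -/
theorem ratio_surj {r : ℝ} (hr : 0 < r) : ∃ m ∈ Ioo (0:ℝ) 1, r = KE m / KE (1 - m) := by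
  obtain ⟨m1, h1, h1'⟩ := ratio_large r
  obtain ⟨m2, h2, h2'⟩ := ratio_large r⁻¹
  have h3 : 1 - m2 ∈ Ioo (0:ℝ) 1 := ⟨by linarith [h2.2], by linarith [h2.1]⟩
  have hc : ContinuousOn (fun m => KE m / KE (1 - m)) (Ioo 0 1) := by
    intro m hm
    have g1 : ContinuousAt (fun m : ℝ => KE (1 - m)) m :=
      ContinuousAt.comp (f := fun m : ℝ => 1 - m) (g := KE) (KE_contAt (by linarith [hm.1])) (by fun_prop)
    exact ((KE_contAt hm.2).div g1 (KE_pos (by linarith [hm.1])).ne').continuousWithinAt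
  have h4 : KE (1 - m2) / KE (1 - (1 - m2)) ≤ r := by
    rw [sub_sub_cancel, ← inv_inv r, ← inv_div]
    exact inv_anti₀ (inv_pos.2 hr) h2'
  obtain ⟨m, hm, hm'⟩ := isPreconnected_Ioo.intermediate_value h3 h1 hc ⟨h4, h1'⟩
  exact ⟨m, hm, hm'.symm⟩

end Pool.Agent.H57.FM
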