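import Mathlib
import Pool.Agent.H57.FM.Cross
import Pool.Agent.H75.Perc.ArmD

set_option autoImplicit false
open Finset MeasureTheory

/-! # The crossing probability `PC` as a probability of the infinite product measure -/

namespace Pool.Agent.H57.FM

open Pool.Agent.H75.Perc (GD GD_adj phi phi_inj planeMeasure_eq IsUnit4 Ad Pr unit_cases)
open Pool.Agent.H63.Perc (coins tr coins_tr mem_tr)
open Pool.Agent.H65.Perc (PConf planeMeasure)

/-- `PC` = the probability of a crossing when the edges of `ℤ²` are open independently with probability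
`1/2` -/
theorem PC_measure {D A B : Set ℂ} (hD : Bornology.IsBounded D) {δ : ℝ} (hδ : 0 < δ) :
    (planeMeasure {ω | ∃ u v : ℤ × ℤ, ps δ u ∈ D ∧ ps δ v ∈ D ∧ (∃ a ∈ A, dist (ps δ u) a ≤ δ) ∧
      (∃ b ∈ B, dist (ps δ v) b ≤ δ) ∧ (GD (fun w => ps δ w ∈ D) ω).Reachable u v}).toReal =
      PC D A B δ := by
  have hodd : ∀ e ∈ EL D δ, (e.1 + e.2) % 2 = 1 := by
    intro e he
    obtain ⟨u, v, h1, -, -, rfl⟩ := (mem_EL hD hδ).1 he
    have := unit_cases h1
    simp only [Prod.fst_add, Prod.snd_add]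
    omega
  unfold PC
  rw [← coins_tr (phi_inj hodd), ← planeMeasure_eq]
  congr 2
  ext ω
  constructor
  · rintro ⟨u, v, h1, h2, h3, h4, h5⟩
    refine ⟨u, v, h1, h3, h4, ?_⟩
    rw [SimpleGraph.reachable_iff_reflTransGen] at h5
    refine rtg_mono (fun a b hab => ?_) h5
    rw [GD_adj] at hab
    exact ⟨⟨hab.1, mem_tr.2 ⟨(mem_EL hD hδ).2 ⟨a, b, hab.1, hab.2.1, hab.2.2.1, rfl⟩,
      hab.2.2.2⟩⟩, hab.2.2.1⟩
  · rintro ⟨u, v, h1, h3, h4, h5⟩
    have key : ∀ w, Relation.ReflTransGen (fun x y => Ad (tr (EL D δ) phi ω) x y ∧ ps δ y ∈ D) u w →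
        ps δ w ∈ D ∧ (GD (fun w => ps δ w ∈ D) ω).Reachable u w := by
      intro w hw
      induction hw with
      | refl => exact ⟨h1, SimpleGraph.Reachable.refl _⟩
      | @tail x y _ hxy ih =>
        refine ⟨hxy.2, ih.2.trans (SimpleGraph.Adj.reachable ?_)⟩
        rw [GD_adj]
        exact ⟨hxy.1.1, ih.1, hxy.2, (mem_tr.1 hxy.1.2).2⟩
    exact ⟨u, v, h1, (key v h5).1, h3, h4, (key v h5).2⟩

end Pool.Agent.H57.FM
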