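import Mathlib
import Pool.Agent.H57.FM.Measure
import Pool.Agent.H57.FM.CardyF
import Pool.Agent.H57.FM.KESurj

set_option autoImplicit false
open MeasureTheory Filter Topology

/-! # From `PC`, `cardy`, `KE` to statements which only use Mathlib's definitions -/

namespace Pool.Agent.H57.FM

open Pool.Agent.H13.Q1.Four (cardy)
open Pool.Agent.H65.Perc (planeMeasure)

/-- the data of a self-contained statement are the ones of the library -/
theorem wrap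
    (μ : Measure ((ℤ × ℤ) × Bool → Bool))
    (hμ : μ = Measure.infinitePi (fun _ => (PMF.uniformOfFintype Bool).toMeasure))
    (pos : ℝ → ℤ × ℤ → ℂ)
    (hpos : ∀ δ v, pos δ v = (δ : ℂ) * ((v.1 : ℂ) + (v.2 : ℂ) * Complex.I))
    (G : Set ℂ → ℝ → ((ℤ × ℤ) × Bool → Bool) → SimpleGraph (ℤ × ℤ))
    (hG : ∀ D δ ω, G D δ ω = SimpleGraph.fromRel (fun u v => pos δ u ∈ D ∧ pos δ v ∈ D ∧
      ((v = (u.1 + 1, u.2) ∧ ω (u, true) = true) ∨
        (v = (u.1, u.2 + 1) ∧ ω (u, false) = true))))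
    (P : Set ℂ → Set ℂ → Set ℂ → ℝ → ℝ)
    (hP : ∀ D A B δ, P D A B δ = (μ {ω | ∃ u v : ℤ × ℤ, pos δ u ∈ D ∧ pos δ v ∈ D ∧
      (∃ a ∈ A, dist (pos δ u) a ≤ δ) ∧ (∃ b ∈ B, dist (pos δ v) b ≤ δ) ∧
      (G D δ ω).Reachable u v}).toReal)
    (F : ℝ → ℝ)
    (hF : ∀ x, F x = Real.Gamma (2 / 3) / Real.Gamma (1 / 3) ^ 2 *
      ∫ s in (0 : ℝ)..x, s ^ (-(2 / 3) : ℝ) * (1 - s) ^ (-(2 / 3) : ℝ))
    {D A B : Set ℂ} (hD : Bornology.IsBounded D) {x : ℝ}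
    (h : Tendsto (fun δ => PC D A B δ) (𝓝[>] 0) (𝓝 (cardy x))) :
    Tendsto (fun δ => P D A B δ) (𝓝[>] 0) (𝓝 (F x)) := by
  rw [hF, ← cardy_eq_F]
  refine h.congr' ?_
  filter_upwards [self_mem_nhdsWithin] with δ hδ
  have hδ' : 0 < δ := hδ
  obtain rfl : pos = ps := funext fun δ => funext fun v => hpos δ v
  obtain rfl : G = fun D δ ω => Pool.Agent.H75.Perc.GD (fun w => ps δ w ∈ D) ω :=
    funext fun D => funext fun δ => funext fun ω => hG D δ ω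
  rw [hP, ← PC_measure hD hδ', hμ]
  rfl

end Pool.Agent.H57.FM
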