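import Pool.Agent.H19.Rado.Main
import Pool.Agent.H19.Rado.Convex

set_option autoImplicit false
open Set Metric Filter Topology Complex
open scoped Real ComplexConjugate

/-! # Uniform convergence of normalised half plane charts (Rado) -/

namespace Pool.Agent.H57.FM

open Pool.Agent.H69.Car Pool.Agent.H19.Rado
open Pool.Agent.H81.Q1 (IsJordanDomain)

section basic

variable {D : Set ℂ} {a b : ℂ} {φ : ℂ → ℂ}

lemma re_HC (x : ℝ) : (x : ℂ) ∈ HC := by change 0 ≤ (x : ℂ).im; simp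

/-- scaling of a chart -/
theorem half_scale (h : IsHalf D a b φ) {k : ℝ} (hk : 0 < k) :
    IsHalf D a b (fun z => φ (k * z)) := by
  have hk0 : (k : ℂ) ≠ 0 := ofReal_ne_zero.2 hk.ne'
  have him : ∀ z : ℂ, ((k : ℂ) * z).im = k * z.im := fun z => by simp
  have hHC : ∀ z ∈ HC, (k : ℂ) * z ∈ HC := fun z hz => by
    change 0 ≤ ((k : ℂ) * z).im
    rw [him]
    exact mul_nonneg hk.le hz
  have hHO : ∀ z ∈ HO, (k : ℂ) * z ∈ HO := fun z hz => by
    change 0 < ((k : ℂ) * z).im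
    rw [him]
    exact mul_pos hk hz
  have iHC : (fun z : ℂ => (k : ℂ) * z) '' HC = HC := by
    apply Subset.antisymm
    · rintro _ ⟨z, hz, rfl⟩; exact hHC z hz
    · intro z hz
      refine ⟨((k⁻¹ : ℝ) : ℂ) * z, ?_, ?_⟩
      · change 0 ≤ (((k⁻¹ : ℝ) : ℂ) * z).im
        have : (((k⁻¹ : ℝ) : ℂ) * z).im = k⁻¹ * z.im := by simp
        rw [this]
        exact mul_nonneg (inv_pos.2 hk).le hz
      · simp only [ofReal_inv]
        rw [mul_inv_cancel_left₀ hk0]
  have iHO : (fun z : ℂ => (k : ℂ) * z) '' HO = HO := by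
    apply Subset.antisymm
    · rintro _ ⟨z, hz, rfl⟩; exact hHO z hz
    · intro z hz
      refine ⟨((k⁻¹ : ℝ) : ℂ) * z, ?_, ?_⟩
      · change 0 < (((k⁻¹ : ℝ) : ℂ) * z).im
        have : (((k⁻¹ : ℝ) : ℂ) * z).im = k⁻¹ * z.im := by simp
        rw [this]
        exact mul_pos (inv_pos.2 hk) hz
      · simp only [ofReal_inv]
        rw [mul_inv_cancel_left₀ hk0]
  refine ⟨?_, ?_, ?_, ?_, ?_, ?_, ?_⟩
  · exact h.cont.comp (by fun_prop) hHC
  · intro z hz w hw hzw
    exact mul_left_cancel₀ hk0 (h.inj (hHC z hz) (hHC w hw) hzw)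
  · exact h.diff.comp (by fun_prop) hHO
  · rw [← h.image]
    conv_rhs => rw [← iHO]
    rw [image_image]
  · simp only [mul_zero]
    exact h.zero
  · refine h.lim.comp (tendsto_inf.2 ⟨?_, tendsto_principal.2 ?_⟩)
    · have h1 : Tendsto (fun z : ℂ => (k : ℂ) * z) (Bornology.cobounded ℂ) (Bornology.cobounded ℂ) := by
        rw [← tendsto_norm_atTop_iff_cobounded]
        have h2 : Tendsto (fun z : ℂ => k * ‖z‖) (Bornology.cobounded ℂ) atTop :=
          tendsto_norm_cobounded_atTop.const_mul_atTop hk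
        refine h2.congr fun z => ?_
        rw [norm_mul, norm_real, Real.norm_of_nonneg hk.le]
      exact h1.mono_left inf_le_left
    · filter_upwards [mem_inf_of_right (mem_principal_self HC)] with z hz
      exact hHC z hz
  · rw [← h.closure]
    conv_rhs => rw [← iHC]
    rw [image_image]

/-- reflection of a chart -/
theorem half_conj (h : IsHalf D a b φ) :
    IsHalf (conj '' D) (conj a) (conj b) (fun z => conj (φ (-conj z))) := by
  have hHC : ∀ z ∈ HC, -conj z ∈ HC := fun z hz => by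
    have h1 : 0 ≤ z.im := hz
    change 0 ≤ (-conj z).im
    simpa using h1
  have hHO : ∀ z ∈ HO, -conj z ∈ HO := fun z hz => by
    have h1 : 0 < z.im := hz
    change 0 < (-conj z).im
    simpa using h1
  have hinv : ∀ z : ℂ, -conj (-conj z) = z := fun z => by simp
  have iHC : (fun z : ℂ => -conj z) '' HC = HC := by
    apply Subset.antisymm
    · rintro _ ⟨z, hz, rfl⟩; exact hHC z hz
    · intro z hz; exact ⟨-conj z, hHC z hz, hinv z⟩
  have iHO : (fun z : ℂ => -conj z) '' HO = HO := by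
    apply Subset.antisymm
    · rintro _ ⟨z, hz, rfl⟩; exact hHO z hz
    · intro z hz; exact ⟨-conj z, hHO z hz, hinv z⟩
  have cinj : Function.Injective (conj : ℂ → ℂ) := (starRingEnd ℂ).injective
  have ccont : Continuous (conj : ℂ → ℂ) := Complex.continuous_conj
  refine ⟨?_, ?_, ?_, ?_, ?_, ?_, ?_⟩
  · exact ccont.comp_continuousOn (h.cont.comp (by fun_prop) hHC)
  · intro z hz w hw hzw
    have h1 := h.inj (hHC z hz) (hHC w hw) (cinj hzw)
    exact cinj (neg_injective h1)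
  · intro z hz
    have h1 : DifferentiableAt ℂ φ (-conj z) := (h.diff _ (hHO z hz)).differentiableAt
      (HO_isOpen.mem_nhds (hHO z hz))
    have h2 : DifferentiableAt ℂ (fun w : ℂ => φ (-w)) (conj z) :=
      DifferentiableAt.comp (conj z) (f := fun w : ℂ => -w) h1 (by fun_prop)
    have h3 := h2.conj_conj
    rw [conj_conj] at h3
    exact h3.differentiableWithinAt
  · rw [← h.image]
    conv_rhs => rw [← iHO]
    rw [image_image, image_image]
  · simp only [map_zero, neg_zero, h.zero]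
  · refine (ccont.tendsto b).comp (h.lim.comp (tendsto_inf.2 ⟨?_, tendsto_principal.2 ?_⟩))
    · have h1 : Tendsto (fun z : ℂ => -conj z) (Bornology.cobounded ℂ) (Bornology.cobounded ℂ) := by
        rw [← tendsto_norm_atTop_iff_cobounded]
        refine tendsto_norm_cobounded_atTop.congr fun z => ?_
        rw [norm_neg, norm_conj]
      exact h1.mono_left inf_le_left
    · filter_upwards [mem_inf_of_right (mem_principal_self HC)] with z hz
      exact hHC z hz
  · have e1 : (fun z => conj (φ (-conj z))) '' HC = conj '' (φ '' HC) := by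
      conv_rhs => rw [← iHC]
      rw [image_image, image_image]
    have e2 : closure (conj '' D) = conj '' closure D := by
      exact (Complex.conjCLE.toHomeomorph.image_closure D).symm
    rw [e1, e2, h.closure, image_sdiff cinj, image_singleton]

end basic

/-- **Limit of charts** under an ultrafilter, three points normalised. -/
theorem lim_chart {ι : Type*} {U : Ultrafilter ι} {D : ι → Set ℂ} {D0 : Set ℂ}
    (h : KConv (U : Filter ι) D D0) {a b : ι → ℂ} {φ : ι → ℂ → ℂ} {a0 b0 c0 : ℂ} {φ0 : ℂ → ℂ}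
    (hφ : ∀ᶠ n in (U : Filter ι), IsHalf (D n) (a n) (b n) (φ n)) (h0 : IsHalf D0 a0 b0 φ0)
    (ha : Tendsto a U (𝓝 a0)) (hb : Tendsto b U (𝓝 b0)) (hca : c0 ≠ a0) (hcb : c0 ≠ b0)
    (h1 : Tendsto (fun n => φ n 1) U (𝓝 c0)) : ∃ k : ℝ, 0 < k ∧ φ0 k = c0 ∧
      ∀ w0 ∈ closedBall (0:ℂ) 1, ∀ w : ι → ℂ, (∀ᶠ n in (U : Filter ι), w n ∈ closedBall (0:ℂ) 1) →
        Tendsto w U (𝓝 w0) → Tendsto (fun n => toDisc (φ n) (b n) (w n)) U
          (𝓝 (toDisc (fun z => φ0 (k * z)) b0 w0)) := by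
  have h1C : (1:ℂ) ∈ HC := by have := re_HC 1; rwa [ofReal_one] at this
  have h0C : (0:ℂ) ∈ HC := by have := re_HC 0; rwa [ofReal_zero] at this
  have n1 : a0 ≠ b0 := fun e => h0.notMem ⟨0, h0C, by rw [h0.zero, e]⟩
  set d0 := min (dist b0 a0) (min (dist b0 c0) (dist a0 c0)) / 2 with hd0
  have hd0p : 0 < d0 := by
    have e1 := dist_pos.2 n1.symm
    have e2 := dist_pos.2 hcb.symm
    have e3 := dist_pos.2 hca.symm
    positivity
  have m1 : d0 < dist b0 a0 := by
    have := min_le_left (dist b0 a0) (min (dist b0 c0) (dist a0 c0))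
    have e1 := dist_pos.2 n1.symm
    linarith
  have m2 : d0 < dist b0 c0 := by
    have := (min_le_right (dist b0 a0) (min (dist b0 c0) (dist a0 c0))).trans (min_le_left _ _)
    have e1 := dist_pos.2 hcb.symm
    linarith
  have m3 : d0 < dist a0 c0 := by
    have := (min_le_right (dist b0 a0) (min (dist b0 c0) (dist a0 c0))).trans (min_le_right _ _)
    have e1 := dist_pos.2 hca.symm
    linarith
  set Φ : ι → ℂ → ℂ := fun n => toDisc (φ n) (b n) with hΦ
  have hcar : ∀ᶠ n in (U : Filter ι), IsCar (D n) (Φ n) := by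
    filter_upwards [hφ, h.jd] with n g1 g2
    exact isCar_toDisc g1 g2.1
  have v1 : ∀ n, Φ n 1 = b n := fun n => toDisc_one _ _
  have v2 : ∀ᶠ n in (U : Filter ι), Φ n (-1) = a n := by
    filter_upwards [hφ] with n g1
    rw [hΦ]; simp only [toDisc_neg_one, g1.zero]
  have v3 : ∀ n, Φ n (-I) = φ n 1 := fun n => toDisc_neg_I _ _
  have h3 : ∀ᶠ n in (U : Filter ι), d0 < dist (Φ n 1) (Φ n (-1)) ∧ d0 < dist (Φ n 1) (Φ n (-I)) ∧
      d0 < dist (Φ n (-1)) (Φ n (-I)) := by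
    filter_upwards [v2, (hb.dist ha).eventually (lt_mem_nhds m1),
      (hb.dist h1).eventually (lt_mem_nhds m2), (ha.dist h1).eventually (lt_mem_nhds m3)]
      with n g2 g3 g4 g5
    rw [v1, g2, v3]
    exact ⟨g3, g4, g5⟩
  obtain ⟨Ψ, hΨ⟩ := exists_limMap (U := U) h hcar hd0p h3
  have hone : (1:ℂ) ∈ closedBall (0:ℂ) 1 := by simp
  have hmone : (-1:ℂ) ∈ closedBall (0:ℂ) 1 := by simp
  have hmI : (-I:ℂ) ∈ closedBall (0:ℂ) 1 := by simp
  have w1 : Ψ 1 = b0 := by
    have t1 := hΨ.lim 1 hone (fun _ => 1) (Eventually.of_forall fun _ => hone) tendsto_const_nhds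
    simp only [v1] at t1
    exact tendsto_nhds_unique t1 hb
  have w2 : Ψ (-1) = a0 := by
    have t1 := hΨ.lim (-1) hmone (fun _ => -1) (Eventually.of_forall fun _ => hmone)
      tendsto_const_nhds
    refine tendsto_nhds_unique t1 (ha.congr' ?_)
    filter_upwards [v2] with n hn
    exact hn.symm
  have w3 : Ψ (-I) = c0 := by
    have t1 := hΨ.lim (-I) hmI (fun _ => -I) (Eventually.of_forall fun _ => hmI)
      tendsto_const_nhds
    simp only [v3] at t1
    exact tendsto_nhds_unique t1 h1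
  set ψ : ℂ → ℂ := fun z => Ψ (cay 1 I z) with hψ
  have hψc : ContinuousOn ψ HC :=
    hΨ.cont.comp (cay_cont I_im_pos) fun z hz => cay_closedBall norm_one I_im_pos hz
  have hψd : DifferentiableOn ℂ ψ HO :=
    hΨ.diff.comp (cay_diff I_im_pos) fun z hz => cay_ball norm_one I_im_pos hz
  have hψb : BijOn ψ HO D0 := by
    refine hΨ.bij.comp ⟨fun z hz => cay_ball norm_one I_im_pos hz,
      (cay_inj norm_one I_im_pos).mono HO_subset, ?_⟩
    intro w hw
    exact ⟨icay w, (icay_mem hw).1, (icay_mem hw).2⟩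
  have hψ0 : ψ 0 = a0 := by rw [hψ]; simp only [cay1_zero, w2]
  have hψi : Tendsto ψ (Bornology.cobounded ℂ ⊓ 𝓟 HC) (𝓝 b0) := by
    have t1 : Tendsto (cay 1 I) (Bornology.cobounded ℂ ⊓ 𝓟 HC) (𝓝[closedBall 0 1] 1) := by
      rw [tendsto_nhdsWithin_iff]
      refine ⟨cay_tendsto I_im_pos, ?_⟩
      filter_upwards [mem_inf_of_right (mem_principal_self HC)] with z hz
      exact cay_closedBall norm_one I_im_pos hz
    have t2 := (hΨ.cont 1 hone).tendsto.comp t1
    rwa [w1] at t2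
  obtain ⟨k, hk, hkz⟩ := weak_half h0 hψc hψd hψb hψ0 hψi
  refine ⟨k, hk, ?_, ?_⟩
  · have e1 := hkz 1 h1C
    have e2 : ψ 1 = c0 := by rw [hψ]; simp only [cay1_one, w3]
    rw [e2, mul_one] at e1
    exact e1.symm
  · intro w0 hw0 w hw hwt
    have t1 := hΨ.lim w0 hw0 w hw hwt
    have e1 : Ψ w0 = toDisc (fun z => φ0 (k * z)) b0 w0 := by
      by_cases hw1 : w0 = 1
      · rw [hw1, toDisc_one, w1]
      · rw [toDisc_ne _ _ hw1]
        obtain ⟨g1, g2, -, -⟩ := exists_eq_cay hw0 hw1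
        rw [← hkz _ g1, hψ]
        simp only [g2]
    rwa [e1] at t1

/-- uniform convergence of normalised charts -/
theorem unif_chart {ι : Type*} {l : Filter ι} {D : ι → Set ℂ} {D0 : Set ℂ} (h : KConv l D D0)
    (ho : IsOpen D0) {a b : ι → ℂ} {φ : ι → ℂ → ℂ} {a0 b0 : ℂ} {φ0 : ℂ → ℂ}
    (hφ : ∀ᶠ n in l, IsHalf (D n) (a n) (b n) (φ n)) (h0 : IsHalf D0 a0 b0 φ0)
    (ha : Tendsto a l (𝓝 a0)) (hb : Tendsto b l (𝓝 b0))
    (h1 : Tendsto (fun n => φ n 1) l (𝓝 (φ0 1))) {η : ℝ} (hη : 0 < η) :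
    ∀ᶠ n in l, ∀ w ∈ closedBall (0:ℂ) 1,
      dist (toDisc (φ n) (b n) w) (toDisc φ0 b0 w) ≤ η := by
  have h1C : (1:ℂ) ∈ HC := by have := re_HC 1; rwa [ofReal_one] at this
  have h0C : (0:ℂ) ∈ HC := by have := re_HC 0; rwa [ofReal_zero] at this
  by_contra hcon
  rw [not_eventually] at hcon
  set S : Set ι := {n | ¬ ∀ w ∈ closedBall (0:ℂ) 1,
      dist (toDisc (φ n) (b n) w) (toDisc φ0 b0 w) ≤ η} with hS
  have hne : (l ⊓ 𝓟 S).NeBot := frequently_mem_iff_neBot.1 hcon
  set U := Ultrafilter.of (l ⊓ 𝓟 S) with hUdef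
  have hU : (U : Filter ι) ≤ l ⊓ 𝓟 S := Ultrafilter.of_le _
  have hUl : (U : Filter ι) ≤ l := hU.trans inf_le_left
  have hUS : ∀ᶠ n in (U : Filter ι), n ∈ S := hU (mem_inf_of_right (mem_principal_self S))
  have hex : ∀ n ∈ S, ∃ w ∈ closedBall (0:ℂ) 1,
      η < dist (toDisc (φ n) (b n) w) (toDisc φ0 b0 w) := by
    intro n hn
    have hn' : ¬ ∀ w ∈ closedBall (0:ℂ) 1,
      dist (toDisc (φ n) (b n) w) (toDisc φ0 b0 w) ≤ η := hn
    push Not at hn'
    exact hn'
  choose! w hw1 hw2 using hex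
  have hwm : ∀ᶠ n in (U : Filter ι), w n ∈ closedBall (0:ℂ) 1 := by
    filter_upwards [hUS] with n hn using hw1 n hn
  obtain ⟨w0, hw0, hwt⟩ := exists_ulim (U := U) (f := w) (R := 1) hwm
  have c1 : φ0 1 ≠ a0 := by
    intro e
    rw [← h0.zero] at e
    exact one_ne_zero (h0.inj h1C h0C e)
  have c2 : φ0 1 ≠ b0 := fun e => h0.notMem ⟨1, h1C, e⟩
  obtain ⟨k, hk, hkc, hlim⟩ := lim_chart (U := U) (h.mono hUl) (hUl hφ) h0 (ha.mono_left hUl)
    (hb.mono_left hUl) c1 c2 (h1.mono_left hUl)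
  have hk1 : k = 1 := by
    have := h0.inj (re_HC k) h1C hkc
    exact_mod_cast this
  subst hk1
  simp only [ofReal_one, one_mul] at hlim
  have t1 := hlim w0 hw0 w hwm hwt
  have hcont : ContinuousOn (toDisc φ0 b0) (closedBall 0 1) := (isCar_toDisc h0 ho).cont
  have t2 : Tendsto (fun n => toDisc φ0 b0 (w n)) U (𝓝 (toDisc φ0 b0 w0)) :=
    (hcont w0 hw0).tendsto.comp (tendsto_nhdsWithin_iff.2 ⟨hwt, hwm⟩)
  have t3 := t1.dist t2
  rw [dist_self] at t3
  obtain ⟨n, g1, g2⟩ := ((t3.eventually (gt_mem_nhds hη)).and hUS).exists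
  exact absurd g1 (not_lt.2 (hw2 n g2).le)

end Pool.Agent.H57.FM
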