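import Pool.Agent.H19.RH.RA
import Pool.Agent.H69.Car.Half

set_option autoImplicit false
open Set Metric Filter Topology Complex
open scoped Real ComplexConjugate

/-! The Riemann map of a rectangle: `(φ')^2` times the product of the four linear factors of the
preimages of the corners is a real constant. -/

namespace Pool.Agent.H57.FM

open Pool.Agent.H19.RH
open Pool.Agent.H69.Car (IsHalf HC HO)

/-- the open rectangle -/
def Rc (W H : ℝ) : Set ℂ := Ioo 0 W ×ℂ Ioo 0 H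

variable {W H : ℝ}

lemma isOpen_Rc : IsOpen (Rc W H) := isOpen_Ioo.reProdIm isOpen_Ioo

lemma mem_Rc {z : ℂ} : z ∈ Rc W H ↔ (0 < z.re ∧ z.re < W) ∧ (0 < z.im ∧ z.im < H) := Iff.rfl

lemma mem_fr (hW : 0 < W) (hH : 0 < H) {z : ℂ} : z ∈ frontier (Rc W H) ↔
    ((0 ≤ z.re ∧ z.re ≤ W) ∧ (z.im = 0 ∨ z.im = H)) ∨
      ((z.re = 0 ∨ z.re = W) ∧ (0 ≤ z.im ∧ z.im ≤ H)) := by
  rw [Rc, frontier_reProdIm, closure_Ioo hW.ne, closure_Ioo hH.ne, frontier_Ioo hW,
    frontier_Ioo hH]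
  simp [mem_reProdIm]

/-- corners of the rectangle -/
def Cor (W H : ℝ) (z : ℂ) : Prop := (z.re = 0 ∨ z.re = W) ∧ (z.im = 0 ∨ z.im = H)

lemma loc_side (hW : 0 < W) (hH : 0 < H) {z0 : ℂ} (h0 : z0 ∈ frontier (Rc W H))
    (hn : ¬ Cor W H z0) : ∃ u : ℂ, (u = 1 ∨ u = I) ∧ ∀ᶠ z in 𝓝 z0, z ∈ frontier (Rc W H) →
      (u * (z - z0)).im = 0 := by
  have cre := Complex.continuous_re.tendsto z0
  have cim := Complex.continuous_im.tendsto z0
  unfold Cor at hn
  push Not at hn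
  rw [mem_fr hW hH] at h0
  rcases h0 with ⟨⟨h1, h2⟩, h3⟩ | ⟨h1, h2, h3⟩
  · have h4 : z0.re ≠ 0 := fun h => by
      rcases h3 with h3 | h3
      · exact (hn (Or.inl h)).1 h3
      · exact (hn (Or.inl h)).2 h3
    have h5 : z0.re ≠ W := fun h => by
      rcases h3 with h3 | h3
      · exact (hn (Or.inr h)).1 h3
      · exact (hn (Or.inr h)).2 h3
    refine ⟨1, Or.inl rfl, ?_⟩
    have e1 : ∀ᶠ z in 𝓝 z0, 0 < z.re := cre.eventually (lt_mem_nhds (lt_of_le_of_ne h1 h4.symm))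
    have e2 : ∀ᶠ z in 𝓝 z0, z.re < W := cre.eventually (gt_mem_nhds (lt_of_le_of_ne h2 h5))
    have e3 : ∀ᶠ z in 𝓝 z0, z.im < z0.im + H := cim.eventually (gt_mem_nhds (by linarith))
    have e4 : ∀ᶠ z in 𝓝 z0, z0.im - H < z.im := cim.eventually (lt_mem_nhds (by linarith))
    filter_upwards [e1, e2, e3, e4] with z a1 a2 a3 a4 hz
    rw [mem_fr hW hH] at hz
    rw [one_mul, sub_im]
    rcases hz with ⟨-, hz⟩ | ⟨hz, -⟩
    · rcases hz with hz | hz <;> rcases h3 with h3 | h3 <;> rw [hz, h3] at a3 a4 ⊢ <;> linarith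
    · rcases hz with hz | hz
      · exact absurd hz a1.ne'
      · exact absurd hz a2.ne
  · have h4 : z0.im ≠ 0 := fun h => (hn h1).1 h
    have h5 : z0.im ≠ H := fun h => (hn h1).2 h
    refine ⟨I, Or.inr rfl, ?_⟩
    have e1 : ∀ᶠ z in 𝓝 z0, 0 < z.im := cim.eventually (lt_mem_nhds (lt_of_le_of_ne h2 h4.symm))
    have e2 : ∀ᶠ z in 𝓝 z0, z.im < H := cim.eventually (gt_mem_nhds (lt_of_le_of_ne h3 h5))
    have e3 : ∀ᶠ z in 𝓝 z0, z.re < z0.re + W := cre.eventually (gt_mem_nhds (by linarith))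
    have e4 : ∀ᶠ z in 𝓝 z0, z0.re - W < z.re := cre.eventually (lt_mem_nhds (by linarith))
    filter_upwards [e1, e2, e3, e4] with z a1 a2 a3 a4 hz
    rw [mem_fr hW hH] at hz
    have : (I * (z - z0)).im = (z - z0).re := by simp [mul_im]
    rw [this, sub_re]
    rcases hz with ⟨-, hz⟩ | ⟨hz, -⟩
    · rcases hz with hz | hz
      · exact absurd hz a1.ne'
      · exact absurd hz a2.ne
    · rcases hz with hz | hz <;> rcases h1 with h1 | h1 <;> rw [hz, h1] at a3 a4 ⊢ <;> linarith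

lemma loc_corner (hW : 0 < W) (hH : 0 < H) {z0 : ℂ} (h0 : Cor W H z0) :
    ∀ᶠ z in 𝓝 z0, z ∈ frontier (Rc W H) → ((z - z0) ^ 2).im = 0 := by
  have cre := Complex.continuous_re.tendsto z0
  have cim := Complex.continuous_im.tendsto z0
  obtain ⟨h1, h2⟩ := h0
  have e1 : ∀ᶠ z in 𝓝 z0, z.im < z0.im + H := cim.eventually (gt_mem_nhds (by linarith))
  have e2 : ∀ᶠ z in 𝓝 z0, z0.im - H < z.im := cim.eventually (lt_mem_nhds (by linarith))
  have e3 : ∀ᶠ z in 𝓝 z0, z.re < z0.re + W := cre.eventually (gt_mem_nhds (by linarith))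
  have e4 : ∀ᶠ z in 𝓝 z0, z0.re - W < z.re := cre.eventually (lt_mem_nhds (by linarith))
  filter_upwards [e1, e2, e3, e4] with z a1 a2 a3 a4 hz
  rw [mem_fr hW hH] at hz
  have e : ((z - z0) ^ 2).im = 2 * (z.re - z0.re) * (z.im - z0.im) := by
    rw [sq, mul_im, sub_re, sub_im]
    ring
  rw [e]
  rcases hz with ⟨-, hz⟩ | ⟨hz, -⟩
  · have : z.im - z0.im = 0 := by
      rcases hz with hz | hz <;> rcases h2 with h2 | h2 <;> rw [hz, h2] at a1 a2 ⊢ <;> linarith
    rw [this, mul_zero]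
  · have : z.re - z0.re = 0 := by
      rcases hz with hz | hz <;> rcases h1 with h1 | h1 <;> rw [hz, h1] at a3 a4 ⊢ <;> linarith
    rw [this, mul_zero, zero_mul]

/-- local extension by reflection -/
lemma ext_real {f : ℂ → ℂ} (hd : DifferentiableOn ℂ f UP) (hc : ContinuousOn f HC) {t : ℝ}
    (hr : ∀ᶠ s : ℝ in 𝓝 t, (f s).im = 0) : ∃ g : ℂ → ℂ, AnalyticAt ℂ g (t : ℂ) ∧
      (∀ᶠ z in 𝓝[HC] (t : ℂ), g z = f z) ∧ ∀ᶠ y : ℝ in 𝓝 t, (g y).im = 0 := by
  obtain ⟨r, hr0, hr⟩ := Metric.eventually_nhds_iff.1 hr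
  have hlim : ∀ z ∈ HC, Tendsto f (𝓝[UP] z) (𝓝 (f z)) := fun z hz =>
    (hc z hz).tendsto.mono_left (nhdsWithin_mono _ fun w (hw : 0 < w.im) => (hw.le : 0 ≤ w.im))
  have hmem : ∀ s : ℝ, (s : ℂ) ∈ HC := fun s => by
    change 0 ≤ (s : ℂ).im
    rw [ofReal_im]
  have hRX : RX f t := by
    refine rx_of_growth hr0 (hd.mono inter_subset_right) ?_ ?_
    · intro y hy _
      refine ⟨(f y).re, ?_⟩
      have h1 : (f y).im = 0 := by
        apply hr
        rw [mem_ball, Complex.dist_eq, ← ofReal_sub, Complex.norm_real] at hy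
        rwa [Real.dist_eq]
      have h2 : f y = ((f y).re : ℂ) := Complex.ext (by simp) (by simp [h1])
      rw [← h2]
      exact hlim _ (hmem y)
    · have h3 : Tendsto (fun z : ℂ => z - t) (𝓝[UP] (t : ℂ)) (𝓝 0) := by
        have : Tendsto (fun z : ℂ => z - t) (𝓝 (t : ℂ)) (𝓝 ((t : ℂ) - t)) :=
          (continuous_id.sub continuous_const).tendsto _
        rw [sub_self] at this
        exact this.mono_left nhdsWithin_le_nhds
      have := h3.mul (hlim _ (hmem t))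
      rwa [zero_mul] at this
  obtain ⟨ρ, hρ, g, h1, h2, h3⟩ := hRX
  have hb : ball (t : ℂ) ρ ∈ 𝓝 (t : ℂ) := ball_mem_nhds _ hρ
  refine ⟨g, h1.analyticAt hb, ?_, ?_⟩
  · filter_upwards [self_mem_nhdsWithin, mem_nhdsWithin_of_mem_nhds hb] with z hz hz'
    rcases eq_or_lt_of_le (show 0 ≤ z.im from hz) with h | h
    · have hne : (𝓝[UP] z).NeBot := nhdsUP_neBot h.le
      have h5 : Tendsto g (𝓝[UP] z) (𝓝 (g z)) :=
        ((h1.differentiableAt (isOpen_ball.mem_nhds hz')).continuousAt.tendsto).mono_left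
          nhdsWithin_le_nhds
      have h6 : Tendsto g (𝓝[UP] z) (𝓝 (f z)) := by
        refine (hlim z hz).congr' ?_
        filter_upwards [self_mem_nhdsWithin,
          mem_nhdsWithin_of_mem_nhds (isOpen_ball.mem_nhds hz')] with w hw hw'
        exact (h2 w hw' hw).symm
      exact tendsto_nhds_unique h5 h6
    · exact h2 z hz' h
  · have : ∀ᶠ y : ℝ in 𝓝 t, (y : ℂ) ∈ ball (t : ℂ) ρ :=
      (Complex.continuous_ofReal.tendsto t) hb
    filter_upwards [this] with y hy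
    exact h3 y hy

section chart

variable {a b : ℂ} {φ : ℂ → ℂ} (hW : 0 < W) (hH : 0 < H) (h : IsHalf (Rc W H) a b φ)

include h

lemma phi_diff {z : ℂ} (hz : 0 < z.im) : DifferentiableAt ℂ φ z :=
  h.diff.differentiableAt (isOpen_UP.mem_nhds hz)

lemma phi_mem {z : ℂ} (hz : 0 < z.im) : φ z ∈ Rc W H := by
  rw [← h.image]
  exact mem_image_of_mem _ hz

lemma phi_real (t : ℝ) : φ t ∈ frontier (Rc W H) := (h.mapsTo_real isOpen_Rc).1

omit h in
lemma real_mem_HC' (t : ℝ) : (t : ℂ) ∈ HC := by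
  change 0 ≤ (t : ℂ).im
  rw [ofReal_im]

lemma phi_near (t : ℝ) {p : ℂ → Prop} (hp : ∀ᶠ z in 𝓝 (φ t), p z) : ∀ᶠ s : ℝ in 𝓝 t, p (φ s) :=
  (h.cont_real.tendsto t).eventually hp

include hW hH in
/-- the derivative of `φ` at a real point which is not mapped to a corner -/
lemma side_deriv (t : ℝ) (hn : ¬ Cor W H (φ t)) : ∃ d : ℂ, HasDerivAt (fun s : ℝ => φ s) d t ∧
    (d ^ 2).im = 0 ∧ Tendsto (deriv φ) (𝓝[UP] (t : ℂ)) (𝓝 d) := by
  obtain ⟨u, hu, hev⟩ := loc_side hW hH (phi_real h t) hn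
  have hu0 : u ≠ 0 := by rcases hu with rfl | rfl <;> simp
  have hu2 : (u⁻¹ ^ 2).im = 0 := by rcases hu with rfl | rfl <;> simp
  obtain ⟨g, g1, g2, g3⟩ := ext_real (f := fun z => u * (φ z - φ t)) (t := t)
    ((h.diff.sub_const _).const_mul u) ((h.cont.sub continuousOn_const).const_smul u |>.congr
      fun z _ => rfl) (by
      filter_upwards [phi_near h t hev] with s hs
      exact hs (phi_real h s))
  have hev2 : ∀ᶠ s : ℝ in 𝓝 t, φ s = φ t + u⁻¹ * g s := by
    have h1 : Tendsto (fun s : ℝ => (s : ℂ)) (𝓝 t) (𝓝[HC] (t : ℂ)) :=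
      tendsto_nhdsWithin_iff.2 ⟨Complex.continuous_ofReal.tendsto t,
        Eventually.of_forall fun s => real_mem_HC' s⟩
    filter_upwards [h1.eventually g2] with s hs
    rw [hs]
    field_simp
    ring
  have hgr := (eventually_real_deriv g1 g3).self_of_nhds
  refine ⟨u⁻¹ * deriv g t, ?_, ?_, ?_⟩
  · have h2 : HasDerivAt (fun s : ℝ => φ t + u⁻¹ * g s) (u⁻¹ * deriv g t) t := by
      have h3 : HasDerivAt (fun s : ℝ => g s) (deriv g t) t :=
        g1.differentiableAt.hasDerivAt.comp_ofReal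
      exact (h3.const_mul u⁻¹).const_add (φ t)
    exact h2.congr_of_eventuallyEq hev2
  · rw [mul_pow, mul_im, hu2]
    have h4 : ((deriv g t) ^ 2).im = 0 := by
      rw [sq, mul_im, hgr]
      ring
    rw [h4]
    ring
  · have h5 : ∀ᶠ z in 𝓝[UP] (t : ℂ), φ z = φ t + u⁻¹ * g z := by
      have h6 : 𝓝[UP] (t : ℂ) ≤ 𝓝[HC] (t : ℂ) :=
        nhdsWithin_mono _ fun w (hw : 0 < w.im) => (hw.le : 0 ≤ w.im)
      filter_upwards [h6 g2] with z hz
      have hz' : g z = u * (φ z - φ t) := hz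
      rw [hz']
      field_simp
      ring
    have h7 := eventually_deriv h5
    have h8 : Tendsto (fun z => u⁻¹ * deriv g z) (𝓝[UP] (t : ℂ)) (𝓝 (u⁻¹ * deriv g t)) :=
      (g1.deriv.continuousAt.tendsto.mono_left nhdsWithin_le_nhds).const_mul _
    refine h8.congr' ?_
    have h9 : ∀ᶠ z in 𝓝[UP] (t : ℂ), DifferentiableAt ℂ g z :=
      (g1.eventually_analyticAt.mono fun z hz => hz.differentiableAt).filter_mono
        nhdsWithin_le_nhds
    filter_upwards [h7, h9] with z hz hz'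
    rw [hz, deriv_const_add, deriv_const_mul _ hz']

include hW hH in
/-- growth of the derivative at the preimage of a corner -/
lemma corner_growth {t : ℝ} (hn : Cor W H (φ t)) : Tendsto (fun z => (z - t) ^ 2 *
    (deriv φ z) ^ 2) (𝓝[UP] (t : ℂ)) (𝓝 0) := by
  have hcor := loc_corner hW hH hn
  obtain ⟨g, g1, g2, g3⟩ := ext_real (f := fun z => (φ z - φ t) ^ 2) (t := t)
    ((h.diff.sub_const _).pow 2) ((h.cont.sub continuousOn_const).pow 2) (by
      filter_upwards [phi_near h t hcor] with s hs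
      exact hs (phi_real h s))
  have h6 : 𝓝[UP] (t : ℂ) ≤ 𝓝[HC] (t : ℂ) :=
    nhdsWithin_mono _ fun w (hw : 0 < w.im) => (hw.le : 0 ≤ w.im)
  have hg : ∀ᶠ z in 𝓝[UP] (t : ℂ), g z = (φ z - φ t) ^ 2 := h6 g2
  have hgt : g t = 0 := by
    have h1 := g2.self_of_nhdsWithin (real_mem_HC' t)
    rw [h1, sub_self]
    norm_num
  have hne : ¬ ∀ᶠ z in 𝓝 (t : ℂ), g z = 0 := by
    intro h0
    have : (𝓝[UP] (t : ℂ)).NeBot := nhdsUP_neBot (by simp)
    have h00 : ∀ᶠ z in 𝓝[UP] (t : ℂ), g z = 0 := h0.filter_mono nhdsWithin_le_nhds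
    have h01 : ∀ᶠ z in 𝓝[UP] (t : ℂ), z ∈ UP := self_mem_nhdsWithin
    obtain ⟨z, ⟨hz1, hz2⟩, hz3⟩ := ((h00.and hg).and h01).exists
    rw [hz1] at hz2
    have h1 : φ z - φ t = 0 := by
      have := hz2.symm
      exact pow_eq_zero_iff two_ne_zero |>.1 this
    have h2 : φ t ∈ Rc W H := by
      rw [← sub_eq_zero.1 h1]
      exact phi_mem h hz3
    have h3 := phi_real h t
    rw [isOpen_Rc.frontier_eq] at h3
    exact h3.2 h2
  obtain ⟨n, k, k1, k2, k3⟩ := (g1.exists_eventuallyEq_pow_smul_nonzero_iff).2 hne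
  have hn0 : n ≠ 0 := by
    rintro rfl
    have := k3.self_of_nhds
    rw [hgt] at this
    simp at this
    exact k2 this.symm
  simp only [smul_eq_mul] at k3
  -- derivative of g
  have hgd : ∀ᶠ z in 𝓝 (t : ℂ), (z - t) * deriv g z = (z - t) ^ n * (n * k z + (z - t) * deriv k z) := by
    filter_upwards [k3.eventually_nhds, k1.eventually_analyticAt] with z hz hkz
    have h1 : deriv g z = n * (z - t) ^ (n - 1) * k z + (z - t) ^ n * deriv k z := by
      have h2 : HasDerivAt (fun w : ℂ => (w - t) ^ n * k w)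
          (n * (z - t) ^ (n - 1) * 1 * k z + (z - t) ^ n * deriv k z) z :=
        (((hasDerivAt_id z).sub_const (t : ℂ)).pow n).mul hkz.differentiableAt.hasDerivAt
      rw [mul_one] at h2
      exact (h2.congr_of_eventuallyEq hz).deriv
    rw [h1]
    obtain ⟨n', rfl⟩ := Nat.exists_eq_succ_of_ne_zero hn0
    simp only [Nat.succ_eq_add_one, Nat.add_sub_cancel, pow_succ]
    ring
  have hkne : ∀ᶠ z in 𝓝 (t : ℂ), k z ≠ 0 := k1.continuousAt.eventually_ne k2
  have key : ∀ᶠ z in 𝓝[UP] (t : ℂ), (z - t) ^ 2 * (deriv φ z) ^ 2 =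
      (z - t) ^ n * ((n * k z + (z - t) * deriv k z) ^ 2 / (4 * k z)) := by
    have hdg : ∀ᶠ z in 𝓝[UP] (t : ℂ), deriv g z = 2 * (φ z - φ t) * deriv φ z := by
      filter_upwards [eventually_deriv hg, self_mem_nhdsWithin] with z hz hz'
      rw [hz]
      have h3 : HasDerivAt (fun w => (φ w - φ t) ^ 2) ((2 : ℕ) * (φ z - φ t) ^ (2 - 1) * deriv φ z) z :=
        ((phi_diff h hz').hasDerivAt.sub_const (φ t)).pow 2
      rw [h3.deriv]
      norm_num
    filter_upwards [hdg, hg, k3.filter_mono nhdsWithin_le_nhds, hgd.filter_mono nhdsWithin_le_nhds,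
      hkne.filter_mono nhdsWithin_le_nhds, self_mem_nhdsWithin] with z e1 e2 e3 e4 e5 e6
    have hzt : z - t ≠ 0 := by
      intro h0
      have h1 : z = t := sub_eq_zero.1 h0
      have h2 : (0:ℝ) < z.im := e6
      rw [h1, ofReal_im] at h2
      exact lt_irrefl _ h2
    have hpn : (z - t) ^ n ≠ 0 := pow_ne_zero _ hzt
    have h7 : 4 * g z * ((z - t) ^ 2 * (deriv φ z) ^ 2) = ((z - t) * deriv g z) ^ 2 := by
      rw [e1, e2]
      ring
    rw [e4, e3] at h7
    have h8 : 4 * k z ≠ 0 := mul_ne_zero (by norm_num) e5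
    rw [mul_div_assoc', eq_div_iff h8]
    apply mul_left_cancel₀ hpn
    linear_combination h7
  refine (Tendsto.congr' (key.mono fun z hz => hz.symm) ?_)
  have h1 : Tendsto (fun z : ℂ => (z - t) ^ n) (𝓝 (t : ℂ)) (𝓝 0) := by
    have : Continuous fun z : ℂ => (z - t) ^ n := by fun_prop
    have h2 := this.tendsto (t : ℂ)
    simpa [hn0] using h2
  have h2 : ContinuousAt (fun z : ℂ => (n * k z + (z - t) * deriv k z) ^ 2 / (4 * k z)) (t : ℂ) := by
    have c1 := k1.continuousAt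
    have c2 := k1.deriv.continuousAt
    refine ContinuousAt.div ?_ ?_ (mul_ne_zero (by norm_num) k2)
    · exact ((continuousAt_const.mul c1).add ((continuousAt_id.sub continuousAt_const).mul c2)).pow 2
    · exact continuousAt_const.mul c1
  have h3 := h1.mul h2.tendsto
  rw [zero_mul] at h3
  exact h3.mono_left nhdsWithin_le_nhds

end chart

end Pool.Agent.H57.FM
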