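import Pool.Agent.H57.FM.RectA

set_option autoImplicit false
open Set Metric Filter Topology Complex
open scoped Real ComplexConjugate

/-! The Riemann map of a rectangle, II: behaviour at infinity and the constant. -/

namespace Pool.Agent.H57.FM

open Pool.Agent.H19.RH
open Pool.Agent.H69.Car (IsHalf HC HO)

variable {W H : ℝ} {a b : ℂ} {φ : ℂ → ℂ}

lemma ninv_im (z : ℂ) : (-z⁻¹).im = z.im / normSq z := by
  rw [neg_im, inv_im]
  ring

lemma ninv_HC {z : ℂ} (hz : z ∈ HC) : -z⁻¹ ∈ HC := by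
  change 0 ≤ (-z⁻¹).im
  rw [ninv_im]
  exact div_nonneg hz (normSq_nonneg _)

lemma ninv_UP {z : ℂ} (hz : 0 < z.im) : 0 < (-z⁻¹).im := by
  rw [ninv_im]
  refine div_pos hz (normSq_pos.2 ?_)
  rintro rfl
  simp at hz

/-- decay of the derivative at infinity -/
lemma deriv_infty (hW : 0 < W) (hH : 0 < H) (h : IsHalf (Rc W H) a b φ) (hb : ¬ Cor W H b) :
    ∃ M R : ℝ, 0 < R ∧ ∀ z : ℂ, 0 < z.im → R ≤ ‖z‖ → ‖deriv φ z‖ * ‖z‖ ^ 2 ≤ M := by
  -- `b` is a boundary point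
  have hbf : b ∈ frontier (Rc W H) := by
    have h1 : Tendsto (fun x : ℝ => φ x) atTop (𝓝 b) := h.tendsto_atTop
    exact isClosed_frontier.mem_of_tendsto h1 (Eventually.of_forall fun x => phi_real h x)
  obtain ⟨u, hu, hev⟩ := loc_side hW hH hbf hb
  have hu0 : u ≠ 0 := by rcases hu with rfl | rfl <;> simp
  set χ : ℂ → ℂ := fun w => φ (-w⁻¹) with hχ
  set f : ℂ → ℂ := fun w => u * (χ w - b) with hf
  have hlim0 : Tendsto (fun w : ℂ => -w⁻¹) (𝓝[≠] (0:ℂ) ⊓ 𝓟 HC) (Bornology.cobounded ℂ ⊓ 𝓟 HC) := by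
    rw [tendsto_inf]
    refine ⟨?_, ?_⟩
    · refine Tendsto.mono_left ?_ inf_le_left
      have h1 : Tendsto (fun w : ℂ => w⁻¹) (𝓝[≠] (0:ℂ)) (Bornology.cobounded ℂ) :=
        tendsto_inv₀_nhdsNE_zero
      have h2 : Tendsto (fun w : ℂ => -w) (Bornology.cobounded ℂ) (Bornology.cobounded ℂ) := by
        rw [← tendsto_norm_atTop_iff_cobounded]
        simp only [norm_neg]
        exact tendsto_norm_cobounded_atTop
      exact h2.comp h1
    · rw [tendsto_principal]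
      filter_upwards [mem_inf_of_right (mem_principal_self HC)] with w hw
      exact ninv_HC hw
  have hχ0 : Tendsto χ (𝓝[≠] (0:ℂ) ⊓ 𝓟 HC) (𝓝 b) := h.lim.comp hlim0
  have hle : 𝓝[UP] (0:ℂ) ≤ 𝓝[≠] (0:ℂ) ⊓ 𝓟 HC := by
    refine le_inf (nhdsWithin_mono _ ?_) ?_
    · intro w (hw : 0 < w.im) h0
      rw [mem_singleton_iff.1 h0] at hw
      simp at hw
    · rw [nhdsWithin]
      exact inf_le_right.trans (principal_mono.2 fun w (hw : 0 < w.im) => (hw.le : 0 ≤ w.im))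
  -- real values
  have hreal : ∃ r > 0, ∀ s : ℝ, s ≠ 0 → |s| < r → (f s).im = 0 := by
    have h1 : Tendsto (fun s : ℝ => (s : ℂ)) (𝓝[≠] 0) (𝓝[≠] (0:ℂ) ⊓ 𝓟 HC) := by
      rw [tendsto_inf]
      refine ⟨?_, ?_⟩
      · refine tendsto_nhdsWithin_iff.2 ⟨?_, ?_⟩
        · have := (Complex.continuous_ofReal.tendsto (0:ℝ)).mono_left
            (nhdsWithin_le_nhds (s := {(0:ℝ)}ᶜ))
          simpa using this
        · filter_upwards [self_mem_nhdsWithin] with s hs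
          simpa using hs
      · rw [tendsto_principal]
        exact Eventually.of_forall fun s => real_mem_HC' s
    have h2 := (hχ0.comp h1).eventually hev
    rw [eventually_nhdsWithin_iff, Metric.eventually_nhds_iff] at h2
    obtain ⟨r, hr, h2⟩ := h2
    refine ⟨r, hr, fun s hs hs' => ?_⟩
    have h3 := h2 (y := s) (by rw [Real.dist_eq, sub_zero]; exact hs') (by simpa using hs)
    apply h3
    simp only [Function.comp, hχ]
    have : (-((s : ℂ))⁻¹) = ((-s⁻¹ : ℝ) : ℂ) := by push_cast; ring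
    rw [this]
    exact phi_real h _
  obtain ⟨r, hr, hreal⟩ := hreal
  have hRX : RX f 0 := by
    refine rx_of_growth hr ?_ ?_ ?_
    · rintro w ⟨-, hw⟩
      have hw' : 0 < w.im := hw
      have hw0 : w ≠ 0 := by rintro rfl; simp at hw'
      have h1 : DifferentiableAt ℂ χ w :=
        (phi_diff h (ninv_UP hw')).comp w (differentiableAt_inv hw0).neg
      exact ((h1.sub_const b).const_mul u).differentiableWithinAt
    · intro y hy hy0
      refine ⟨(f y).re, ?_⟩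
      have h1 : (f y).im = 0 := by
        apply hreal y hy0
        rw [mem_ball, Complex.dist_eq, ← ofReal_sub, Complex.norm_real, sub_zero] at hy
        exact hy
      have h2 : f y = ((f y).re : ℂ) := Complex.ext (by simp) (by simp [h1])
      rw [← h2]
      have hyc : (y : ℂ) ≠ 0 := by exact_mod_cast hy0
      have h3 : Tendsto (fun w : ℂ => -w⁻¹) (𝓝[UP] (y : ℂ)) (𝓝[HC] (-(y : ℂ)⁻¹)) := by
        refine tendsto_nhdsWithin_iff.2 ⟨?_, ?_⟩
        · exact ((continuousAt_inv₀ hyc).neg.tendsto).mono_left nhdsWithin_le_nhds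
        · filter_upwards [self_mem_nhdsWithin] with w hw
          exact (ninv_UP hw).le
      have h4 : Tendsto χ (𝓝[UP] (y : ℂ)) (𝓝 (χ y)) :=
        (h.cont _ (ninv_HC (real_mem_HC' y))).tendsto.comp h3
      exact (h4.sub_const b).const_mul u
    · have h3 : Tendsto (fun z : ℂ => z - ((0:ℝ) : ℂ)) (𝓝[UP] ((0:ℝ) : ℂ)) (𝓝 0) := by
        have : Tendsto (fun z : ℂ => z - ((0:ℝ) : ℂ)) (𝓝 ((0:ℝ) : ℂ)) (𝓝 (((0:ℝ) : ℂ) - ((0:ℝ) : ℂ))) :=
          (continuous_id.sub continuous_const).tendsto _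
        rw [sub_self] at this
        exact this.mono_left nhdsWithin_le_nhds
      have h4 : Tendsto f (𝓝[UP] ((0:ℝ) : ℂ)) (𝓝 (u * (b - b))) := by
        rw [ofReal_zero]
        exact ((hχ0.mono_left hle).sub_const b).const_mul u
      have := h3.mul h4
      rwa [zero_mul] at this
  obtain ⟨ρ, hρ, g, g1, g2, -⟩ := hRX
  rw [ofReal_zero] at g1 g2
  have hb0 : ball (0:ℂ) ρ ∈ 𝓝 (0:ℂ) := ball_mem_nhds _ hρ
  have hga := (g1.analyticAt hb0).deriv.continuousAt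
  obtain ⟨M, hM⟩ : ∃ M : ℝ, ∀ᶠ w in 𝓝 (0:ℂ), ‖deriv g w‖ ≤ M := by
    refine ⟨‖deriv g 0‖ + 1, ?_⟩
    exact (hga.norm.tendsto.eventually (gt_mem_nhds (lt_add_one _))).mono fun w hw => hw.le
  rw [Metric.eventually_nhds_iff] at hM
  obtain ⟨r1, hr1, hM⟩ := hM
  refine ⟨‖u⁻¹‖ * M, max (2 / ρ) (2 / r1), lt_max_of_lt_left (by positivity), ?_⟩
  intro z hz hzR
  have hz0 : z ≠ 0 := by rintro rfl; simp at hz
  have hzn : 0 < ‖z‖ := norm_pos_iff.2 hz0
  set w := -z⁻¹ with hw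
  have hwim : 0 < w.im := ninv_UP hz
  have hwn : ‖w‖ = ‖z‖⁻¹ := by rw [hw, norm_neg, norm_inv]
  have hwρ : ‖w‖ < ρ := by
    rw [hwn]
    have : 2 / ρ ≤ ‖z‖ := (le_max_left _ _).trans hzR
    rw [inv_lt_comm₀ hzn hρ]
    have : ρ⁻¹ < 2 / ρ := by rw [← one_div]; exact (div_lt_div_iff_of_pos_right hρ).2 (by norm_num)
    linarith
  have hwr : ‖w‖ < r1 := by
    rw [hwn]
    have : 2 / r1 ≤ ‖z‖ := (le_max_right _ _).trans hzR
    rw [inv_lt_comm₀ hzn hr1]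
    have : r1⁻¹ < 2 / r1 := by rw [← one_div]; exact (div_lt_div_iff_of_pos_right hr1).2 (by norm_num)
    linarith
  have hz' : -w⁻¹ = z := by rw [hw]; simp
  -- derivative of `g` at `w`
  have hd1 : HasDerivAt g (u * (deriv φ z * (w ^ 2)⁻¹)) w := by
    have hw0 : w ≠ 0 := by
      intro h0
      rw [h0] at hwim
      simp at hwim
    have h1 : HasDerivAt (fun y : ℂ => -y⁻¹) ((w ^ 2)⁻¹) w := by
      have := (hasDerivAt_inv hw0).neg
      rwa [neg_neg] at this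
    have h2 : HasDerivAt χ (deriv φ z * (w ^ 2)⁻¹) w := by
      have h3 : HasDerivAt φ (deriv φ z) (-w⁻¹) := by
        rw [hz']
        exact (phi_diff h hz).hasDerivAt
      exact h3.comp w h1
    have h4 : HasDerivAt f (u * (deriv φ z * (w ^ 2)⁻¹)) w := (h2.sub_const b).const_mul u
    refine h4.congr_of_eventuallyEq ?_
    filter_upwards [isOpen_UP.mem_nhds hwim, isOpen_ball.mem_nhds (mem_ball_zero_iff.2 hwρ)]
      with y hy hy'
    exact g2 y hy' hy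
  have h5 := hM (y := w) (by rw [dist_zero_right]; exact hwr)
  rw [hd1.deriv, norm_mul, norm_mul, norm_inv, norm_pow, hwn, inv_pow, inv_inv] at h5
  have hu1 : 0 < ‖u‖ := norm_pos_iff.2 hu0
  rw [norm_inv, inv_mul_eq_div, le_div_iff₀ hu1]
  linarith

/-- the product of the four linear factors -/
noncomputable def P4 (x : Fin 4 → ℝ) (z : ℂ) : ℂ :=
  (z - x 0) * ((z - x 1) * ((z - x 2) * (z - x 3)))

lemma P4_cont (x : Fin 4 → ℝ) : Continuous (P4 x) := by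
  unfold P4
  fun_prop

lemma P4_diff (x : Fin 4 → ℝ) : Differentiable ℂ (P4 x) := by
  unfold P4
  fun_prop

lemma P4_real (x : Fin 4 → ℝ) (t : ℝ) : P4 x t =
    (((t - x 0) * ((t - x 1) * ((t - x 2) * (t - x 3))) : ℝ) : ℂ) := by
  unfold P4
  push_cast
  rfl

lemma P4_factor (x : Fin 4 → ℝ) (k : Fin 4) : ∃ Q : ℂ → ℂ, Continuous Q ∧
    ∀ z, P4 x z = (z - x k) * Q z := by
  fin_cases k
  · exact ⟨fun z => (z - x 1) * ((z - x 2) * (z - x 3)), by fun_prop, fun z => rfl⟩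
  · refine ⟨fun z => (z - x 0) * ((z - x 2) * (z - x 3)), by fun_prop, fun z => ?_⟩
    unfold P4; simp only [Fin.mk_one]; ring
  · refine ⟨fun z => (z - x 0) * ((z - x 1) * (z - x 3)), by fun_prop, fun z => ?_⟩
    unfold P4; simp only [Fin.reduceFinMk]; ring
  · refine ⟨fun z => (z - x 0) * ((z - x 1) * (z - x 2)), by fun_prop, fun z => ?_⟩
    unfold P4; simp only [Fin.reduceFinMk]; ring

lemma P4_bound (x : Fin 4 → ℝ) : ∃ K : ℝ, 0 < K ∧ ∀ z : ℂ, 1 ≤ ‖z‖ → ‖P4 x z‖ ≤ K * ‖z‖ ^ 4 := by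
  have key : ∀ k, ∀ z : ℂ, 1 ≤ ‖z‖ → ‖z - x k‖ ≤ (1 + |x k|) * ‖z‖ := by
    intro k z hz
    have h1 := norm_sub_le z (x k : ℂ)
    rw [Complex.norm_real, Real.norm_eq_abs] at h1
    have := abs_nonneg (x k)
    nlinarith
  have hp : ∀ k, 0 < 1 + |x k| := fun k => by positivity
  refine ⟨(1 + |x 0|) * ((1 + |x 1|) * ((1 + |x 2|) * (1 + |x 3|))), by positivity, ?_⟩
  intro z hz
  unfold P4
  rw [norm_mul, norm_mul, norm_mul]
  have hz0 : 0 ≤ ‖z‖ := norm_nonneg _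
  calc ‖z - x 0‖ * (‖z - x 1‖ * (‖z - x 2‖ * ‖z - x 3‖))
      ≤ ((1 + |x 0|) * ‖z‖) * (((1 + |x 1|) * ‖z‖) * (((1 + |x 2|) * ‖z‖) * ((1 + |x 3|) * ‖z‖))) := by
        gcongr <;> exact key _ _ hz
    _ = _ := by ring

/-- the four reals mapped to the corners -/
structure Cn (W H : ℝ) (φ : ℂ → ℂ) (x : Fin 4 → ℝ) : Prop where
  mono : StrictMono x
  e0 : φ (x 0) = 0
  e1 : φ (x 1) = (W : ℂ)
  e2 : φ (x 2) = (W : ℂ) + H * I
  e3 : φ (x 3) = H * I

lemma Cn.cor {x : Fin 4 → ℝ} (hC : Cn W H φ x) (k : Fin 4) : Cor W H (φ (x k)) := by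
  fin_cases k
  · simp only [Fin.zero_eta]; rw [hC.e0]; exact ⟨Or.inl (by simp), Or.inl (by simp)⟩
  · simp only [Fin.mk_one]; rw [hC.e1]; exact ⟨Or.inr (by simp), Or.inl (by simp)⟩
  · simp only [Fin.reduceFinMk]; rw [hC.e2]; exact ⟨Or.inr (by simp), Or.inr (by simp)⟩
  · simp only [Fin.reduceFinMk]; rw [hC.e3]; exact ⟨Or.inl (by simp), Or.inr (by simp)⟩

lemma cor_eq {z : ℂ} (hz : Cor W H z) : z = 0 ∨ z = (W : ℂ) ∨ z = (W : ℂ) + H * I ∨ z = H * I := by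
  obtain ⟨h1 | h1, h2 | h2⟩ := hz
  · left; exact Complex.ext (by simp [h1]) (by simp [h2])
  · right; right; right; exact Complex.ext (by simp [h1]) (by simp [h2])
  · right; left; exact Complex.ext (by simp [h1]) (by simp [h2])
  · right; right; left; exact Complex.ext (by simp [h1]) (by simp [h2])

lemma Cn.of_cor {x : Fin 4 → ℝ} (hC : Cn W H φ x) {z : ℂ} (hz : Cor W H z) : ∃ k, φ (x k) = z := by
  rcases cor_eq hz with h | h | h | h
  · exact ⟨0, by rw [h, hC.e0]⟩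
  · exact ⟨1, by rw [h, hC.e1]⟩
  · exact ⟨2, by rw [h, hC.e2]⟩
  · exact ⟨3, by rw [h, hC.e3]⟩

lemma Cn.not_cor {x : Fin 4 → ℝ} (hC : Cn W H φ x) (h : IsHalf (Rc W H) a b φ) {t : ℝ}
    (ht : ∀ k, t ≠ x k) : ¬ Cor W H (φ t) := by
  intro hn
  obtain ⟨k, hk⟩ := hC.of_cor hn
  exact ht k (h.inj_real hk).symm

/-- **The constant.** -/
theorem schwarz (hW : 0 < W) (hH : 0 < H) (h : IsHalf (Rc W H) a b φ) {x : Fin 4 → ℝ}
    (hC : Cn W H φ x) : ∃ C : ℝ, (∀ z : ℂ, 0 < z.im → (deriv φ z) ^ 2 * P4 x z = C) ∧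
      ∀ t : ℝ, (∀ k, t ≠ x k) → ∃ d : ℂ, HasDerivAt (fun s : ℝ => φ s) d t ∧
        d ^ 2 * P4 x t = C := by
  set G : ℂ → ℂ := fun z => (deriv φ z) ^ 2 * P4 x z with hG
  have hb : ¬ Cor W H b := by
    intro hn
    obtain ⟨k, hk⟩ := hC.of_cor hn
    exact h.notMem ⟨_, real_mem_HC' _, hk⟩
  have hGd : DifferentiableOn ℂ G UP :=
    (h.diff.deriv isOpen_UP).pow 2 |>.mul (P4_diff x).differentiableOn
  have hoff : ∀ t : ℝ, (∀ k, t ≠ x k) → ∃ d : ℂ, HasDerivAt (fun s : ℝ => φ s) d t ∧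
      (d ^ 2).im = 0 ∧ Tendsto G (𝓝[UP] (t : ℂ)) (𝓝 (d ^ 2 * P4 x t)) := by
    intro t ht
    obtain ⟨d, d1, d2, d3⟩ := side_deriv hW hH h t (hC.not_cor h ht)
    exact ⟨d, d1, d2, (d3.pow 2).mul (((P4_cont x).tendsto _).mono_left nhdsWithin_le_nhds)⟩
  have hoff' : ∀ t : ℝ, (∀ k, t ≠ x k) → ∃ v : ℝ, Tendsto G (𝓝[UP] (t : ℂ)) (𝓝 (v : ℂ)) := by
    intro t ht
    obtain ⟨d, d1, d2, d3⟩ := hoff t ht
    refine ⟨(d ^ 2 * P4 x t).re, ?_⟩
    have : (((d ^ 2 * P4 x t).re : ℝ) : ℂ) = d ^ 2 * P4 x t := by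
      apply Complex.ext
      · simp
      · rw [ofReal_im, mul_im, d2, P4_real, ofReal_im]
        ring
    rw [this]
    exact d3
  have hlim : ∀ t : ℝ, ∃ v : ℝ, Tendsto G (𝓝[UP] (t : ℂ)) (𝓝 (v : ℂ)) := by
    intro t
    by_cases ht : ∀ k, t ≠ x k
    · exact hoff' t ht
    push Not at ht
    obtain ⟨k, rfl⟩ := ht
    -- a ball without other marks
    obtain ⟨r, hr, hrk⟩ : ∃ r > 0, ∀ y : ℝ, |y - x k| < r → y ≠ x k → ∀ j, y ≠ x j := by
      have h1 : ∀ᶠ y : ℝ in 𝓝 (x k), ∀ j : Fin 4, j ≠ k → y ≠ x j := by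
        rw [eventually_all]
        intro j
        by_cases hj : j = k
        · exact Eventually.of_forall fun y h => absurd hj h
        · have : x k ≠ x j := fun h => hj (hC.mono.injective h).symm
          exact (isOpen_ne.eventually_mem this).mono fun y hy _ => hy
      rw [Metric.eventually_nhds_iff] at h1
      obtain ⟨r, hr, h1⟩ := h1
      refine ⟨r, hr, fun y hy hyk j => ?_⟩
      by_cases hj : j = k
      · rw [hj]; exact hyk
      · exact h1 (by rw [Real.dist_eq]; exact hy) j hj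
    have hRX : RX G (x k) := by
      refine rx_of_growth hr (hGd.mono inter_subset_right) ?_ ?_
      · intro y hy hyk
        refine hoff' y (hrk y ?_ hyk)
        rw [mem_ball, Complex.dist_eq, ← ofReal_sub, Complex.norm_real] at hy
        exact hy
      · obtain ⟨Q, hQ, hPQ⟩ := P4_factor x k
        have h1 := corner_growth hW hH h (hC.cor k)
        have h2 := h1.mul ((hQ.tendsto (x k : ℂ)).mono_left (nhdsWithin_le_nhds (s := UP)))
        rw [zero_mul] at h2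
        refine h2.congr fun z => ?_
        simp only [hG]
        rw [hPQ]
        ring
    exact hRX.ra.limit
  obtain ⟨M, R, hR, hM⟩ := deriv_infty hW hH h hb
  obtain ⟨K, hK, hK'⟩ := P4_bound x
  obtain ⟨C, hCc⟩ := const_of_limits hGd hlim (C := M ^ 2 * K) (R := max R 1) (by
    intro z hz hzR
    have h1 := hM z hz ((le_max_left _ _).trans hzR)
    have h2 := hK' z ((le_max_right _ _).trans hzR)
    have h3 : 1 ≤ ‖z‖ := (le_max_right _ _).trans hzR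
    simp only [hG]
    rw [norm_mul, norm_pow]
    have h4 : 0 ≤ ‖deriv φ z‖ * ‖z‖ ^ 2 := by positivity
    calc ‖deriv φ z‖ ^ 2 * ‖P4 x z‖ ≤ ‖deriv φ z‖ ^ 2 * (K * ‖z‖ ^ 4) := by gcongr
      _ = (‖deriv φ z‖ * ‖z‖ ^ 2) ^ 2 * K := by ring
      _ ≤ M ^ 2 * K := by gcongr)
  refine ⟨C, hCc, ?_⟩
  intro t ht
  obtain ⟨d, d1, d2, d3⟩ := hoff t ht
  refine ⟨d, d1, ?_⟩
  have hne : (𝓝[UP] (t : ℂ)).NeBot := nhdsUP_neBot (by simp)
  have h1 : Tendsto G (𝓝[UP] (t : ℂ)) (𝓝 (C : ℂ)) := by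
    refine tendsto_const_nhds.congr' ?_
    filter_upwards [self_mem_nhdsWithin] with z hz
    exact (hCc z hz).symm
  exact tendsto_nhds_unique d3 h1

end Pool.Agent.H57.FM
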