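import Pool.Agent.H57.FM.RectB

set_option autoImplicit false
open Set Metric Filter Topology Complex MeasureTheory
open scoped Real ComplexConjugate Interval

/-! The modulus of a rectangle in terms of the complete elliptic integral
`KE m = ∫_0^(π/2) dθ / √(1 - m sin²θ)`. -/

namespace Pool.Agent.H57.FM

open Pool.Agent.H19.RH
open Pool.Agent.H69.Car (IsHalf HC HO)

/-- the complete elliptic integral of the first kind, parameter `m` -/
noncomputable def KE (m : ℝ) : ℝ := ∫ θ in (0:ℝ)..(π / 2), 1 / √(1 - m * Real.sin θ ^ 2)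

lemma den_pos {m : ℝ} (hm : m < 1) (θ : ℝ) : 0 < 1 - m * Real.sin θ ^ 2 := by
  have h1 := Real.sin_sq_le_one θ
  have h2 := sq_nonneg (Real.sin θ)
  rcases le_total m 0 with h | h
  · nlinarith
  · nlinarith

lemma int_cont {m : ℝ} (hm : m < 1) : Continuous fun θ : ℝ => 1 / √(1 - m * Real.sin θ ^ 2) := by
  refine continuous_const.div (by fun_prop) fun θ => ?_
  exact (Real.sqrt_pos.2 (den_pos hm θ)).ne'

lemma KE_pos {m : ℝ} (hm : m < 1) : 0 < KE m := by
  unfold KE
  refine intervalIntegral.intervalIntegral_pos_of_pos_on ((int_cont hm).intervalIntegrable _ _)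
    (fun θ _ => ?_) (by positivity)
  exact one_div_pos.2 (Real.sqrt_pos.2 (den_pos hm θ))

lemma KE_lt {m m' : ℝ} (h : m < m') (hm : m' < 1) : KE m < KE m' := by
  unfold KE
  have hm0 : m < 1 := h.trans hm
  refine intervalIntegral.integral_lt_integral_of_continuousOn_of_le_of_exists_lt (by positivity)
    (int_cont hm0).continuousOn (int_cont hm).continuousOn ?_ ?_
  · intro θ _
    have h1 := sq_nonneg (Real.sin θ)
    refine one_div_le_one_div_of_le (Real.sqrt_pos.2 (den_pos hm θ)) (Real.sqrt_le_sqrt ?_)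
    nlinarith
  · refine ⟨π / 2, ⟨by positivity, le_rfl⟩, ?_⟩
    rw [Real.sin_pi_div_two]
    refine one_div_lt_one_div_of_lt (Real.sqrt_pos.2 (by linarith)) (Real.sqrt_lt_sqrt ?_ ?_)
    · nlinarith
    · nlinarith

/-- the aspect ratio with cross ratio `m` is strictly increasing -/
lemma ratio_strictMono : StrictMonoOn (fun m => KE m / KE (1 - m)) (Ioo 0 1) := by
  intro m hm m' hm' h
  have h1 := KE_lt h hm'.2
  have h2 : KE (1 - m') < KE (1 - m) := KE_lt (by linarith) (by linarith [hm.1])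
  have p1 : 0 < KE m := KE_pos hm.2
  have p2 : 0 < KE (1 - m') := KE_pos (by linarith [hm'.1])
  exact div_lt_div₀ h1 h2.le (p1.trans h1).le p2

/-- length of a path, real form -/
lemma len_aux {q : ℝ → ℝ} {A m : ℝ} (hm : m < 1) (hA : 0 ≤ A)
    (hc : ContinuousOn q (Icc 0 (π / 2))) (hd : ∀ θ ∈ Ioo 0 (π / 2), ∃ d, HasDerivAt q d θ ∧
      d ^ 2 = A / (1 - m * Real.sin θ ^ 2)) : |q (π / 2) - q 0| = √A * KE m := by
  have hpi : (0:ℝ) < π / 2 := by positivity
  rcases eq_or_lt_of_le hA with h0 | h0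
  · subst h0
    have h1 : ∀ θ ∈ Ioo 0 (π / 2), HasDerivAt q 0 θ := by
      intro θ hθ
      obtain ⟨d, d1, d2⟩ := hd θ hθ
      rw [zero_div] at d2
      have : d = 0 := pow_eq_zero_iff two_ne_zero |>.1 d2
      rwa [this] at d1
    obtain ⟨c, -, hc'⟩ := exists_hasDerivAt_eq_slope q (fun _ => 0) hpi hc h1
    have h2 : q (π / 2) - q 0 = 0 := by
      have := hc'.symm
      rw [div_eq_zero_iff] at this
      rcases this with h | h
      · exact h
      · linarith
    rw [h2, Real.sqrt_zero, zero_mul, abs_zero]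
  choose! d d1 d2 using hd
  have hne : ∀ θ ∈ Ioo 0 (π / 2), d θ ≠ 0 := by
    intro θ hθ h
    have h2 := d2 θ hθ
    rw [h] at h2
    have : 0 < A / (1 - m * Real.sin θ ^ 2) := div_pos h0 (den_pos hm θ)
    rw [← h2] at this
    norm_num at this
  have hint : ∀ c : ℝ, IntervalIntegrable (fun θ : ℝ => c * (1 / √(1 - m * Real.sin θ ^ 2)))
      volume 0 (π / 2) := fun c => (continuous_const.mul (int_cont hm)).intervalIntegrable _ _
  have hval : ∀ θ ∈ Ioo 0 (π / 2), |d θ| = √A * (1 / √(1 - m * Real.sin θ ^ 2)) := by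
    intro θ hθ
    rw [← Real.sqrt_sq_eq_abs, d2 θ hθ, Real.sqrt_div' _ (den_pos hm θ).le, mul_one_div]
  rcases hasDerivWithinAt_forall_lt_or_forall_gt_of_forall_ne (convex_Ioo 0 (π / 2))
    (fun θ hθ => (d1 θ hθ).hasDerivWithinAt) hne with hs | hs
  · have h1 : ∀ θ ∈ Ioo 0 (π / 2), HasDerivAt q ((-√A) * (1 / √(1 - m * Real.sin θ ^ 2))) θ := by
      intro θ hθ
      have h2 := hval θ hθ
      rw [abs_of_neg (hs θ hθ)] at h2
      have h3 : d θ = (-√A) * (1 / √(1 - m * Real.sin θ ^ 2)) := by linarith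
      rw [← h3]
      exact d1 θ hθ
    have h4 := intervalIntegral.integral_eq_sub_of_hasDerivAt_of_le hpi.le hc h1 (hint _)
    rw [← h4, intervalIntegral.integral_const_mul]
    change |(-√A) * KE m| = √A * KE m
    rw [abs_mul, abs_neg, abs_of_nonneg (Real.sqrt_nonneg A), abs_of_pos (KE_pos hm)]
  · have h1 : ∀ θ ∈ Ioo 0 (π / 2), HasDerivAt q (√A * (1 / √(1 - m * Real.sin θ ^ 2))) θ := by
      intro θ hθ
      have h2 := hval θ hθ
      rw [abs_of_pos (hs θ hθ)] at h2
      rw [← h2]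
      exact d1 θ hθ
    have h4 := intervalIntegral.integral_eq_sub_of_hasDerivAt_of_le hpi.le hc h1 (hint _)
    rw [← h4, intervalIntegral.integral_const_mul]
    change |√A * KE m| = √A * KE m
    rw [abs_mul, abs_of_nonneg (Real.sqrt_nonneg A), abs_of_pos (KE_pos hm)]

/-- length of a path whose derivative is real (`0 < A`) or imaginary (`A ≤ 0`) -/
lemma len_cx {q : ℝ → ℂ} {A m : ℝ} (hm : m < 1)
    (hc : ContinuousOn q (Icc 0 (π / 2))) (hd : ∀ θ ∈ Ioo 0 (π / 2), ∃ d : ℂ, HasDerivAt q d θ ∧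
      d ^ 2 = ((A / (1 - m * Real.sin θ ^ 2) : ℝ) : ℂ)) :
    (0 < A → |(q (π / 2)).re - (q 0).re| = √A * KE m) ∧
    (A ≤ 0 → (q (π / 2)).re = (q 0).re ∧ |(q (π / 2)).im - (q 0).im| = √(-A) * KE m) := by
  have hpi : (0:ℝ) < π / 2 := by positivity
  have hre : ContinuousOn (fun θ => (q θ).re) (Icc 0 (π / 2)) :=
    Complex.continuous_re.comp_continuousOn hc
  have him : ContinuousOn (fun θ => (q θ).im) (Icc 0 (π / 2)) :=
    Complex.continuous_im.comp_continuousOn hc
  have dre : ∀ {θ : ℝ} {d : ℂ}, HasDerivAt q d θ → HasDerivAt (fun θ => (q θ).re) d.re θ :=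
    fun {θ d} h => Complex.reCLM.hasFDerivAt.comp_hasDerivAt θ h
  have dim : ∀ {θ : ℝ} {d : ℂ}, HasDerivAt q d θ → HasDerivAt (fun θ => (q θ).im) d.im θ :=
    fun {θ d} h => Complex.imCLM.hasFDerivAt.comp_hasDerivAt θ h
  have sqr : ∀ d : ℂ, ∀ v : ℝ, d ^ 2 = (v : ℂ) → d.re * d.im = 0 ∧ d.re ^ 2 - d.im ^ 2 = v := by
    intro d v h
    have h1 := congrArg Complex.re h
    have h2 := congrArg Complex.im h
    rw [sq, mul_re, ofReal_re] at h1
    rw [sq, mul_im, ofReal_im] at h2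
    constructor
    · linarith
    · rw [sq, sq]; exact h1
  refine ⟨fun hA => ?_, fun hA => ?_⟩
  · refine len_aux hm hA.le hre fun θ hθ => ?_
    obtain ⟨d, d1, d2⟩ := hd θ hθ
    obtain ⟨h1, h2⟩ := sqr _ _ d2
    have hpos : 0 < A / (1 - m * Real.sin θ ^ 2) := div_pos hA (den_pos hm θ)
    refine ⟨d.re, dre d1, ?_⟩
    have h3 : d.im = 0 := by
      rcases mul_eq_zero.1 h1 with h | h
      · exfalso
        rw [h] at h2
        have := sq_nonneg d.im
        nlinarith
      · exact h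
    rw [h3] at h2
    linarith
  · have key : ∀ θ ∈ Ioo 0 (π / 2), ∃ d : ℂ, HasDerivAt q d θ ∧ d.re = 0 ∧
        d.im ^ 2 = (-A) / (1 - m * Real.sin θ ^ 2) := by
      intro θ hθ
      obtain ⟨d, d1, d2⟩ := hd θ hθ
      obtain ⟨h1, h2⟩ := sqr _ _ d2
      have hneg : A / (1 - m * Real.sin θ ^ 2) ≤ 0 := div_nonpos_of_nonpos_of_nonneg hA (den_pos hm θ).le
      have h3 : d.re = 0 := by
        rcases mul_eq_zero.1 h1 with h | h
        · exact h
        · rw [h] at h2
          have h4 : d.re ^ 2 ≤ 0 := by linarith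
          exact pow_eq_zero_iff two_ne_zero |>.1 (le_antisymm h4 (sq_nonneg _))
      refine ⟨d, d1, h3, ?_⟩
      rw [h3] at h2
      rw [neg_div]
      linarith
    refine ⟨?_, ?_⟩
    · have h1 : ∀ θ ∈ Ioo 0 (π / 2), HasDerivAt (fun θ => (q θ).re) 0 θ := by
        intro θ hθ
        obtain ⟨d, d1, d2, -⟩ := key θ hθ
        have := dre d1
        rwa [d2] at this
      obtain ⟨c, -, hc'⟩ := exists_hasDerivAt_eq_slope (fun θ => (q θ).re) (fun _ => 0) hpi hre h1
      have := hc'.symm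
      rw [div_eq_zero_iff] at this
      rcases this with h | h
      · linarith
      · linarith
    · refine len_aux hm (by linarith) him fun θ hθ => ?_
      obtain ⟨d, d1, -, d2⟩ := key θ hθ
      exact ⟨d.im, dim d1, d2⟩

/-- the cross ratio -/
noncomputable def cr (x : Fin 4 → ℝ) : ℝ := (x 1 - x 0) * (x 3 - x 2) / ((x 2 - x 0) * (x 3 - x 1))

section cross

variable {x : Fin 4 → ℝ} (hx : StrictMono x)
include hx

lemma lt01 : x 0 < x 1 := hx (by decide)
lemma lt12 : x 1 < x 2 := hx (by decide)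
lemma lt23 : x 2 < x 3 := hx (by decide)

lemma cr_mem : cr x ∈ Ioo (0:ℝ) 1 := by
  have h1 := lt01 hx
  have h2 := lt12 hx
  have h3 := lt23 hx
  have d1 : 0 < x 2 - x 0 := by linarith
  have d2 : 0 < x 3 - x 1 := by linarith
  unfold cr
  constructor
  · exact div_pos (mul_pos (by linarith) (by linarith)) (mul_pos d1 d2)
  · rw [div_lt_one (mul_pos d1 d2)]
    nlinarith [mul_pos (sub_pos.2 h2) (show 0 < x 3 - x 0 by linarith)]

lemma one_sub_cr : 1 - cr x = (x 2 - x 1) * (x 3 - x 0) / ((x 2 - x 0) * (x 3 - x 1)) := by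
  have h1 := lt01 hx
  have h2 := lt12 hx
  have h3 := lt23 hx
  have d1 : x 2 - x 0 ≠ 0 := by intro h; linarith
  have d2 : x 3 - x 1 ≠ 0 := by intro h; linarith
  unfold cr
  field_simp
  ring

end cross

/-- **The modulus of a rectangle.** -/
theorem rect_modulus {W H : ℝ} (hW : 0 < W) (hH : 0 < H) {a b : ℂ} {φ : ℂ → ℂ}
    (h : IsHalf (Rc W H) a b φ) {x : Fin 4 → ℝ} (hC : Cn W H φ x) :
    W / H = KE (cr x) / KE (1 - cr x) := by
  have h01 := lt01 hC.mono
  have h12 := lt12 hC.mono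
  have h23 := lt23 hC.mono
  set a0 := x 0 with ha0
  set a1 := x 1 with ha1
  set a2 := x 2 with ha2
  set a3 := x 3 with ha3
  obtain ⟨C, -, hCd⟩ := schwarz hW hH h hC
  have hm := cr_mem hC.mono
  have hm' := one_sub_cr hC.mono
  have hmdef : cr x = (a1 - a0) * (a3 - a2) / ((a2 - a0) * (a3 - a1)) := rfl
  rw [← ha0, ← ha1, ← ha2, ← ha3] at hm'
  set m := cr x with hmm
  have d20 : 0 < a2 - a0 := by linarith
  have d31 : 0 < a3 - a1 := by linarith
  have d10 : 0 < a1 - a0 := by linarith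
  have d21 : 0 < a2 - a1 := by linarith
  have d32 : 0 < a3 - a2 := by linarith
  have d30 : 0 < a3 - a0 := by linarith
  have hpi : (0:ℝ) < π / 2 := by positivity
  set A : ℝ := -(4 * C / ((a3 - a1) * (a2 - a0))) with hA
  have hsin : ∀ θ ∈ Ioo 0 (π / 2), 0 < Real.sin θ ^ 2 ∧ Real.sin θ ^ 2 < 1 := by
    intro θ hθ
    have h1 : 0 < Real.sin θ := Real.sin_pos_of_pos_of_lt_pi hθ.1 (by linarith [hθ.2])
    have h2 : 0 < Real.cos θ := Real.cos_pos_of_mem_Ioo ⟨by linarith [hθ.1], hθ.2⟩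
    have h3 := Real.sin_sq_add_cos_sq θ
    constructor
    · positivity
    · have : 0 < Real.cos θ ^ 2 := by positivity
      linarith
  have hcos : ∀ θ, Real.cos θ ^ 2 = 1 - Real.sin θ ^ 2 := fun θ => by
    have := Real.sin_sq_add_cos_sq θ
    linarith
  have hsd : ∀ θ, HasDerivAt (fun θ => Real.sin θ ^ 2) (2 * Real.sin θ * Real.cos θ) θ := by
    intro θ
    have := (Real.hasDerivAt_sin θ).fun_pow 2
    simpa [mul_assoc] using this
  have hs01 : ∀ θ : ℝ, 0 ≤ Real.sin θ ^ 2 ∧ Real.sin θ ^ 2 ≤ 1 := fun θ =>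
    ⟨sq_nonneg _, Real.sin_sq_le_one θ⟩
  -- the general step
  have step : ∀ (u : ℝ → ℝ) (B μ : ℝ), Continuous u →
      (∀ θ ∈ Ioo 0 (π / 2), (∀ k, u θ ≠ x k) ∧ ∃ u' : ℝ, HasDerivAt u u' θ ∧
        u' ^ 2 * C = B / (1 - μ * Real.sin θ ^ 2) *
          ((u θ - a0) * ((u θ - a1) * ((u θ - a2) * (u θ - a3))))) →
      ContinuousOn (fun θ => φ (u θ)) (Icc 0 (π / 2)) ∧ ∀ θ ∈ Ioo 0 (π / 2), ∃ d : ℂ,
        HasDerivAt (fun θ => φ (u θ)) d θ ∧ d ^ 2 = ((B / (1 - μ * Real.sin θ ^ 2) : ℝ) : ℂ) := by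
    intro u B μ hu hθ
    refine ⟨(h.cont_real.comp hu).continuousOn, fun θ hθ' => ?_⟩
    obtain ⟨h1, u', h2, h3⟩ := hθ θ hθ'
    obtain ⟨d, d1, d2⟩ := hCd (u θ) h1
    refine ⟨u' • d, d1.scomp θ h2, ?_⟩
    set p : ℝ := (u θ - a0) * ((u θ - a1) * ((u θ - a2) * (u θ - a3))) with hp
    have hp0 : p ≠ 0 := by
      rw [hp]
      exact mul_ne_zero (sub_ne_zero.2 (h1 0)) (mul_ne_zero (sub_ne_zero.2 (h1 1))
        (mul_ne_zero (sub_ne_zero.2 (h1 2)) (sub_ne_zero.2 (h1 3))))
    have hpc : (p : ℂ) ≠ 0 := by exact_mod_cast hp0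
    have h4 : d ^ 2 * (p : ℂ) = C := by
      rw [← d2, P4_real]
    apply mul_right_cancel₀ hpc
    rw [Complex.real_smul, mul_pow, mul_assoc, h4, ← ofReal_mul, ← h3]
    push_cast
    ring
  -- first side
  have hN0 : ∀ θ : ℝ, 0 < (a3 - a1) + Real.sin θ ^ 2 * (a1 - a0) := fun θ => by
    have := hs01 θ
    nlinarith
  set u0 : ℝ → ℝ := fun θ => a3 - (a3 - a0) * (a3 - a1) / ((a3 - a1) + Real.sin θ ^ 2 * (a1 - a0))
    with hu0
  have hu0c : Continuous u0 := by
    refine continuous_const.sub (continuous_const.div (by fun_prop) fun θ => (hN0 θ).ne')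
  obtain ⟨c0, q0⟩ := step u0 A m hu0c (by
    intro θ hθ
    have hs := hsin θ hθ
    set s := Real.sin θ ^ 2 with hsdef
    have hN := hN0 θ
    rw [← hsdef] at hN
    set N := (a3 - a1) + s * (a1 - a0) with hNdef
    have e3 : u0 θ - a3 = -((a3 - a0) * (a3 - a1) / N) := by simp only [hu0]; ring
    have e0 : u0 θ - a0 = s * (a1 - a0) * (a3 - a0) / N := by
      simp only [hu0]
      rw [← hsdef, ← hNdef]
      field_simp
      rw [hNdef]
      ring
    have e1 : u0 θ - a1 = -((1 - s) * (a1 - a0) * (a3 - a1) / N) := by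
      simp only [hu0]
      rw [← hsdef, ← hNdef]
      field_simp
      rw [hNdef]
      ring
    have e2 : u0 θ - a2 = -((a2 - a0) * (a3 - a1) * (1 - m * s) / N) := by
      simp only [hu0]
      rw [← hsdef, ← hNdef, hmdef]
      field_simp
      rw [hNdef]
      ring
    have hms : 0 < 1 - m * s := den_pos hm.2 θ
    have n0 : 0 < u0 θ - a0 := by rw [e0]; exact div_pos (mul_pos (mul_pos hs.1 d10) d30) hN
    have n1 : u0 θ - a1 < 0 := by
      rw [e1, neg_lt_zero]
      exact div_pos (mul_pos (mul_pos (by linarith [hs.2]) d10) d31) hN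
    refine ⟨?_, ?_⟩
    · intro k
      fin_cases k
      · simp only [Fin.zero_eta]; rw [← ha0]; intro h; linarith
      · simp only [Fin.mk_one]; rw [← ha1]; intro h; linarith
      · simp only [Fin.reduceFinMk]; rw [← ha2]; intro h; linarith
      · simp only [Fin.reduceFinMk]; rw [← ha3]; intro h; linarith
    · refine ⟨(a3 - a0) * (a3 - a1) * (a1 - a0) / N ^ 2 * (2 * Real.sin θ * Real.cos θ), ?_, ?_⟩
      · have h1 : HasDerivAt (fun θ => (a3 - a1) + Real.sin θ ^ 2 * (a1 - a0))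
            (2 * Real.sin θ * Real.cos θ * (a1 - a0)) θ := ((hsd θ).mul_const _).const_add _
        have h2 := ((hasDerivAt_const θ ((a3 - a0) * (a3 - a1))).fun_div h1 (hN0 θ).ne').const_sub a3
        refine h2.congr_deriv ?_
        rw [← hsdef, ← hNdef]
        field_simp
        ring
      · rw [e0, e1, e2, e3, hA]
        have hsc : (2 * Real.sin θ * Real.cos θ) ^ 2 = 4 * s * (1 - s) := by
          rw [mul_pow, mul_pow, hcos, ← hsdef]
          ring
        have hms' : 1 - s * m ≠ 0 := by rw [mul_comm s m]; exact hms.ne'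
        rw [mul_pow, hsc]
        field_simp
        )
  -- second side
  have hN1 : ∀ θ : ℝ, 0 < (a2 - a0) - Real.sin θ ^ 2 * (a2 - a1) := fun θ => by
    have := hs01 θ
    nlinarith
  set u1 : ℝ → ℝ := fun θ => a0 + (a1 - a0) * (a2 - a0) / ((a2 - a0) - Real.sin θ ^ 2 * (a2 - a1))
    with hu1
  have hu1c : Continuous u1 := by
    refine continuous_const.add (continuous_const.div (by fun_prop) fun θ => (hN1 θ).ne')
  obtain ⟨c1, q1⟩ := step u1 (-A) (1 - m) hu1c (by
    intro θ hθ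
    have hs := hsin θ hθ
    have hms : 0 < 1 - (1 - m) * Real.sin θ ^ 2 := den_pos (by linarith [hm.1]) θ
    set s := Real.sin θ ^ 2 with hsdef
    have hN := hN1 θ
    rw [← hsdef] at hN
    set N := (a2 - a0) - s * (a2 - a1) with hNdef
    have e0 : u1 θ - a0 = (a1 - a0) * (a2 - a0) / N := by simp only [hu1]; ring
    have e1 : u1 θ - a1 = s * (a2 - a1) * (a1 - a0) / N := by
      simp only [hu1]
      rw [← hsdef, ← hNdef]
      field_simp
      rw [hNdef]
      ring
    have e2 : u1 θ - a2 = -((1 - s) * (a2 - a1) * (a2 - a0) / N) := by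
      simp only [hu1]
      rw [← hsdef, ← hNdef]
      field_simp
      rw [hNdef]
      ring
    have e3 : u1 θ - a3 = -((a2 - a0) * (a3 - a1) * (1 - (1 - m) * s) / N) := by
      simp only [hu1]
      rw [← hsdef, ← hNdef, hm']
      field_simp
      rw [hNdef]
      ring
    have n1 : 0 < u1 θ - a1 := by rw [e1]; exact div_pos (mul_pos (mul_pos hs.1 d21) d10) hN
    have n2 : u1 θ - a2 < 0 := by
      rw [e2, neg_lt_zero]
      exact div_pos (mul_pos (mul_pos (by linarith [hs.2]) d21) d20) hN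
    refine ⟨?_, ?_⟩
    · intro k
      fin_cases k
      · simp only [Fin.zero_eta]; rw [← ha0]; intro h; linarith
      · simp only [Fin.mk_one]; rw [← ha1]; intro h; linarith
      · simp only [Fin.reduceFinMk]; rw [← ha2]; intro h; linarith
      · simp only [Fin.reduceFinMk]; rw [← ha3]; intro h; linarith
    · refine ⟨(a1 - a0) * (a2 - a0) * (a2 - a1) / N ^ 2 * (2 * Real.sin θ * Real.cos θ), ?_, ?_⟩
      · have h1 : HasDerivAt (fun θ => (a2 - a0) - Real.sin θ ^ 2 * (a2 - a1))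
            (-(2 * Real.sin θ * Real.cos θ * (a2 - a1))) θ := ((hsd θ).mul_const _).const_sub _
        have h2 := ((hasDerivAt_const θ ((a1 - a0) * (a2 - a0))).fun_div h1 (hN1 θ).ne').const_add a0
        refine h2.congr_deriv ?_
        rw [← hsdef, ← hNdef]
        field_simp
        ring
      · rw [e0, e1, e2, e3, hA]
        have hsc : (2 * Real.sin θ * Real.cos θ) ^ 2 = 4 * s * (1 - s) := by
          rw [mul_pow, mul_pow, hcos, ← hsdef]
          ring
        have hms' : 1 - s * (1 - m) ≠ 0 := by rw [mul_comm s (1 - m)]; exact hms.ne'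
        rw [mul_pow, hsc]
        field_simp
        )
  -- values at the ends
  have v00 : u0 0 = a0 := by
    simp only [hu0, Real.sin_zero]
    field_simp
    ring
  have v01 : u0 (π / 2) = a1 := by
    simp only [hu0, Real.sin_pi_div_two]
    have : (a3 - a1) + 1 ^ 2 * (a1 - a0) ≠ 0 := by intro h; linarith
    field_simp
    ring
  have v10 : u1 0 = a1 := by
    simp only [hu1, Real.sin_zero]
    have e1 : (a2 - a0) - 0 ^ 2 * (a2 - a1) = a2 - a0 := by ring
    rw [e1, mul_div_assoc, div_self d20.ne']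
    ring
  have v11 : u1 (π / 2) = a2 := by
    simp only [hu1, Real.sin_pi_div_two]
    have e1 : (a2 - a0) - 1 ^ 2 * (a2 - a1) = a1 - a0 := by ring
    rw [e1, mul_comm (a1 - a0), mul_div_assoc, div_self d10.ne']
    ring
  obtain ⟨L1, L2⟩ := len_cx hm.2 c0 q0
  obtain ⟨L3, L4⟩ := len_cx (show 1 - m < 1 by linarith [hm.1]) c1 q1
  simp only [v00, v01, v10, v11] at L1 L2 L3 L4
  have E0 : φ (a0 : ℂ) = 0 := hC.e0
  have E1 : φ (a1 : ℂ) = (W : ℂ) := hC.e1
  have E2 : φ (a2 : ℂ) = (W : ℂ) + H * I := hC.e2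
  rw [E0, E1] at L1 L2
  rw [E1, E2] at L3 L4
  have hApos : 0 < A := by
    by_contra hcon
    have := (L2 (not_lt.1 hcon)).1
    simp at this
    exact hW.ne' this
  have R1 := L1 hApos
  have R2 := (L4 (by linarith)).2
  simp only [ofReal_re, zero_re, sub_zero] at R1
  simp only [add_im, ofReal_im, mul_im, ofReal_re, I_im, mul_one, I_re, mul_zero, add_zero,
    zero_add, sub_zero, neg_neg] at R2
  rw [abs_of_pos hW] at R1
  rw [abs_of_pos hH] at R2
  have hsq : 0 < √A := Real.sqrt_pos.2 hApos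
  rw [R1, R2, mul_div_mul_left _ _ hsq.ne']

end Pool.Agent.H57.FM
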