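import Mathlib
import Pool.Agent.H57.FM.TileCross
import Pool.Agent.H57.FM.Cross

set_option autoImplicit false
open Finset

/-! # Crossing probabilities of the rectangles whose sides are diagonal for `ℤ²`

`D45 a b = {0 < x + y < a, 0 < y - x < b}`. -/

namespace Pool.Agent.H57.FM

open Pool.Agent.H75.Perc hiding WL CT hh
open Pool.Agent.H33.Q1 (lt tt lt_odd tt_lt lt_tt tv)

/-- the rectangle `{0 < x + y < a, 0 < y - x < b}` -/
def D45 (a b : ℝ) : Set ℂ := {z | (0 < z.re + z.im ∧ z.re + z.im < a) ∧ (0 < z.im - z.re ∧ z.im - z.re < b)}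

/-- its side on the line `x + y = c` -/
def S45 (b c : ℝ) : Set ℂ := {z | z.re + z.im = c ∧ 0 ≤ z.im - z.re ∧ z.im - z.re ≤ b}

lemma bdd_D45 (a b : ℝ) : Bornology.IsBounded (D45 a b) := by
  rw [isBounded_iff_forall_norm_le]
  refine ⟨2 * (a + b), ?_⟩
  rintro z ⟨⟨h1, h2⟩, h3, h4⟩
  refine (Complex.norm_le_abs_re_add_abs_im z).trans ?_
  have : |z.re| ≤ a + b := by rw [abs_le]; constructor <;> linarith
  have : |z.im| ≤ a + b := by rw [abs_le]; constructor <;> linarith
  linarith

lemma ps_D45 {a b δ : ℝ} {v : ℤ × ℤ} : ps δ v ∈ D45 a b ↔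
    (0 < δ * ((tv v).1 : ℝ) ∧ δ * ((tv v).1 : ℝ) < a) ∧ (0 < δ * ((tv v).2 : ℝ) ∧ δ * ((tv v).2 : ℝ) < b) := by
  unfold D45
  simp only [Set.mem_ofPred_eq, ps_re, ps_im]
  have e1 : δ * (v.1 : ℝ) + δ * (v.2 : ℝ) = δ * ((tv v).1 : ℝ) := by
    unfold tv; push_cast; ring
  have e2 : δ * (v.2 : ℝ) - δ * (v.1 : ℝ) = δ * ((tv v).2 : ℝ) := by
    unfold tv; push_cast; ring
  rw [e1, e2]

lemma abs_add_le_two (z : ℂ) : |z.re + z.im| ≤ 2 * ‖z‖ := by
  have h1 := Complex.abs_re_le_norm z
  have h2 := Complex.abs_im_le_norm z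
  have := abs_add_le z.re z.im
  linarith

lemma norm_one_add_I_le : ‖(1 : ℂ) + Complex.I‖ ≤ 2 := by
  have := norm_add_le (1 : ℂ) Complex.I
  rw [norm_one, Complex.norm_I] at this
  linarith

/-- **Upper bound** -/
lemma PC_upper {a b δ : ℝ} (hδ : 0 < δ) {M K : ℕ} (hM1 : (M : ℝ) < a / δ + 1)
    (hK : b / δ ≤ K) (hM6 : 6 ≤ M) :
    PC (D45 a b) (S45 b 0) (S45 b a) δ ≤ AR (M - 4) K := by
  have hD := bdd_D45 a b
  have hZ : (((M - 4 : ℕ) : ℤ)) = (M : ℤ) - 4 := by omega
  set T : Finset (ℤ × ℤ) := TR 2 (M - 2) 0 K with hT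
  have h1 : PC (D45 a b) (S45 b 0) (S45 b a) δ ≤ Pr (EL (D45 a b) δ) fun ω => CR ω 2 (M - 2) 0 K := by
    unfold PC
    refine Pr_mono fun ω hω hc => ?_
    obtain ⟨u, v, hu, ⟨p, hp, hup⟩, ⟨q, hq, hvq⟩, hco⟩ := hc
    have hco' : Co ω u v := rtg_mono (fun x y h => h.1) hco
    have hY : ∀ x y, Ad ω x y → 0 ≤ (tv x).2 ∧ (tv x).2 ≤ (K : ℤ) := by
      intro x y hxy
      obtain ⟨x', y', e1, e2, e3, e4⟩ := (mem_EL hD hδ).1 (hω hxy.2)
      have hx : ps δ x ∈ D45 a b := by
        have h5 := unit_cases hxy.1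
        have h6 := unit_cases e1
        have h7 : x = x' ∨ x = y' := by
          rw [Prod.ext_iff] at e4
          simp only [Prod.fst_add, Prod.snd_add] at e4
          rw [Prod.ext_iff, Prod.ext_iff]
          omega
        rcases h7 with rfl | rfl
        · exact e2
        · exact e3
      rw [ps_D45] at hx
      obtain ⟨-, h8, h9⟩ := hx
      have h10 : (0:ℝ) < (tv x).2 := pos_of_mul_pos_right h8 hδ.le
      have h11 : ((tv x).2 : ℝ) < b / δ := by rw [lt_div_iff₀ hδ]; linarith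
      constructor
      · exact_mod_cast h10.le
      · exact_mod_cast (h11.le.trans hK)
    have hu2 : (tv u).1 ≤ 2 := by
      have h5 := abs_add_le_two (ps δ u - p)
      rw [← dist_eq_norm] at h5
      have h6 : (ps δ u - p).re + (ps δ u - p).im = δ * ((tv u).1 : ℝ) := by
        have := hp.1
        rw [Complex.sub_re, Complex.sub_im, ps_re, ps_im]
        unfold tv
        push_cast
        linarith
      rw [h6] at h5
      have h7 : δ * ((tv u).1 : ℝ) ≤ 2 * δ := (le_abs_self _).trans (h5.trans (by linarith))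
      have h8 : ((tv u).1 : ℝ) ≤ 2 := by
        by_contra hcon
        push Not at hcon
        nlinarith
      exact_mod_cast h8
    have hv2 : (M : ℤ) - 2 ≤ (tv v).1 := by
      have h5 := abs_add_le_two (q - ps δ v)
      rw [← dist_eq_norm, dist_comm] at h5
      have h6 : (q - ps δ v).re + (q - ps δ v).im = a - δ * ((tv v).1 : ℝ) := by
        have := hq.1
        rw [Complex.sub_re, Complex.sub_im, ps_re, ps_im]
        unfold tv
        push_cast
        linarith
      rw [h6] at h5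
      have h7 : a - δ * ((tv v).1 : ℝ) ≤ 2 * δ := (le_abs_self _).trans (h5.trans (by linarith))
      have h8 : (M : ℝ) - 3 < ((tv v).1 : ℝ) := by
        have h9 : a / δ - 2 ≤ ((tv v).1 : ℝ) := by
          rw [sub_le_iff_le_add, div_le_iff₀ hδ]
          linarith
        linarith
      have h9 : ((M : ℤ) - 3) < (tv v).1 := by exact_mod_cast h8
      omega
    exact extract (by omega) hY hco' hu2 hv2
  have h2 : Pr (EL (D45 a b) δ) (fun ω => CR ω 2 (M - 2) 0 K) ≤
      Pr (EL (D45 a b) δ ∪ T) (fun ω => CR ω 2 (M - 2) 0 K) :=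
    Pr_inc subset_union_left fun ω ω' h hc => hc.mono_set h
  have h3 : Pr (EL (D45 a b) δ ∪ T) (fun ω => CR ω 2 (M - 2) 0 K) = AR (M - 4) K := by
    rw [Pr_CR subset_union_right]
    have := Pr_CR_shift 2 0 (by norm_num) (M - 4) K
    rw [hZ] at this
    rw [← this]
    have e1 : (2:ℤ) + (M - 4) = M - 2 := by ring
    have e2 : (0:ℤ) + (K : ℤ) = K := by ring
    rw [e1, e2]
  linarith

/-- **Lower bound** -/
lemma PC_lower {a b δ : ℝ} (hδ : 0 < δ) {M K : ℕ} (hM : a / δ ≤ M) (hM1 : (M : ℝ) < a / δ + 1)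
    (hK1 : (K : ℝ) < b / δ + 1) (hM6 : 6 ≤ M) (hK6 : 6 ≤ K) :
    AR (M - 2) (K - 2) ≤ PC (D45 a b) (S45 b 0) (S45 b a) δ := by
  have hD := bdd_D45 a b
  have hZ : (((M - 2 : ℕ) : ℤ)) = (M : ℤ) - 2 := by omega
  have hZ' : (((K - 2 : ℕ) : ℤ)) = (K : ℤ) - 2 := by omega
  have hMR : (6:ℝ) ≤ M := by exact_mod_cast hM6
  have hin : ∀ x : ℤ × ℤ, inT 1 (M - 1) 1 (K - 1) x → ps δ x ∈ D45 a b := by
    intro x hx
    rw [ps_D45]
    unfold inT at hx
    have g1 : (1:ℝ) ≤ (tv x).1 := by exact_mod_cast hx.1.1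
    have g2 : ((tv x).1 : ℝ) ≤ M - 1 := by exact_mod_cast hx.1.2
    have g3 : (1:ℝ) ≤ (tv x).2 := by exact_mod_cast hx.2.1
    have g4 : ((tv x).2 : ℝ) ≤ K - 1 := by exact_mod_cast hx.2.2
    have g5 : ((tv x).1 : ℝ) < a / δ := by linarith
    have g6 : ((tv x).2 : ℝ) < b / δ := by linarith
    rw [lt_div_iff₀ hδ] at g5 g6
    refine ⟨⟨mul_pos hδ (by linarith), by linarith⟩, mul_pos hδ (by linarith), by linarith⟩
  have hsub : TR 1 (M - 1) 1 (K - 1) ⊆ EL (D45 a b) δ := by
    intro e he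
    have he' := mem_TR.1 he
    -- end points of the edge
    have hex : ∃ u v : ℤ × ℤ, IsUnit4 (v - u) ∧ u + v = e := by
      rcases Int.emod_two_eq_zero_or_one e.1 with h5 | h5
      · refine ⟨(e.1 / 2, (e.2 - 1) / 2), (e.1 / 2, (e.2 - 1) / 2 + 1), ?_, ?_⟩
        · unfold IsUnit4
          right; left
          refine Prod.ext ?_ ?_ <;> simp
        · refine Prod.ext ?_ ?_ <;> simp only [Prod.fst_add, Prod.snd_add] <;> omega
      · refine ⟨((e.1 - 1) / 2, e.2 / 2), ((e.1 - 1) / 2 + 1, e.2 / 2), ?_, ?_⟩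
        · unfold IsUnit4
          left
          refine Prod.ext ?_ ?_ <;> simp
        · refine Prod.ext ?_ ?_ <;> simp only [Prod.fst_add, Prod.snd_add] <;> omega
    obtain ⟨u, v, huv, rfl⟩ := hex
    have := (add_mem_TR huv).1 he
    exact (mem_EL hD hδ).2 ⟨u, v, huv, hin u this.1, hin v this.2, rfl⟩
  have h1 : Pr (EL (D45 a b) δ) (fun ω => CR ω 1 (M - 1) 1 (K - 1)) ≤
      PC (D45 a b) (S45 b 0) (S45 b a) δ := by
    unfold PC
    refine Pr_mono fun ω hω hc => ?_
    obtain ⟨u, v, hu, hv, hco⟩ := hc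
    have hne : u ≠ v := by rintro rfl; omega
    have hu' : inT 1 (M - 1) 1 (K - 1) u := by
      rcases Relation.ReflTransGen.cases_head hco with h1 | ⟨c, h1, -⟩
      · exact absurd h1 hne
      · exact ad_inT h1
    have hv' : inT 1 (M - 1) 1 (K - 1) v := by
      rcases Relation.ReflTransGen.cases_tail hco with h1 | ⟨c, -, h1⟩
      · exact absurd h1.symm hne
      · exact ad_inT h1.symm
    refine ⟨u, v, hin u hu', ?_, ?_, ?_⟩
    · have h5 := (ps_D45.1 (hin u hu')).2
      refine ⟨ps δ u - ((δ / 2 : ℝ) : ℂ) * (1 + Complex.I), ⟨?_, ?_⟩, ?_⟩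
      · have : ((tv u).1 : ℝ) = 1 := by exact_mod_cast hu
        unfold tv at this
        push_cast at this
        simp only [Complex.sub_re, Complex.sub_im, Complex.mul_re, Complex.mul_im,
          Complex.ofReal_re, Complex.ofReal_im, Complex.add_re, Complex.add_im, Complex.one_re,
          Complex.one_im, Complex.I_re, Complex.I_im, ps_re, ps_im]
        ring_nf
        linear_combination δ * this
      · have : (ps δ u - ((δ / 2 : ℝ) : ℂ) * (1 + Complex.I)).im -
            (ps δ u - ((δ / 2 : ℝ) : ℂ) * (1 + Complex.I)).re = δ * ((tv u).2 : ℝ) := by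
          unfold tv
          simp only [Complex.sub_re, Complex.sub_im, Complex.mul_re, Complex.mul_im,
            Complex.ofReal_re, Complex.ofReal_im, Complex.add_re, Complex.add_im, Complex.one_re,
            Complex.one_im, Complex.I_re, Complex.I_im, ps_re, ps_im]
          push_cast
          ring
        rw [this]
        exact ⟨h5.1.le, h5.2.le⟩
      · rw [dist_eq_norm, sub_sub_cancel, norm_mul, Complex.norm_real, Real.norm_of_nonneg
          (by positivity)]
        have := norm_one_add_I_le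
        nlinarith
    · have h5 := (ps_D45.1 (hin v hv')).2
      have hvx : ((tv v).1 : ℝ) = M - 1 := by exact_mod_cast hv
      set c : ℝ := (a - δ * ((tv v).1 : ℝ)) / 2 with hc
      have hc0 : 0 ≤ c := by
        have := (ps_D45.1 (hin v hv')).1.2
        rw [hc]
        linarith
      have hc1 : c ≤ δ / 2 := by
        rw [div_le_iff₀ hδ] at hM
        rw [hc, hvx]
        linarith
      refine ⟨ps δ v + (c : ℂ) * (1 + Complex.I), ⟨?_, ?_⟩, ?_⟩
      · unfold tv at hc
        push_cast at hc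
        simp only [Complex.add_re, Complex.add_im, Complex.mul_re, Complex.mul_im,
          Complex.ofReal_re, Complex.ofReal_im, Complex.one_re,
          Complex.one_im, Complex.I_re, Complex.I_im, ps_re, ps_im]
        rw [hc]
        ring
      · have : (ps δ v + (c : ℂ) * (1 + Complex.I)).im -
            (ps δ v + (c : ℂ) * (1 + Complex.I)).re = δ * ((tv v).2 : ℝ) := by
          unfold tv
          simp only [Complex.add_re, Complex.add_im, Complex.mul_re, Complex.mul_im,
            Complex.ofReal_re, Complex.ofReal_im, Complex.one_re,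
            Complex.one_im, Complex.I_re, Complex.I_im, ps_re, ps_im]
          push_cast
          ring
        rw [this]
        exact ⟨h5.1.le, h5.2.le⟩
      · rw [dist_eq_norm, sub_add_cancel_left, norm_neg, norm_mul, Complex.norm_real,
          Real.norm_of_nonneg hc0]
        have := norm_one_add_I_le
        have := norm_nonneg ((1:ℂ) + Complex.I)
        nlinarith
    · have : ∀ w, Co (ω ∩ TR 1 (M - 1) 1 (K - 1)) u w → Relation.ReflTransGen
          (fun x y => Ad ω x y ∧ ps δ y ∈ D45 a b) u w := by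
        intro w hw
        refine rtg_mono (fun x y h => ⟨⟨h.1, (mem_inter.1 h.2).1⟩, hin y (ad_inT (Ad.symm h))⟩) hw
      exact this v hco
  have h2 : Pr (EL (D45 a b) δ) (fun ω => CR ω 1 (M - 1) 1 (K - 1)) = AR (M - 2) (K - 2) := by
    rw [Pr_CR hsub]
    have := Pr_CR_shift 1 1 (by norm_num) (M - 2) (K - 2)
    rw [hZ, hZ'] at this
    rw [← this]
    have e1 : (1:ℤ) + (M - 2) = M - 1 := by ring
    have e2 : (1:ℤ) + (K - 2) = K - 1 := by ring
    rw [e1, e2]
  linarith

end Pool.Agent.H57.FM
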